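import Pool.Agent.Lib.MP_94ab62_ntU.Len

/-!
# ASY: precise asymptotics of the defect at good nodes

`t = tn p`, `a = fa t`, `b = fb t`, `c = fc t = ll p`, `ε = ee p = a + b - c`, `a, b ≥ κ = 20 log R ≥ 2`.  Put `θ = e^(-2κ) = 1/R^40`.
`ep_formula`: `2 sinh(ε/2) · (S + √(S²-1)) · sinh((a+b+c)/2) = 1`, `S = sinh a sinh b`.
* `S = (e^(a+b)/4)(1 - e^(-2a))(1 - e^(-2b))`, so `(e^(a+b)/4)(1 - 2θ) ≤ S ≤ e^(a+b)/4`.
* `2S - 1/S ≤ S + √(S²-1) ≤ 2S` (as `S ≥ 3`: `S² - 1 ≥ (S - 1/S)²`), and `1/S ≤ θ * S` since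
  `S² ≥ (e^(4κ)/16)(1-2θ)² ≥ 1/θ`; so `S + √(S²-1) ≥ (2 - θ) S`.
* `(a+b+c)/2 = c + ε/2`; `sinh(c+ε/2) = (e^(c+ε/2)/2)(1 - e^(-2c-ε))`, `e^(-2c-ε) ≤ θ` as `c ≥ a ≥ κ`.
* so the product of the two factors is between `(1/4) e^(2c + 3ε/2) (1-2θ)(1-θ/2)(1-θ)` and `(1/4) e^(2c+3ε/2)`.
* `ε ≤ 2 sinh(ε/2)`, `2 sinh(ε/2) (1 - ε/2) ≤ ε (1 - ε/4)` (`eps3_sinh_le`), so `2 sinh (ε/2) ≤ ε (1 + ε)`.
* `ε ≤ 8 θ²` (`ee_good_small`), so `e^(3ε/2) ≤ 1 + 2 ε...`.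
Hence `ε e^(2c) / 4 ∈ [1 - 20 θ, 1 + 20 θ]` (very generous).
-/

set_option autoImplicit false

namespace Pool.Agent.Lib.MP_94ab62_ntU

open Pool.Agent.Lib.MP_94ab62_nt

private theorem asy_sinh (a : ℝ) :
    Real.sinh a = Real.exp a / 2 * (1 - Real.exp (-2 * a)) := by
  have h : Real.exp (-a) = Real.exp a * Real.exp (-2 * a) := by
    rw [← Real.exp_add]
    congr 1
    ring
  rw [Real.sinh_eq, h]
  ring

private theorem asy_real {a b c θ : ℝ} (ha : Real.exp (-2 * a) ≤ θ) (hb : Real.exp (-2 * b) ≤ θ)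
    (h0 : 0 < θ) (hθ : θ ≤ 1 / 100) (hac : a ≤ c) (hb0 : 0 ≤ b) (he0 : 0 < a + b - c)
    (heθ : a + b - c ≤ θ)
    (hf : 2 * Real.sinh ((a + b - c) / 2) * ((Real.sinh a * Real.sinh b +
      Real.sqrt ((Real.sinh a * Real.sinh b) ^ 2 - 1)) * Real.sinh ((a + b + c) / 2)) = 1) :
    |(a + b - c) * Real.exp (2 * c) / 4 - 1| ≤ 20 * θ := by
  obtain ⟨p, hp⟩ : ∃ p, p = Real.exp (-2 * a) := ⟨_, rfl⟩
  obtain ⟨q, hq⟩ : ∃ q, q = Real.exp (-2 * b) := ⟨_, rfl⟩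
  obtain ⟨P, hP⟩ : ∃ P, P = Real.exp (a + b) := ⟨_, rfl⟩
  obtain ⟨S, hS⟩ : ∃ S, S = Real.sinh a * Real.sinh b := ⟨_, rfl⟩
  obtain ⟨Q, hQ⟩ : ∃ Q, Q = Real.exp ((a + b + c) / 2) := ⟨_, rfl⟩
  obtain ⟨H, hH⟩ : ∃ H, H = Real.sinh ((a + b + c) / 2) := ⟨_, rfl⟩
  obtain ⟨ε, hε⟩ : ∃ ε, ε = a + b - c := ⟨_, rfl⟩
  obtain ⟨s, hs⟩ : ∃ s, s = 2 * Real.sinh ((a + b - c) / 2) := ⟨_, rfl⟩
  obtain ⟨E, hE⟩ : ∃ E, E = Real.exp (2 * c) := ⟨_, rfl⟩
  obtain ⟨η, hη⟩ : ∃ η, η = Real.exp (3 * (a + b - c) / 2) := ⟨_, rfl⟩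
  have hp0 : 0 < p := hp ▸ Real.exp_pos _
  have hq0 : 0 < q := hq ▸ Real.exp_pos _
  have hP0 : 0 < P := hP ▸ Real.exp_pos _
  have hQ0 : 0 < Q := hQ ▸ Real.exp_pos _
  have hE0 : 0 < E := hE ▸ Real.exp_pos _
  have hη0 : 0 < η := hη ▸ Real.exp_pos _
  rw [← hp] at ha
  rw [← hq] at hb
  have hSe : S = P / 4 * ((1 - p) * (1 - q)) := by
    rw [hS, asy_sinh a, asy_sinh b, hP, Real.exp_add, hp, hq]
    ring
  have hpq : 1 ≤ θ * P := by
    have h1 : p * q * (P * P) = 1 := by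
      rw [hp, hq, hP, ← Real.exp_add, ← Real.exp_add, ← Real.exp_add, ← Real.exp_zero]
      congr 1
      ring
    have h2 : p * q ≤ θ * θ := mul_le_mul ha hb hq0.le h0.le
    have h3 : 1 ≤ (θ * P) ^ 2 := by
      calc (1 : ℝ) = p * q * (P * P) := h1.symm
        _ ≤ θ * θ * (P * P) := mul_le_mul_of_nonneg_right h2 (by positivity)
        _ = (θ * P) ^ 2 := by ring
    by_contra h4
    push Not at h4
    have h5 : (θ * P) ^ 2 < 1 := by
      have h6 : 0 < θ * P := by positivity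
      nlinarith
    linarith
  have hr : 1 - 2 * θ ≤ (1 - p) * (1 - q) := by nlinarith
  have hr' : (1 - p) * (1 - q) ≤ 1 := by nlinarith
  have hSu : S ≤ P / 4 := by
    rw [hSe]
    have h1 : P / 4 * ((1 - p) * (1 - q)) ≤ P / 4 * 1 :=
      mul_le_mul_of_nonneg_left hr' (by positivity)
    linarith
  have hSl : P / 4 * (1 - 2 * θ) ≤ S := by
    rw [hSe]
    exact mul_le_mul_of_nonneg_left hr (by positivity)
  have hP100 : 100 ≤ P := by nlinarith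
  have hS8 : P / 8 ≤ S := by nlinarith
  have hS0 : 0 < S := by linarith
  have hθS : 1 ≤ θ * S ^ 2 := by
    have h1 : 1 / 8 ≤ θ * S := by
      have h2 : θ * (P / 8) ≤ θ * S := mul_le_mul_of_nonneg_left hS8 h0.le
      linarith
    have h2 : 8 ≤ S := by linarith
    calc (1 : ℝ) = 1 / 8 * 8 := by norm_num
      _ ≤ θ * S * S := mul_le_mul h1 h2 (by norm_num) (by positivity)
      _ = θ * S ^ 2 := by ring
  rw [← hS, ← hs, ← hH] at hf
  obtain ⟨W, hW⟩ : ∃ W, W = S + Real.sqrt (S ^ 2 - 1) := ⟨_, rfl⟩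
  rw [← hW] at hf
  have hWu : W ≤ 2 * S := by
    have h1 : Real.sqrt (S ^ 2 - 1) ≤ S := by
      rw [Real.sqrt_le_left hS0.le]
      linarith
    linarith
  have hWl : (2 - θ) * S ≤ W := by
    have h1 : (1 - θ) * S ≤ Real.sqrt (S ^ 2 - 1) := by
      refine Real.le_sqrt_of_sq_le ?_
      have h2 : 0 ≤ θ * S ^ 2 * (1 - θ) := mul_nonneg (by positivity) (by linarith)
      have h3 : ((1 - θ) * S) ^ 2 = S ^ 2 - θ * S ^ 2 - θ * S ^ 2 * (1 - θ) := by ring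
      rw [h3]
      linarith
    linarith
  have hHe : H = Q / 2 * (1 - Real.exp (-2 * ((a + b + c) / 2))) := by
    rw [hH, hQ]
    exact asy_sinh _
  have hm0 : 0 < Real.exp (-2 * ((a + b + c) / 2)) := Real.exp_pos _
  have hm1 : Real.exp (-2 * ((a + b + c) / 2)) ≤ θ := by
    refine le_trans ?_ ha
    rw [hp]
    exact Real.exp_le_exp.2 (by linarith)
  have hHu : H ≤ Q / 2 := by
    rw [hHe]
    have h1 : Q / 2 * (1 - Real.exp (-2 * ((a + b + c) / 2))) ≤ Q / 2 * 1 :=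
      mul_le_mul_of_nonneg_left (by linarith) (by positivity)
    linarith
  have hHl : Q / 2 * (1 - θ) ≤ H := by
    rw [hHe]
    exact mul_le_mul_of_nonneg_left (by linarith) (by positivity)
  have hH0 : 0 < H := lt_of_lt_of_le (mul_pos (by positivity) (by linarith)) hHl
  have hPQ : P * Q = E * η := by
    rw [hP, hQ, hE, hη, ← Real.exp_add, ← Real.exp_add]
    congr 1
    ring
  have hη1 : 1 ≤ η := by
    rw [hη]
    exact Real.one_le_exp (by linarith)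
  have hη2 : η * (1 - 3 * ε / 2) ≤ 1 := by
    have h1 : 1 - 3 * ε / 2 ≤ Real.exp (-(3 * (a + b - c) / 2)) := by
      have h2 := Real.add_one_le_exp (-(3 * (a + b - c) / 2))
      rw [hε]
      linarith
    calc η * (1 - 3 * ε / 2) ≤ η * Real.exp (-(3 * (a + b - c) / 2)) :=
          mul_le_mul_of_nonneg_left h1 hη0.le
      _ = 1 := by rw [hη, ← Real.exp_add, add_neg_cancel, Real.exp_zero]
  rw [← hε] at he0 heθ
  have hs1 : ε ≤ s := by
    have h1 : ε / 2 ≤ Real.sinh (ε / 2) := Real.self_le_sinh_iff.2 (by linarith)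
    rw [hs, ← hε]
    linarith
  have hs2 : s ≤ ε * (1 + ε) := by
    have h1 := eps3_sinh_le (u := ε / 2) (by linarith)
    have h2 : s * (1 - ε / 2) ≤ ε * (1 + ε) * (1 - ε / 2) := by
      have h3 : s = 2 * Real.sinh (ε / 2) := by rw [hs, hε]
      rw [h3]
      have h4 : ε * (1 + ε) * (1 - ε / 2) - 2 * (ε / 2 * (1 - ε / 2 / 2)) =
        ε * ε * (3 / 4 - ε / 2) := by ring
      have h5 : 0 ≤ ε * ε * (3 / 4 - ε / 2) := mul_nonneg (by positivity) (by linarith)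
      linarith
    exact le_of_mul_le_mul_right h2 (by linarith)
  rw [← hε, ← hE]
  have hup : ε * E / 4 * (1 - 4 * θ) ≤ 1 := by
    have h1 : (2 - θ) * (P / 4 * (1 - 2 * θ)) ≤ W :=
      le_trans (mul_le_mul_of_nonneg_left hSl (by linarith)) hWl
    have h2 : (2 - θ) * (P / 4 * (1 - 2 * θ)) * (Q / 2 * (1 - θ)) ≤ W * H :=
      mul_le_mul h1 hHl (mul_nonneg (by positivity) (by linarith))
        (le_trans (mul_nonneg (by linarith) (mul_nonneg (by positivity) (by linarith))) h1)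
    have h3 : E * (1 - 4 * θ) / 4 ≤ (2 - θ) * (P / 4 * (1 - 2 * θ)) * (Q / 2 * (1 - θ)) := by
      have h4 : (2 - θ) * (P / 4 * (1 - 2 * θ)) * (Q / 2 * (1 - θ)) =
        E * η / 4 * ((1 - θ / 2) * (1 - 2 * θ) * (1 - θ)) := by
        rw [← hPQ]
        ring
      have h5 : 1 - 4 * θ ≤ (1 - θ / 2) * (1 - 2 * θ) * (1 - θ) := by nlinarith
      rw [h4]
      calc E * (1 - 4 * θ) / 4 = E / 4 * (1 - 4 * θ) := by ring
        _ ≤ E * η / 4 * ((1 - θ / 2) * (1 - 2 * θ) * (1 - θ)) := by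
          refine mul_le_mul ?_ h5 (by linarith) (by positivity)
          have h6 : E * 1 ≤ E * η := mul_le_mul_of_nonneg_left hη1 hE0.le
          linarith
    have h6 : 0 ≤ E * (1 - 4 * θ) / 4 :=
      div_nonneg (mul_nonneg hE0.le (by linarith)) (by norm_num)
    calc ε * E / 4 * (1 - 4 * θ) = ε * (E * (1 - 4 * θ) / 4) := by ring
      _ ≤ s * (W * H) := mul_le_mul hs1 (h3.trans h2) h6 (he0.le.trans hs1)
      _ = 1 := hf
  have hlo : 1 - 3 * ε / 2 ≤ (1 + ε) * (ε * E / 4) := by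
    have hW0 : 0 ≤ W := le_trans (mul_nonneg (by linarith) hS0.le) hWl
    have h1 : W * H ≤ 2 * (P / 4) * (Q / 2) :=
      mul_le_mul (by linarith) hHu hH0.le (by positivity)
    have h2 : 1 ≤ ε * (1 + ε) * (E * η / 4) := by
      calc (1 : ℝ) = s * (W * H) := hf.symm
        _ ≤ ε * (1 + ε) * (2 * (P / 4) * (Q / 2)) :=
          mul_le_mul hs2 h1 (mul_nonneg hW0 hH0.le) (by positivity)
        _ = ε * (1 + ε) * (P * Q / 4) := by ring
        _ = ε * (1 + ε) * (E * η / 4) := by rw [hPQ]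
    calc 1 - 3 * ε / 2 = 1 * (1 - 3 * ε / 2) := by ring
      _ ≤ ε * (1 + ε) * (E * η / 4) * (1 - 3 * ε / 2) :=
        mul_le_mul_of_nonneg_right h2 (by linarith)
      _ = (1 + ε) * (ε * E / 4) * (η * (1 - 3 * ε / 2)) := by ring
      _ ≤ (1 + ε) * (ε * E / 4) * 1 := mul_le_mul_of_nonneg_left hη2 (by positivity)
      _ = (1 + ε) * (ε * E / 4) := by ring
  obtain ⟨y, hy⟩ : ∃ y, y = ε * E / 4 := ⟨_, rfl⟩
  rw [← hy] at hup hlo ⊢
  have hy0 : 0 < y := by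
    rw [hy]
    positivity
  rw [abs_le]
  constructor
  · by_contra h
    push Not at h
    have h1 : y < 1 - 20 * θ := by linarith
    have h2 : (1 + ε) * y < (1 + ε) * (1 - 20 * θ) := mul_lt_mul_of_pos_left h1 (by linarith)
    have h3 : (1 + ε) * (1 - 20 * θ) ≤ 1 - 3 * ε / 2 := by nlinarith
    linarith
  · by_contra h
    push Not at h
    have h1 : 1 + 20 * θ < y := by linarith
    have h2 : (1 + 20 * θ) * (1 - 4 * θ) < y * (1 - 4 * θ) :=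
      mul_lt_mul_of_pos_right h1 (by linarith)
    have h3 : 1 ≤ (1 + 20 * θ) * (1 - 4 * θ) := by nlinarith
    linarith

private theorem asy_exp {R : ℕ} (hR : 2 ≤ R) {a : ℝ} (h : 20 * Real.log R ≤ a) :
    Real.exp (-2 * a) ≤ 1 / (R : ℝ) ^ 40 := by
  have hR0 : (0 : ℝ) < R := by
    have : 0 < R := by omega
    exact_mod_cast this
  have h1 : (R : ℝ) ^ 40 = Real.exp (40 * Real.log R) := by
    rw [mul_comm, Real.exp_mul, Real.exp_log hR0]
    exact (Real.rpow_natCast (R : ℝ) 40).symm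
  rw [h1, one_div, ← Real.exp_neg]
  exact Real.exp_le_exp.2 (by linarith)

theorem ee_asym {R : ℕ} (hR : 2 ≤ R) {p : List Bool} (h : Gd R p) :
    |ee p * Real.exp (2 * ll p) / 4 - 1| ≤ 20 / (R : ℝ) ^ 40 := by
  have hg := good_tn p
  have hR1 : (1 : ℝ) ≤ R := by
    have : 1 ≤ R := by omega
    exact_mod_cast this
  have hR2 : (2 : ℝ) ≤ R := by exact_mod_cast hR
  have h40 : (2 : ℝ) ^ 40 ≤ (R : ℝ) ^ 40 := pow_le_pow_left₀ (by norm_num) hR2 40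
  have hpos : (0 : ℝ) < (R : ℝ) ^ 40 := lt_of_lt_of_le (by norm_num) h40
  have hθ : 1 / (R : ℝ) ^ 40 ≤ 1 / 100 := by
    refine one_div_le_one_div_of_le (by norm_num) (le_trans ?_ h40)
    norm_num
  have hlog : 0 ≤ Real.log R := Real.log_nonneg hR1
  have hsm : ee p ≤ 1 / (R : ℝ) ^ 40 := by
    refine (ee_good_small (by omega) h).trans ?_
    have h1 : (R : ℝ) ^ 80 = (R : ℝ) ^ 40 * (R : ℝ) ^ 40 := by rw [← pow_add]
    rw [h1, div_le_div_iff₀ (by positivity) hpos]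
    have h2 : (8 : ℝ) ≤ (R : ℝ) ^ 40 := le_trans (by norm_num) h40
    have h3 : 8 * (R : ℝ) ^ 40 ≤ (R : ℝ) ^ 40 * (R : ℝ) ^ 40 :=
      mul_le_mul_of_nonneg_right h2 hpos.le
    linarith
  have h5 : 0 ≤ fb (tn p) := le_trans (by linarith) h.2
  have h6 := asy_real (asy_exp hR h.1) (asy_exp hR h.2) (by positivity) hθ
    (fa_lt_fc hg).le h5 (ep_pos hg) hsm (ep_formula hg)
  rw [mul_one_div] at h6
  exact h6

end Pool.Agent.Lib.MP_94ab62_ntU
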