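import Pool.Agent.Lib.MP_94ab62_ntU.BasisA

/-!
# BASIS B: more on bases, matrices, norms
* `solve_uu`: if `det v (uu p) = 0` then `v = k • uu p` for an integer `k` (`k = det (g1 p) v`... indeed
  `v = det v (g2 p) • g1 p + det (g1 p) v • g2 p`, and `det v (uu p) = det v (g2 p) - det (g1 p) v`, so
  both coefficients are equal).
* `near_uu`: `v ≥ 0`, `v.1 + v.2 < ss p`, `|det v (uu p)| = 1` ⇒ `v = g1 p ∨ v = g2 p`.  With
  `x = det v (g2 p)`, `y = det (g1 p) v`: `v = x g1 + y g2`, `x - y = ± 1`.  If `x - y = 1`: `v = g1 + y • uu p`; `y ≥ 1` is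
  impossible as `v.1 + v.2 < ss p`; `y ≤ -1`: `v = -g2 + (y+1) • uu p` has `v.1 + v.2 < 0`.  So `y = 0`.
* `ind_decomp`: `det v1 v2 • v = det v v2 • v1 + det v1 v • v2`.
* `comp_of_two`: two matrices agreeing on two independent vectors agree (used as: `ap M' (ap M v) = k • v` for `v = v1, v2`
  independent implies it for all `v`).
-/

set_option autoImplicit false

namespace Pool.Agent.Lib.MP_94ab62_ntU

open Pool.Agent.Lib.MP_94ab62_nt

theorem basis_decomp (p : List Bool) (v : ℤ × ℤ) : v = det v (g2 p) • g1 p + det (g1 p) v • g2 p := by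
  have h := det_g p
  unfold det at h ⊢
  refine Prod.ext ?_ ?_
  · simp only [Prod.fst_add, Prod.smul_fst, smul_eq_mul]
    linear_combination (-v.1) * h
  · simp only [Prod.snd_add, Prod.smul_snd, smul_eq_mul]
    linear_combination (-v.2) * h

theorem solve_uu {p : List Bool} {v : ℤ × ℤ} (h : det v (uu p) = 0) : ∃ k : ℤ, v = k • uu p := by
  refine ⟨det (g1 p) v, ?_⟩
  have h1 := basis_decomp p v
  unfold uu at h ⊢
  rw [det_add_right, det_swap v (g1 p)] at h
  have h2 : det v (g2 p) = det (g1 p) v := by linarith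
  rw [h2, ← smul_add] at h1
  exact h1

theorem near_uu {p : List Bool} {v : ℤ × ℤ} (h1 : 0 ≤ v.1) (h2 : 0 ≤ v.2) (h3 : v.1 + v.2 < ss p)
    (h4 : |det v (uu p)| = 1) : v = g1 p ∨ v = g2 p := by
  have h5 := basis_decomp p v
  have h6 : det v (uu p) = det v (g2 p) - det (g1 p) v := by
    unfold uu
    rw [det_add_right, det_swap v (g1 p)]
    ring
  have e1 := m1_eq p
  have e2 := m2_eq p
  have e3 := m1_pos p
  have e4 := m2_pos p
  have e5 : (ss p : ℤ) = m1 p + m2 p := by
    unfold ss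
    push_cast
    rfl
  have h7 : v.1 + v.2 = det v (g2 p) * (m1 p : ℤ) + det (g1 p) v * (m2 p : ℤ) := by
    have h8 : v.1 = det v (g2 p) * (g1 p).1 + det (g1 p) v * (g2 p).1 := by
      have h9 := congrArg Prod.fst h5
      simpa only [Prod.fst_add, Prod.smul_fst, smul_eq_mul] using h9
    have h8' : v.2 = det v (g2 p) * (g1 p).2 + det (g1 p) v * (g2 p).2 := by
      have h9 := congrArg Prod.snd h5
      simpa only [Prod.snd_add, Prod.smul_snd, smul_eq_mul] using h9
    rw [← e1, ← e2]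
    linear_combination h8 + h8'
  have f3 : (1 : ℤ) ≤ m1 p := by exact_mod_cast e3
  have f4 : (1 : ℤ) ≤ m2 p := by exact_mod_cast e4
  have hs : 0 ≤ v.1 + v.2 := add_nonneg h1 h2
  rw [h6] at h4
  generalize det v (g2 p) = x at *
  generalize det (g1 p) v = y at *
  rcases (abs_eq (by norm_num : (0 : ℤ) ≤ 1)).1 h4 with h10 | h10
  · have hx : x = y + 1 := by linarith
    subst hx
    have hy : y = 0 := by
      rcases lt_trichotomy y 0 with h | h | h
      · exfalso
        nlinarith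
      · exact h
      · exfalso
        nlinarith
    subst hy
    left
    rw [h5]
    simp
  · have hx : y = x + 1 := by linarith
    subst hx
    have hy : x = 0 := by
      rcases lt_trichotomy x 0 with h | h | h
      · exfalso
        nlinarith
      · exact h
      · exfalso
        nlinarith
    subst hy
    right
    rw [h5]
    simp

theorem det_uu_cons (b : Bool) (c : List Bool) : |det (uu c) (uu (b :: c))| = 1 := by
  have h := det_g c
  cases b
  · have h1 : uu (false :: c) = uu c + g2 c := rfl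
    rw [h1, det_add_right, det_self, zero_add]
    unfold uu
    rw [det_add_left, det_self, add_zero, h]
    norm_num
  · have h1 : uu (true :: c) = g1 c + uu c := rfl
    rw [h1, det_add_right, det_self, add_zero]
    unfold uu
    rw [det_add_left, det_self, zero_add, det_swap, h]
    norm_num

theorem ind_decomp (v1 v2 v : ℤ × ℤ) : det v1 v2 • v = det v v2 • v1 + det v1 v • v2 := by
  unfold det
  refine Prod.ext ?_ ?_
  · simp only [Prod.fst_add, Prod.smul_fst, smul_eq_mul]
    ring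
  · simp only [Prod.snd_add, Prod.smul_snd, smul_eq_mul]
    ring

theorem three_rel (v1 v2 v3 : ℤ × ℤ) : det v2 v3 • v1 + det v3 v1 • v2 + det v1 v2 • v3 = 0 := by
  unfold det
  refine Prod.ext ?_ ?_
  · simp only [Prod.fst_add, Prod.smul_fst, smul_eq_mul, Prod.fst_zero]
    ring
  · simp only [Prod.snd_add, Prod.smul_snd, smul_eq_mul, Prod.snd_zero]
    ring

theorem ap_add (M : Mt) (v w : ℤ × ℤ) : ap M (v + w) = ap M v + ap M w := by
  unfold ap
  refine Prod.ext ?_ ?_
  · simp only [Prod.fst_add, Prod.snd_add]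
    ring
  · simp only [Prod.fst_add, Prod.snd_add]
    ring

theorem ap_smul (M : Mt) (a : ℤ) (v : ℤ × ℤ) : ap M (a • v) = a • ap M v := by
  unfold ap
  refine Prod.ext ?_ ?_
  · simp only [Prod.smul_fst, Prod.smul_snd, smul_eq_mul]
    ring
  · simp only [Prod.smul_fst, Prod.smul_snd, smul_eq_mul]
    ring

theorem det_ap (M : Mt) (v w : ℤ × ℤ) : det (ap M v) (ap M w) = dM M * det v w := by
  unfold det ap dM
  ring

/-- `ap M' (ap M v) = k • v` for two independent vectors implies it for all vectors -/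
theorem comp_of_two {M M' : Mt} {k : ℤ} {v1 v2 : ℤ × ℤ} (hd : det v1 v2 ≠ 0)
    (h1 : ap M' (ap M v1) = k • v1) (h2 : ap M' (ap M v2) = k • v2) (v : ℤ × ℤ) :
    ap M' (ap M v) = k • v := by
  have hh := ind_decomp v1 v2 v
  have h3 : det v1 v2 • ap M' (ap M v) = det v1 v2 • (k • v) := by
    rw [← ap_smul, ← ap_smul, hh, ap_add, ap_add, ap_smul, ap_smul, ap_smul, ap_smul, h1, h2,
      smul_comm (det v1 v2) k v, hh, smul_add, smul_comm k, smul_comm k (det v1 v) v2]
  refine Prod.ext ?_ ?_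
  · have h4 := congrArg Prod.fst h3
    simp only [Prod.smul_fst, smul_eq_mul] at h4 ⊢
    exact mul_left_cancel₀ hd h4
  · have h4 := congrArg Prod.snd h3
    simp only [Prod.smul_snd, smul_eq_mul] at h4 ⊢
    exact mul_left_cancel₀ hd h4

theorem nm_nonneg (v : ℤ × ℤ) : 0 ≤ nm v := by
  unfold nm
  positivity

theorem nm_ge_one {v : ℤ × ℤ} (h : v ≠ 0) : 1 ≤ nm v := by
  unfold nm
  by_cases h1 : v.1 = 0
  · have h2 : v.2 ≠ 0 := fun h2 => h (Prod.ext h1 h2)
    have h3 : (1 : ℝ) ≤ |(v.2 : ℝ)| := by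
      have h4 := Int.one_le_abs h2
      exact_mod_cast h4
    have h5 : (0 : ℝ) ≤ |(v.1 : ℝ)| := abs_nonneg _
    linarith
  · have h3 : (1 : ℝ) ≤ |(v.1 : ℝ)| := by
      have h4 := Int.one_le_abs h1
      exact_mod_cast h4
    have h5 : (0 : ℝ) ≤ |(v.2 : ℝ)| := abs_nonneg _
    linarith

theorem nm_add (v w : ℤ × ℤ) : nm (v + w) ≤ nm v + nm w := by
  unfold nm
  simp only [Prod.fst_add, Prod.snd_add, Int.cast_add]
  have h1 := abs_add_le (v.1 : ℝ) (w.1 : ℝ)
  have h2 := abs_add_le (v.2 : ℝ) (w.2 : ℝ)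
  linarith

theorem nm_sub (v w : ℤ × ℤ) : nm (v - w) ≤ nm v + nm w := by
  unfold nm
  simp only [Prod.fst_sub, Prod.snd_sub, Int.cast_sub]
  have h1 := abs_sub (v.1 : ℝ) (w.1 : ℝ)
  have h2 := abs_sub (v.2 : ℝ) (w.2 : ℝ)
  linarith

theorem nm_smul (a : ℤ) (v : ℤ × ℤ) : nm (a • v) = |(a : ℝ)| * nm v := by
  unfold nm
  simp only [Prod.smul_fst, Prod.smul_snd, smul_eq_mul, Int.cast_mul, abs_mul]
  ring

theorem det_le (v w : ℤ × ℤ) : |(det v w : ℝ)| ≤ nm v * nm w := by
  unfold nm det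
  push_cast
  have h1 := abs_sub ((v.1 : ℝ) * w.2) ((v.2 : ℝ) * w.1)
  rw [abs_mul, abs_mul] at h1
  refine h1.trans ?_
  have e1 : (0 : ℝ) ≤ |(v.1 : ℝ)| * |(w.1 : ℝ)| := by positivity
  have e2 : (0 : ℝ) ≤ |(v.2 : ℝ)| * |(w.2 : ℝ)| := by positivity
  nlinarith

theorem nm_g1 (p : List Bool) : nm (g1 p) = m1 p := by
  obtain ⟨a1, a2, -, -⟩ := g_nonneg p
  have h := m1_eq p
  unfold nm
  rw [abs_of_nonneg (by exact_mod_cast a1), abs_of_nonneg (by exact_mod_cast a2)]
  exact_mod_cast h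

theorem nm_g2 (p : List Bool) : nm (g2 p) = m2 p := by
  obtain ⟨-, -, a1, a2⟩ := g_nonneg p
  have h := m2_eq p
  unfold nm
  rw [abs_of_nonneg (by exact_mod_cast a1), abs_of_nonneg (by exact_mod_cast a2)]
  exact_mod_cast h

theorem nm_uu (p : List Bool) : nm (uu p) = ss p := by
  obtain ⟨a1, a2⟩ := uu_pos p
  have b1 : 0 ≤ (uu p).1 := by linarith
  have b2 : 0 ≤ (uu p).2 := by linarith
  have h := ss_eq p
  unfold nm
  rw [abs_of_nonneg (by exact_mod_cast b1), abs_of_nonneg (by exact_mod_cast b2)]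
  exact_mod_cast h

end Pool.Agent.Lib.MP_94ab62_ntU
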