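import Pool.Agent.Lib.MP_94ab62_ntU.BasisA
import Pool.Agent.Lib.MP_94ab62_nt.Eps4

/-!
# LEN: lengths and defects along the tree

Here `fa (tn p)`, `fb (tn p)`, `ll p = fc (tn p)` are the lengths of `g1 p`, `g2 p`, `uu p`; `ee p = ep (tn p)` is the defect,
`ll p = fa (tn p) + fb (tn p) - ee p`; `fa (tn (true :: p)) = fa (tn p)`, `fb (tn (true :: p)) = ll p` etc.
(`fa_lc`, `fb_lc`, ... in the imported library are `rfl`).
* `good_tn`: `good_root`, `good_lc`, `good_rc`.
* `ee_cons_le`: `path_epl`, `path_epr`.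
* upper bounds: induction, `fa root = F 1 ≤ 97/100`, `fb root = F 2 ≤ 9/5`, `ll ≤ fa + fb` (`ee_pos`).
* lower bounds: induction on the stronger statement `fa (tn p) - ee p ≥ 9/10 * m1 p ∧ fb (tn p) - ee p ≥ 9/10 * m2 p`
  (root: `F_one`, `F_two`, `ep_small`; step: `ll p - ee (b :: p) = fa + fb - ee p - ee (b :: p) ≥ fa + fb - 2 * ee p`).
  `ll p - ee p`... for `ll_ge` use the statement for `true :: p` (`fb (tn (true :: p)) = ll p`, `m2 (true :: p) = ss p`).
* `ee_ge`: `ep_ge`; `ee_le`: `ep_le`; `ww_le`: `ww p ≤ 8 s e^(-1.8 s) ≤ 8 e^(-s)` since `s ≤ e^(0.8 s)` for `s ≥ 2`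
  (`e^(0.8 s) ≥ 1 + 0.8 s + 0.32 s²`, `Real.quadratic_le_exp_of_nonneg`).
* `ww_cons_le`: `ee (b :: p) ≤ ee p / 4`, `ss (b :: p) ≤ 2 * ss p`.
* `Gd_cons`: `fa`, `fb` increase: `fa_lt_fc`, `fb_lt_fc`.
* `ee_cons_good`: `eps4_left`, `eps4_right`: `sinh (ep (lc t) / 2) ≤ exp (-2 fa + 1/10) sinh (ep t / 2)`;
  `ep (lc t) ≤ 2 sinh (ep (lc t)/2)` (`eps3_two_sinh`), `sinh u * (1-u) ≤ u (1-u/2)` (`eps3_sinh_le`) with `u = ep t / 2 ≤ 1/40`;
  `exp (1/10) ≤ 1.2`; `exp (-2 * fa) ≤ 1/R^40` from `fa ≥ 20 log R` (`Real.exp_log`).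
* `ee_good_small`: `ep_le`.
-/

set_option autoImplicit false

namespace Pool.Agent.Lib.MP_94ab62_ntU

open Pool.Agent.Lib.MP_94ab62_nt

theorem good_tn (p : List Bool) : Good (tn p) := by
  induction p with
  | nil => exact good_root
  | cons b l ih =>
    cases b with
    | true => exact good_lc ih
    | false => exact good_rc ih

theorem ee_pos (p : List Bool) : 0 < ee p := ep_pos (good_tn p)

theorem ee_small (p : List Bool) : ee p ≤ 1 / 20 := ep_small (good_tn p)

theorem ll_eq (p : List Bool) : ll p = fa (tn p) + fb (tn p) - ee p := by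
  unfold ll ee ep
  ring

theorem ee_cons_le (b : Bool) (p : List Bool) : ee (b :: p) ≤ ee p / 4 := by
  cases b with
  | true => exact path_epl (good_tn p)
  | false => exact path_epr (good_tn p)

private theorem len_ss (p : List Bool) : (ss p : ℝ) = (m1 p : ℝ) + (m2 p : ℝ) := by
  unfold ss
  push_cast
  ring

private theorem len_fa_true (p : List Bool) : fa (tn (true :: p)) = fa (tn p) := rfl
private theorem len_fb_true (p : List Bool) : fb (tn (true :: p)) = ll p := rfl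
private theorem len_fa_false (p : List Bool) : fa (tn (false :: p)) = ll p := rfl
private theorem len_fb_false (p : List Bool) : fb (tn (false :: p)) = fb (tn p) := rfl

private theorem len_up (p : List Bool) :
    fa (tn p) ≤ 9 / 5 * m1 p ∧ fb (tn p) ≤ 9 / 5 * m2 p := by
  induction p with
  | nil =>
    have h1 := F_one.2
    have h2 := F_two.2
    have e1 : fa (tn []) = F 1 := rfl
    have e2 : fb (tn []) = F 2 := rfl
    have e3 : (m1 [] : ℝ) = 1 := by
      have : m1 [] = 1 := rfl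
      rw [this]; norm_num
    have e4 : (m2 [] : ℝ) = 1 := by
      have : m2 [] = 1 := rfl
      rw [this]; norm_num
    rw [e1, e2, e3, e4]
    constructor <;> linarith
  | cons b l ih =>
    obtain ⟨i1, i2⟩ := ih
    have hp := ee_pos l
    have hl := ll_eq l
    have hs := len_ss l
    cases b with
    | true =>
      rw [len_fa_true, len_fb_true, m1_true, m2_true]
      refine ⟨i1, ?_⟩
      rw [hs]; linarith
    | false =>
      rw [len_fa_false, len_fb_false, m1_false, m2_false]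
      refine ⟨?_, i2⟩
      rw [hs]; linarith

theorem fa_le (p : List Bool) : fa (tn p) ≤ 9 / 5 * m1 p := (len_up p).1

theorem fb_le (p : List Bool) : fb (tn p) ≤ 9 / 5 * m2 p := (len_up p).2

theorem ll_le (p : List Bool) : ll p ≤ 9 / 5 * ss p := by
  have h1 := fa_le p
  have h2 := fb_le p
  have h3 := ee_pos p
  have h4 := ll_eq p
  rw [len_ss]
  linarith

private theorem len_low (p : List Bool) :
    9 / 10 * (m1 p : ℝ) ≤ fa (tn p) - ee p ∧ 9 / 10 * (m2 p : ℝ) ≤ fb (tn p) - ee p := by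
  induction p with
  | nil =>
    have h1 := F_one.1
    have h2 := F_two.1
    have h3 := ee_small []
    have e1 : fa (tn []) = F 1 := rfl
    have e2 : fb (tn []) = F 2 := rfl
    have e3 : (m1 [] : ℝ) = 1 := by
      have : m1 [] = 1 := rfl
      rw [this]; norm_num
    have e4 : (m2 [] : ℝ) = 1 := by
      have : m2 [] = 1 := rfl
      rw [this]; norm_num
    rw [e1, e2, e3, e4]
    constructor <;> linarith
  | cons b l ih =>
    obtain ⟨i1, i2⟩ := ih
    have hp := ee_pos l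
    have hl := ll_eq l
    have hs := len_ss l
    have hc := ee_cons_le b l
    cases b with
    | true =>
      rw [len_fa_true, len_fb_true, m1_true, m2_true]
      refine ⟨by linarith, ?_⟩
      rw [hs]; linarith
    | false =>
      rw [len_fa_false, len_fb_false, m1_false, m2_false]
      refine ⟨?_, by linarith⟩
      rw [hs]; linarith

theorem fa_ge' (p : List Bool) : 9 / 10 * (m1 p : ℝ) ≤ fa (tn p) := by
  have h1 := (len_low p).1
  have h2 := ee_pos p
  linarith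

theorem fb_ge' (p : List Bool) : 9 / 10 * (m2 p : ℝ) ≤ fb (tn p) := by
  have h1 := (len_low p).2
  have h2 := ee_pos p
  linarith

theorem ll_ge (p : List Bool) : 9 / 10 * (ss p : ℝ) ≤ ll p := by
  have h := fb_ge' (true :: p)
  rw [len_fb_true, m2_true] at h
  exact h

theorem ee_ge (p : List Bool) : Real.exp (-(18 / 5 * (ss p : ℝ))) ≤ ee p := by
  have h1 := fa_le p
  have h2 := fb_le p
  have h3 : Real.exp (-2 * (fa (tn p) + fb (tn p))) ≤ ee p := ep_ge (good_tn p)
  refine le_trans (Real.exp_le_exp.2 ?_) h3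
  rw [len_ss]
  linarith

theorem ee_le (p : List Bool) : ee p ≤ 8 * Real.exp (-(9 / 5 * (ss p : ℝ))) := by
  have h1 := fa_ge' p
  have h2 := fb_ge' p
  have h3 : ee p ≤ 8 * Real.exp (-2 * (fa (tn p) + fb (tn p))) := ep_le (good_tn p)
  refine h3.trans ?_
  have h4 : Real.exp (-2 * (fa (tn p) + fb (tn p))) ≤ Real.exp (-(9 / 5 * (ss p : ℝ))) := by
    refine Real.exp_le_exp.2 ?_
    rw [len_ss]
    linarith
  linarith

/-- `fa + fb ≥ ll` -/
theorem ee_le_ll (p : List Bool) : ee p ≤ 8 * Real.exp (-(2 * ll p)) := by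
  have h1 := ll_eq p
  have h2 := ee_pos p
  have h3 : ee p ≤ 8 * Real.exp (-2 * (fa (tn p) + fb (tn p))) := ep_le (good_tn p)
  refine h3.trans ?_
  have h4 : Real.exp (-2 * (fa (tn p) + fb (tn p))) ≤ Real.exp (-(2 * ll p)) := by
    refine Real.exp_le_exp.2 ?_
    linarith
  linarith

private theorem len_ss_two (p : List Bool) : (2 : ℝ) ≤ (ss p : ℝ) := by
  exact_mod_cast ss_ge p

theorem ww_pos (p : List Bool) : 0 < ww p := by
  have h := len_ss_two p
  exact mul_pos (ee_pos p) (by linarith)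

theorem ww_le (p : List Bool) : ww p ≤ 8 * Real.exp (-(ss p : ℝ)) := by
  have h2 := len_ss_two p
  have h1 := ee_le p
  have h3 : (ss p : ℝ) ≤ Real.exp (4 / 5 * (ss p : ℝ)) := by
    have h4 := Real.quadratic_le_exp_of_nonneg (x := 4 / 5 * (ss p : ℝ)) (by linarith)
    nlinarith [sq_nonneg ((ss p : ℝ) - 1)]
  have h5 : ww p ≤ 8 * Real.exp (-(9 / 5 * (ss p : ℝ))) * Real.exp (4 / 5 * (ss p : ℝ)) := by
    unfold ww
    exact mul_le_mul h1 h3 (by linarith) (by positivity)
  refine h5.trans (le_of_eq ?_)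
  rw [mul_assoc, ← Real.exp_add]
  congr 2
  ring

theorem ww_cons_le (b : Bool) (p : List Bool) : ww (b :: p) ≤ ww p / 2 := by
  have h1 := ee_cons_le b p
  have h2 : (ss (b :: p) : ℝ) ≤ 2 * (ss p : ℝ) := by
    exact_mod_cast (ss_cons_lt_two b p).le
  have h3 := ee_pos p
  have h4 := len_ss_two (b :: p)
  unfold ww
  calc ee (b :: p) * (ss (b :: p) : ℝ) ≤ ee p / 4 * (2 * (ss p : ℝ)) :=
        mul_le_mul h1 h2 (by linarith) (by linarith)
    _ = ee p * (ss p : ℝ) / 2 := by ring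

theorem ww_suffix {c p : List Bool} (h : c <:+ p) : ww p ≤ ww c := by
  obtain ⟨r, rfl⟩ := h
  induction r with
  | nil => exact le_of_eq rfl
  | cons b l ih =>
    have h1 := ww_cons_le b (l ++ c)
    have h2 := ww_pos (l ++ c)
    have h3 : ww ((b :: l) ++ c) = ww (b :: (l ++ c)) := rfl
    rw [h3]
    linarith

theorem Gd_cons {R : ℕ} (b : Bool) {p : List Bool} (h : Gd R p) : Gd R (b :: p) := by
  obtain ⟨h1, h2⟩ := h
  have h3 : fa (tn p) < ll p := fa_lt_fc (good_tn p)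
  have h4 : fb (tn p) < ll p := fb_lt_fc (good_tn p)
  cases b with
  | true =>
    refine ⟨?_, ?_⟩
    · rw [len_fa_true]; exact h1
    · rw [len_fb_true]; linarith
  | false =>
    refine ⟨?_, ?_⟩
    · rw [len_fa_false]; linarith
    · rw [len_fb_false]; exact h2

theorem Gd_suffix {R : ℕ} {c p : List Bool} (h : c <:+ p) (hc : Gd R c) : Gd R p := by
  obtain ⟨r, rfl⟩ := h
  induction r with
  | nil => exact hc
  | cons b l ih => exact Gd_cons b ih

private theorem len_exp_log {R : ℕ} (hR : 1 ≤ R) (n : ℕ) {x : ℝ}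
    (h : (n : ℝ) * Real.log R ≤ x) : Real.exp (-x) ≤ 1 / (R : ℝ) ^ n := by
  have hR0 : (0 : ℝ) < (R : ℝ) := by exact_mod_cast hR
  have h1 : Real.exp ((n : ℝ) * Real.log R) = (R : ℝ) ^ n := by
    rw [Real.exp_nat_mul, Real.exp_log hR0]
  have h2 : (R : ℝ) ^ n ≤ Real.exp x := by
    rw [← h1]
    exact Real.exp_le_exp.2 h
  rw [Real.exp_neg, ← one_div]
  exact one_div_le_one_div_of_le (pow_pos hR0 n) h2

private theorem len_exp_tenth : Real.exp (1 / 10) ≤ 6 / 5 := by
  have h1 := Real.add_one_le_exp (-(1 / 10) : ℝ)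
  have h2 : Real.exp (1 / 10) * Real.exp (-(1 / 10)) = 1 := by
    rw [← Real.exp_add]; simp
  have h3 := Real.exp_pos (1 / 10)
  nlinarith

private theorem len_good_aux {R : ℕ} (hR : 1 ≤ R) {x e e' : ℝ} (he : 0 < e) (hs : e ≤ 1 / 20)
    (hx : 20 * Real.log R ≤ x) (h1 : e' ≤ 2 * Real.sinh (e' / 2))
    (h2 : Real.sinh (e' / 2) ≤ Real.exp (-2 * x + 1 / 10) * Real.sinh (e / 2)) :
    e' ≤ 2 / (R : ℝ) ^ 40 * e := by
  have hR0 : (0 : ℝ) < (R : ℝ) := by exact_mod_cast hR
  have h3 := eps3_sinh_le (u := e / 2) (by linarith)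
  have h4 : Real.sinh (e / 2) ≤ 21 / 40 * e := by
    have h5 : 0 ≤ Real.sinh (e / 2) := Real.sinh_nonneg_iff.2 (by linarith)
    nlinarith
  have h5 : Real.exp (-(2 * x)) ≤ 1 / (R : ℝ) ^ 40 := by
    refine len_exp_log hR 40 ?_
    push_cast
    linarith
  have h6 : Real.exp (-2 * x + 1 / 10) = Real.exp (-(2 * x)) * Real.exp (1 / 10) := by
    rw [← Real.exp_add]; congr 1; ring
  have h7 := len_exp_tenth
  have h8 : Real.exp (-2 * x + 1 / 10) ≤ 6 / 5 * (1 / (R : ℝ) ^ 40) := by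
    rw [h6]
    have h9 := Real.exp_pos (1 / 10)
    have h10 := Real.exp_pos (-(2 * x))
    calc Real.exp (-(2 * x)) * Real.exp (1 / 10) ≤ 1 / (R : ℝ) ^ 40 * (6 / 5) :=
          mul_le_mul h5 h7 h9.le (by positivity)
      _ = 6 / 5 * (1 / (R : ℝ) ^ 40) := by ring
  have h11 : 0 < 1 / (R : ℝ) ^ 40 := by positivity
  have h12 : Real.exp (-2 * x + 1 / 10) * Real.sinh (e / 2) ≤
      6 / 5 * (1 / (R : ℝ) ^ 40) * (21 / 40 * e) := by
    refine mul_le_mul h8 h4 (Real.sinh_nonneg_iff.2 (by linarith)) (by positivity)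
  have h13 : 2 / (R : ℝ) ^ 40 * e = 2 * (1 / (R : ℝ) ^ 40 * e) := by ring
  have h14 : 6 / 5 * (1 / (R : ℝ) ^ 40) * (21 / 40 * e) = 63 / 100 * (1 / (R : ℝ) ^ 40 * e) := by
    ring
  have h15 : 0 < 1 / (R : ℝ) ^ 40 * e := mul_pos h11 he
  rw [h13]
  rw [h14] at h12
  linarith

theorem ee_cons_good {R : ℕ} (hR : 1 ≤ R) {p : List Bool} (h : Gd R p) (b : Bool) :
    ee (b :: p) ≤ 2 / (R : ℝ) ^ 40 * ee p := by
  have hg := good_tn p
  cases b with
  | true =>
    exact len_good_aux hR (ee_pos p) (ee_small p) h.1 (eps3_two_sinh (good_lc hg))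
      (eps4_left hg)
  | false =>
    exact len_good_aux hR (ee_pos p) (ee_small p) h.2 (eps3_two_sinh (good_rc hg))
      (eps4_right hg)

theorem ee_good_small {R : ℕ} (hR : 1 ≤ R) {p : List Bool} (h : Gd R p) :
    ee p ≤ 8 / (R : ℝ) ^ 80 := by
  have h1 : ee p ≤ 8 * Real.exp (-2 * (fa (tn p) + fb (tn p))) := ep_le (good_tn p)
  obtain ⟨h2, h3⟩ := h
  have h4 : Real.exp (-(2 * (fa (tn p) + fb (tn p)))) ≤ 1 / (R : ℝ) ^ 80 := by
    refine len_exp_log hR 80 ?_
    push_cast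
    linarith
  have h5 : -2 * (fa (tn p) + fb (tn p)) = -(2 * (fa (tn p) + fb (tn p))) := by ring
  rw [h5] at h1
  have h6 : 8 / (R : ℝ) ^ 80 = 8 * (1 / (R : ℝ) ^ 80) := by ring
  rw [h6]
  linarith

end Pool.Agent.Lib.MP_94ab62_ntU
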