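import Pool.Agent.Lib.MP_94ab62_ntU.CutU
import Pool.Agent.Lib.MP_94ab62_ntU.BasisB
import Pool.Agent.Lib.MP_94ab62_ntU.Len

/-!
# BAD: few nodes have a bad ancestor in `LF K`

`κ = 20 log R ≥ 13`.  Let `p = cut K q ∈ LF K` (`cut_mem`) be bad: `fa (tn p) < κ` or `fb (tn p) < κ`, so `m1 p ≤ κ / 0.9` or
`m2 p ≤ κ / 0.9` (`fa_ge'`, `fb_ge'`).
* If `m1 p ≤ κ/0.9`: `m2 p = ss p - m1 p ≥ K - κ/0.9 ≥ K/2` (as `K ≥ 3 κ`), so `{q | p <:+ q ∧ ss q ≤ R}.ncard ≤ 2 R² / K`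
  (`cnt`: `ncard * (m1 * m2) ≤ R^2`, `m1 ≥ 1`).  Same if `m2 p ≤ κ/0.9`.
* the number of leaves `p ∈ LF K` with `m1 p ≤ κ/0.9` is at most `(κ/0.9 + 1)² ≤ 2 κ²`: the map `p ↦ g1 p` is injective on
  them with values in `{(x, y) | x, y ≥ 0, x + y ≤ κ/0.9}` (`g_nonneg`, `m1_eq`).  Injective: if `g1 p = g1 p'` then
  `det (g1 p) (g2 p' - g2 p) = 0`, so `g2 p' = g2 p + j • g1 p`, `j ∈ ℤ` (`basis_decomp` for `p` and `v = g2 p'`: the coefficient of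
  `g2 p` is `det (g1 p) (g2 p') = 1`), wlog `j ≥ 0` (exchange `p`, `p'`); the node `List.replicate j.toNat true ++ p` has the basis
  `g1 p, g2 p + j • g1 p`, so it has the same `uu` as `p'`, so it equals `p'` (`uu_inj`), `p <:+ p'`, `p = p'` (`LF_incomp`).
  Same for `m2` with `false`.
* total: at most `2 * 2κ²` bad leaves, each with at most `2R²/K` nodes `q`; `8 κ² R² / K = 3200 (log R)² R² / K`.
-/

set_option autoImplicit false

namespace Pool.Agent.Lib.MP_94ab62_ntU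

open Pool.Agent.Lib.MP_94ab62_nt

private theorem bad_rep1 (p : List Bool) (n : ℕ) :
    g1 (List.replicate n true ++ p) = g1 p ∧
      g2 (List.replicate n true ++ p) = g2 p + (n : ℤ) • g1 p := by
  induction n with
  | zero =>
    refine ⟨rfl, ?_⟩
    rw [Nat.cast_zero, zero_smul, add_zero]
    rfl
  | succ n ih =>
    have h1 : List.replicate (n + 1) true ++ p = true :: (List.replicate n true ++ p) := rfl
    rw [h1, g1_true, g2_true, uu, ih.1, ih.2]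
    refine ⟨rfl, ?_⟩
    push_cast
    rw [add_smul, one_smul]
    abel

private theorem bad_rep2 (p : List Bool) (n : ℕ) :
    g2 (List.replicate n false ++ p) = g2 p ∧
      g1 (List.replicate n false ++ p) = g1 p + (n : ℤ) • g2 p := by
  induction n with
  | zero =>
    refine ⟨rfl, ?_⟩
    rw [Nat.cast_zero, zero_smul, add_zero]
    rfl
  | succ n ih =>
    have h1 : List.replicate (n + 1) false ++ p = false :: (List.replicate n false ++ p) := rfl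
    rw [h1, g1_false, g2_false, uu, ih.1, ih.2]
    refine ⟨rfl, ?_⟩
    push_cast
    rw [add_smul, one_smul]
    abel

private theorem bad_aux1 {p p' : List Bool} (h : g1 p = g1 p') (n : ℕ)
    (hn : g2 p' = g2 p + (n : ℤ) • g1 p) : p <:+ p' := by
  have h1 : uu (List.replicate n true ++ p) = uu p' := by
    rw [uu, (bad_rep1 p n).1, (bad_rep1 p n).2, uu, ← h, hn]
  exact ⟨_, uu_inj h1⟩

private theorem bad_aux2 {p p' : List Bool} (h : g2 p = g2 p') (n : ℕ)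
    (hn : g1 p' = g1 p + (n : ℤ) • g2 p) : p <:+ p' := by
  have h1 : uu (List.replicate n false ++ p) = uu p' := by
    rw [uu, (bad_rep2 p n).1, (bad_rep2 p n).2, uu, ← h, hn]
  exact ⟨_, uu_inj h1⟩

theorem bad_inj1 {K : ℕ} {p p' : List Bool} (hp : p ∈ LF K) (hp' : p' ∈ LF K) (h : g1 p = g1 p') : p = p' := by
  have h1 : det (g1 p) (g2 p') = 1 := by
    rw [h]
    exact det_g p'
  have h2 := basis_decomp p (g2 p')
  rw [h1, one_smul] at h2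
  obtain ⟨n, hn | hn⟩ := Int.eq_nat_or_neg (det (g2 p') (g2 p))
  · rw [hn, add_comm] at h2
    exact LF_incomp hp hp' (bad_aux1 h n h2)
  · rw [hn] at h2
    have h3 : g2 p = g2 p' + (n : ℤ) • g1 p' := by
      rw [h2, ← h, neg_smul]
      abel
    exact (LF_incomp hp' hp (bad_aux1 h.symm n h3)).symm

theorem bad_inj2 {K : ℕ} {p p' : List Bool} (hp : p ∈ LF K) (hp' : p' ∈ LF K) (h : g2 p = g2 p') : p = p' := by
  have h1 : det (g1 p') (g2 p) = 1 := by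
    rw [h]
    exact det_g p'
  have h2 := basis_decomp p (g1 p')
  rw [h1, one_smul] at h2
  obtain ⟨n, hn | hn⟩ := Int.eq_nat_or_neg (det (g1 p) (g1 p'))
  · rw [hn] at h2
    exact LF_incomp hp hp' (bad_aux2 h n h2)
  · rw [hn] at h2
    have h3 : g1 p = g1 p' + (n : ℤ) • g2 p' := by
      rw [h2, ← h, neg_smul]
      abel
    exact (LF_incomp hp' hp (bad_aux2 h.symm n h3)).symm

private theorem bad_box {S : Set (List Bool)} (N : ℕ) (g : List Bool → ℤ × ℤ)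
    (hinj : Set.InjOn g S) (h : ∀ p ∈ S, 0 ≤ (g p).1 ∧ 0 ≤ (g p).2 ∧ (g p).1 + (g p).2 ≤ N) :
    S.ncard ≤ (N + 1) ^ 2 := by
  have h1 : S.ncard ≤ ((Finset.Icc (0 : ℤ) N ×ˢ Finset.Icc (0 : ℤ) N : Finset (ℤ × ℤ)) :
      Set (ℤ × ℤ)).ncard := by
    refine Set.ncard_le_ncard_of_injOn g ?_ hinj (Finset.finite_toSet _)
    intro p hp
    obtain ⟨h2, h3, h4⟩ := h p hp
    rw [Finset.mem_coe, Finset.mem_product, Finset.mem_Icc, Finset.mem_Icc]
    exact ⟨⟨h2, by omega⟩, ⟨h3, by omega⟩⟩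
  rw [Set.ncard_coe_finset, Finset.card_product, Int.card_Icc] at h1
  have h5 : ((N : ℤ) + 1 - 0).toNat = N + 1 := by omega
  rw [h5] at h1
  rw [sq]
  exact h1

private theorem bad_kappa {R : ℕ} (hR : 2 ≤ R) : 13 ≤ 20 * Real.log R := by
  have h1 : Real.log 2 ≤ Real.log R := by
    apply Real.log_le_log (by norm_num)
    exact_mod_cast hR
  have h2 := Real.log_two_gt_d9
  linarith

theorem bad_leaves {R K : ℕ} (hR : 2 ≤ R) :
    ({p : List Bool | p ∈ LF K ∧ ¬ Gd R p}.ncard : ℝ) ≤ 4 * (20 * Real.log R) ^ 2 := by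
  have hk := bad_kappa hR
  obtain ⟨κ, hκ⟩ : ∃ κ : ℝ, κ = 20 * Real.log R := ⟨_, rfl⟩
  obtain ⟨N, hN⟩ : ∃ N : ℕ, N = ⌊κ / (9 / 10)⌋₊ := ⟨_, rfl⟩
  rw [← hκ] at hk ⊢
  have hN0 : 0 ≤ κ / (9 / 10) := by positivity
  have hNle : (N : ℝ) ≤ κ / (9 / 10) := by
    rw [hN]
    exact Nat.floor_le hN0
  have hsub : {p : List Bool | p ∈ LF K ∧ ¬ Gd R p} ⊆
      {p : List Bool | p ∈ LF K ∧ m1 p ≤ N} ∪ {p : List Bool | p ∈ LF K ∧ m2 p ≤ N} := by
    rintro p ⟨hp, hg⟩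
    rw [Gd, ← hκ, not_and_or, not_le, not_le] at hg
    rcases hg with hg | hg
    · refine Or.inl ⟨hp, ?_⟩
      have h1 := fa_ge' p
      rw [hN]
      apply Nat.le_floor
      rw [le_div_iff₀ (by norm_num)]
      linarith
    · refine Or.inr ⟨hp, ?_⟩
      have h1 := fb_ge' p
      rw [hN]
      apply Nat.le_floor
      rw [le_div_iff₀ (by norm_num)]
      linarith
  have hf1 : {p : List Bool | p ∈ LF K ∧ m1 p ≤ N}.Finite := (LF_finite K).subset fun p hp => hp.1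
  have hf2 : {p : List Bool | p ∈ LF K ∧ m2 p ≤ N}.Finite := (LF_finite K).subset fun p hp => hp.1
  have hc1 : {p : List Bool | p ∈ LF K ∧ m1 p ≤ N}.ncard ≤ (N + 1) ^ 2 := by
    refine bad_box N g1 (fun p hp p' hp' h => bad_inj1 hp.1 hp'.1 h) fun p hp => ?_
    obtain ⟨h1, h2, -, -⟩ := g_nonneg p
    refine ⟨h1, h2, ?_⟩
    rw [m1_eq]
    exact_mod_cast hp.2
  have hc2 : {p : List Bool | p ∈ LF K ∧ m2 p ≤ N}.ncard ≤ (N + 1) ^ 2 := by
    refine bad_box N g2 (fun p hp p' hp' h => bad_inj2 hp.1 hp'.1 h) fun p hp => ?_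
    obtain ⟨-, -, h1, h2⟩ := g_nonneg p
    refine ⟨h1, h2, ?_⟩
    rw [m2_eq]
    exact_mod_cast hp.2
  have hc : {p : List Bool | p ∈ LF K ∧ ¬ Gd R p}.ncard ≤ 2 * (N + 1) ^ 2 := by
    refine (Set.ncard_le_ncard hsub (hf1.union hf2)).trans ((Set.ncard_union_le _ _).trans ?_)
    omega
  have h3 : ({p : List Bool | p ∈ LF K ∧ ¬ Gd R p}.ncard : ℝ) ≤ 2 * ((N : ℝ) + 1) ^ 2 := by
    exact_mod_cast hc
  refine h3.trans ?_
  have h4 : (N : ℝ) + 1 ≤ 7 / 5 * κ := by linarith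
  have h5 : ((N : ℝ) + 1) ^ 2 ≤ (7 / 5 * κ) ^ 2 := pow_le_pow_left₀ (by positivity) h4 2
  have h6 : (7 / 5 * κ) ^ 2 = 49 / 25 * κ ^ 2 := by ring
  have h7 : 0 ≤ κ ^ 2 := sq_nonneg κ
  linarith

theorem bad_count {R K : ℕ} (hR : 2 ≤ R) (hK3 : 3 ≤ K) (hK : 60 * Real.log R ≤ K) :
    ({q : List Bool | ss q ≤ R ∧ K ≤ ss q ∧ ¬ Gd R (cut K q)}.ncard : ℝ) * K ≤
      3200 * (Real.log R) ^ 2 * (R : ℝ) ^ 2 := by
  have hK0 : 0 < K := by omega
  have _ := hK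
  have hS : {q : List Bool | ss q ≤ R ∧ K ≤ ss q ∧ ¬ Gd R (cut K q)}.Finite :=
    (fin_ss R).subset fun q hq => hq.1
  have hT : {p : List Bool | p ∈ LF K ∧ ¬ Gd R p}.Finite := (LF_finite K).subset fun p hp => hp.1
  have h1 := fibre_le (cut K) hS hT (fun q hq => ⟨cut_mem hK3 hq.2.1, hq.2.2⟩)
    (B := 2 * R ^ 2 / K) (by
      intro t ht
      rw [Nat.le_div_iff_mul_le hK0]
      refine le_trans (Nat.mul_le_mul_right K ?_) (cnt_LF hK3 R ht.1)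
      refine Set.ncard_le_ncard ?_ ((fin_ss R).subset fun q hq => hq.2)
      rintro q ⟨hq, hqt⟩
      refine ⟨?_, hq.1⟩
      rw [← hqt]
      exact cut_suffix K q)
  have h2 := bad_leaves (K := K) hR
  have h3 : 2 * R ^ 2 / K * K ≤ 2 * R ^ 2 := Nat.div_mul_le_self _ _
  have h4 : ((2 * R ^ 2 / K : ℕ) : ℝ) * K ≤ 2 * (R : ℝ) ^ 2 := by exact_mod_cast h3
  have h5 : ({q : List Bool | ss q ≤ R ∧ K ≤ ss q ∧ ¬ Gd R (cut K q)}.ncard : ℝ) ≤
      ({p : List Bool | p ∈ LF K ∧ ¬ Gd R p}.ncard : ℝ) * ((2 * R ^ 2 / K : ℕ) : ℝ) := by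
    exact_mod_cast h1
  calc ({q : List Bool | ss q ≤ R ∧ K ≤ ss q ∧ ¬ Gd R (cut K q)}.ncard : ℝ) * K
      ≤ ({p : List Bool | p ∈ LF K ∧ ¬ Gd R p}.ncard : ℝ) * ((2 * R ^ 2 / K : ℕ) : ℝ) * K :=
        mul_le_mul_of_nonneg_right h5 (Nat.cast_nonneg K)
    _ = ({p : List Bool | p ∈ LF K ∧ ¬ Gd R p}.ncard : ℝ) * (((2 * R ^ 2 / K : ℕ) : ℝ) * K) := by
        ring
    _ ≤ (4 * (20 * Real.log R) ^ 2) * (2 * (R : ℝ) ^ 2) :=
        mul_le_mul h2 h4 (by positivity) (by positivity)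
    _ = 3200 * (Real.log R) ^ 2 * (R : ℝ) ^ 2 := by ring

end Pool.Agent.Lib.MP_94ab62_ntU
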