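import Pool.Agent.Lib.MP_94ab62_ntU.Defs

/-!
# BASIS A: elementary facts on the bases and the vectors `uu p`

All by induction on the path (`cases b` for the last step).
* `coords`: for `q = r ++ c`: `uu q = x • g1 c + y • g2 c`, `x, y ≥ 1`; if the last step after `c` is `true`
  (`true :: c <:+ q`) then `y < x`, if `false` then `x < y`.  Proof: it is enough to show that for every `c <:+ q` both
  `g1 q`, `g2 q` are nonnegative combinations of `g1 c`, `g2 c` and `uu q` is a positive one (induction on `r`); for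
  `true :: c <:+ q` apply this with `true :: c`: `uu q = x' • g1 c + y' • (g1 c + g2 c)`, so `x = x' + y'`, `y = y'`.
* `ss_coords`: apply `v ↦ v.1 + v.2`.
* `diverge`: for two lists of which none is a suffix of the other take the longest common suffix `c`.
* `uu_inj`: if `uu p = uu q` and `p ≠ q`: if `p <:+ q` (or the other way), `ss p < ss q` contradicts
  `ss p = (uu p).1 + (uu p).2`.  Otherwise they diverge at some `c`, and the coordinates of `uu p` and `uu q` in the basis
  `g1 c`, `g2 c` (unique since `det (g1 c) (g2 c) = 1`) satisfy `y < x` and `x < y`.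
* `par_eq`: `uu p` is primitive with positive entries: `det (g1 p) (uu p) = 1`.  If `det (uu p) (uu q) = 0` then
  `uu p = uu q` (both are primitive positive: `uu p = a • v`... or directly: from
  `(uu p).1 * (uu q).2 = (uu p).2 * (uu q).1` and coprimality `(uu p).1 ∣ (uu q).1 ∣ (uu p).1`), so `p = q`.
-/

set_option autoImplicit false

namespace Pool.Agent.Lib.MP_94ab62_ntU

open Pool.Agent.Lib.MP_94ab62_nt

theorem g1_true (p : List Bool) : g1 (true :: p) = g1 p := rfl
theorem g2_true (p : List Bool) : g2 (true :: p) = uu p := rfl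
theorem g1_false (p : List Bool) : g1 (false :: p) = uu p := rfl
theorem g2_false (p : List Bool) : g2 (false :: p) = g2 p := rfl
theorem m1_true (p : List Bool) : m1 (true :: p) = m1 p := rfl
theorem m2_true (p : List Bool) : m2 (true :: p) = ss p := rfl
theorem m1_false (p : List Bool) : m1 (false :: p) = ss p := rfl
theorem m2_false (p : List Bool) : m2 (false :: p) = m2 p := rfl

theorem det_add_left (v w x : ℤ × ℤ) : det (v + w) x = det v x + det w x := by
  simp only [det, Prod.fst_add, Prod.snd_add]; ring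

theorem det_add_right (v w x : ℤ × ℤ) : det v (w + x) = det v w + det v x := by
  simp only [det, Prod.fst_add, Prod.snd_add]; ring

theorem det_smul_left (a : ℤ) (v w : ℤ × ℤ) : det (a • v) w = a * det v w := by
  simp only [det, Prod.smul_fst, Prod.smul_snd, smul_eq_mul]; ring

theorem det_smul_right (a : ℤ) (v w : ℤ × ℤ) : det v (a • w) = a * det v w := by
  simp only [det, Prod.smul_fst, Prod.smul_snd, smul_eq_mul]; ring

theorem det_self (v : ℤ × ℤ) : det v v = 0 := by
  simp only [det]; ring

theorem det_swap (v w : ℤ × ℤ) : det v w = -det w v := by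
  simp only [det]; ring

theorem det_g (p : List Bool) : det (g1 p) (g2 p) = 1 := by
  induction p with
  | nil => rfl
  | cons b p ih =>
    cases b
    · rw [g1_false, g2_false]
      unfold uu
      rw [det_add_left, ih, det_self, add_zero]
    · rw [g1_true, g2_true]
      unfold uu
      rw [det_add_right, ih, det_self, zero_add]

theorem g_nonneg (p : List Bool) :
    0 ≤ (g1 p).1 ∧ 0 ≤ (g1 p).2 ∧ 0 ≤ (g2 p).1 ∧ 0 ≤ (g2 p).2 := by
  induction p with
  | nil =>
    show (0 : ℤ) ≤ 1 ∧ (0 : ℤ) ≤ 0 ∧ (0 : ℤ) ≤ 0 ∧ (0 : ℤ) ≤ 1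
    decide
  | cons b p ih =>
    obtain ⟨h1, h2, h3, h4⟩ := ih
    cases b
    · rw [g1_false, g2_false]
      simp only [uu, Prod.fst_add, Prod.snd_add]
      exact ⟨add_nonneg h1 h3, add_nonneg h2 h4, h3, h4⟩
    · rw [g1_true, g2_true]
      simp only [uu, Prod.fst_add, Prod.snd_add]
      exact ⟨h1, h2, add_nonneg h1 h3, add_nonneg h2 h4⟩

private theorem basisa_m (p : List Bool) :
    (g1 p).1 + (g1 p).2 = (m1 p : ℤ) ∧ (g2 p).1 + (g2 p).2 = (m2 p : ℤ) := by
  induction p with
  | nil =>
    show (1 : ℤ) + 0 = ((1 : ℕ) : ℤ) ∧ (0 : ℤ) + 1 = ((1 : ℕ) : ℤ)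
    decide
  | cons b p ih =>
    obtain ⟨h1, h2⟩ := ih
    cases b
    · rw [g1_false, g2_false, m1_false, m2_false]
      simp only [uu, ss, Prod.fst_add, Prod.snd_add]
      push_cast
      exact ⟨by linarith, h2⟩
    · rw [g1_true, g2_true, m1_true, m2_true]
      simp only [uu, ss, Prod.fst_add, Prod.snd_add]
      push_cast
      exact ⟨h1, by linarith⟩

theorem m1_eq (p : List Bool) : (g1 p).1 + (g1 p).2 = (m1 p : ℤ) := (basisa_m p).1

theorem m2_eq (p : List Bool) : (g2 p).1 + (g2 p).2 = (m2 p : ℤ) := (basisa_m p).2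

theorem ss_eq (p : List Bool) : (uu p).1 + (uu p).2 = (ss p : ℤ) := by
  have h1 := m1_eq p
  have h2 := m2_eq p
  simp only [uu, ss, Prod.fst_add, Prod.snd_add]
  push_cast
  linarith

private theorem basisa_pos (p : List Bool) : 1 ≤ m1 p ∧ 1 ≤ m2 p := by
  induction p with
  | nil => exact ⟨le_refl _, le_refl _⟩
  | cons b p ih =>
    obtain ⟨h1, h2⟩ := ih
    cases b
    · rw [m1_false, m2_false]
      unfold ss
      omega
    · rw [m1_true, m2_true]
      unfold ss
      omega

theorem m1_pos (p : List Bool) : 1 ≤ m1 p := (basisa_pos p).1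

theorem m2_pos (p : List Bool) : 1 ≤ m2 p := (basisa_pos p).2

theorem ss_ge (p : List Bool) : 2 ≤ ss p := by
  have h1 := m1_pos p
  have h2 := m2_pos p
  unfold ss
  omega

theorem uu_pos (p : List Bool) : 1 ≤ (uu p).1 ∧ 1 ≤ (uu p).2 := by
  induction p with
  | nil =>
    show (1 : ℤ) ≤ 1 + 0 ∧ (1 : ℤ) ≤ 0 + 1
    decide
  | cons b p ih =>
    obtain ⟨h1, h2, h3, h4⟩ := g_nonneg p
    obtain ⟨h5, h6⟩ := ih
    cases b
    · show 1 ≤ (g1 (false :: p) + g2 (false :: p)).1 ∧ 1 ≤ (g1 (false :: p) + g2 (false :: p)).2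
      rw [g1_false, g2_false, Prod.fst_add, Prod.snd_add]
      exact ⟨by linarith, by linarith⟩
    · show 1 ≤ (g1 (true :: p) + g2 (true :: p)).1 ∧ 1 ≤ (g1 (true :: p) + g2 (true :: p)).2
      rw [g1_true, g2_true, Prod.fst_add, Prod.snd_add]
      exact ⟨by linarith, by linarith⟩

theorem ss_cons_lt (b : Bool) (p : List Bool) : ss p < ss (b :: p) := by
  have h1 := m1_pos p
  have h2 := m2_pos p
  cases b
  · show ss p < m1 (false :: p) + m2 (false :: p)
    rw [m1_false, m2_false]
    omega
  · show ss p < m1 (true :: p) + m2 (true :: p)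
    rw [m1_true, m2_true]
    omega

theorem ss_cons_lt_two (b : Bool) (p : List Bool) : ss (b :: p) < 2 * ss p := by
  have h1 := m1_pos p
  have h2 := m2_pos p
  have h3 : ss p = m1 p + m2 p := rfl
  cases b
  · show m1 (false :: p) + m2 (false :: p) < 2 * ss p
    rw [m1_false, m2_false]
    omega
  · show m1 (true :: p) + m2 (true :: p) < 2 * ss p
    rw [m1_true, m2_true]
    omega

theorem ss_suffix {c p : List Bool} (h : c <:+ p) : ss c ≤ ss p := by
  obtain ⟨r, rfl⟩ := h
  induction r with
  | nil => exact le_refl _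
  | cons b r ih =>
    rw [List.cons_append]
    exact ih.trans (ss_cons_lt b _).le

theorem ss_suffix_lt {c p : List Bool} (h : c <:+ p) (hne : c ≠ p) : ss c < ss p := by
  obtain ⟨r, rfl⟩ := h
  cases r with
  | nil => exact absurd rfl hne
  | cons b r =>
    rw [List.cons_append]
    exact (ss_suffix ⟨r, rfl⟩).trans_lt (ss_cons_lt b _)

theorem ss_len (p : List Bool) : p.length + 2 ≤ ss p := by
  induction p with
  | nil => exact ss_ge []
  | cons b p ih =>
    have := ss_cons_lt b p
    rw [List.length_cons]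
    omega

private theorem basisa_comb (r c : List Bool) :
    ∃ a b a' b' : ℕ, 1 ≤ a + a' ∧ 1 ≤ b + b' ∧
      g1 (r ++ c) = (a : ℤ) • g1 c + (b : ℤ) • g2 c ∧
      g2 (r ++ c) = (a' : ℤ) • g1 c + (b' : ℤ) • g2 c ∧
      m1 (r ++ c) = a * m1 c + b * m2 c ∧ m2 (r ++ c) = a' * m1 c + b' * m2 c := by
  induction r with
  | nil =>
    refine ⟨1, 0, 0, 1, le_refl _, le_refl _, ?_, ?_, ?_, ?_⟩
    · rw [List.nil_append]
      simp
    · rw [List.nil_append]
      simp
    · rw [List.nil_append]
      ring
    · rw [List.nil_append]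
      ring
  | cons x r ih =>
    obtain ⟨a, b, a', b', h1, h2, h3, h4, h5, h6⟩ := ih
    rw [List.cons_append]
    cases x
    · refine ⟨a + a', b + b', a', b', by omega, by omega, ?_, ?_, ?_, ?_⟩
      · rw [g1_false, uu, h3, h4]
        push_cast
        rw [add_smul, add_smul]
        abel
      · rw [g2_false, h4]
      · rw [m1_false, ss, h5, h6]
        ring
      · rw [m2_false, h6]
    · refine ⟨a, b, a + a', b + b', by omega, by omega, ?_, ?_, ?_, ?_⟩
      · rw [g1_true, h3]
      · rw [g2_true, uu, h3, h4]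
        push_cast
        rw [add_smul, add_smul]
        abel
      · rw [m1_true, h5]
      · rw [m2_true, ss, h5, h6]
        ring

theorem coords {c q : List Bool} (h : c <:+ q) :
    ∃ x y : ℕ, 1 ≤ x ∧ 1 ≤ y ∧ uu q = (x : ℤ) • g1 c + (y : ℤ) • g2 c ∧ ss q = x * m1 c + y * m2 c := by
  obtain ⟨r, rfl⟩ := h
  obtain ⟨a, b, a', b', h1, h2, h3, h4, h5, h6⟩ := basisa_comb r c
  refine ⟨a + a', b + b', h1, h2, ?_, ?_⟩
  · rw [uu, h3, h4]
    push_cast
    rw [add_smul, add_smul]
    abel
  · rw [ss, h5, h6]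
    ring

theorem coords_true {c q : List Bool} (h : (true :: c) <:+ q) :
    ∃ x y : ℕ, 1 ≤ y ∧ y < x ∧ uu q = (x : ℤ) • g1 c + (y : ℤ) • g2 c := by
  obtain ⟨x, y, h1, h2, h3, _⟩ := coords h
  refine ⟨x + y, y, h2, by omega, ?_⟩
  rw [h3, g1_true, g2_true, uu]
  push_cast
  rw [add_smul, smul_add]
  abel

theorem coords_false {c q : List Bool} (h : (false :: c) <:+ q) :
    ∃ x y : ℕ, 1 ≤ x ∧ x < y ∧ uu q = (x : ℤ) • g1 c + (y : ℤ) • g2 c := by
  obtain ⟨x, y, h1, h2, h3, _⟩ := coords h
  refine ⟨x, x + y, h1, by omega, ?_⟩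
  rw [h3, g1_false, g2_false, uu]
  push_cast
  rw [add_smul, smul_add]
  abel

private theorem basisa_div (P Q : List Bool) (h1 : ¬ P <+: Q) (h2 : ¬ Q <+: P) :
    ∃ (C : List Bool) (b : Bool), (C ++ [b]) <+: P ∧ (C ++ [!b]) <+: Q := by
  induction P generalizing Q with
  | nil => exact absurd (List.nil_prefix) h1
  | cons x P ih =>
    cases Q with
    | nil => exact absurd (List.nil_prefix) h2
    | cons y Q =>
      by_cases hxy : x = y
      · subst hxy
        have h1' : ¬ P <+: Q := fun h => h1 ((List.prefix_cons_inj x).2 h)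
        have h2' : ¬ Q <+: P := fun h => h2 ((List.prefix_cons_inj x).2 h)
        obtain ⟨C, b, h3, h4⟩ := ih Q h1' h2'
        refine ⟨x :: C, b, ?_, ?_⟩
        · rw [List.cons_append]
          exact (List.prefix_cons_inj x).2 h3
        · rw [List.cons_append]
          exact (List.prefix_cons_inj x).2 h4
      · refine ⟨[], x, ⟨P, rfl⟩, ?_⟩
        have : y = !x := by
          cases x <;> cases y <;> simp_all
        subst this
        exact ⟨Q, rfl⟩

/-- two lists of which none is a suffix of the other diverge -/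
theorem diverge {p q : List Bool} (h1 : ¬ p <:+ q) (h2 : ¬ q <:+ p) :
    ∃ (c : List Bool) (b : Bool), (b :: c) <:+ p ∧ ((!b) :: c) <:+ q := by
  obtain ⟨C, b, h3, h4⟩ := basisa_div p.reverse q.reverse
    (fun h => h1 (List.reverse_prefix.1 h)) (fun h => h2 (List.reverse_prefix.1 h))
  refine ⟨C.reverse, b, ?_, ?_⟩
  · rw [← List.reverse_prefix, List.reverse_cons, List.reverse_reverse]
    exact h3
  · rw [← List.reverse_prefix, List.reverse_cons, List.reverse_reverse]
    exact h4

private theorem basisa_two {c q : List Bool} {b : Bool} (h1 : (b :: c) <:+ q)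
    (h2 : ((!b) :: c) <:+ q) : False := by
  have h3 : (b :: c) = ((!b) :: c) := by
    rcases List.suffix_or_suffix_of_suffix h1 h2 with h | h
    · exact h.eq_of_length (by simp)
    · exact (h.eq_of_length (by simp)).symm
  have h4 : b = !b := (List.cons.inj h3).1
  cases b <;> simp at h4

/-- a common suffix is a suffix of the divergence point -/
theorem suffix_meet {a c p q : List Bool} {b : Bool} (h1 : a <:+ p) (h2 : a <:+ q) (h3 : (b :: c) <:+ p)
    (h4 : ((!b) :: c) <:+ q) : a <:+ c := by
  rcases List.suffix_or_suffix_of_suffix h1 h3 with h | h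
  · rcases List.suffix_cons_iff.1 h with h5 | h5
    · subst h5
      exact (basisa_two h2 h4).elim
    · exact h5
  · exact (basisa_two (h.trans h2) h4).elim

theorem uu_inj {p q : List Bool} (h : uu p = uu q) : p = q := by
  by_contra hne
  have hs : ss p = ss q := by
    have h1 := ss_eq p
    have h2 := ss_eq q
    rw [h, h2] at h1
    exact_mod_cast h1.symm
  by_cases c1 : p <:+ q
  · exact absurd hs (ss_suffix_lt c1 hne).ne
  by_cases c2 : q <:+ p
  · exact absurd hs.symm (ss_suffix_lt c2 (Ne.symm hne)).ne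
  have key : ∀ {p q c : List Bool}, (true :: c) <:+ p → (false :: c) <:+ q → uu p = uu q →
      False := by
    intro p q c hp hq h
    obtain ⟨x, y, _, h1, h2⟩ := coords_true hp
    obtain ⟨x', y', _, h3, h4⟩ := coords_false hq
    have e1 : det (uu p) (g2 c) = x := by
      rw [h2, det_add_left, det_smul_left, det_smul_left, det_g, det_self]
      ring
    have e2 : det (uu q) (g2 c) = x' := by
      rw [h4, det_add_left, det_smul_left, det_smul_left, det_g, det_self]
      ring
    have e3 : det (g1 c) (uu p) = y := by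
      rw [h2, det_add_right, det_smul_right, det_smul_right, det_g, det_self]
      ring
    have e4 : det (g1 c) (uu q) = y' := by
      rw [h4, det_add_right, det_smul_right, det_smul_right, det_g, det_self]
      ring
    rw [h, e2] at e1
    rw [h, e4] at e3
    omega
  obtain ⟨c, b, h3, h4⟩ := diverge c1 c2
  cases b
  · exact key h4 h3 h.symm
  · exact key h3 h4 h

theorem par_eq {p q : List Bool} (h : det (uu p) (uu q) = 0) : p = q := by
  have hdet : ∀ p : List Bool, IsCoprime (uu p).1 (uu p).2 := by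
    intro p
    have h1 : det (g1 p) (uu p) = 1 := by
      rw [uu, det_add_right, det_self, det_g, zero_add]
    refine ⟨-(g1 p).2, (g1 p).1, ?_⟩
    simp only [det] at h1
    linarith
  have h' : (uu p).1 * (uu q).2 = (uu p).2 * (uu q).1 := by
    simp only [det] at h
    linarith
  have d1 : (uu p).1 ∣ (uu q).1 := (hdet p).dvd_of_dvd_mul_left (Dvd.intro _ h')
  have d2 : (uu q).1 ∣ (uu p).1 := by
    refine (hdet q).dvd_of_dvd_mul_right ?_
    rw [h']
    exact Dvd.intro_left _ rfl
  have p1 := (uu_pos p).1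
  have q1 := (uu_pos q).1
  have e1 : (uu p).1 = (uu q).1 :=
    Int.dvd_antisymm (by linarith) (by linarith) d1 d2
  have e2 : (uu p).2 = (uu q).2 := by
    rw [e1, mul_comm] at h'
    exact (mul_right_cancel₀ (by linarith) h').symm
  exact uu_inj (Prod.ext e1 e2)

end Pool.Agent.Lib.MP_94ab62_ntU
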