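import Pool.Agent.Lib.MP_94ab62_ntU.Func

/-!
# CONV: the length is strictly convex

For a vector `v` and a node `P` the coordinates of `v` are `x = det v (g2 P)`, `y = det (g1 P) v` (`v = x • g1 P + y • g2 P`,
`basis_decomp`).  At `true :: P` they are `(x - y, y)`, at `false :: P` they are `(x, y - x)`.
`LL (true :: P) v = LL P v - ee P * y`, `LL (false :: P) v = LL P v - ee P * x` (`LL_true`, `LL_false`), `ee (b :: P) ≤ ee P / 4`.
* `conv_pot1` (`x ≤ 0 ≤ y`), by induction on the length of `r`, `Q = r ++ P`, generalizing `P` (use the FIRST step `b` after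
  `P`: `Q = r' ++ (b :: P)`).  Write `x = -a`.  Step `true`: coordinates `(-(a+y), y)`,
  `LL Q v ≤ LL P v - ee y + (4/3)(ee/4)(a + y) ≤ LL P v + (4/3) ee a`.  Step `false`: coordinates `(-a, y + a)`,
  `LL Q v ≤ LL P v + ee a + (4/3)(ee/4) a = LL P v + (4/3) ee a`.  `conv_pot2` is symmetric.
* `conv_low`: `P <:+ p`, `v = uu p`, coordinates `x, y ≥ 1` (`coords`; positive at every node between `P` and `p`): induction as
  before.  `P = p`: `x = y = 1`, `ll p = LL p v - ee p`.  Step `true`: (`y < x`, `coords_true`)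
  `ll p ≥ LL (true :: P) v - (4/3) ee (true :: P) min (x-y) y ≥ LL P v - ee y - (1/3) ee y`, and `min x y = y`.  Step `false`: symmetric.
* `conv_edge1`: `v = g2 P`: coordinates `(0, 1)`.  Induction on the path: step `false`: `g2 (false :: P) = g2 P`, `LL` unchanged; step `true`:
  coordinates `(-1, 1)` and `conv_pot1`: `LL Q v ≤ LL P v - ee P + (4/3)(ee P/4) < LL P v`.  `conv_edge2` symmetric (`v = g1 P`).
* `conv_strict`: `Q` is not a suffix of `p`.  If `p <:+ Q`, `(b :: p) <:+ Q`; `b = true`: `uu p = g2 (true :: p)`,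
  `LL (true :: p) (uu p) = fb (tn (true :: p)) = ll p`, `conv_edge1`; `b = false`: `uu p = g1 (false :: p)`, `conv_edge2`.
  Otherwise they diverge at `c` (`diverge`), say `true :: c <:+ p`, `false :: c <:+ Q` (the other case is symmetric); `v = uu p` has coordinates
  `x > y ≥ 1` at `c`.  `conv_pot2` at `false :: c` (coordinates `(x, y - x)`):
  `LL Q v ≤ LL c v - ee c x + (4/3)(ee c/4)(x - y)`.  `conv_low` at `true :: c` (coordinates `(x - y, y)`, `min ≤ x - y`):
  `ll p ≥ LL c v - ee c y - (1/3) ee c (x - y)`.  So `ll p - LL Q v ≥ (1/3) ee c (x - y) > 0`.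
* `conv_mid`: let `Q = List.replicate j false ++ (true :: p2)` with `j = ss p1 + ss p3`: `g2 Q = uu p2`, `g1 Q = g1 p2 + j • uu p2`,
  `LL Q (uu p2) = fb (tn Q) = ll p2`, and `ss Q > ss p1, ss p3`, also `m1 Q > ss p1, ss p3`, so `Q` is not a suffix of `p1`, `p3` and
  `uu p1, uu p3 ≠ g1 Q` (compare sums of coordinates), `≠ g2 Q = uu p2` (`uu_inj`).  `conv_strict` for `p1`, `p3` and linearity of `LL Q`.
* `conv_line`: `k = uu p1 - uu p2`, `k' = uu p1 - uu p3` are parallel and nonzero.  In the first coordinate (if `k.1 ≠ 0`) or in the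
  second one the three vectors have three different values; the middle one is a proper convex combination of the two others
  with weights `a, b ≥ 1` the differences; apply `conv_mid`.
-/

set_option autoImplicit false

namespace Pool.Agent.Lib.MP_94ab62_ntU

open Pool.Agent.Lib.MP_94ab62_nt

private theorem conv_xt (P : List Bool) (v : ℤ × ℤ) :
    det v (g2 (true :: P)) = det v (g2 P) - det (g1 P) v := by
  rw [g2_true, show uu P = g1 P + g2 P from rfl, det_add_right, det_swap v (g1 P)]
  ring

private theorem conv_yf (P : List Bool) (v : ℤ × ℤ) :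
    det (g1 (false :: P)) v = det (g1 P) v - det v (g2 P) := by
  rw [g1_false, show uu P = g1 P + g2 P from rfl, det_add_left, det_swap (g2 P) v]
  ring

private theorem conv_pot1_aux (r : List Bool) : ∀ (P : List Bool) (v : ℤ × ℤ), det v (g2 P) ≤ 0 →
    0 ≤ det (g1 P) v → LL (r ++ P) v ≤ LL P v + 4 / 3 * ee P * |(det v (g2 P) : ℝ)| := by
  induction r using List.reverseRecOn with
  | nil =>
    intro P v _ _
    rw [List.nil_append]
    have h1 : 0 ≤ 4 / 3 * ee P * |(det v (g2 P) : ℝ)| :=
      mul_nonneg (mul_nonneg (by norm_num) (ee_pos P).le) (abs_nonneg _)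
    linarith
  | append_singleton r b ih =>
    intro P v hx hy
    rw [List.append_assoc, List.singleton_append]
    have hx' : (det v (g2 P) : ℝ) ≤ 0 := by exact_mod_cast hx
    have hy' : (0 : ℝ) ≤ (det (g1 P) v : ℝ) := by exact_mod_cast hy
    have he := ee_pos P
    cases b with
    | true =>
      have h1 := ih (true :: P) v (by rw [conv_xt]; linarith) (by rw [g1_true]; exact hy)
      rw [LL_true, conv_xt] at h1
      push_cast at h1
      rw [abs_of_nonpos (by linarith)] at h1
      rw [abs_of_nonpos hx']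
      have h2 := ee_cons_le true P
      have h3 : ee (true :: P) * -((det v (g2 P) : ℝ) - (det (g1 P) v : ℝ)) ≤
          ee P / 4 * -((det v (g2 P) : ℝ) - (det (g1 P) v : ℝ)) :=
        mul_le_mul_of_nonneg_right h2 (by linarith)
      have h4 : 0 ≤ ee P * (det (g1 P) v : ℝ) := mul_nonneg he.le hy'
      have h5 : ee P * (det v (g2 P) : ℝ) ≤ 0 := mul_nonpos_of_nonneg_of_nonpos he.le hx'
      nlinarith
    | false =>
      have h1 := ih (false :: P) v (by rw [g2_false]; exact hx) (by rw [conv_yf]; linarith)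
      rw [LL_false, g2_false] at h1
      rw [abs_of_nonpos hx'] at h1 ⊢
      have h2 := ee_cons_le false P
      have h3 : ee (false :: P) * -(det v (g2 P) : ℝ) ≤ ee P / 4 * -(det v (g2 P) : ℝ) :=
        mul_le_mul_of_nonneg_right h2 (by linarith)
      have h5 : ee P * (det v (g2 P) : ℝ) ≤ 0 := mul_nonpos_of_nonneg_of_nonpos he.le hx'
      nlinarith

private theorem conv_pot2_aux (r : List Bool) : ∀ (P : List Bool) (v : ℤ × ℤ), 0 ≤ det v (g2 P) →
    det (g1 P) v ≤ 0 → LL (r ++ P) v ≤ LL P v + 4 / 3 * ee P * |(det (g1 P) v : ℝ)| := by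
  induction r using List.reverseRecOn with
  | nil =>
    intro P v _ _
    rw [List.nil_append]
    have h1 : 0 ≤ 4 / 3 * ee P * |(det (g1 P) v : ℝ)| :=
      mul_nonneg (mul_nonneg (by norm_num) (ee_pos P).le) (abs_nonneg _)
    linarith
  | append_singleton r b ih =>
    intro P v hx hy
    rw [List.append_assoc, List.singleton_append]
    have hx' : (0 : ℝ) ≤ (det v (g2 P) : ℝ) := by exact_mod_cast hx
    have hy' : (det (g1 P) v : ℝ) ≤ 0 := by exact_mod_cast hy
    have he := ee_pos P
    cases b with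
    | true =>
      have h1 := ih (true :: P) v (by rw [conv_xt]; linarith) (by rw [g1_true]; exact hy)
      rw [LL_true, g1_true] at h1
      rw [abs_of_nonpos hy'] at h1 ⊢
      have h2 := ee_cons_le true P
      have h3 : ee (true :: P) * -(det (g1 P) v : ℝ) ≤ ee P / 4 * -(det (g1 P) v : ℝ) :=
        mul_le_mul_of_nonneg_right h2 (by linarith)
      have h5 : ee P * (det (g1 P) v : ℝ) ≤ 0 := mul_nonpos_of_nonneg_of_nonpos he.le hy'
      nlinarith
    | false =>
      have h1 := ih (false :: P) v (by rw [g2_false]; exact hx) (by rw [conv_yf]; linarith)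
      rw [LL_false, conv_yf] at h1
      push_cast at h1
      rw [abs_of_nonpos (by linarith)] at h1
      rw [abs_of_nonpos hy']
      have h2 := ee_cons_le false P
      have h3 : ee (false :: P) * -((det (g1 P) v : ℝ) - (det v (g2 P) : ℝ)) ≤
          ee P / 4 * -((det (g1 P) v : ℝ) - (det v (g2 P) : ℝ)) :=
        mul_le_mul_of_nonneg_right h2 (by linarith)
      have h4 : 0 ≤ ee P * (det v (g2 P) : ℝ) := mul_nonneg he.le hx'
      have h5 : ee P * (det (g1 P) v : ℝ) ≤ 0 := mul_nonpos_of_nonneg_of_nonpos he.le hy'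
      nlinarith

theorem conv_pot1 {P Q : List Bool} (h : P <:+ Q) {v : ℤ × ℤ} (hx : det v (g2 P) ≤ 0)
    (hy : 0 ≤ det (g1 P) v) : LL Q v ≤ LL P v + 4 / 3 * ee P * |(det v (g2 P) : ℝ)| := by
  obtain ⟨r, rfl⟩ := h
  exact conv_pot1_aux r P v hx hy

theorem conv_pot2 {P Q : List Bool} (h : P <:+ Q) {v : ℤ × ℤ} (hx : 0 ≤ det v (g2 P))
    (hy : det (g1 P) v ≤ 0) : LL Q v ≤ LL P v + 4 / 3 * ee P * |(det (g1 P) v : ℝ)| := by
  obtain ⟨r, rfl⟩ := h
  exact conv_pot2_aux r P v hx hy

private theorem conv_det_g2 (P : List Bool) (x y : ℤ) :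
    det (x • g1 P + y • g2 P) (g2 P) = x := by
  rw [det_add_left, det_smul_left, det_smul_left, det_g, det_self]
  ring

private theorem conv_det_g1 (P : List Bool) (x y : ℤ) :
    det (g1 P) (x • g1 P + y • g2 P) = y := by
  rw [det_add_right, det_smul_right, det_smul_right, det_g, det_self]
  ring

private theorem conv_coord {P p : List Bool} (h : P <:+ p) :
    1 ≤ det (uu p) (g2 P) ∧ 1 ≤ det (g1 P) (uu p) := by
  obtain ⟨x, y, hx, hy, h1, -⟩ := coords h
  rw [h1, conv_det_g2, conv_det_g1]
  exact ⟨by exact_mod_cast hx, by exact_mod_cast hy⟩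

private theorem conv_low_aux (r : List Bool) : ∀ P : List Bool,
    LL P (uu (r ++ P)) - 4 / 3 * ee P * min (det (uu (r ++ P)) (g2 P) : ℝ) (det (g1 P) (uu (r ++ P)) : ℝ) ≤
      ll (r ++ P) := by
  induction r using List.reverseRecOn with
  | nil =>
    intro P
    rw [List.nil_append, LL_uu]
    have h1 : det (uu P) (g2 P) = 1 := by
      rw [show uu P = g1 P + g2 P from rfl, det_add_left, det_g, det_self]
      ring
    have h2 : det (g1 P) (uu P) = 1 := by
      rw [show uu P = g1 P + g2 P from rfl, det_add_right, det_g, det_self]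
      ring
    rw [h1, h2, min_self]
    have h3 := ee_pos P
    push_cast
    linarith
  | append_singleton r b ih =>
    intro P
    rw [List.append_assoc, List.singleton_append]
    have h1 := ih (b :: P)
    have hc := conv_coord (P := b :: P) (p := r ++ (b :: P)) ⟨r, rfl⟩
    have he := ee_pos P
    have h2 := ee_cons_le b P
    obtain ⟨v, hv⟩ : ∃ v, v = uu (r ++ (b :: P)) := ⟨_, rfl⟩
    rw [← hv] at h1 hc ⊢
    cases b with
    | true =>
      rw [conv_xt, g1_true] at hc
      obtain ⟨hc1, hc2⟩ := hc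
      have c1 : (1 : ℝ) ≤ (det v (g2 P) : ℝ) - (det (g1 P) v : ℝ) := by exact_mod_cast hc1
      have c2 : (1 : ℝ) ≤ (det (g1 P) v : ℝ) := by exact_mod_cast hc2
      rw [LL_true, conv_xt, g1_true] at h1
      push_cast at h1
      rw [min_eq_right (by linarith)]
      have h3 : min ((det v (g2 P) : ℝ) - (det (g1 P) v : ℝ)) (det (g1 P) v : ℝ) ≤ (det (g1 P) v : ℝ) :=
        min_le_right _ _
      have h4 : 0 ≤ min ((det v (g2 P) : ℝ) - (det (g1 P) v : ℝ)) (det (g1 P) v : ℝ) :=
        le_min (by linarith) (by linarith)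
      have h5 : ee (true :: P) * min ((det v (g2 P) : ℝ) - (det (g1 P) v : ℝ)) (det (g1 P) v : ℝ) ≤
          ee P / 4 * (det (g1 P) v : ℝ) := mul_le_mul h2 h3 h4 (by linarith)
      nlinarith
    | false =>
      rw [conv_yf, g2_false] at hc
      obtain ⟨hc1, hc2⟩ := hc
      have c1 : (1 : ℝ) ≤ (det v (g2 P) : ℝ) := by exact_mod_cast hc1
      have c2 : (1 : ℝ) ≤ (det (g1 P) v : ℝ) - (det v (g2 P) : ℝ) := by exact_mod_cast hc2
      rw [LL_false, conv_yf, g2_false] at h1
      push_cast at h1
      rw [min_eq_left (by linarith)]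
      have h3 : min (det v (g2 P) : ℝ) ((det (g1 P) v : ℝ) - (det v (g2 P) : ℝ)) ≤ (det v (g2 P) : ℝ) :=
        min_le_left _ _
      have h4 : 0 ≤ min (det v (g2 P) : ℝ) ((det (g1 P) v : ℝ) - (det v (g2 P) : ℝ)) :=
        le_min (by linarith) (by linarith)
      have h5 : ee (false :: P) * min (det v (g2 P) : ℝ) ((det (g1 P) v : ℝ) - (det v (g2 P) : ℝ)) ≤
          ee P / 4 * (det v (g2 P) : ℝ) := mul_le_mul h2 h3 h4 (by linarith)
      nlinarith

theorem conv_low {P p : List Bool} (h : P <:+ p) :
    LL P (uu p) - 4 / 3 * ee P * min (det (uu p) (g2 P) : ℝ) (det (g1 P) (uu p) : ℝ) ≤ ll p := by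
  obtain ⟨r, rfl⟩ := h
  exact conv_low_aux r P

private theorem conv_edge1_aux (r : List Bool) : ∀ P : List Bool,
    g2 P = g2 (r ++ P) ∨ LL (r ++ P) (g2 P) < LL P (g2 P) := by
  induction r using List.reverseRecOn with
  | nil =>
    intro P
    left
    rw [List.nil_append]
  | append_singleton r b ih =>
    intro P
    rw [List.append_assoc, List.singleton_append]
    have he := ee_pos P
    cases b with
    | true =>
      right
      have e1 : det (g2 P) (g2 (true :: P)) = -1 := by
        rw [conv_xt, det_self, det_g]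
        ring
      have e2 : det (g1 (true :: P)) (g2 P) = 1 := by
        rw [g1_true, det_g]
      have h1 := conv_pot1_aux r (true :: P) (g2 P) (by rw [e1]; norm_num) (by rw [e2]; norm_num)
      rw [e1, LL_true, det_g] at h1
      push_cast at h1
      rw [abs_neg, abs_one] at h1
      have h2 := ee_cons_le true P
      linarith
    | false =>
      have h1 := ih (false :: P)
      rw [g2_false, LL_false, det_self] at h1
      push_cast at h1
      rw [mul_zero, sub_zero] at h1
      exact h1

private theorem conv_edge2_aux (r : List Bool) : ∀ P : List Bool,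
    g1 P = g1 (r ++ P) ∨ LL (r ++ P) (g1 P) < LL P (g1 P) := by
  induction r using List.reverseRecOn with
  | nil =>
    intro P
    left
    rw [List.nil_append]
  | append_singleton r b ih =>
    intro P
    rw [List.append_assoc, List.singleton_append]
    have he := ee_pos P
    cases b with
    | true =>
      have h1 := ih (true :: P)
      rw [g1_true, LL_true, det_self] at h1
      push_cast at h1
      rw [mul_zero, sub_zero] at h1
      exact h1
    | false =>
      right
      have e1 : det (g1 (false :: P)) (g1 P) = -1 := by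
        rw [conv_yf, det_self, det_g]
        ring
      have e2 : det (g1 P) (g2 (false :: P)) = 1 := by
        rw [g2_false, det_g]
      have h1 := conv_pot2_aux r (false :: P) (g1 P) (by rw [e2]; norm_num) (by rw [e1]; norm_num)
      rw [e1, LL_false, det_g] at h1
      push_cast at h1
      rw [abs_neg, abs_one] at h1
      have h2 := ee_cons_le false P
      linarith

theorem conv_edge1 {P Q : List Bool} (h : P <:+ Q) : g2 P = g2 Q ∨ LL Q (g2 P) < LL P (g2 P) := by
  obtain ⟨r, rfl⟩ := h
  exact conv_edge1_aux r P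

theorem conv_edge2 {P Q : List Bool} (h : P <:+ Q) : g1 P = g1 Q ∨ LL Q (g1 P) < LL P (g1 P) := by
  obtain ⟨r, rfl⟩ := h
  exact conv_edge2_aux r P

private theorem conv_fb_true (p : List Bool) : fb (tn (true :: p)) = ll p := rfl
private theorem conv_fa_false (p : List Bool) : fa (tn (false :: p)) = ll p := rfl
private theorem conv_fb_false (p : List Bool) : fb (tn (false :: p)) = fb (tn p) := rfl

theorem conv_strict {p Q : List Bool} (h : ¬ Q <:+ p) (h1 : uu p ≠ g1 Q) (h2 : uu p ≠ g2 Q) :
    LL Q (uu p) < ll p := by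
  by_cases hp : p <:+ Q
  · obtain ⟨r, rfl⟩ := hp
    rcases List.eq_nil_or_concat r with hr | ⟨r', b, hr⟩
    · subst hr
      exact absurd (List.suffix_refl _) h
    · subst hr
      rw [List.concat_eq_append, List.append_assoc, List.singleton_append] at h h1 h2 ⊢
      cases b with
      | true =>
        rcases conv_edge1 (P := true :: p) (Q := r' ++ true :: p) ⟨r', rfl⟩ with h3 | h3
        · rw [← h3, g2_true] at h2
          exact absurd rfl h2
        · rw [LL_g2, conv_fb_true, g2_true] at h3
          exact h3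
      | false =>
        rcases conv_edge2 (P := false :: p) (Q := r' ++ false :: p) ⟨r', rfl⟩ with h3 | h3
        · rw [← h3, g1_false] at h1
          exact absurd rfl h1
        · rw [LL_g1, conv_fa_false, g1_false] at h3
          exact h3
  · obtain ⟨c, b, hc1, hc2⟩ := diverge hp h
    have he := ee_pos c
    cases b with
    | true =>
      rw [Bool.not_true] at hc2
      obtain ⟨x, y, hy, hyx, hv⟩ := coords_true hc1
      have ex : det (uu p) (g2 c) = x := by rw [hv, conv_det_g2]
      have ey : det (g1 c) (uu p) = y := by rw [hv, conv_det_g1]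
      have hxy : (y : ℝ) < x := by exact_mod_cast hyx
      have h3 := conv_pot2 hc2 (v := uu p) (by rw [g2_false, ex]; omega)
        (by rw [conv_yf, ex, ey]; omega)
      have h4 := conv_low hc1
      rw [LL_false, conv_yf, ex, ey] at h3
      rw [LL_true, conv_xt, g1_true, ex, ey] at h4
      push_cast at h3 h4
      rw [abs_of_nonpos (by linarith)] at h3
      have h5 := ee_cons_le false c
      have h6 := ee_cons_le true c
      have h7 : ee (false :: c) * -((y : ℝ) - x) ≤ ee c / 4 * -((y : ℝ) - x) :=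
        mul_le_mul_of_nonneg_right h5 (by linarith)
      have h8 : ee (true :: c) * min ((x : ℝ) - y) y ≤ ee c / 4 * ((x : ℝ) - y) :=
        mul_le_mul h6 (min_le_left _ _) (le_min (by linarith) (Nat.cast_nonneg _)) (by linarith)
      have h9 : 0 < ee c * ((x : ℝ) - y) := mul_pos he (by linarith)
      nlinarith
    | false =>
      rw [Bool.not_false] at hc2
      obtain ⟨x, y, hx, hyx, hv⟩ := coords_false hc1
      have ex : det (uu p) (g2 c) = x := by rw [hv, conv_det_g2]
      have ey : det (g1 c) (uu p) = y := by rw [hv, conv_det_g1]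
      have hxy : (x : ℝ) < y := by exact_mod_cast hyx
      have h3 := conv_pot1 hc2 (v := uu p) (by rw [conv_xt, ex, ey]; omega)
        (by rw [g1_true, ey]; omega)
      have h4 := conv_low hc1
      rw [LL_true, conv_xt, ex, ey] at h3
      rw [LL_false, conv_yf, g2_false, ex, ey] at h4
      push_cast at h3 h4
      rw [abs_of_nonpos (by linarith)] at h3
      have h5 := ee_cons_le true c
      have h6 := ee_cons_le false c
      have h7 : ee (true :: c) * -((x : ℝ) - y) ≤ ee c / 4 * -((x : ℝ) - y) :=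
        mul_le_mul_of_nonneg_right h5 (by linarith)
      have h8 : ee (false :: c) * min (x : ℝ) ((y : ℝ) - x) ≤ ee c / 4 * ((y : ℝ) - x) :=
        mul_le_mul h6 (min_le_right _ _) (le_min (Nat.cast_nonneg _) (by linarith)) (by linarith)
      have h9 : 0 < ee c * ((y : ℝ) - x) := mul_pos he (by linarith)
      nlinarith

private theorem conv_rep_g2 (j : ℕ) (P : List Bool) : g2 (List.replicate j false ++ P) = g2 P := by
  induction j with
  | zero => rfl
  | succ j ih =>
    rw [List.replicate_succ, List.cons_append, g2_false, ih]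

private theorem conv_rep_fb (j : ℕ) (P : List Bool) :
    fb (tn (List.replicate j false ++ P)) = fb (tn P) := by
  induction j with
  | zero => rfl
  | succ j ih =>
    rw [List.replicate_succ, List.cons_append, conv_fb_false, ih]

private theorem conv_rep_m1 (j : ℕ) (P : List Bool) : j ≤ m1 (List.replicate j false ++ P) := by
  induction j with
  | zero => exact Nat.zero_le _
  | succ j ih =>
    rw [List.replicate_succ, List.cons_append, m1_false]
    have h1 := m2_pos (List.replicate j false ++ P)
    unfold ss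
    omega

private theorem conv_mid_aux {Q p : List Bool} (h : ss p < m1 Q) (h2 : uu p ≠ g2 Q) :
    LL Q (uu p) < ll p := by
  refine conv_strict ?_ ?_ h2
  · intro h3
    have h4 := ss_suffix h3
    have h5 : m1 Q ≤ ss Q := Nat.le_add_right _ _
    omega
  · intro h3
    have h4 := ss_eq p
    rw [h3, m1_eq] at h4
    have h5 : m1 Q = ss p := by exact_mod_cast h4
    omega

theorem conv_mid {p1 p2 p3 : List Bool} {a b : ℕ} (ha : 1 ≤ a) (hb : 1 ≤ b)
    (h : ((a : ℤ) + b) • uu p2 = (a : ℤ) • uu p1 + (b : ℤ) • uu p3) (hne : p1 ≠ p2) :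
    ((a : ℝ) + b) * ll p2 < a * ll p1 + b * ll p3 := by
  obtain ⟨Q, hQ⟩ : ∃ Q, Q = List.replicate (ss p1 + ss p3 + 1) false ++ (true :: p2) := ⟨_, rfl⟩
  have hg2 : g2 Q = uu p2 := by
    rw [hQ, conv_rep_g2, g2_true]
  have hfb : LL Q (uu p2) = ll p2 := by
    rw [← hg2, LL_g2, hQ, conv_rep_fb, conv_fb_true]
  have hm : ss p1 + ss p3 + 1 ≤ m1 Q := by
    rw [hQ]
    exact conv_rep_m1 _ _
  have hu1 : uu p1 ≠ uu p2 := fun h1 => hne (uu_inj h1)
  have hu3 : uu p3 ≠ uu p2 := by
    intro h1
    rw [h1, add_smul] at h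
    have h2 : (a : ℤ) • uu p2 = (a : ℤ) • uu p1 := add_right_cancel h
    have ha0 : (a : ℤ) ≠ 0 := by
      have : a ≠ 0 := by omega
      exact_mod_cast this
    refine hu1 ?_
    refine Prod.ext ?_ ?_
    · have h3 := congrArg Prod.fst h2
      simp only [Prod.smul_fst, smul_eq_mul] at h3
      exact (mul_left_cancel₀ ha0 h3).symm
    · have h3 := congrArg Prod.snd h2
      simp only [Prod.smul_snd, smul_eq_mul] at h3
      exact (mul_left_cancel₀ ha0 h3).symm
  have h1 := conv_mid_aux (Q := Q) (p := p1) (by omega) (by rw [hg2]; exact hu1)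
  have h3 := conv_mid_aux (Q := Q) (p := p3) (by omega) (by rw [hg2]; exact hu3)
  have h4 := congrArg (LL Q) h
  rw [LL_smul, LL_add, LL_smul, LL_smul, hfb] at h4
  push_cast at h4
  rw [h4]
  have ha' : (0 : ℝ) < a := by exact_mod_cast ha
  have hb' : (0 : ℝ) < b := by exact_mod_cast hb
  exact add_lt_add (mul_lt_mul_of_pos_left h1 ha') (mul_lt_mul_of_pos_left h3 hb')

private theorem conv_ord {p1 p2 p3 : List Bool} {t1 t2 t3 : ℤ} (h12 : t1 < t2) (h23 : t2 < t3)
    (hne : p1 ≠ p2)
    (A1 : (t2 - t3) * (uu p1).1 + (t3 - t1) * (uu p2).1 + (t1 - t2) * (uu p3).1 = 0)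
    (A2 : (t2 - t3) * (uu p1).2 + (t3 - t1) * (uu p2).2 + (t1 - t2) * (uu p3).2 = 0)
    (e12 : ll p1 = ll p2) (e13 : ll p1 = ll p3) : False := by
  obtain ⟨a, ha⟩ : ∃ a : ℕ, (a : ℤ) = t3 - t2 := ⟨(t3 - t2).toNat, Int.toNat_of_nonneg (by omega)⟩
  obtain ⟨b, hb⟩ : ∃ b : ℕ, (b : ℤ) = t2 - t1 := ⟨(t2 - t1).toNat, Int.toNat_of_nonneg (by omega)⟩
  have h1 : ((a : ℤ) + b) • uu p2 = (a : ℤ) • uu p1 + (b : ℤ) • uu p3 := by
    rw [ha, hb]
    refine Prod.ext ?_ ?_
    · simp only [Prod.fst_add, Prod.smul_fst, smul_eq_mul]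
      linear_combination A1
    · simp only [Prod.snd_add, Prod.smul_snd, smul_eq_mul]
      linear_combination A2
  have h2 := conv_mid (a := a) (b := b) (by omega) (by omega) h1 hne
  rw [← e12, ← e13] at h2
  have h3 : ((a : ℝ) + b) * ll p1 = a * ll p1 + b * ll p1 := by ring
  rw [h3] at h2
  exact lt_irrefl _ h2

private theorem conv_six {p1 p2 p3 : List Bool} (h12 : p1 ≠ p2) (h13 : p1 ≠ p3) (h23 : p2 ≠ p3)
    {t1 t2 t3 : ℤ} (n12 : t1 ≠ t2) (n13 : t1 ≠ t3) (n23 : t2 ≠ t3)
    (A1 : (t2 - t3) * (uu p1).1 + (t3 - t1) * (uu p2).1 + (t1 - t2) * (uu p3).1 = 0)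
    (A2 : (t2 - t3) * (uu p1).2 + (t3 - t1) * (uu p2).2 + (t1 - t2) * (uu p3).2 = 0)
    (e12 : ll p1 = ll p2) (e13 : ll p1 = ll p3) : False := by
  have e23 : ll p2 = ll p3 := e12.symm.trans e13
  rcases lt_or_gt_of_ne n12 with a | a
  · rcases lt_or_gt_of_ne n23 with b | b
    · exact conv_ord a b h12 A1 A2 e12 e13
    · rcases lt_or_gt_of_ne n13 with c | c
      · exact conv_ord (p1 := p1) (p2 := p3) (p3 := p2) c b h13 (by linear_combination (-1) * A1)
          (by linear_combination (-1) * A2) e13 e12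
      · exact conv_ord (p1 := p3) (p2 := p1) (p3 := p2) c a h13.symm (by linear_combination A1)
          (by linear_combination A2) e13.symm e23.symm
  · rcases lt_or_gt_of_ne n13 with b | b
    · exact conv_ord (p1 := p2) (p2 := p1) (p3 := p3) a b h12.symm (by linear_combination (-1) * A1)
        (by linear_combination (-1) * A2) e12.symm e23
    · rcases lt_or_gt_of_ne n23 with c | c
      · exact conv_ord (p1 := p2) (p2 := p3) (p3 := p1) c b h23 (by linear_combination A1)
          (by linear_combination A2) e23 e12.symm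
      · exact conv_ord (p1 := p3) (p2 := p2) (p3 := p1) c a h23.symm (by linear_combination (-1) * A1)
          (by linear_combination (-1) * A2) e23.symm e13.symm

theorem conv_line {p1 p2 p3 : List Bool} (h12 : p1 ≠ p2) (h13 : p1 ≠ p3) (h23 : p2 ≠ p3)
    (hd : det (uu p1 - uu p2) (uu p1 - uu p3) = 0) (e12 : ll p1 = ll p2) (e13 : ll p1 = ll p3) : False := by
  have hd' : ((uu p1).1 - (uu p2).1) * ((uu p1).2 - (uu p3).2) -
      ((uu p1).2 - (uu p2).2) * ((uu p1).1 - (uu p3).1) = 0 := hd
  have u12 : uu p1 ≠ uu p2 := fun h => h12 (uu_inj h)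
  have u13 : uu p1 ≠ uu p3 := fun h => h13 (uu_inj h)
  have u23 : uu p2 ≠ uu p3 := fun h => h23 (uu_inj h)
  by_cases ht : (uu p1).1 = (uu p2).1
  · have hs : (uu p1).2 ≠ (uu p2).2 := fun h => u12 (Prod.ext ht h)
    have hs13 : (uu p1).2 ≠ (uu p3).2 := by
      intro h
      rw [ht, sub_self, zero_mul, zero_sub, neg_eq_zero, mul_eq_zero] at hd'
      rcases hd' with h1 | h1
      · exact hs (by linarith)
      · exact u13 (Prod.ext (by linarith) h)
    have hs23 : (uu p2).2 ≠ (uu p3).2 := by
      intro h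
      rw [ht, sub_self, zero_mul, zero_sub, neg_eq_zero, mul_eq_zero] at hd'
      rcases hd' with h1 | h1
      · exact hs (by linarith)
      · exact u23 (Prod.ext (by linarith) h)
    refine conv_six h12 h13 h23 hs hs13 hs23 ?_ ?_ e12 e13
    · linear_combination hd'
    · ring
  · have hs13 : (uu p1).1 ≠ (uu p3).1 := by
      intro h
      have h0 : ((uu p1).1 - (uu p2).1) * ((uu p1).2 - (uu p3).2) = 0 := by
        rw [← h] at hd'
        linear_combination hd'
      rcases mul_eq_zero.1 h0 with h1 | h1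
      · exact ht (by linarith)
      · exact u13 (Prod.ext h (by linarith))
    have hs23 : (uu p2).1 ≠ (uu p3).1 := by
      intro h
      have h0 : ((uu p1).1 - (uu p2).1) * ((uu p2).2 - (uu p3).2) = 0 := by
        rw [← h] at hd'
        linear_combination hd'
      rcases mul_eq_zero.1 h0 with h1 | h1
      · exact ht (by linarith)
      · exact u23 (Prod.ext h (by linarith))
    refine conv_six h12 h13 h23 ht hs13 hs23 ?_ ?_ e12 e13
    · ring
    · linear_combination (-1) * hd'

end Pool.Agent.Lib.MP_94ab62_ntU
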