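import Pool.Agent.Lib.MP_94ab62_ntU.BasisA

/-!
# CUT U: leaves of a level and counting nodes

* `cut` facts: induction on `q`.  `ss [] = 2 < 3 ≤ K`.
* `LF_ss`: `ss_cons_lt_two`.
* `cut_of_LF`: `p = b :: c <:+ q`: induction on `q`: if `q = p` then `cut K (b :: c) = b :: c` as `¬ K ≤ ss c`; if `q = b' :: q'`,
  `p <:+ q'`: `K ≤ ss p ≤ ss q'` so `cut K q = cut K q'`.
* `suffix_cut`: `c <:+ q`, `cut K q <:+ q` are comparable (`List.suffix_or_suffix_of_suffix`) and `ss (cut K q) ≥ K > ss c`.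
* `fin_ss`: `ss q ≥ q.length + 2`, lists of bounded length over `Bool` are finite (`List.finite_length_lt` or similar); or inject
  by `uu` into a finite box.
* `cnt`: inject `q ↦ (x, y)` (`coords`), `x * m1 p + y * m2 p = ss q ≤ R`, into `[1, R / m1 p] × [1, R / m2 p]`, injective by `uu_inj`;
  `(R / m1) * (R / m2) * (m1 * m2) ≤ R^2`.
* `cnt_LF`: `m1 * m2 ≥ m1 + m2 - 1 ≥ K - 1 ≥ K / 2`.
* `LF_card`: inject by `uu` into `[1, 2K) × [1, 2K)`.  `ss_lt_card`: inject by `uu` into `[1, K) × [1, K)`.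
* `fibre_le`: `Set.ncard` of `S = ⋃ fibres`; e.g. via `Finset.card_le_mul_card_image` after `Set.ncard_eq_toFinset_card`.
-/

set_option autoImplicit false

namespace Pool.Agent.Lib.MP_94ab62_ntU

open Pool.Agent.Lib.MP_94ab62_nt

theorem cut_suffix (K : ℕ) (q : List Bool) : cut K q <:+ q := by
  induction q with
  | nil => exact List.suffix_refl _
  | cons b p ih =>
    rw [cut]
    split
    · exact ih.trans (List.suffix_cons b p)
    · exact List.suffix_refl _

theorem cut_mem {K : ℕ} (hK : 3 ≤ K) {q : List Bool} (h : K ≤ ss q) : cut K q ∈ LF K := by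
  induction q with
  | nil =>
    exfalso
    have h1 : ss [] = 2 := rfl
    omega
  | cons b p ih =>
    rw [cut]
    split
    · next h1 => exact ih h1
    · next h1 => exact ⟨b, p, rfl, not_le.1 h1, h⟩

theorem LF_ss {K : ℕ} {p : List Bool} (h : p ∈ LF K) : K ≤ ss p ∧ ss p < 2 * K := by
  obtain ⟨b, c, rfl, h1, h2⟩ := h
  have h3 := ss_cons_lt_two b c
  exact ⟨h2, by omega⟩

theorem cut_of_LF {K : ℕ} {p q : List Bool} (h : p ∈ LF K) (hs : p <:+ q) : cut K q = p := by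
  obtain ⟨b, c, rfl, h1, h2⟩ := h
  induction q with
  | nil => exact absurd (List.suffix_nil.1 hs) (by simp)
  | cons b' q ih =>
    rcases List.suffix_cons_iff.1 hs with h3 | h3
    · rw [← h3, cut, if_neg (not_le.2 h1)]
    · rw [cut, if_pos (h2.trans (ss_suffix h3))]
      exact ih h3

theorem suffix_cut {K : ℕ} (hK : 3 ≤ K) {c q : List Bool} (h : c <:+ q) (hc : ss c < K) (hq : K ≤ ss q) :
    c <:+ cut K q := by
  rcases List.suffix_or_suffix_of_suffix h (cut_suffix K q) with h1 | h1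
  · exact h1
  · exfalso
    have h2 := (LF_ss (cut_mem hK hq)).1
    have h3 := ss_suffix h1
    omega

/-- nested levels -/
theorem cut_le {K K' : ℕ} (hK : 3 ≤ K) (h : K ≤ K') {q : List Bool} (hq : K' ≤ ss q) :
    cut K q <:+ cut K' q ∧ cut K (cut K' q) = cut K q := by
  have h1 := (LF_ss (cut_mem (hK.trans h) hq)).1
  have h2 := cut_mem hK (h.trans h1)
  have h3 := cut_suffix K (cut K' q)
  have h4 := cut_of_LF h2 (h3.trans (cut_suffix K' q))
  rw [h4]
  exact ⟨h3, rfl⟩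

theorem LF_incomp {K : ℕ} {p q : List Bool} (hp : p ∈ LF K) (hq : q ∈ LF K) (h : p <:+ q) : p = q := by
  rw [← cut_of_LF hp h, cut_of_LF hq (List.suffix_refl q)]

theorem fin_ss (R : ℕ) : {q : List Bool | ss q ≤ R}.Finite := by
  refine (List.finite_length_le Bool R).subset fun q hq => ?_
  have h1 := ss_len q
  have h2 : ss q ≤ R := hq
  show q.length ≤ R
  omega

theorem LF_finite (K : ℕ) : (LF K).Finite := by
  refine (fin_ss (2 * K)).subset fun q hq => ?_
  exact (LF_ss hq).2.le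

private theorem cutu_box {S : Set (List Bool)} {n : ℕ} (h : ∀ q ∈ S, ss q ≤ n) :
    S.ncard ≤ n ^ 2 := by
  have h1 := Set.ncard_le_ncard_of_injOn (s := S)
    (t := ((Finset.range n ×ˢ Finset.range n : Finset (ℕ × ℕ)) : Set (ℕ × ℕ)))
    (fun q => ((uu q).1.toNat - 1, (uu q).2.toNat - 1)) (fun q hq => ?_) (fun p hp q hq hpq => ?_)
    (Finset.finite_toSet _)
  · rw [Set.ncard_coe_finset, Finset.card_product, Finset.card_range] at h1
    rw [sq]
    exact h1
  · have h2 := uu_pos q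
    have h3 := ss_eq q
    have h4 := h q hq
    rw [Finset.mem_coe, Finset.mem_product, Finset.mem_range, Finset.mem_range]
    show (uu q).1.toNat - 1 < n ∧ (uu q).2.toNat - 1 < n
    omega
  · have h2 := uu_pos p
    have h3 := uu_pos q
    have h4 : (uu p).1.toNat - 1 = (uu q).1.toNat - 1 := congrArg Prod.fst hpq
    have h5 : (uu p).2.toNat - 1 = (uu q).2.toNat - 1 := congrArg Prod.snd hpq
    apply uu_inj
    exact Prod.ext (by omega) (by omega)

theorem LF_card (K : ℕ) : (LF K).ncard ≤ 4 * K ^ 2 := by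
  have h1 := cutu_box (S := LF K) (n := 2 * K) fun q hq => (LF_ss hq).2.le
  rw [mul_pow] at h1
  exact h1

theorem ss_lt_card (K : ℕ) : {q : List Bool | ss q < K}.ncard ≤ K ^ 2 := by
  exact cutu_box (n := K) fun q hq => le_of_lt hq

theorem cnt (R : ℕ) (p : List Bool) : {q : List Bool | p <:+ q ∧ ss q ≤ R}.ncard * (m1 p * m2 p) ≤ R ^ 2 := by
  classical
  have hch : ∀ q : List Bool, ∃ z : ℕ × ℕ, p <:+ q → 1 ≤ z.1 ∧ 1 ≤ z.2 ∧
      uu q = (z.1 : ℤ) • g1 p + (z.2 : ℤ) • g2 p ∧ ss q = z.1 * m1 p + z.2 * m2 p := by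
    intro q
    by_cases h : p <:+ q
    · obtain ⟨x, y, h1, h2, h3, h4⟩ := coords h
      exact ⟨(x, y), fun _ => ⟨h1, h2, h3, h4⟩⟩
    · exact ⟨(0, 0), fun h1 => absurd h1 h⟩
  choose f hf using hch
  have hm1 := m1_pos p
  have hm2 := m2_pos p
  have h1 := Set.ncard_le_ncard_of_injOn (s := {q : List Bool | p <:+ q ∧ ss q ≤ R})
    (t := ((Finset.Icc 1 (R / m1 p) ×ˢ Finset.Icc 1 (R / m2 p) : Finset (ℕ × ℕ)) : Set (ℕ × ℕ)))
    f (fun q hq => ?_) (fun q hq q' hq' hqq => ?_) (Finset.finite_toSet _)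
  · rw [Set.ncard_coe_finset, Finset.card_product, Nat.card_Icc, Nat.card_Icc,
      Nat.add_sub_cancel, Nat.add_sub_cancel] at h1
    have h2 := Nat.div_mul_le_self R (m1 p)
    have h3 := Nat.div_mul_le_self R (m2 p)
    calc {q : List Bool | p <:+ q ∧ ss q ≤ R}.ncard * (m1 p * m2 p)
        ≤ (R / m1 p * (R / m2 p)) * (m1 p * m2 p) := Nat.mul_le_mul_right _ h1
      _ = (R / m1 p * m1 p) * (R / m2 p * m2 p) := by ring
      _ ≤ R * R := Nat.mul_le_mul h2 h3
      _ = R ^ 2 := by ring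
  · obtain ⟨h2, h3, _, h5⟩ := hf q hq.1
    have h6 : ss q ≤ R := hq.2
    rw [Finset.mem_coe, Finset.mem_product, Finset.mem_Icc, Finset.mem_Icc,
      Nat.le_div_iff_mul_le (by omega), Nat.le_div_iff_mul_le (by omega)]
    refine ⟨⟨h2, ?_⟩, h3, ?_⟩
    · have := Nat.zero_le ((f q).2 * m2 p)
      omega
    · have := Nat.zero_le ((f q).1 * m1 p)
      omega
  · obtain ⟨_, _, h4, _⟩ := hf q hq.1
    obtain ⟨_, _, h4', _⟩ := hf q' hq'.1
    apply uu_inj
    rw [h4, h4', hqq]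

theorem cnt_LF {K : ℕ} (hK : 3 ≤ K) (R : ℕ) {p : List Bool} (hp : p ∈ LF K) :
    {q : List Bool | p <:+ q ∧ ss q ≤ R}.ncard * K ≤ 2 * R ^ 2 := by
  have h1 := cnt R p
  have h2 := (LF_ss hp).1
  have h3 := m1_pos p
  have h4 := m2_pos p
  have h5 : ss p = m1 p + m2 p := rfl
  have h6 : K ≤ 2 * (m1 p * m2 p) := by
    rw [h5] at h2
    nlinarith
  calc {q : List Bool | p <:+ q ∧ ss q ≤ R}.ncard * K
      ≤ {q : List Bool | p <:+ q ∧ ss q ≤ R}.ncard * (2 * (m1 p * m2 p)) :=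
        Nat.mul_le_mul_left _ h6
    _ = 2 * ({q : List Bool | p <:+ q ∧ ss q ≤ R}.ncard * (m1 p * m2 p)) := by ring
    _ ≤ 2 * R ^ 2 := Nat.mul_le_mul_left _ h1

theorem fibre_le {α β : Type*} {S : Set α} {T : Set β} (f : α → β) (hS : S.Finite) (hT : T.Finite)
    (h : ∀ x ∈ S, f x ∈ T) {B : ℕ} (hB : ∀ t ∈ T, {x | x ∈ S ∧ f x = t}.ncard ≤ B) :
    S.ncard ≤ T.ncard * B := by
  classical
  rw [Set.ncard_eq_toFinset_card S hS, Set.ncard_eq_toFinset_card T hT]
  have h1 : hS.toFinset.card ≤ B * (hS.toFinset.image f).card := by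
    refine Finset.card_le_mul_card_image hS.toFinset B fun t ht => ?_
    obtain ⟨x, hx, rfl⟩ := Finset.mem_image.1 ht
    have h2 := hB (f x) (h x ((Set.Finite.mem_toFinset hS).1 hx))
    have h3 : {y | y ∈ S ∧ f y = f x} =
        ((hS.toFinset.filter fun y => f y = f x : Finset α) : Set α) := by
      ext y
      rw [Finset.mem_coe, Finset.mem_filter, Set.Finite.mem_toFinset]
      exact Iff.rfl
    rw [h3, Set.ncard_coe_finset] at h2
    exact h2
  have h2 : (hS.toFinset.image f).card ≤ hT.toFinset.card := by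
    refine Finset.card_le_card fun t ht => ?_
    obtain ⟨x, hx, rfl⟩ := Finset.mem_image.1 ht
    exact (Set.Finite.mem_toFinset hT).2 (h x ((Set.Finite.mem_toFinset hS).1 hx))
  calc hS.toFinset.card ≤ B * (hS.toFinset.image f).card := h1
    _ ≤ B * hT.toFinset.card := Nat.mul_le_mul_left _ h2
    _ = hT.toFinset.card * B := Nat.mul_comm _ _

end Pool.Agent.Lib.MP_94ab62_ntU
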