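import Pool.Agent.Lib.MP_94ab62_nt.Path
import Pool.Agent.Lib.MP_94ab62_nt.Stmt

/-!
# Almost all Markoff numbers are unique: definitions

Paths are lists of Booleans with the LAST step FIRST: the children of `p` are `true :: p` and `false :: p`, the
ancestors of `p` are its suffixes (`c <:+ p`).
-/

set_option autoImplicit false

namespace Pool.Agent.Lib.MP_94ab62_ntU

open Pool.Agent.Lib.MP_94ab62_nt

/-- the node (Markoff triple) reached by `p` from `root = (1,2,5)` -/
def tn : List Bool → Nd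
  | [] => root
  | true :: p => lc (tn p)
  | false :: p => rc (tn p)

/-- its largest entry -/
def zz (p : List Bool) : ℕ := (tn p).2.2

/-- the basis of `ℤ²` attached to `p` -/
def bs : List Bool → (ℤ × ℤ) × (ℤ × ℤ)
  | [] => ((1, 0), (0, 1))
  | true :: p => ((bs p).1, (bs p).1 + (bs p).2)
  | false :: p => ((bs p).1 + (bs p).2, (bs p).2)

def g1 (p : List Bool) : ℤ × ℤ := (bs p).1
def g2 (p : List Bool) : ℤ × ℤ := (bs p).2

/-- the primitive vector attached to `p` -/
def uu (p : List Bool) : ℤ × ℤ := g1 p + g2 p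

/-- `ℓ¹` norms of `g1 p`, `g2 p` -/
def mm : List Bool → ℕ × ℕ
  | [] => (1, 1)
  | true :: p => ((mm p).1, (mm p).1 + (mm p).2)
  | false :: p => ((mm p).1 + (mm p).2, (mm p).2)

def m1 (p : List Bool) : ℕ := (mm p).1
def m2 (p : List Bool) : ℕ := (mm p).2

/-- `ℓ¹` norm of `uu p` -/
def ss (p : List Bool) : ℕ := m1 p + m2 p

def det (v w : ℤ × ℤ) : ℤ := v.1 * w.2 - v.2 * w.1

/-- `ℓ¹` norm, real valued -/
noncomputable def nm (v : ℤ × ℤ) : ℝ := |(v.1 : ℝ)| + |(v.2 : ℝ)|

/-- defect -/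
noncomputable def ee (p : List Bool) : ℝ := ep (tn p)

/-- length of `uu p` -/
noncomputable def ll (p : List Bool) : ℝ := fc (tn p)

noncomputable def ww (p : List Bool) : ℝ := ee p * ss p

/-- the linear functional with the values `fa`, `fb` on the basis `g1 p`, `g2 p` -/
noncomputable def LL (p : List Bool) (v : ℤ × ℤ) : ℝ :=
  fa (tn p) * (det v (g2 p) : ℝ) + fb (tn p) * (det (g1 p) v : ℝ)

/-- good nodes -/
def Gd (R : ℕ) (p : List Bool) : Prop :=
  20 * Real.log R ≤ fa (tn p) ∧ 20 * Real.log R ≤ fb (tn p)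

/-- the shortest suffix with `K ≤ ss` -/
def cut (K : ℕ) : List Bool → List Bool
  | [] => []
  | b :: p => if K ≤ ss p then cut K p else b :: p

/-- the leaves of level `K` -/
def LF (K : ℕ) : Set (List Bool) := {p | ∃ b c, p = b :: c ∧ ss c < K ∧ K ≤ ss p}

/-- integer matrices (by rows) -/
abbrev Mt := (ℤ × ℤ) × (ℤ × ℤ)

def ap (M : Mt) (v : ℤ × ℤ) : ℤ × ℤ := (M.1.1 * v.1 + M.1.2 * v.2, M.2.1 * v.1 + M.2.2 * v.2)

def dM (M : Mt) : ℤ := M.1.1 * M.2.2 - M.1.2 * M.2.1

/-- a coincidence: different nodes with the same largest entry -/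
def Pr (R : ℕ) (p q : List Bool) : Prop := p ≠ q ∧ zz p = zz q ∧ ss p ≤ R ∧ ss q ≤ R

/-- nondegenerate: no small covector kernel vector -/
def ND (A τ : ℝ) (P : List Bool) : Prop := ∀ k : ℤ × ℤ, k ≠ 0 → nm k ≤ A → τ < |LL P k|

end Pool.Agent.Lib.MP_94ab62_ntU
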