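import Pool.Agent.Lib.MP_94ab62_ntU.Len
import Pool.Agent.Lib.MP_94ab62_ntU.BasisB

/-!
# FUNC: the linear functionals `LL p`

* `LL_g1`, `LL_g2`, `LL_uu`: `det (g1 p) (g2 p) = 1`, `det_self`.
* `LL_true`: `LL (true :: p)` and `LL p - ee p * det (g1 p) ·` are linear functionals; directly:
  `LL (true :: p) v = fa * det v (g1 p + g2 p) + ll p * det (g1 p) v`, `ll p = fa + fb - ee p`, and
  `det v (g1 p) = - det (g1 p) v`.  Similarly `LL_false`.
* `LL_diff`: induction on `r` for `p = r ++ c`, of the stronger `|LL p v - LL c v| ≤ (2 * ww c - 2 * ww p) * nm v`: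
  one step changes `LL` by at most `ee p * ss p * nm v = ww p * nm v` (`det_le`, `nm_g1 ≤ ss`) and `ww (b :: p) ≤ ww p / 2`.
* `ll_app`: `ll p = LL p (uu p) - ee p`, `LL_diff` with `v = uu p`, `nm (uu p) = ss p`, `ee p ≤ ww c`... (`ee p ≤ ww p ≤ ww c`,
  `1 ≤ ss p`).
* `LL_pos`: `LL p v ≥ LL [] v - 2 ww [] nm v`, `LL [] v = fa root * v.1 + fb root * v.2`, `ww [] = 2 * ep root ≤ 1/10`,
  `fa root, fb root ≥ 0.95`.
* `LL_det`: let `λ = LL p (1,0)`, `μ = LL p (0,1)`: `λ * det k k' = LL k * k'.2 - LL k' * k.2`, `λ ≥ 7/10`; if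
  `det k k' ≠ 0` then `7/10 ≤ 2 A τ`.
-/

set_option autoImplicit false

namespace Pool.Agent.Lib.MP_94ab62_ntU

open Pool.Agent.Lib.MP_94ab62_nt

theorem LL_add (p : List Bool) (v w : ℤ × ℤ) : LL p (v + w) = LL p v + LL p w := by
  unfold LL
  rw [det_add_left, det_add_right]
  push_cast
  ring

theorem LL_sub (p : List Bool) (v w : ℤ × ℤ) : LL p (v - w) = LL p v - LL p w := by
  unfold LL det
  simp only [Prod.fst_sub, Prod.snd_sub]
  push_cast
  ring

theorem LL_smul (p : List Bool) (a : ℤ) (v : ℤ × ℤ) : LL p (a • v) = a * LL p v := by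
  unfold LL
  rw [det_smul_left, det_smul_right]
  push_cast
  ring

theorem LL_g1 (p : List Bool) : LL p (g1 p) = fa (tn p) := by
  unfold LL
  rw [det_g, det_self]
  push_cast
  ring

theorem LL_g2 (p : List Bool) : LL p (g2 p) = fb (tn p) := by
  unfold LL
  rw [det_g, det_self]
  push_cast
  ring

theorem LL_uu (p : List Bool) : LL p (uu p) = ll p + ee p := by
  have h := ll_eq p
  rw [show uu p = g1 p + g2 p from rfl, LL_add, LL_g1, LL_g2]
  linarith

theorem LL_true (p : List Bool) (v : ℤ × ℤ) : LL (true :: p) v = LL p v - ee p * (det (g1 p) v : ℝ) := by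
  have h : LL (true :: p) v = fa (tn p) * (det v (g1 p + g2 p) : ℝ) + ll p * (det (g1 p) v : ℝ) := rfl
  rw [h, ll_eq p, det_add_right, det_swap v (g1 p)]
  unfold LL
  push_cast
  ring

theorem LL_false (p : List Bool) (v : ℤ × ℤ) : LL (false :: p) v = LL p v - ee p * (det v (g2 p) : ℝ) := by
  have h : LL (false :: p) v = ll p * (det v (g2 p) : ℝ) + fb (tn p) * (det (g1 p + g2 p) v : ℝ) := rfl
  rw [h, ll_eq p, det_add_left, det_swap (g2 p) v]
  unfold LL
  push_cast
  ring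

private theorem func_m1_le (p : List Bool) : (m1 p : ℝ) ≤ ss p := by
  have h : m1 p ≤ ss p := Nat.le_add_right _ _
  exact_mod_cast h

private theorem func_m2_le (p : List Bool) : (m2 p : ℝ) ≤ ss p := by
  have h : m2 p ≤ ss p := Nat.le_add_left _ _
  exact_mod_cast h

private theorem func_step (b : Bool) (q : List Bool) (v : ℤ × ℤ) :
    |LL (b :: q) v - LL q v| ≤ ww q * nm v := by
  have he := (ee_pos q).le
  have hn := nm_nonneg v
  cases b with
  | true =>
    rw [LL_true, show LL q v - ee q * (det (g1 q) v : ℝ) - LL q v = -(ee q * (det (g1 q) v : ℝ)) by ring,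
      abs_neg, abs_mul, abs_of_nonneg he]
    have h1 := det_le (g1 q) v
    rw [nm_g1] at h1
    have h2 : (m1 q : ℝ) * nm v ≤ ss q * nm v := mul_le_mul_of_nonneg_right (func_m1_le q) hn
    calc ee q * |(det (g1 q) v : ℝ)| ≤ ee q * (ss q * nm v) :=
          mul_le_mul_of_nonneg_left (h1.trans h2) he
      _ = ww q * nm v := by
          unfold ww
          ring
  | false =>
    rw [LL_false, show LL q v - ee q * (det v (g2 q) : ℝ) - LL q v = -(ee q * (det v (g2 q) : ℝ)) by ring,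
      abs_neg, abs_mul, abs_of_nonneg he]
    have h1 := det_le v (g2 q)
    rw [nm_g2] at h1
    have h2 : nm v * (m2 q : ℝ) ≤ nm v * ss q := mul_le_mul_of_nonneg_left (func_m2_le q) hn
    calc ee q * |(det v (g2 q) : ℝ)| ≤ ee q * (nm v * ss q) :=
          mul_le_mul_of_nonneg_left (h1.trans h2) he
      _ = ww q * nm v := by
          unfold ww
          ring

private theorem func_diff (c r : List Bool) (v : ℤ × ℤ) :
    |LL (r ++ c) v - LL c v| ≤ (2 * ww c - 2 * ww (r ++ c)) * nm v := by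
  induction r with
  | nil =>
    rw [List.nil_append, sub_self, sub_self, abs_zero, zero_mul]
  | cons b r ih =>
    rw [List.cons_append]
    have h1 := func_step b (r ++ c) v
    have h2 := ww_cons_le b (r ++ c)
    have hn := nm_nonneg v
    have h3 : |LL (b :: (r ++ c)) v - LL c v| ≤
        |LL (b :: (r ++ c)) v - LL (r ++ c) v| + |LL (r ++ c) v - LL c v| := abs_sub_le _ _ _
    have h4 : ww (r ++ c) * nm v + (2 * ww c - 2 * ww (r ++ c)) * nm v ≤
        (2 * ww c - 2 * ww (b :: (r ++ c))) * nm v := by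
      rw [← add_mul]
      refine mul_le_mul_of_nonneg_right ?_ hn
      linarith
    linarith

theorem LL_diff {c p : List Bool} (h : c <:+ p) (v : ℤ × ℤ) :
    |LL p v - LL c v| ≤ 2 * ww c * nm v := by
  obtain ⟨r, rfl⟩ := h
  refine (func_diff c r v).trans (mul_le_mul_of_nonneg_right ?_ (nm_nonneg v))
  have h1 := ww_pos (r ++ c)
  linarith

private theorem func_ss_ge (p : List Bool) : (1 : ℝ) ≤ ss p := by
  have h : 1 ≤ ss p := le_trans (by norm_num) (ss_ge p)
  exact_mod_cast h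

private theorem func_ee_le_ww (p : List Bool) : ee p ≤ ww p := by
  unfold ww
  exact le_mul_of_one_le_right (ee_pos p).le (func_ss_ge p)

/-- the length of `uu p` is close to the value of the functional of any ancestor -/
theorem ll_app {c p : List Bool} (h : c <:+ p) : |ll p - LL c (uu p)| ≤ 3 * ww c * ss p := by
  have h1 := LL_diff h (uu p)
  rw [nm_uu] at h1
  have h2 := LL_uu p
  have h3 := func_ee_le_ww p
  have h4 := ww_suffix h
  have h5 : ww c * 1 ≤ ww c * ss p := mul_le_mul_of_nonneg_left (func_ss_ge p) (ww_pos c).le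
  have h6 := (ee_pos p).le
  rw [abs_le] at h1 ⊢
  constructor
  · linarith [h1.1]
  · linarith [h1.2]

/-- the length of `uu c` is close to the value of the functional of any descendant -/
theorem ll_app' {c p : List Bool} (h : c <:+ p) : |ll c - LL p (uu c)| ≤ 3 * ww c * ss c := by
  have h1 := LL_diff h (uu c)
  rw [nm_uu] at h1
  have h2 := LL_uu c
  have h3 := func_ee_le_ww c
  have h5 : ww c * 1 ≤ ww c * ss c := mul_le_mul_of_nonneg_left (func_ss_ge c) (ww_pos c).le
  have h6 := (ee_pos c).le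
  rw [abs_le] at h1 ⊢
  constructor
  · linarith [h1.2]
  · linarith [h1.1]

theorem LL_pos (p : List Bool) {v : ℤ × ℤ} (h1 : 0 ≤ v.1) (h2 : 0 ≤ v.2) : 7 / 10 * nm v ≤ LL p v := by
  have h3 := LL_diff (List.nil_suffix (l := p)) v
  have h4 : LL [] v = F 1 * (v.1 : ℝ) + F 2 * (v.2 : ℝ) := by
    have e1 : LL [] v = F 1 * (det v (0, 1) : ℝ) + F 2 * (det (1, 0) v : ℝ) := rfl
    rw [e1]
    unfold det
    push_cast
    ring
  have h5 : ww [] ≤ 1 / 10 := by
    have e1 := ee_small []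
    have e2 : ww [] = ee [] * ((2 : ℕ) : ℝ) := rfl
    rw [e2]
    push_cast
    linarith
  have h6 := F_one.1
  have h7 := F_two.1
  have h1' : (0 : ℝ) ≤ (v.1 : ℝ) := by exact_mod_cast h1
  have h2' : (0 : ℝ) ≤ (v.2 : ℝ) := by exact_mod_cast h2
  have h8 : nm v = (v.1 : ℝ) + (v.2 : ℝ) := by
    unfold nm
    rw [abs_of_nonneg h1', abs_of_nonneg h2']
  have h9 : ww [] * nm v ≤ 1 / 10 * nm v := mul_le_mul_of_nonneg_right h5 (nm_nonneg v)
  have h10 : 24 / 25 * (v.1 : ℝ) ≤ F 1 * (v.1 : ℝ) := mul_le_mul_of_nonneg_right h6 h1'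
  have h11 : 7 / 4 * (v.2 : ℝ) ≤ F 2 * (v.2 : ℝ) := mul_le_mul_of_nonneg_right h7 h2'
  rw [abs_le] at h3
  have h12 := h3.1
  rw [h4] at h12
  rw [h8] at h9 h12 ⊢
  linarith

theorem LL_det {p : List Bool} {k k' : ℤ × ℤ} {A τ : ℝ} (hk : nm k ≤ A) (hk' : nm k' ≤ A)
    (h1 : |LL p k| ≤ τ) (h2 : |LL p k'| ≤ τ) (h : 2 * A * τ < 7 / 10) : det k k' = 0 := by
  have hdec : ∀ v : ℤ × ℤ, LL p v = v.1 * LL p (1, 0) + v.2 * LL p (0, 1) := by
    intro v
    rw [← LL_smul, ← LL_smul, ← LL_add]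
    congr 1
    refine Prod.ext ?_ ?_
    · simp
    · simp
  have hτ : 0 ≤ τ := (abs_nonneg _).trans h1
  have hl : 7 / 10 ≤ LL p (1, 0) := by
    have e1 := LL_pos p (v := (1, 0)) (by norm_num) (by norm_num)
    have e2 : nm (1, 0) = 1 := by
      unfold nm
      norm_num
    rw [e2, mul_one] at e1
    exact e1
  have hid : LL p (1, 0) * (det k k' : ℝ) = LL p k * (k'.2 : ℝ) - LL p k' * (k.2 : ℝ) := by
    rw [hdec k, hdec k']
    unfold det
    push_cast
    ring
  by_contra hne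
  have h3 : (1 : ℝ) ≤ |(det k k' : ℝ)| := by
    have e1 : 1 ≤ |det k k'| := Int.one_le_abs hne
    rw [← Int.cast_abs]
    exact_mod_cast e1
  have h4 : |(k'.2 : ℝ)| ≤ A := by
    refine le_trans ?_ hk'
    unfold nm
    have e1 := abs_nonneg (k'.1 : ℝ)
    linarith
  have h5 : |(k.2 : ℝ)| ≤ A := by
    refine le_trans ?_ hk
    unfold nm
    have e1 := abs_nonneg (k.1 : ℝ)
    linarith
  have h6 : |LL p k * (k'.2 : ℝ) - LL p k' * (k.2 : ℝ)| ≤ τ * A + τ * A := by
    refine (abs_sub _ _).trans ?_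
    rw [abs_mul, abs_mul]
    exact add_le_add (mul_le_mul h1 h4 (abs_nonneg _) hτ) (mul_le_mul h2 h5 (abs_nonneg _) hτ)
  rw [← hid, abs_mul] at h6
  have h7 : 7 / 10 * 1 ≤ |LL p (1, 0)| * |(det k k' : ℝ)| :=
    mul_le_mul (hl.trans (le_abs_self _)) h3 zero_le_one (abs_nonneg _)
  linarith

private theorem func_ww_good {R : ℕ} (hR : 1 ≤ R) {c : List Bool} (b : Bool) (hg : Gd R c)
    (hs : ss c ≤ R) : ww (b :: c) ≤ 4 / (R : ℝ) ^ 39 * ee c := by
  have hR0 : (0 : ℝ) < (R : ℝ) := by exact_mod_cast hR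
  have h1 := ee_cons_good hR hg b
  have h2 : (ss (b :: c) : ℝ) ≤ 2 * R := by
    have e1 := ss_cons_lt_two b c
    have e2 : ss (b :: c) ≤ 2 * R := by omega
    exact_mod_cast e2
  have h3 : (0 : ℝ) ≤ ss (b :: c) := Nat.cast_nonneg _
  have h4 : 0 ≤ 2 / (R : ℝ) ^ 40 * ee c := mul_nonneg (by positivity) (ee_pos c).le
  calc ww (b :: c) = ee (b :: c) * ss (b :: c) := rfl
    _ ≤ (2 / (R : ℝ) ^ 40 * ee c) * (2 * R) := mul_le_mul h1 h2 h3 h4
    _ = 4 / (R : ℝ) ^ 39 * ee c := by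
        have e1 : (R : ℝ) ^ 40 = (R : ℝ) ^ 39 * R := pow_succ _ _
        rw [e1]
        field_simp
        ring

/-- two incomparable functionals: the difference is a multiple of `det · (uu c)` with the multiple `ee c`.
`LL p - LL p' = (LL p - LL (true::c)) - (LL p' - LL (false::c)) + (LL (true::c) - LL (false::c))` and
`LL (true::c) v - LL (false::c) v = ee c * (det v (g2 c) - det (g1 c) v) = ee c * det v (uu c)`; the two other differences are
at most `2 * ww (b::c) * nm v`, `ww (b::c) = ee (b::c) * ss (b::c) ≤ 2/R^40 * ee c * 2 * R`. -/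
theorem divergence {R : ℕ} (hR : 1 ≤ R) {c p p' : List Bool} (hg : Gd R c) (hs : ss c ≤ R)
    (h1 : (true :: c) <:+ p) (h2 : (false :: c) <:+ p') (v : ℤ × ℤ) :
    |LL p v - LL p' v - ee c * (det v (uu c) : ℝ)| ≤ 16 / (R : ℝ) ^ 39 * ee c * nm v := by
  have hn := nm_nonneg v
  have h3 := LL_diff h1 v
  have h4 := LL_diff h2 v
  have h5 : LL (true :: c) v - LL (false :: c) v = ee c * (det v (uu c) : ℝ) := by
    rw [LL_true, LL_false, show uu c = g1 c + g2 c from rfl, det_add_right, det_swap (g1 c) v]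
    push_cast
    ring
  have h6 : ww (true :: c) * nm v ≤ 4 / (R : ℝ) ^ 39 * ee c * nm v :=
    mul_le_mul_of_nonneg_right (func_ww_good hR true hg hs) hn
  have h7 : ww (false :: c) * nm v ≤ 4 / (R : ℝ) ^ 39 * ee c * nm v :=
    mul_le_mul_of_nonneg_right (func_ww_good hR false hg hs) hn
  have h8 : 16 / (R : ℝ) ^ 39 * ee c * nm v = 4 * (4 / (R : ℝ) ^ 39 * ee c * nm v) := by ring
  rw [abs_le] at h3 h4 ⊢
  constructor
  · linarith [h3.1, h4.2]
  · linarith [h3.2, h4.1]

/-- sign version: `b` is the step towards `p` -/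
theorem divergence' {R : ℕ} (hR : 1 ≤ R) {c p p' : List Bool} {b : Bool} (hg : Gd R c) (hs : ss c ≤ R)
    (h1 : (b :: c) <:+ p) (h2 : ((!b) :: c) <:+ p') :
    ∃ σ : ℝ, |σ| = 1 ∧ ∀ v : ℤ × ℤ,
      |LL p v - LL p' v - σ * (ee c * (det v (uu c) : ℝ))| ≤ 16 / (R : ℝ) ^ 39 * ee c * nm v := by
  cases b with
  | true =>
    refine ⟨1, abs_one, fun v => ?_⟩
    rw [one_mul]
    exact divergence hR hg hs h1 h2 v
  | false =>
    refine ⟨-1, by rw [abs_neg, abs_one], fun v => ?_⟩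
    have h3 := divergence hR hg hs h2 h1 v
    rw [← abs_neg] at h3
    rw [show LL p v - LL p' v - -1 * (ee c * (det v (uu c) : ℝ)) =
      -(LL p' v - LL p v - ee c * (det v (uu c) : ℝ)) by ring]
    exact h3

end Pool.Agent.Lib.MP_94ab62_ntU
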