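import Pool.Agent.Lib.MP_94ab62_ntU.CutU
import Pool.Agent.Lib.MP_94ab62_ntU.Func

/-!
# DEG: degenerate nodes under a good node lie under one leaf

`A = 3 R³`, `τ = 144 R³ e^(-K)`, `5 K2 ≤ K`, `e^(K2) ≥ R^100`.
* `deg_unique`: suppose `cut K2 P ≠ cut K2 P'`; both are in `LF K2` and incomparable (`LF_incomp`), so they diverge at `c`
  (`diverge`), `ss c < K2` (`c` is a proper suffix of a leaf), `p0 <:+ c` (`suffix_meet`), so `c` is good (`Gd_suffix`), and `divergence'`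
  applies to `P`, `P'` (`cut K2 P <:+ P`).  Let `k`, `k'` be the vectors given by `¬ ND`: nonzero, `nm ≤ A`, `|LL P k| ≤ τ`, `|LL P' k'| ≤ τ`.
  1. `|LL P k'| ≤ |LL P' k'| + ee c |det k' (uu c)| + 16/R^39 ee c nm k' ≤ τ + 4 R⁴ ee c ≤ τ + 32 / R^76` (`det_le`, `nm_uu`, `ss c ≤ R`,
     `ee_good_small`), and `2 A (τ + 32/R^76) < 7/10`; `LL_det`: `det k k' = 0`.
  2. So there are nonzero integers `m, m'` with `|m|, |m'| ≤ A` and `m • k = m' • k'` (if `k.1 ≠ 0` then `k'.1 ≠ 0`, take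
     `m = k'.1`, `m' = k.1`; else use the second coordinates).  `κ := m • k` is nonzero, `nm κ ≤ A²`,
     `|LL P κ| ≤ A τ`, `|LL P' κ| ≤ A τ`.
  3. `ee c |det κ (uu c)| ≤ 2 A τ + 16/R^39 ee c A²`; `16 A²/R^39 ≤ 1/2`.  If `det κ (uu c) ≠ 0` it is at least `1` in absolute value, so
     `ee c ≤ 4 A τ = 1728 R⁶ e^(-K) ≤ 1728 R⁶ e^(-5 K2)`, but `ee c ≥ e^(-3.6 ss c) ≥ e^(-3.6 K2)` (`ee_ge`), and
     `e^(1.4 K2) ≥ e^(K2) ≥ R^100 > 1728 R⁶`: contradiction.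
  4. So `det κ (uu c) = 0`, `κ = j • uu c` (`solve_uu`), `j ≠ 0`, `|LL P (uu c)| ≤ |LL P κ| ≤ A τ < 7/10`, but
     `LL P (uu c) ≥ 7/10 * nm (uu c) ≥ 7/5` (`LL_pos`, `uu_pos`): contradiction.
* `deg_count`: for `q` in the set put `p0 = cut K1 q ∈ LF K1`, `P = cut K q`; `cut K2 q = cut K2 P` (`cut_le`), and for fixed `p0` all
  these are the same leaf `H ∈ LF K2` by `deg_unique`, so by `cnt_LF` the number `n` of `q` with `cut K1 q = p0` satisfies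
  `n * K2 ≤ 2 R²`; `LF_card`: at most `4 K1²` leaves `p0`; `fibre_le` with `B = 2 R² / K2` (natural division) or similar.
-/

set_option autoImplicit false

namespace Pool.Agent.Lib.MP_94ab62_ntU

open Pool.Agent.Lib.MP_94ab62_nt

private theorem deg_exp {K2 K : ℕ} (h5 : 5 * K2 ≤ K) :
    Real.exp (-(K : ℝ)) ≤ Real.exp (-(5 * (K2 : ℝ))) := by
  apply Real.exp_le_exp.2
  have : ((5 * K2 : ℕ) : ℝ) ≤ (K : ℝ) := by exact_mod_cast h5
  push_cast at this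
  linarith

private theorem deg_exp' {r : ℝ} {K2 K : ℕ} (hr : 10 ≤ r) (h5 : 5 * K2 ≤ K)
    (h100 : r ^ 100 ≤ Real.exp (K2 : ℝ)) : Real.exp (-(K : ℝ)) ≤ 1 / r ^ 100 := by
  have hr0 : 0 < r := by linarith
  refine (deg_exp h5).trans ?_
  have h1 : Real.exp (-(5 * (K2 : ℝ))) ≤ Real.exp (-(K2 : ℝ)) := by
    apply Real.exp_le_exp.2
    have : (0 : ℝ) ≤ (K2 : ℝ) := Nat.cast_nonneg _
    linarith
  refine h1.trans ?_
  rw [Real.exp_neg, ← one_div]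
  exact one_div_le_one_div_of_le (by positivity) h100

private theorem deg_pow {r : ℝ} (hr : 10 ≤ r) (a b : ℕ) (h : a ≤ b) : r ^ a ≤ r ^ b :=
  pow_le_pow_right₀ (by linarith) h

private theorem deg_tau {r : ℝ} {K2 K : ℕ} (hr : 10 ≤ r) (h5 : 5 * K2 ≤ K)
    (h100 : r ^ 100 ≤ Real.exp (K2 : ℝ)) : 144 * r ^ 3 * Real.exp (-(K : ℝ)) ≤ 1 / r ^ 20 := by
  have hr0 : 0 < r := by linarith
  have h1 : 144 * r ^ 3 * Real.exp (-(K : ℝ)) ≤ 144 * r ^ 3 * (1 / r ^ 100) :=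
    mul_le_mul_of_nonneg_left (deg_exp' hr h5 h100) (by positivity)
  refine h1.trans ?_
  rw [mul_one_div, div_le_div_iff₀ (by positivity) (by positivity), one_mul]
  have h2 : (144 : ℝ) ≤ r ^ 3 := by
    have : (10 : ℝ) ^ 3 ≤ r ^ 3 := pow_le_pow_left₀ (by norm_num) hr 3
    linarith
  calc 144 * r ^ 3 * r ^ 20 ≤ r ^ 3 * r ^ 3 * r ^ 20 := by
        refine mul_le_mul_of_nonneg_right (mul_le_mul_of_nonneg_right h2 ?_) ?_ <;> positivity
    _ = r ^ 26 := by ring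
    _ ≤ r ^ 100 := deg_pow hr _ _ (by norm_num)

private theorem deg_sm {r : ℝ} (hr : 10 ≤ r) : 8 / r ^ 80 ≤ 1 / r ^ 20 := by
  have hr0 : 0 < r := by linarith
  rw [div_le_div_iff₀ (by positivity) (by positivity), one_mul]
  calc 8 * r ^ 20 ≤ r * r ^ 20 := mul_le_mul_of_nonneg_right (by linarith) (by positivity)
    _ = r ^ 21 := by ring
    _ ≤ r ^ 80 := deg_pow hr _ _ (by norm_num)

private theorem deg_c1 {r : ℝ} (hr : 10 ≤ r) : 16 / r ^ 39 * (3 * r ^ 3) ≤ 1 := by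
  have hr0 : 0 < r := by linarith
  rw [div_mul_eq_mul_div, div_le_one (by positivity)]
  have h2 : (48 : ℝ) ≤ r ^ 2 := by nlinarith
  calc 16 * (3 * r ^ 3) = 48 * r ^ 3 := by ring
    _ ≤ r ^ 2 * r ^ 3 := mul_le_mul_of_nonneg_right h2 (by positivity)
    _ = r ^ 5 := by ring
    _ ≤ r ^ 39 := deg_pow hr _ _ (by norm_num)

private theorem deg_c2 {r : ℝ} (hr : 10 ≤ r) : 16 / r ^ 39 * (3 * r ^ 3 * (3 * r ^ 3)) ≤ 1 / 2 := by
  have hr0 : 0 < r := by linarith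
  rw [div_mul_eq_mul_div, div_le_div_iff₀ (by positivity) (by norm_num)]
  have h2 : (288 : ℝ) ≤ r ^ 3 := by
    have : (10 : ℝ) ^ 3 ≤ r ^ 3 := pow_le_pow_left₀ (by norm_num) hr 3
    linarith
  calc 16 * (3 * r ^ 3 * (3 * r ^ 3)) * 2 = 288 * r ^ 6 := by ring
    _ ≤ r ^ 3 * r ^ 6 := mul_le_mul_of_nonneg_right h2 (by positivity)
    _ = r ^ 9 := by ring
    _ ≤ r ^ 39 := deg_pow hr _ _ (by norm_num)
    _ = 1 * r ^ 39 := (one_mul _).symm

private theorem deg_c3 {r : ℝ} (hr : 10 ≤ r) : 30 * r ^ 7 * (1 / r ^ 20) < 7 / 10 := by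
  have hr0 : 0 < r := by linarith
  rw [mul_one_div, div_lt_div_iff₀ (by positivity) (by norm_num)]
  have h2 : (300 : ℝ) < 7 * r ^ 2 := by nlinarith
  calc 30 * r ^ 7 * 10 = 300 * r ^ 7 := by ring
    _ < 7 * r ^ 2 * r ^ 7 := mul_lt_mul_of_pos_right h2 (by positivity)
    _ = 7 * r ^ 9 := by ring
    _ ≤ 7 * r ^ 20 := mul_le_mul_of_nonneg_left (deg_pow hr _ _ (by norm_num)) (by norm_num)

private theorem deg_c4 {r : ℝ} (hr : 10 ≤ r) : 3 * r ^ 3 * (1 / r ^ 20) < 7 / 5 := by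
  have hr0 : 0 < r := by linarith
  have h1 := deg_c3 hr
  have h2 : 3 * r ^ 3 ≤ 30 * r ^ 7 := by
    have : r ^ 3 ≤ r ^ 7 := deg_pow hr _ _ (by norm_num)
    have : 0 < r ^ 3 := by positivity
    linarith
  have h3 : 3 * r ^ 3 * (1 / r ^ 20) ≤ 30 * r ^ 7 * (1 / r ^ 20) :=
    mul_le_mul_of_nonneg_right h2 (by positivity)
  linarith

private theorem deg_par {k k' : ℤ × ℤ} (hk : k ≠ 0) (hk' : k' ≠ 0) (h : det k k' = 0) :
    ∃ m m' : ℤ, m ≠ 0 ∧ m' ≠ 0 ∧ m • k = m' • k' ∧ |(m : ℝ)| ≤ nm k' ∧ |(m' : ℝ)| ≤ nm k := by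
  have h1 : k.1 * k'.2 = k.2 * k'.1 := by
    unfold det at h
    linarith
  have e1 : ∀ v : ℤ × ℤ, |(v.1 : ℝ)| ≤ nm v := fun v => by
    unfold nm
    have := abs_nonneg (v.2 : ℝ)
    linarith
  have e2 : ∀ v : ℤ × ℤ, |(v.2 : ℝ)| ≤ nm v := fun v => by
    unfold nm
    have := abs_nonneg (v.1 : ℝ)
    linarith
  by_cases h0 : k.1 = 0
  · have h2 : k.2 ≠ 0 := fun h2 => hk (Prod.ext h0 h2)
    have h3 : k'.1 = 0 := by
      rw [h0, zero_mul] at h1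
      rcases mul_eq_zero.1 h1.symm with h4 | h4
      · exact absurd h4 h2
      · exact h4
    have h4 : k'.2 ≠ 0 := fun h4 => hk' (Prod.ext h3 h4)
    refine ⟨k'.2, k.2, h4, h2, ?_, e2 k', e2 k⟩
    refine Prod.ext ?_ ?_
    · simp only [Prod.smul_fst, smul_eq_mul]
      rw [h0, h3, mul_zero, mul_zero]
    · simp only [Prod.smul_snd, smul_eq_mul]
      exact mul_comm _ _
  · have h3 : k'.1 ≠ 0 := by
      intro h3
      rw [h3, mul_zero] at h1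
      rcases mul_eq_zero.1 h1 with h4 | h4
      · exact h0 h4
      · exact hk' (Prod.ext h3 h4)
    refine ⟨k'.1, k.1, h3, h0, ?_, e1 k', e1 k⟩
    refine Prod.ext ?_ ?_
    · simp only [Prod.smul_fst, smul_eq_mul]
      exact mul_comm _ _
    · simp only [Prod.smul_snd, smul_eq_mul]
      rw [h1]
      exact mul_comm _ _

private theorem deg_core {R K2 K : ℕ} (hR : 10 ≤ R) (hK2R : K2 ≤ R) (h5 : 5 * K2 ≤ K)
    (h100 : (R : ℝ) ^ 100 ≤ Real.exp (K2 : ℝ)) {c P P' : List Bool} {b : Bool} (hg : Gd R c)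
    (hc : ss c < K2) (h1 : (b :: c) <:+ P) (h2 : ((!b) :: c) <:+ P')
    (hN : ¬ ND (3 * (R : ℝ) ^ 3) (144 * (R : ℝ) ^ 3 * Real.exp (-(K : ℝ))) P)
    (hN' : ¬ ND (3 * (R : ℝ) ^ 3) (144 * (R : ℝ) ^ 3 * Real.exp (-(K : ℝ))) P') : False := by
  have hr : (10 : ℝ) ≤ (R : ℝ) := by exact_mod_cast hR
  have hR1 : 1 ≤ R := by omega
  have hcR : ss c ≤ R := by omega
  obtain ⟨σ, hσ, hdiv⟩ := divergence' hR1 hg hcR h1 h2
  unfold ND at hN hN'
  push Not at hN hN'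
  obtain ⟨k, hk0, hkA, hk⟩ := hN
  obtain ⟨k', hk0', hkA', hk'⟩ := hN'
  have htau := deg_tau hr h5 h100
  have heps := ee_good_small hR1 hg
  have hepos := ee_pos c
  have hege := ee_ge c
  have hsm := deg_sm hr
  have hc1 := deg_c1 hr
  have hc2 := deg_c2 hr
  have hc3 := deg_c3 hr
  have hc4 := deg_c4 hr
  have hlast : 1728 * (R : ℝ) ^ 6 < (R : ℝ) ^ 100 := by
    have h3 : (1728 : ℝ) < (R : ℝ) ^ 4 := by
      have : (10 : ℝ) ^ 4 ≤ (R : ℝ) ^ 4 := pow_le_pow_left₀ (by norm_num) hr 4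
      linarith
    calc 1728 * (R : ℝ) ^ 6 < (R : ℝ) ^ 4 * (R : ℝ) ^ 6 :=
          mul_lt_mul_of_pos_right h3 (by positivity)
      _ = (R : ℝ) ^ 10 := by ring
      _ ≤ (R : ℝ) ^ 100 := deg_pow hr _ _ (by norm_num)
  have hexp := deg_exp h5
  have hexp0 := Real.exp_pos (-(K : ℝ))
  have hnu : nm (uu c) ≤ (R : ℝ) := by
    rw [nm_uu]
    exact_mod_cast hcR
  have hcK : (ss c : ℝ) ≤ (K2 : ℝ) := by exact_mod_cast hc.le
  have hss2 : (2 : ℝ) ≤ (ss c : ℝ) := by exact_mod_cast ss_ge c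
  obtain ⟨r, hrR⟩ : ∃ r : ℝ, r = (R : ℝ) := ⟨_, rfl⟩
  simp only [← hrR] at h100 hdiv hkA hk hkA' hk' htau heps hsm hc1 hc2 hc3 hc4 hlast hnu hr
  obtain ⟨τ, hτ⟩ : ∃ τ : ℝ, τ = 144 * r ^ 3 * Real.exp (-(K : ℝ)) := ⟨_, rfl⟩
  have hτ0 : 0 ≤ τ := by
    rw [hτ]
    positivity
  rw [← hτ] at hk hk' htau
  obtain ⟨δ, hδ⟩ : ∃ δ : ℝ, δ = 16 / r ^ 39 := ⟨_, rfl⟩
  have hδ0 : 0 ≤ δ := by
    rw [hδ]
    positivity
  rw [← hδ] at hc1 hc2
  simp only [← hδ] at hdiv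
  obtain ⟨η, hη⟩ : ∃ η : ℝ, η = 1 / r ^ 20 := ⟨_, rfl⟩
  have hη0 : 0 < η := by
    rw [hη]
    positivity
  rw [← hη] at htau hsm hc3 hc4
  have heη : ee c ≤ η := heps.trans hsm
  have hdiv' : ∀ v : ℤ × ℤ, |LL P v - LL P' v| ≤
      ee c * |(det v (uu c) : ℝ)| + δ * ee c * nm v ∧
      ee c * |(det v (uu c) : ℝ)| ≤ |LL P v - LL P' v| + δ * ee c * nm v := by
    intro v
    have h3 := hdiv v
    have h4 : |σ * (ee c * (det v (uu c) : ℝ))| = ee c * |(det v (uu c) : ℝ)| := by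
      rw [abs_mul, hσ, one_mul, abs_mul, abs_of_pos hepos]
    have h6 := abs_sub_abs_le_abs_sub (LL P v - LL P' v) (σ * (ee c * (det v (uu c) : ℝ)))
    have h7 := abs_sub_abs_le_abs_sub (σ * (ee c * (det v (uu c) : ℝ))) (LL P v - LL P' v)
    rw [abs_sub_comm (σ * (ee c * (det v (uu c) : ℝ)))] at h7
    rw [h4] at h6 h7
    constructor <;> linarith
  -- step 1
  have hr3 : 0 ≤ r ^ 3 := by positivity
  have hLk' : |LL P k'| ≤ 5 * r ^ 4 * η := by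
    have h3 := (hdiv' k').1
    have h4 : |LL P k'| ≤ |LL P k' - LL P' k'| + |LL P' k'| := by
      have := abs_add_le (LL P k' - LL P' k') (LL P' k')
      rwa [sub_add_cancel] at this
    have h6 : |(det k' (uu c) : ℝ)| ≤ 3 * r ^ 3 * r :=
      (det_le _ _).trans (mul_le_mul hkA' hnu (nm_nonneg _) (by positivity))
    have h7 : ee c * |(det k' (uu c) : ℝ)| ≤ η * (3 * r ^ 3 * r) :=
      mul_le_mul heη h6 (abs_nonneg _) hη0.le
    have h8 : δ * ee c * nm k' ≤ η * 1 := by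
      calc δ * ee c * nm k' = ee c * (δ * nm k') := by ring
        _ ≤ η * (δ * (3 * r ^ 3)) :=
          mul_le_mul heη (mul_le_mul_of_nonneg_left hkA' hδ0)
            (mul_nonneg hδ0 (nm_nonneg _)) hη0.le
        _ ≤ η * 1 := mul_le_mul_of_nonneg_left hc1 hη0.le
    have h9 : (1 : ℝ) ≤ r ^ 4 := one_le_pow₀ (by linarith)
    have h10 : η ≤ r ^ 4 * η := by
      have := mul_le_mul_of_nonneg_right h9 hη0.le
      rwa [one_mul] at this
    calc |LL P k'| ≤ η * (3 * r ^ 3 * r) + η * 1 + η := by linarith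
      _ = 3 * (r ^ 4 * η) + 2 * η := by ring
      _ ≤ 3 * (r ^ 4 * η) + 2 * (r ^ 4 * η) := by linarith
      _ = _ := by ring
  have hLk : |LL P k| ≤ 5 * r ^ 4 * η := by
    have h9 : (1 : ℝ) ≤ 5 * r ^ 4 := by
      have : (1 : ℝ) ≤ r ^ 4 := one_le_pow₀ (by linarith)
      linarith
    have := mul_le_mul_of_nonneg_right h9 hη0.le
    rw [one_mul] at this
    linarith
  have hdet : det k k' = 0 := by
    refine LL_det hkA hkA' hLk hLk' ?_
    calc 2 * (3 * r ^ 3) * (5 * r ^ 4 * η) = 30 * r ^ 7 * η := by ring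
      _ < 7 / 10 := hc3
  -- step 2
  obtain ⟨m, m', hm0, hm0', hmm, hm, hm'⟩ := deg_par hk0 hk0' hdet
  obtain ⟨κ, hκ⟩ : ∃ κ : ℤ × ℤ, κ = m • k := ⟨_, rfl⟩
  have hκ0 : κ ≠ 0 := by
    rw [hκ]
    intro h
    rcases smul_eq_zero.1 h with h' | h'
    · exact hm0 h'
    · exact hk0 h'
  have hκn : nm κ ≤ 3 * r ^ 3 * (3 * r ^ 3) := by
    rw [hκ, nm_smul]
    exact mul_le_mul (hm.trans hkA') hkA (nm_nonneg _) (by positivity)
  have hκP : |LL P κ| ≤ 3 * r ^ 3 * τ := by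
    rw [hκ, LL_smul, abs_mul]
    exact mul_le_mul (hm.trans hkA') hk (abs_nonneg _) (by positivity)
  have hκP' : |LL P' κ| ≤ 3 * r ^ 3 * τ := by
    rw [hκ, hmm, LL_smul, abs_mul]
    exact mul_le_mul (hm'.trans hkA) hk' (abs_nonneg _) (by positivity)
  -- step 3
  have hdκ : det κ (uu c) = 0 := by
    by_contra hne
    have h3 : (1 : ℝ) ≤ |(det κ (uu c) : ℝ)| := by
      have := Int.one_le_abs hne
      rw [← Int.cast_abs]
      exact_mod_cast this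
    have h4 := (hdiv' κ).2
    have h6 : |LL P κ - LL P' κ| ≤ 2 * (3 * r ^ 3 * τ) := by
      have := abs_sub (LL P κ) (LL P' κ)
      linarith
    have h7 : δ * ee c * nm κ ≤ ee c * (1 / 2) := by
      calc δ * ee c * nm κ = ee c * (δ * nm κ) := by ring
        _ ≤ ee c * (δ * (3 * r ^ 3 * (3 * r ^ 3))) :=
          mul_le_mul_of_nonneg_left (mul_le_mul_of_nonneg_left hκn hδ0) hepos.le
        _ ≤ ee c * (1 / 2) := mul_le_mul_of_nonneg_left hc2 hepos.le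
    have h8 : ee c ≤ ee c * |(det κ (uu c) : ℝ)| := by
      have := mul_le_mul_of_nonneg_left h3 hepos.le
      rwa [mul_one] at this
    have h9 : ee c ≤ 1728 * r ^ 6 * Real.exp (-(K : ℝ)) := by
      have h10 : 4 * (3 * r ^ 3 * τ) = 1728 * r ^ 6 * Real.exp (-(K : ℝ)) := by
        rw [hτ]
        ring
      linarith
    have h11 : Real.exp (-(18 / 5 * (K2 : ℝ))) ≤ ee c := by
      refine le_trans (Real.exp_le_exp.2 ?_) hege
      linarith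
    have h12 : Real.exp (-(18 / 5 * (K2 : ℝ))) ≤ 1728 * r ^ 6 * Real.exp (-(5 * (K2 : ℝ))) :=
      h11.trans (h9.trans (mul_le_mul_of_nonneg_left hexp (by positivity)))
    have h13 : Real.exp (7 / 5 * (K2 : ℝ)) ≤ 1728 * r ^ 6 := by
      have h14 := mul_le_mul_of_nonneg_right h12 (Real.exp_pos (5 * (K2 : ℝ))).le
      rw [← Real.exp_add, mul_assoc, ← Real.exp_add, neg_add_cancel, Real.exp_zero,
        mul_one] at h14
      have h15 : -(18 / 5 * (K2 : ℝ)) + 5 * (K2 : ℝ) = 7 / 5 * (K2 : ℝ) := by ring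
      rwa [h15] at h14
    have h16 : Real.exp (K2 : ℝ) ≤ Real.exp (7 / 5 * (K2 : ℝ)) := by
      apply Real.exp_le_exp.2
      have : (0 : ℝ) ≤ (K2 : ℝ) := Nat.cast_nonneg _
      linarith
    linarith
  -- step 4
  obtain ⟨j, hj⟩ := solve_uu hdκ
  have hj0 : j ≠ 0 := by
    rintro rfl
    rw [zero_smul] at hj
    exact hκ0 hj
  have h3 : (1 : ℝ) ≤ |(j : ℝ)| := by
    have := Int.one_le_abs hj0
    rw [← Int.cast_abs]
    exact_mod_cast this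
  obtain ⟨hu1, hu2⟩ := uu_pos c
  have h4 := LL_pos P (v := uu c) (by omega) (by omega)
  rw [nm_uu] at h4
  have h6 : LL P (uu c) ≤ |LL P κ| := by
    rw [hj, LL_smul, abs_mul]
    have h7 : |LL P (uu c)| ≤ |(j : ℝ)| * |LL P (uu c)| := by
      have := mul_le_mul_of_nonneg_right h3 (abs_nonneg (LL P (uu c)))
      rwa [one_mul] at this
    exact (le_abs_self _).trans h7
  have h7 : 3 * r ^ 3 * τ ≤ 3 * r ^ 3 * η := mul_le_mul_of_nonneg_left htau (by positivity)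
  linarith

theorem deg_unique {R K2 K : ℕ} (hR : 10 ≤ R) (hK2 : 3 ≤ K2) (hK2R : K2 ≤ R) (h5 : 5 * K2 ≤ K)
    (h100 : (R : ℝ) ^ 100 ≤ Real.exp (K2 : ℝ)) {p0 P P' : List Bool} (hg : Gd R p0) (h0 : p0 <:+ P)
    (h0' : p0 <:+ P') (hs : K ≤ ss P) (hs' : K ≤ ss P')
    (hN : ¬ ND (3 * (R : ℝ) ^ 3) (144 * (R : ℝ) ^ 3 * Real.exp (-(K : ℝ))) P)
    (hN' : ¬ ND (3 * (R : ℝ) ^ 3) (144 * (R : ℝ) ^ 3 * Real.exp (-(K : ℝ))) P') :
    cut K2 P = cut K2 P' := by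
  by_contra hne
  have hK : 3 ≤ K := by omega
  have hsP : K2 ≤ ss P := by omega
  have hsP' : K2 ≤ ss P' := by omega
  have ha := cut_mem hK2 hsP
  have ha' := cut_mem hK2 hsP'
  have hn1 : ¬ cut K2 P <:+ cut K2 P' := fun h => hne (LF_incomp ha ha' h)
  have hn2 : ¬ cut K2 P' <:+ cut K2 P := fun h => hne (LF_incomp ha' ha h).symm
  obtain ⟨c, b, hc1, hc2⟩ := diverge hn1 hn2
  have h1 : (b :: c) <:+ P := hc1.trans (cut_suffix K2 P)
  have h2 : ((!b) :: c) <:+ P' := hc2.trans (cut_suffix K2 P')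
  have hc : p0 <:+ c := suffix_meet h0 h0' h1 h2
  have hss : ss c < K2 := by
    obtain ⟨b0, c0, he, hlt, -⟩ := ha
    rw [he] at hc1
    have hcc : c <:+ c0 := by
      rcases List.suffix_cons_iff.1 hc1 with h | h
      · have := (List.cons.inj h).2
        rw [this]
      · exact (List.suffix_cons b c).trans h
    exact lt_of_le_of_lt (ss_suffix hcc) hlt
  exact deg_core hR hK2R h5 h100 (Gd_suffix hc hg) hss h1 h2 hN hN'

theorem deg_count {R K1 K2 K : ℕ} (hR : 10 ≤ R) (hK1 : 3 ≤ K1) (hK12 : K1 ≤ K2) (hK2R : K2 ≤ R)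
    (h5 : 5 * K2 ≤ K) (h100 : (R : ℝ) ^ 100 ≤ Real.exp (K2 : ℝ)) :
    {q : List Bool | ss q ≤ R ∧ K ≤ ss q ∧ Gd R (cut K1 q) ∧
      ¬ ND (3 * (R : ℝ) ^ 3) (144 * (R : ℝ) ^ 3 * Real.exp (-(K : ℝ))) (cut K q)}.ncard * K2 ≤
      8 * K1 ^ 2 * R ^ 2 := by
  have hK : 3 ≤ K := by omega
  have hK2 : 3 ≤ K2 := by omega
  obtain ⟨S, hS⟩ : ∃ S : Set (List Bool), S = {q : List Bool | ss q ≤ R ∧ K ≤ ss q ∧
      Gd R (cut K1 q) ∧ ¬ ND (3 * (R : ℝ) ^ 3) (144 * (R : ℝ) ^ 3 * Real.exp (-(K : ℝ)))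
        (cut K q)} := ⟨_, rfl⟩
  rw [← hS]
  have hSfin : S.Finite := (fin_ss R).subset fun q hq => by
    rw [hS] at hq
    exact hq.1
  have hmaps : ∀ q ∈ S, cut K1 q ∈ LF K1 := by
    intro q hq
    rw [hS] at hq
    exact cut_mem hK1 (by have := hq.2.1; omega)
  have hfib : ∀ t ∈ LF K1, {x | x ∈ S ∧ cut K1 x = t}.ncard ≤ 2 * R ^ 2 / K2 := by
    intro t _
    rw [Nat.le_div_iff_mul_le (by omega)]
    rcases Set.eq_empty_or_nonempty {x | x ∈ S ∧ cut K1 x = t} with he | ⟨q0, hq0S, hq0⟩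
    · rw [he, Set.ncard_empty, zero_mul]
      exact Nat.zero_le _
    · rw [hS] at hq0S
      obtain ⟨h1, h2, h3, h4⟩ := hq0S
      have hH : cut K2 q0 ∈ LF K2 := cut_mem hK2 (by omega)
      refine le_trans (Nat.mul_le_mul_right K2 ?_) (cnt_LF hK2 R hH)
      refine Set.ncard_le_ncard ?_ ((fin_ss R).subset fun q hq => hq.2)
      rintro q ⟨hqS, hq⟩
      rw [hS] at hqS
      obtain ⟨g1, g2, g3, g4⟩ := hqS
      have hu : cut K2 (cut K q) = cut K2 (cut K q0) := by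
        refine deg_unique hR hK2 hK2R h5 h100 (p0 := t) ?_ ?_ ?_ ?_ ?_ g4 h4
        · rw [← hq]
          exact g3
        · rw [← hq]
          exact (cut_le hK1 (by omega) g2).1
        · rw [← hq0]
          exact (cut_le hK1 (by omega) h2).1
        · exact (LF_ss (cut_mem hK g2)).1
        · exact (LF_ss (cut_mem hK h2)).1
      rw [(cut_le hK2 (by omega) g2).2, (cut_le hK2 (by omega) h2).2] at hu
      refine ⟨?_, g1⟩
      rw [← hu]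
      exact cut_suffix K2 q
  have h := fibre_le (cut K1) hSfin (LF_finite K1) hmaps hfib
  have h6 : S.ncard ≤ 4 * K1 ^ 2 * (2 * R ^ 2 / K2) :=
    h.trans (Nat.mul_le_mul_right _ (LF_card K1))
  calc S.ncard * K2 ≤ 4 * K1 ^ 2 * (2 * R ^ 2 / K2) * K2 := Nat.mul_le_mul_right _ h6
    _ = 4 * K1 ^ 2 * (2 * R ^ 2 / K2 * K2) := by ring
    _ ≤ 4 * K1 ^ 2 * (2 * R ^ 2) := Nat.mul_le_mul_left _ (Nat.div_mul_le_self _ _)
    _ = 8 * K1 ^ 2 * R ^ 2 := by ring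

end Pool.Agent.Lib.MP_94ab62_ntU
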