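import Pool.Agent.Lib.MP_94ab62_ntU.EnumU
import Pool.Agent.Lib.MP_94ab62_nt.Numb

/-!
# FAIL: failures of uniqueness are counted by nodes of the tree

`P = {p | zz p ≤ N}` is finite (`zz p ≥ p.length + 5` by `zz_lt_cons`; lists of bounded length).
* `tripleCount N ≤ 2 + P.ncard`: the triples `x ≤ y ≤ z ≤ N` other than `(1,1,1)`, `(1,1,2)` have `x < y < z` (see `enum_count`,
  `enum_eq` in `Pool/Agent/Lib/MP_94ab62_nt/Enum.lean`, private there, copy; or use the public `enum_main` and `Pf`), so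
  `(x, y, z)` is `Good`, and by `tn_exists` it is `tn p` or `sw (tn p)`; the map triple ↦ p is injective (from `tn p` the ordered
  triple is recovered by sorting).
* `numberCount N ≥ 2 + (zz '' P).ncard`: `1`, `2` and all `zz p` are Markoff numbers `≤ N`; `zz p ≥ 5`.
* `P = U ∪ B` with `U` the unique ones (`∀ q, zz q = zz p → q = p`), `B` the others; `zz` is injective on `U`, so
  `(zz '' P).ncard ≥ U.ncard`; `P.ncard ≤ U.ncard + B.ncard`.
-/

set_option autoImplicit false

namespace Pool.Agent.Lib.MP_94ab62_ntU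

open Pool.Agent.Lib.MP_94ab62_nt

private theorem fail_len (p : List Bool) : p.length + 5 ≤ zz p := by
  induction p with
  | nil => exact zz_ge []
  | cons b l ih =>
    have h1 := zz_lt_cons b l
    simp only [List.length_cons]
    omega

theorem fin_zz (N : ℕ) : {p : List Bool | zz p ≤ N}.Finite := by
  refine (List.finite_length_le Bool N).subset ?_
  intro p hp
  have h1 := fail_len p
  have h2 : zz p ≤ N := hp
  change p.length ≤ N
  omega

/-- solutions with two equal entries -/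
private theorem fail_eq {x z : ℕ} (hx : 0 < x) (hz : 0 < z) (he : x ^ 2 + x ^ 2 + z ^ 2 = 3 * x * x * z) :
    x = 1 ∧ (z = 1 ∨ z = 2) := by
  have h1 : x ^ 2 ∣ z ^ 2 := by
    have h2 : x ^ 2 ∣ x ^ 2 + x ^ 2 + z ^ 2 := by
      rw [he]
      exact ⟨3 * z, by ring⟩
    have h3 : x ^ 2 ∣ x ^ 2 + x ^ 2 := ⟨2, by ring⟩
    exact (Nat.dvd_add_right h3).1 h2
  rw [Nat.pow_dvd_pow_iff (by norm_num)] at h1
  obtain ⟨k, rfl⟩ := h1
  have h4 : 2 + k ^ 2 = 3 * x * k := by
    have h5 : x ^ 2 * (2 + k ^ 2) = x ^ 2 * (3 * x * k) := by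
      calc x ^ 2 * (2 + k ^ 2) = x ^ 2 + x ^ 2 + (x * k) ^ 2 := by ring
        _ = 3 * x * x * (x * k) := he
        _ = x ^ 2 * (3 * x * k) := by ring
    exact Nat.eq_of_mul_eq_mul_left (by positivity) h5
  have hk : 0 < k := Nat.pos_of_mul_pos_left hz |> fun h => by
    rcases Nat.eq_zero_or_pos k with h0 | h0
    · subst h0; simp at hz
    · exact h0
  have h6 : k ∣ 2 := by
    have h7 : k ∣ 2 + k ^ 2 := by
      rw [h4]
      exact ⟨3 * x, by ring⟩
    have h8 : k ∣ k ^ 2 := ⟨k, by ring⟩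
    exact (Nat.dvd_add_left h8).1 h7
  have h9 : k ≤ 2 := Nat.le_of_dvd (by norm_num) h6
  interval_cases k
  · have : x = 1 := by omega
    subst this
    simp
  · have : x = 1 := by omega
    subst this
    simp

private def fail_A (N : ℕ) : Finset Nd :=
  (Finset.Icc 1 N ×ˢ Finset.Icc 1 N ×ˢ Finset.Icc 1 N).filter
    (fun p : ℕ × ℕ × ℕ =>
      p.1 < p.2.1 ∧ p.2.1 < p.2.2 ∧
        p.1 ^ 2 + p.2.1 ^ 2 + p.2.2 ^ 2 = 3 * p.1 * p.2.1 * p.2.2)

private theorem fail_memA (N : ℕ) (s : Nd) : s ∈ fail_A N ↔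
    0 < s.1 ∧ s.1 < s.2.1 ∧ s.2.1 < s.2.2 ∧ s.2.2 ≤ N ∧
      s.1 ^ 2 + s.2.1 ^ 2 + s.2.2 ^ 2 = 3 * s.1 * s.2.1 * s.2.2 := by
  unfold fail_A
  simp only [Finset.mem_filter, Finset.mem_product, Finset.mem_Icc]
  constructor
  · rintro ⟨⟨⟨h1, h2⟩, ⟨h3, h4⟩, h5, h6⟩, h7, h8, h9⟩
    exact ⟨by omega, h7, h8, h6, h9⟩
  · rintro ⟨h1, h2, h3, h4, h5⟩
    exact ⟨⟨⟨by omega, by omega⟩, ⟨by omega, by omega⟩, by omega, by omega⟩, h2, h3, h5⟩

private theorem fail_count {N : ℕ} (hN : 2 ≤ N) : tripleCount N = 2 + (fail_A N).card := by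
  classical
  have h1 : (Finset.Icc 1 N ×ˢ Finset.Icc 1 N ×ˢ Finset.Icc 1 N).filter
    (fun p : ℕ × ℕ × ℕ =>
      p.1 ≤ p.2.1 ∧ p.2.1 ≤ p.2.2 ∧
        p.1 ^ 2 + p.2.1 ^ 2 + p.2.2 ^ 2 = 3 * p.1 * p.2.1 * p.2.2) =
      ({(1, 1, 1), (1, 1, 2)} : Finset Nd) ∪ fail_A N := by
    ext ⟨x, y, z⟩
    rw [Finset.mem_union, fail_memA]
    simp only [Finset.mem_filter, Finset.mem_product, Finset.mem_Icc, Finset.mem_insert,
      Finset.mem_singleton, Prod.mk.injEq]
    constructor
    · rintro ⟨⟨⟨h1, h2⟩, ⟨h3, h4⟩, h5, h6⟩, h7, h8, h9⟩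
      rcases Nat.lt_or_ge x y with hxy | hxy
      · rcases Nat.lt_or_ge y z with hyz | hyz
        · right
          exact ⟨by omega, hxy, hyz, h6, h9⟩
        · exfalso
          have hyz' : y = z := le_antisymm h8 hyz
          subst hyz'
          have := fail_eq (x := y) (z := x) (by omega) (by omega) (by
            have e1 : x ^ 2 + y ^ 2 + y ^ 2 = y ^ 2 + y ^ 2 + x ^ 2 := by ring
            have e2 : 3 * x * y * y = 3 * y * y * x := by ring
            rw [← e1, h9, e2])
          omega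
      · have hxy' : x = y := le_antisymm h7 hxy
        subst hxy'
        left
        have := fail_eq (x := x) (z := z) (by omega) (by omega) h9
        omega
    · rintro ((⟨rfl, rfl, rfl⟩ | ⟨rfl, rfl, rfl⟩) | ⟨h1, h2, h3, h4, h5⟩)
      · exact ⟨⟨⟨by omega, by omega⟩, ⟨by omega, by omega⟩, by omega, by omega⟩, by omega, by omega,
          by norm_num⟩
      · exact ⟨⟨⟨by omega, by omega⟩, ⟨by omega, by omega⟩, by omega, by omega⟩, by omega, by omega,
          by norm_num⟩
      · exact ⟨⟨⟨by omega, by omega⟩, ⟨by omega, by omega⟩, by omega, by omega⟩, by omega, by omega,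
          h5⟩
  unfold tripleCount
  rw [h1, Finset.card_union_of_disjoint]
  · congr 1
  · rw [Finset.disjoint_left]
    intro a ha hb
    rw [fail_memA] at hb
    simp only [Finset.mem_insert, Finset.mem_singleton] at ha
    rcases ha with rfl | rfl
    · exact absurd hb.2.1 (by simp)
    · exact absurd hb.2.1 (by simp)

private def fail_O (t : Nd) : Nd := if t.1 < t.2.1 then t else sw t

private theorem fail_good (p : List Bool) : Good (tn p) := by
  rw [tn_eq_nd]
  exact good_nd good_root _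

private theorem fail_sub (N : ℕ) :
    fail_A N ⊆ (fin_zz N).toFinset.image (fun p => fail_O (tn p)) := by
  intro s hs
  rw [fail_memA] at hs
  obtain ⟨h1, h2, h3, h4, h5⟩ := hs
  obtain ⟨p, hp⟩ := tn_exists (s := s) ⟨h1, h1.trans h2, h2.ne, h2.trans h3, h3, h5⟩
  have hz : zz p = s.2.2 := by
    unfold zz
    rcases hp with hp | hp <;> rw [hp]
    rfl
  rw [Finset.mem_image]
  refine ⟨p, ?_, ?_⟩
  · rw [Set.Finite.mem_toFinset]
    change zz p ≤ N
    omega
  · rcases hp with hp | hp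
    · rw [hp, fail_O, if_pos h2]
    · rw [hp, fail_O, if_neg]
      · rfl
      · simp only [sw]
        omega

private theorem fail_number (N : ℕ) (hN : 2 ≤ N) :
    2 + ((fin_zz N).toFinset.image zz).card ≤ numberCount N := by
  classical
  unfold numberCount
  have h0 : (({1, 2} : Finset ℕ) ∪ (fin_zz N).toFinset.image zz).card =
      2 + ((fin_zz N).toFinset.image zz).card := by
    rw [Finset.card_union_of_disjoint]
    · congr 1
    · rw [Finset.disjoint_left]
      intro a ha hb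
      rw [Finset.mem_image] at hb
      obtain ⟨p, -, hp⟩ := hb
      have h1 := zz_ge p
      simp only [Finset.mem_insert, Finset.mem_singleton] at ha
      omega
  rw [← h0]
  apply Finset.card_le_card
  intro m hm
  rw [Finset.mem_union, Finset.mem_image] at hm
  rw [Finset.mem_filter, Finset.mem_Icc]
  rcases hm with hm | ⟨p, hp, rfl⟩
  · simp only [Finset.mem_insert, Finset.mem_singleton] at hm
    rcases hm with rfl | rfl
    · exact ⟨⟨le_rfl, by omega⟩, 1, 1, by norm_num, by norm_num, by norm_num, by norm_num⟩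
    · exact ⟨⟨by norm_num, hN⟩, 1, 1, by norm_num, by norm_num, by norm_num, by norm_num⟩
  · rw [Set.Finite.mem_toFinset] at hp
    have h1 := zz_ge p
    have h2 : zz p ≤ N := hp
    have hg := fail_good p
    exact ⟨⟨by omega, h2⟩, (tn p).1, (tn p).2.1, hg.1, hg.2.1, by omega, hg.2.2.2.2.2⟩

theorem count_fail {N : ℕ} (hN : 2 ≤ N) :
    tripleCount N ≤ numberCount N + {p : List Bool | zz p ≤ N ∧ ∃ q, q ≠ p ∧ zz q = zz p}.ncard := by
  classical
  obtain ⟨Q, hQ⟩ : ∃ Q, Q = (fin_zz N).toFinset := ⟨_, rfl⟩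
  have hmem : ∀ p, p ∈ Q ↔ zz p ≤ N := by
    intro p
    rw [hQ, Set.Finite.mem_toFinset]
    exact Iff.rfl
  have h1 : tripleCount N ≤ 2 + Q.card := by
    rw [fail_count hN, hQ]
    exact Nat.add_le_add_left ((Finset.card_le_card (fail_sub N)).trans Finset.card_image_le) 2
  have h2 : 2 + (Q.image zz).card ≤ numberCount N := by
    rw [hQ]
    exact fail_number N hN
  have h3 : (Q.filter (fun p => ∃ q, q ≠ p ∧ zz q = zz p)).card +
      (Q.filter (fun p => ¬ ∃ q, q ≠ p ∧ zz q = zz p)).card = Q.card :=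
    Finset.card_filter_add_card_filter_not _
  have h4 : (Q.filter (fun p => ¬ ∃ q, q ≠ p ∧ zz q = zz p)).card ≤ (Q.image zz).card := by
    refine Finset.card_le_card_of_injOn zz ?_ ?_
    · intro p hp
      have hp' := (Finset.mem_filter.1 (Finset.mem_coe.1 hp)).1
      exact Finset.mem_coe.2 (Finset.mem_image_of_mem _ hp')
    · intro p hp q hq he
      have hq' := (Finset.mem_filter.1 (Finset.mem_coe.1 hq)).2
      by_contra hne
      exact hq' ⟨p, hne, he⟩
  have h5 : {p : List Bool | zz p ≤ N ∧ ∃ q, q ≠ p ∧ zz q = zz p}.ncard =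
      (Q.filter (fun p => ∃ q, q ≠ p ∧ zz q = zz p)).card := by
    rw [← Set.ncard_coe_finset]
    congr 1
    ext p
    simp only [Finset.coe_filter, hmem, Set.mem_ofPred_eq]
  rw [h5]
  omega

end Pool.Agent.Lib.MP_94ab62_ntU
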