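import Pool.Agent.Lib.MP_94ab62_ntU.ParU
import Pool.Agent.Lib.MP_94ab62_ntU.Fail
import Pool.Agent.Lib.MP_94ab62_nt.Fin

/-!
# END U: the theorem

* `fail_bound`: for `N` large let `R = ⌈2 * log (3 N)⌉₊`... more precisely: if `zz p ≤ N` then `ll p = F (zz p) ≤ F N ≤ log (3 N)`
  (`F_le`, `F_log`) and `0.9 ss p ≤ ll p` (`ll_ge`), so `ss p ≤ R := ⌊(10/9) log (3 N)⌋₊`; so
  `{p | zz p ≤ N ∧ ∃ q ≠ p, zz q = zz p} ⊆ {p | ss p ≤ R ∧ ∃ q, Pr R p q}`; `count_fail`, `numberCount_le`, `coinc_bound` for this `R` (tends to infinity), and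
  `R ≤ 2 log N`: `R^(2 - 1/1500) ≤ 4 (log N)^(2 - 1/1500)`.
* `main_U`: `C` from `main_theorem` of the imported library (`count_asymp`: `M(N) = C log²(3N) + o(log N)`); `log(3N)² = log² N + O(log N)`,
  `O(log N) = O((log N)^(2-δ))`.  For `m_n`: let `m = Nat.nth IsMarkoff n`; `numberCount m = n + 1` (`nth_eq`, see the private
  `numb_lt`, `numb_count` in `Numb.lean`: `numberCount N = Nat.count IsMarkoff (N+1)`, `Nat.count_nth`), so
  `n + 1 = C (log m)² + O((log m)^(2-δ))`; hence `log m ~ √(n/C)` and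
  `(log m)² = n/C + O(n^(1-δ/2))`, `log m - √(n/C) = ((log m)² - n/C)/(log m + √(n/C)) = O(n^(1/2 - δ/2))`.
-/

set_option autoImplicit false

namespace Pool.Agent.Lib.MP_94ab62_ntU

open Pool.Agent.Lib.MP_94ab62_nt Filter Topology Asymptotics

theorem fail_bound : ∀ᶠ N : ℕ in atTop,
    (tripleCount N : ℝ) - numberCount N ≤ 4 * (Real.log N) ^ ((2 : ℝ) - 1 / 1500) := by
  have hlog : Tendsto (fun N : ℕ => Real.log (N : ℝ)) atTop atTop :=
    Real.tendsto_log_atTop.comp tendsto_natCast_atTop_atTop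
  have hRt : Tendsto (fun N : ℕ => ⌊10 / 9 * Real.log (3 * (N : ℝ))⌋₊) atTop atTop := by
    refine tendsto_nat_floor_atTop.comp ?_
    refine Tendsto.const_mul_atTop (by norm_num) ?_
    exact Real.tendsto_log_atTop.comp (Tendsto.const_mul_atTop (by norm_num) tendsto_natCast_atTop_atTop)
  have h1 := hRt.eventually coinc_bound
  filter_upwards [h1, eventually_ge_atTop 2, hlog.eventually_ge_atTop (5 / 4 * Real.log 3)] with N hN hN2 hNlog
  obtain ⟨R, hR⟩ : ∃ R : ℕ, R = ⌊10 / 9 * Real.log (3 * (N : ℝ))⌋₊ := ⟨_, rfl⟩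
  rw [← hR] at hN
  have hN0 : (0 : ℝ) < N := by
    have : 0 < N := by omega
    exact_mod_cast this
  have hl3 : Real.log (3 * (N : ℝ)) = Real.log 3 + Real.log N :=
    Real.log_mul (by norm_num) hN0.ne'
  have hl30 : 0 < Real.log 3 := Real.log_pos (by norm_num)
  have hRle : (R : ℝ) ≤ 10 / 9 * Real.log (3 * (N : ℝ)) := by
    rw [hR]
    refine Nat.floor_le ?_
    rw [hl3]
    linarith
  have hR2 : (R : ℝ) ≤ 2 * Real.log N := by
    rw [hl3] at hRle
    linarith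
  have hss : ∀ p : List Bool, zz p ≤ N → ss p ≤ R := by
    intro p hp
    have h5 : 1 ≤ zz p := le_trans (by norm_num) (zz_ge p)
    have h2 : ll p ≤ Real.log (3 * (N : ℝ)) := by
      have h6 : F (zz p) ≤ F N := F_le h5 hp
      exact h6.trans (F_log (by omega)).1
    have h3 := ll_ge p
    rw [hR]
    refine Nat.le_floor ?_
    linarith
  have hsub : {p : List Bool | zz p ≤ N ∧ ∃ q, q ≠ p ∧ zz q = zz p} ⊆
      {p : List Bool | ss p ≤ R ∧ ∃ q, Pr R p q} := by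
    rintro p ⟨hp, q, hq, hqz⟩
    have h2 := hss p hp
    have h3 := hss q (by rw [hqz]; exact hp)
    exact ⟨h2, q, fun h => hq h.symm, hqz.symm, h2, h3⟩
  have h2 : ({p : List Bool | zz p ≤ N ∧ ∃ q, q ≠ p ∧ zz q = zz p}.ncard : ℝ) ≤
      ({p : List Bool | ss p ≤ R ∧ ∃ q, Pr R p q}.ncard : ℝ) := by
    exact_mod_cast Set.ncard_le_ncard hsub ((fin_ss R).subset fun p hp => hp.1)
  have h3 : (tripleCount N : ℝ) ≤ numberCount N +
      ({p : List Bool | zz p ≤ N ∧ ∃ q, q ≠ p ∧ zz q = zz p}.ncard : ℝ) := by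
    exact_mod_cast count_fail hN2
  have hlogN : 0 ≤ Real.log N := by linarith
  have h4 : (R : ℝ) ^ ((2 : ℝ) - 1 / 1500) ≤ 4 * (Real.log N) ^ ((2 : ℝ) - 1 / 1500) := by
    calc (R : ℝ) ^ ((2 : ℝ) - 1 / 1500) ≤ (2 * Real.log N) ^ ((2 : ℝ) - 1 / 1500) :=
          Real.rpow_le_rpow (Nat.cast_nonneg _) hR2 (by norm_num)
      _ = (2 : ℝ) ^ ((2 : ℝ) - 1 / 1500) * (Real.log N) ^ ((2 : ℝ) - 1 / 1500) :=
          Real.mul_rpow (by norm_num) hlogN
      _ ≤ 4 * (Real.log N) ^ ((2 : ℝ) - 1 / 1500) := by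
          refine mul_le_mul_of_nonneg_right ?_ (Real.rpow_nonneg hlogN _)
          have h5 : (2 : ℝ) ^ ((2 : ℝ) - 1 / 1500) ≤ (2 : ℝ) ^ (2 : ℝ) :=
            Real.rpow_le_rpow_of_exponent_le (by norm_num) (by norm_num)
          have h6 : (2 : ℝ) ^ (2 : ℝ) = 4 := by
            rw [show (2 : ℝ) = ((2 : ℕ) : ℝ) by norm_num, Real.rpow_natCast]
            norm_num
          linarith
  linarith

/-- real-variable inversion -/
theorem inv_log {C δ : ℝ} (hC : 0 < C) (hδ : 0 < δ) (hδ1 : δ < 1) {x : ℕ → ℝ} (hx : Tendsto x atTop atTop)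
    (h : (fun n : ℕ => (n : ℝ) - C * (x n) ^ 2) =O[atTop] (fun n : ℕ => (x n) ^ ((2 : ℝ) - δ))) :
    (fun n : ℕ => x n - Real.sqrt n / Real.sqrt C) =O[atTop] (fun n : ℕ => (n : ℝ) ^ ((1 : ℝ) / 2 - δ / 2)) := by
  obtain ⟨c, hc0, hc⟩ := h.exists_pos
  have hc' := hc.bound
  have hsmall : ∀ᶠ n : ℕ in atTop, c * (x n) ^ (-δ) < C / 2 := by
    have h3 : Tendsto (fun n : ℕ => c * (x n) ^ (-δ)) atTop (nhds (c * 0)) :=
      ((tendsto_rpow_neg_atTop hδ).comp hx).const_mul c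
    rw [mul_zero] at h3
    exact h3.eventually (gt_mem_nhds (by linarith))
  refine IsBigO.of_bound (c / C * (2 / C) ^ ((1 : ℝ) / 2 - δ / 2)) ?_
  filter_upwards [hc', hsmall, hx.eventually_ge_atTop 1] with n hn hn2 hn1
  have hx0 : 0 < x n := by linarith
  have hn0 : (0 : ℝ) ≤ n := Nat.cast_nonneg n
  rw [Real.norm_eq_abs, Real.norm_eq_abs, abs_of_pos (Real.rpow_pos_of_pos hx0 _)] at hn
  have e1 : (x n) ^ ((2 : ℝ) - δ) = (x n) ^ (-δ) * (x n) ^ 2 := by
    rw [← Real.rpow_natCast (x n) 2, ← Real.rpow_add hx0]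
    congr 1
    push_cast
    ring
  have h4 : c * (x n) ^ ((2 : ℝ) - δ) ≤ C / 2 * (x n) ^ 2 := by
    rw [e1, ← mul_assoc]
    exact mul_le_mul_of_nonneg_right hn2.le (by positivity)
  have h5 : (x n) ^ 2 ≤ 2 / C * n := by
    have h6 := (abs_le.1 (hn.trans h4)).1
    have h7 : C * (x n) ^ 2 ≤ 2 * n := by linarith
    rw [div_mul_eq_mul_div, le_div_iff₀ hC]
    linarith
  obtain ⟨s, hs⟩ : ∃ s : ℝ, s = Real.sqrt n / Real.sqrt C := ⟨_, rfl⟩
  have hs0 : 0 ≤ s := by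
    rw [hs]
    positivity
  have hs2 : C * s ^ 2 = n := by
    rw [hs, div_pow, Real.sq_sqrt hn0, Real.sq_sqrt hC.le]
    field_simp
  rw [← hs, Real.norm_eq_abs, Real.norm_eq_abs, abs_of_nonneg (Real.rpow_nonneg hn0 _)]
  have h6 : |x n - s| * x n ≤ c / C * (x n) ^ ((2 : ℝ) - δ) := by
    have h7 : |x n - s| * x n ≤ |x n - s| * (x n + s) :=
      mul_le_mul_of_nonneg_left (by linarith) (abs_nonneg _)
    have h8 : |x n - s| * (x n + s) = |(n : ℝ) - C * (x n) ^ 2| / C := by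
      rw [← hs2, show C * s ^ 2 - C * (x n) ^ 2 = -(C * ((x n - s) * (x n + s))) by ring, abs_neg,
        abs_mul, abs_mul, abs_of_pos hC, abs_of_nonneg (by linarith : 0 ≤ x n + s)]
      field_simp
    rw [h8] at h7
    refine h7.trans ?_
    rw [div_mul_eq_mul_div]
    exact div_le_div_of_nonneg_right hn hC.le
  have e2 : (x n) ^ ((2 : ℝ) - δ) = (x n) ^ ((1 : ℝ) - δ) * x n := by
    nth_rewrite 3 [← Real.rpow_one (x n)]
    rw [← Real.rpow_add hx0]
    congr 1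
    ring
  rw [e2, ← mul_assoc] at h6
  have h7 : |x n - s| ≤ c / C * (x n) ^ ((1 : ℝ) - δ) := le_of_mul_le_mul_right h6 hx0
  have e3 : (x n) ^ ((1 : ℝ) - δ) = ((x n) ^ 2) ^ ((1 : ℝ) / 2 - δ / 2) := by
    rw [← Real.rpow_natCast (x n) 2, ← Real.rpow_mul hx0.le]
    congr 1
    push_cast
    ring
  have h8 : (x n) ^ ((1 : ℝ) - δ) ≤ (2 / C) ^ ((1 : ℝ) / 2 - δ / 2) * (n : ℝ) ^ ((1 : ℝ) / 2 - δ / 2) := by
    rw [e3, ← Real.mul_rpow (by positivity) hn0]
    exact Real.rpow_le_rpow (by positivity) h5 (by linarith)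
  calc |x n - s| ≤ c / C * (x n) ^ ((1 : ℝ) - δ) := h7
    _ ≤ c / C * ((2 / C) ^ ((1 : ℝ) / 2 - δ / 2) * (n : ℝ) ^ ((1 : ℝ) / 2 - δ / 2)) :=
        mul_le_mul_of_nonneg_left h8 (by positivity)
    _ = c / C * (2 / C) ^ ((1 : ℝ) / 2 - δ / 2) * (n : ℝ) ^ ((1 : ℝ) / 2 - δ / 2) := by ring

theorem nth_count (n : ℕ) : numberCount (Nat.nth IsMarkoff n) = n + 1 := by
  classical
  have hcount : ∀ N : ℕ, numberCount N = Nat.count IsMarkoff (N + 1) := by
    intro N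
    rw [Nat.count_eq_card_filter_range]
    unfold numberCount
    congr 1
    ext m
    simp only [Finset.mem_filter, Finset.mem_Icc, Finset.mem_range]
    constructor
    · rintro ⟨⟨h1, h2⟩, h3⟩
      exact ⟨by omega, h3⟩
    · rintro ⟨h1, h2⟩
      obtain ⟨x, y, hx, hy, hm, he⟩ := h2
      exact ⟨⟨by omega, by omega⟩, x, y, hx, hy, hm, he⟩
  rw [hcount]
  exact Nat.count_nth_succ_of_infinite markoff_infinite n

private theorem endU_nth : Tendsto (fun n : ℕ => Nat.nth IsMarkoff n) atTop atTop :=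
  (Nat.nth_strictMono markoff_infinite).tendsto_atTop

theorem nth_tendsto : Tendsto (fun n : ℕ => Real.log (Nat.nth IsMarkoff n)) atTop atTop :=
  Real.tendsto_log_atTop.comp (tendsto_natCast_atTop_atTop.comp endU_nth)

private theorem endU_log_le : (fun N : ℕ => Real.log (N : ℝ)) =O[atTop]
    (fun N : ℕ => (Real.log N) ^ ((2 : ℝ) - 1 / 1500)) := by
  have hlog : Tendsto (fun N : ℕ => Real.log (N : ℝ)) atTop atTop :=
    Real.tendsto_log_atTop.comp tendsto_natCast_atTop_atTop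
  refine IsBigO.of_bound 1 ?_
  filter_upwards [hlog.eventually_ge_atTop 1] with N hN
  have h0 : 0 ≤ Real.log (N : ℝ) := by linarith
  rw [Real.norm_eq_abs, Real.norm_eq_abs, abs_of_nonneg h0, abs_of_nonneg (Real.rpow_nonneg h0 _),
    one_mul]
  nth_rewrite 1 [← Real.rpow_one (Real.log (N : ℝ))]
  exact Real.rpow_le_rpow_of_exponent_le hN (by norm_num)

theorem main_U : ∃ C : ℝ, 0 < C ∧
    Tendsto (fun N : ℕ => (tripleCount N : ℝ) / (Real.log N) ^ 2) atTop (𝓝 C) ∧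
    (fun N : ℕ => (tripleCount N : ℝ) - numberCount N) =O[atTop]
      (fun N : ℕ => (Real.log N) ^ ((2 : ℝ) - 1 / 1500)) ∧
    (fun N : ℕ => (numberCount N : ℝ) - C * (Real.log N) ^ 2) =O[atTop]
      (fun N : ℕ => (Real.log N) ^ ((2 : ℝ) - 1 / 1500)) ∧
    (fun n : ℕ => Real.log (Nat.nth IsMarkoff n) - Real.sqrt n / Real.sqrt C) =O[atTop]
      (fun n : ℕ => (n : ℝ) ^ ((1 : ℝ) / 2 - 1 / 3000)) := by
  obtain ⟨C, hC, hT, hlit, -⟩ := main_theorem
  have hlog : Tendsto (fun N : ℕ => Real.log (N : ℝ)) atTop atTop :=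
    Real.tendsto_log_atTop.comp tendsto_natCast_atTop_atTop
  have hA : (fun N : ℕ => (tripleCount N : ℝ) - numberCount N) =O[atTop]
      (fun N : ℕ => (Real.log N) ^ ((2 : ℝ) - 1 / 1500)) := by
    refine IsBigO.of_bound 4 ?_
    filter_upwards [fail_bound, hlog.eventually_ge_atTop 0] with N hN hN0
    have h1 : (numberCount N : ℝ) ≤ tripleCount N := by exact_mod_cast numberCount_le N
    rw [Real.norm_eq_abs, Real.norm_eq_abs, abs_of_nonneg (by linarith),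
      abs_of_nonneg (Real.rpow_nonneg hN0 _)]
    exact hN
  have hD : (fun N : ℕ => C * (Real.log (3 * (N : ℝ))) ^ 2 - C * (Real.log N) ^ 2) =O[atTop]
      (fun N : ℕ => (Real.log N) ^ ((2 : ℝ) - 1 / 1500)) := by
    refine IsBigO.trans ?_ endU_log_le
    refine IsBigO.of_bound (C * (3 * Real.log 3)) ?_
    filter_upwards [hlog.eventually_ge_atTop (Real.log 3), eventually_ge_atTop 1] with N hN hN1
    have hN0 : (0 : ℝ) < N := by exact_mod_cast hN1
    have hl3 : Real.log (3 * (N : ℝ)) = Real.log 3 + Real.log N :=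
      Real.log_mul (by norm_num) hN0.ne'
    have hl30 : 0 < Real.log 3 := Real.log_pos (by norm_num)
    have h0 : 0 ≤ Real.log (N : ℝ) := by linarith
    have e1 : C * (Real.log (3 * (N : ℝ))) ^ 2 - C * (Real.log N) ^ 2 =
        C * (Real.log 3 * (Real.log 3 + 2 * Real.log N)) := by
      rw [hl3]
      ring
    rw [e1, Real.norm_eq_abs, Real.norm_eq_abs, abs_of_nonneg h0, abs_of_nonneg (by positivity)]
    have h2 : Real.log 3 * (Real.log 3 + 2 * Real.log N) ≤ 3 * Real.log 3 * Real.log N := by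
      nlinarith
    calc C * (Real.log 3 * (Real.log 3 + 2 * Real.log N)) ≤ C * (3 * Real.log 3 * Real.log N) :=
          mul_le_mul_of_nonneg_left h2 hC.le
      _ = C * (3 * Real.log 3) * Real.log N := by ring
  have hB : (fun N : ℕ => (numberCount N : ℝ) - C * (Real.log N) ^ 2) =O[atTop]
      (fun N : ℕ => (Real.log N) ^ ((2 : ℝ) - 1 / 1500)) := by
    have h1 := ((hlit.isBigO.trans endU_log_le).add hD).sub hA
    refine h1.congr_left fun N => ?_
    ring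
  refine ⟨C, hC, hT, hA, hB, ?_⟩
  have hx := nth_tendsto
  have h1 : (fun n : ℕ => ((numberCount (Nat.nth IsMarkoff n) : ℕ) : ℝ) -
      C * (Real.log (Nat.nth IsMarkoff n)) ^ 2) =O[atTop]
      (fun n : ℕ => (Real.log (Nat.nth IsMarkoff n)) ^ ((2 : ℝ) - 1 / 1500)) :=
    hB.comp_tendsto endU_nth
  have h2 : (fun _ : ℕ => (1 : ℝ)) =O[atTop]
      (fun n : ℕ => (Real.log (Nat.nth IsMarkoff n)) ^ ((2 : ℝ) - 1 / 1500)) := by
    refine IsBigO.of_bound 1 ?_
    filter_upwards [hx.eventually_ge_atTop 1] with n hn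
    have h0 : 0 ≤ Real.log (Nat.nth IsMarkoff n : ℝ) := by linarith
    rw [Real.norm_eq_abs, Real.norm_eq_abs, abs_one, abs_of_nonneg (Real.rpow_nonneg h0 _), one_mul]
    exact Real.one_le_rpow hn (by norm_num)
  have h3 : (fun n : ℕ => (n : ℝ) - C * (Real.log (Nat.nth IsMarkoff n)) ^ 2) =O[atTop]
      (fun n : ℕ => (Real.log (Nat.nth IsMarkoff n)) ^ ((2 : ℝ) - 1 / 1500)) := by
    refine (h1.sub h2).congr_left fun n => ?_
    rw [nth_count]
    push_cast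
    ring
  have h4 := inv_log (δ := 1 / 1500) hC (by norm_num) (by norm_num) hx h3
  refine h4.trans (IsBigO.of_bound 1 ?_)
  filter_upwards with n
  rw [one_mul, show (1 : ℝ) / 2 - 1 / 1500 / 2 = 1 / 2 - 1 / 3000 by norm_num]

end Pool.Agent.Lib.MP_94ab62_ntU
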