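import Pool.Agent.Lib.MP_94ab62_ntU.BasisB
import Pool.Agent.Lib.MP_94ab62_ntU.Len
import Pool.Agent.Lib.MP_94ab62_nt.Enum

/-!
# ENUM U: the tree contains every Markoff triple once; the adjacency lemma

The imported file `Pool/Agent/Lib/MP_94ab62_nt/Enum.lean` proves (as private theorems, copy what is needed) `enum_uniq`,
`enum_exists`, `enum_parent`, ... for `nd root p` (paths with the FIRST step first).
* `tn_eq_nd`: `nd_append`.
* `tn_inj`, `tn_ne_sw`: as in `enum_bij` of that file (`enum_uniq`, `nd_sw`).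
* `tn_exists`: `enum_exists`.
* `zz_lt_cons`: `fa_lt_fc` like facts: `(lc t).2.2 > t.2.2` (`(good_lc h).2.2.2.2.1`).
* `zz_entry1/2`: induction on `c`.  `c = []`: `g1 [] = (1,0)` is not `uu d` (`uu_pos`).  `c = true :: c'`: `g1 c = g1 c'`,
  `(tn c).1 = (tn c').1`: induction; `g2 c = uu c'`, `(tn c).2.1 = (tn c').2.2 = zz c'`: `uu_inj`.  `false :: c'`: symmetric.
* `adj`: let `u = uu d`, `u' = uu d'`, `|det u u'| = 1`, `zz d = zz c < zz (b :: c) = zz d'`.  First `ss d ≠ ss d'` (if
  `ss d = ss d' = n`, `det u u' = u.1 (n - u'.1) - (n - u.1) u'.1 = n (u.1 - u'.1)` would be divisible by `n ≥ 2`).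
  If `ss d' < ss d`: `near_uu` for `d` gives `u' = g1 d ∨ u' = g2 d`, so `zz d' = (tn d).1` or `(tn d).2.1`, which is `< zz d`:
  contradiction.  So `ss d < ss d'` and `u = g1 d' ∨ u = g2 d'` (`near_uu`, `|det u u'| = |det u' u|`), so `m := zz c = zz d` is
  one of the two small entries of `tn d'` (`zz_entry1/2`), and `m` is also one of the two small entries of `tn (b :: c)`
  (`(lc t).2.1 = t.2.2`, `(rc t).1 = t.2.2`); the two triples have the same largest entry `n`.  The third entries `x`, `x'` both
  solve `x² + m² + n² = 3 x m n` and are `< n`; if `x ≠ x'` then `x * x' = m² + n² > n²`, contradiction.  So the triples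
  are equal or swapped: `tn_inj`, `tn_ne_sw`: `d' = b :: c`.  Now `m` appears in exactly one of the two small places of
  `tn (b :: c)` (`Good`: the entries are different), the place of `uu c`; if `u = g1 (b :: c)` then `(tn (b::c)).1 = m`, so
  (case `b = true`: `(tn (true :: c)).1 = (tn c).1 < (tn c).2.2 = m`, impossible; case `b = false`: `g1 (false :: c) = uu c`, so
  `uu d = uu c`, `d = c`).  Same for `g2`.
-/

set_option autoImplicit false

namespace Pool.Agent.Lib.MP_94ab62_ntU

open Pool.Agent.Lib.MP_94ab62_nt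

private theorem enumu_snoc_true (t : Nd) (p : List Bool) : nd t (p ++ [true]) = lc (nd t p) := by
  rw [nd_append]; rfl

private theorem enumu_snoc_false (t : Nd) (p : List Bool) : nd t (p ++ [false]) = rc (nd t p) := by
  rw [nd_append]; rfl

private theorem enumu_len {t : Nd} (h : Good t) (p : List Bool) :
    t.2.2 + p.length ≤ (nd t p).2.2 := by
  induction p generalizing t with
  | nil => simp [nd]
  | cons b l ih =>
    cases b with
    | true =>
      have h1 := ih (good_lc h)
      have h2 : t.2.2 < (lc t).2.2 := (good_lc h).2.2.2.2.1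
      simp only [nd, List.length_cons]
      omega
    | false =>
      have h1 := ih (good_rc h)
      have h2 : t.2.2 < (rc t).2.2 := (good_rc h).2.2.2.1
      simp only [nd, List.length_cons]
      omega

private theorem enumu_lc_inj {u v : Nd} (hu : Good u) (hv : Good v) (h : lc u = lc v) : u = v := by
  have h1 := (good_lc hu).2.2.2.2.1
  have h2 := (good_lc hv).2.2.2.2.1
  obtain ⟨x, y, z⟩ := u
  obtain ⟨x', y', z'⟩ := v
  simp only [lc, Prod.mk.injEq] at h h1 h2 ⊢
  obtain ⟨rfl, rfl, h3⟩ := h
  refine ⟨rfl, by omega, rfl⟩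

private theorem enumu_rc_inj {u v : Nd} (hu : Good u) (hv : Good v) (h : rc u = rc v) : u = v := by
  have h1 := (good_rc hu).2.2.2.2.1
  have h2 := (good_rc hv).2.2.2.2.1
  obtain ⟨x, y, z⟩ := u
  obtain ⟨x', y', z'⟩ := v
  simp only [rc, Prod.mk.injEq] at h h1 h2 ⊢
  obtain ⟨rfl, rfl, h3⟩ := h
  refine ⟨by omega, rfl, rfl⟩

private theorem enumu_lc_lt {u : Nd} (hu : Good u) : (lc u).1 < (lc u).2.1 := hu.2.2.2.1

private theorem enumu_rc_lt {u : Nd} (hu : Good u) : (rc u).2.1 < (rc u).1 := hu.2.2.2.2.1

private theorem enumu_uniq (p : List Bool) : ∀ (q : List Bool) (s t : Nd), Good s → Good t →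
    s.2.2 = t.2.2 → nd s p = nd t q → s = t ∧ p = q := by
  induction p using List.reverseRecOn with
  | nil =>
    intro q s t hs ht hz he
    have h1 := enumu_len ht q
    rw [← he] at h1
    simp only [nd] at h1
    have h2 : q = [] := by
      apply List.eq_nil_of_length_eq_zero
      omega
    subst h2
    exact ⟨he, rfl⟩
  | append_singleton p b ih =>
    intro q s t hs ht hz he
    rcases List.eq_nil_or_concat q with rfl | ⟨q', b', rfl⟩
    · exfalso
      have h1 := enumu_len hs (p ++ [b])
      rw [he] at h1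
      simp only [nd, List.length_append, List.length_singleton] at h1
      omega
    · rw [List.concat_eq_append] at he ⊢
      have hgp := good_nd hs p
      have hgq := good_nd ht q'
      cases b <;> cases b'
      · rw [enumu_snoc_false, enumu_snoc_false] at he
        obtain ⟨h1, h2⟩ := ih q' s t hs ht hz (enumu_rc_inj hgp hgq he)
        exact ⟨h1, by rw [h2]⟩
      · exfalso
        rw [enumu_snoc_false, enumu_snoc_true] at he
        have h1 := enumu_rc_lt hgp
        have h2 := enumu_lc_lt hgq
        rw [he] at h1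
        omega
      · exfalso
        rw [enumu_snoc_false, enumu_snoc_true] at he
        have h1 := enumu_lc_lt hgp
        have h2 := enumu_rc_lt hgq
        rw [he] at h1
        omega
      · rw [enumu_snoc_true, enumu_snoc_true] at he
        obtain ⟨h1, h2⟩ := ih q' s t hs ht hz (enumu_lc_inj hgp hgq he)
        exact ⟨h1, by rw [h2]⟩

/-- solutions with two equal entries -/
private theorem enumu_eq {x z : ℕ} (hx : 0 < x) (hz : 0 < z) (he : x ^ 2 + x ^ 2 + z ^ 2 = 3 * x * x * z) :
    x = 1 ∧ (z = 1 ∨ z = 2) := by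
  have h1 : x ^ 2 ∣ z ^ 2 := by
    have h2 : x ^ 2 ∣ x ^ 2 + x ^ 2 + z ^ 2 := by
      rw [he]
      exact ⟨3 * z, by ring⟩
    have h3 : x ^ 2 ∣ x ^ 2 + x ^ 2 := ⟨2, by ring⟩
    exact (Nat.dvd_add_right h3).1 h2
  rw [Nat.pow_dvd_pow_iff (by norm_num)] at h1
  obtain ⟨k, rfl⟩ := h1
  have h4 : 2 + k ^ 2 = 3 * x * k := by
    have h5 : x ^ 2 * (2 + k ^ 2) = x ^ 2 * (3 * x * k) := by
      calc x ^ 2 * (2 + k ^ 2) = x ^ 2 + x ^ 2 + (x * k) ^ 2 := by ring
        _ = 3 * x * x * (x * k) := he
        _ = x ^ 2 * (3 * x * k) := by ring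
    exact Nat.eq_of_mul_eq_mul_left (by positivity) h5
  have hk : 0 < k := Nat.pos_of_mul_pos_left hz |> fun h => by
    rcases Nat.eq_zero_or_pos k with h0 | h0
    · subst h0; simp at hz
    · exact h0
  have h6 : k ∣ 2 := by
    have h7 : k ∣ 2 + k ^ 2 := by
      rw [h4]
      exact ⟨3 * x, by ring⟩
    have h8 : k ∣ k ^ 2 := ⟨k, by ring⟩
    exact (Nat.dvd_add_left h8).1 h7
  have h9 : k ≤ 2 := Nat.le_of_dvd (by norm_num) h6
  interval_cases k
  · have : x = 1 := by omega
    subst this
    simp
  · have : x = 1 := by omega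
    subst this
    simp

/-- the parent -/
private theorem enumu_parent {x y z : ℕ} (hx : 0 < x) (hxy : x < y) (hyz : y < z)
    (he : x ^ 2 + y ^ 2 + z ^ 2 = 3 * x * y * z) :
    (x, y, z) = root ∨ ∃ u : Nd, Good u ∧ u.2.2 < z ∧ lc u = (x, y, z) := by
  have h1 : z < 3 * x * y := by
    by_contra hcon
    push Not at hcon
    have h2 : 3 * x * y * z ≤ z * z := Nat.mul_le_mul_right _ hcon
    nlinarith [Nat.mul_pos hx hx, Nat.mul_pos (hx.trans hxy) (hx.trans hxy)]
  obtain ⟨w, hw⟩ : ∃ w, w = 3 * x * y - z := ⟨_, rfl⟩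
  have hsum : z + w = 3 * x * y := by omega
  have hprod : z * w = x ^ 2 + y ^ 2 := by
    have h3 : z * (z + w) = 3 * x * y * z := by rw [hsum]; ring
    nlinarith
  have hw0 : 0 < w := by omega
  have hwy : w < y := by
    by_contra hcon
    push Not at hcon
    zify at *
    have h4 : ((y : ℤ) - z) * (y - w) = 2 * y ^ 2 + x ^ 2 - 3 * x * y ^ 2 := by
      have : ((y : ℤ) - z) * (y - w) = y ^ 2 - y * (z + w) + z * w := by ring
      rw [this, hsum, hprod]; ring
    have h5 : 0 ≤ ((y : ℤ) - z) * (y - w) := by nlinarith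
    nlinarith [mul_nonneg (by linarith : (0 : ℤ) ≤ (x : ℤ) - 1) (sq_nonneg (y : ℤ)),
      mul_pos (by linarith : (0 : ℤ) < (y : ℤ) - x) (by linarith : (0 : ℤ) < (y : ℤ) + x)]
  have hew : x ^ 2 + w ^ 2 + y ^ 2 = 3 * x * w * y := by
    have h6 : w * (z + w) = 3 * x * w * y := by rw [hsum]; ring
    nlinarith
  by_cases hxw : x = w
  · left
    subst hxw
    obtain ⟨h7, h8⟩ := enumu_eq (x := x) (z := y) hx (by omega) (by
      rw [hew])
    subst h7
    rcases h8 with h8 | h8
    · omega
    · subst h8
      simp only [root, Prod.mk.injEq, true_and]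
      omega
  · right
    refine ⟨(x, w, y), ⟨hx, hw0, hxw, hxy, hwy, hew⟩, hyz, ?_⟩
    simp only [lc, Prod.mk.injEq, true_and]
    omega

private theorem enumu_sw_sw (t : Nd) : sw (sw t) = t := rfl

/-- every good triple is a descendant of the root, up to `sw` -/
private theorem enumu_exists (n : ℕ) : ∀ s : Nd, s.2.2 = n → Good s →
    ∃ p, nd root p = s ∨ nd root p = sw s := by
  induction n using Nat.strong_induction_on with
  | _ n ih =>
    have key : ∀ s : Nd, s.2.2 = n → Good s → s.1 < s.2.1 →
        ∃ p, nd root p = s ∨ nd root p = sw s := by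
      intro s hs hg hlt
      obtain ⟨x, y, z⟩ := s
      rcases enumu_parent hg.1 hlt hg.2.2.2.2.1 hg.2.2.2.2.2 with h | ⟨u, hu, huz, hlc⟩
      · exact ⟨[], Or.inl h.symm⟩
      · obtain ⟨p, hp | hp⟩ := ih u.2.2 (by simp only at hs huz; omega) u rfl hu
        · refine ⟨p ++ [true], Or.inl ?_⟩
          rw [enumu_snoc_true, hp]
          exact hlc
        · refine ⟨p ++ [false], Or.inr ?_⟩
          rw [enumu_snoc_false, hp, rc_sw]
          exact congrArg sw hlc
    intro s hs hg
    rcases lt_or_gt_of_ne hg.2.2.1 with h | h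
    · exact key s hs hg h
    · obtain ⟨p, hp⟩ := key (sw s) hs (good_sw hg) h
      exact ⟨p, by rw [enumu_sw_sw] at hp; exact hp.symm⟩

theorem tn_eq_nd (p : List Bool) : tn p = nd root p.reverse := by
  induction p with
  | nil => rfl
  | cons b p ih =>
    rw [List.reverse_cons]
    cases b with
    | true => rw [enumu_snoc_true, ← ih]; rfl
    | false => rw [enumu_snoc_false, ← ih]; rfl

theorem tn_inj {p q : List Bool} (h : tn p = tn q) : p = q := by
  rw [tn_eq_nd, tn_eq_nd] at h
  exact List.reverse_injective (enumu_uniq _ _ root root good_root good_root rfl h).2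

theorem tn_ne_sw (p q : List Bool) : tn p ≠ sw (tn q) := by
  intro h
  rw [tn_eq_nd, tn_eq_nd] at h
  have hq : (q.reverse.map (!·)).map (!·) = q.reverse := by
    rw [List.map_map]
    conv_rhs => rw [← List.map_id q.reverse]
    apply List.map_congr_left
    intro a _
    simp
  have h3 : nd root p.reverse = nd (sw root) (q.reverse.map (!·)) := by
    rw [nd_sw, hq, h]
  have h4 := (enumu_uniq _ _ root (sw root) good_root (good_sw good_root) rfl h3).1
  simp [root, sw] at h4

theorem tn_exists {s : Nd} (h : Good s) : ∃ p, tn p = s ∨ tn p = sw s := by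
  obtain ⟨p, hp⟩ := enumu_exists _ s rfl h
  refine ⟨p.reverse, ?_⟩
  rw [tn_eq_nd, List.reverse_reverse]
  exact hp

theorem zz_lt_cons (b : Bool) (p : List Bool) : zz p < zz (b :: p) := by
  cases b with
  | true => exact (good_lc (good_tn p)).2.2.2.2.1
  | false => exact (good_rc (good_tn p)).2.2.2.1

theorem zz_ge (p : List Bool) : 5 ≤ zz p := by
  induction p with
  | nil => exact le_refl 5
  | cons b p ih => exact ih.trans (zz_lt_cons b p).le

theorem zz_entry1 {c d : List Bool} (h : uu d = g1 c) : zz d = (tn c).1 := by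
  induction c with
  | nil =>
    exfalso
    have h1 := (uu_pos d).2
    rw [h] at h1
    have h2 : (g1 []).2 = 0 := rfl
    omega
  | cons b c ih =>
    cases b with
    | true => exact ih h
    | false =>
      have h1 : d = c := uu_inj h
      rw [h1]
      rfl

theorem zz_entry2 {c d : List Bool} (h : uu d = g2 c) : zz d = (tn c).2.1 := by
  induction c with
  | nil =>
    exfalso
    have h1 := (uu_pos d).1
    rw [h] at h1
    have h2 : (g2 []).1 = 0 := rfl
    omega
  | cons b c ih =>
    cases b with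
    | true =>
      have h1 : d = c := uu_inj h
      rw [h1]
      rfl
    | false => exact ih h

private theorem enumu_third {m n x x' : ℕ} (hm : 0 < m) (hx : x < n) (hx' : x' < n)
    (e : x ^ 2 + m ^ 2 + n ^ 2 = 3 * x * m * n)
    (e' : x' ^ 2 + m ^ 2 + n ^ 2 = 3 * x' * m * n) : x = x' := by
  by_contra hne
  zify at *
  have h1 : ((x : ℤ) - x') * ((x : ℤ) + x' - 3 * m * n) = 0 := by
    linear_combination e - e'
  rcases mul_eq_zero.1 h1 with h2 | h2
  · exact hne (by linarith)
  · have h3 : (0 : ℤ) ≤ ((m : ℤ) - 1) * n :=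
      mul_nonneg (by linarith) (by linarith [Int.natCast_nonneg x])
    nlinarith [Int.natCast_nonneg x, Int.natCast_nonneg x']

private theorem enumu_same1 {t t' : Nd} (ht : Good t) (ht' : Good t') (hz : t.2.2 = t'.2.2)
    (h : t.1 = t'.1) : t = t' := by
  obtain ⟨x, y, z⟩ := t
  obtain ⟨x', y', z'⟩ := t'
  obtain ⟨hx, hy, hxy, hxz, hyz, he⟩ := ht
  obtain ⟨hx', hy', hxy', hxz', hyz', he'⟩ := ht'
  simp only at *
  subst hz h
  have h1 : y = y' := enumu_third (m := x) (n := z) hx hyz hyz'
    (by rw [add_comm (y ^ 2)]; rw [he]; ring) (by rw [add_comm (y' ^ 2)]; rw [he']; ring)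
  rw [h1]

private theorem enumu_same2 {t t' : Nd} (ht : Good t) (ht' : Good t') (hz : t.2.2 = t'.2.2)
    (h : t.2.1 = t'.2.1) : t = t' := by
  obtain ⟨x, y, z⟩ := t
  obtain ⟨x', y', z'⟩ := t'
  obtain ⟨hx, hy, hxy, hxz, hyz, he⟩ := ht
  obtain ⟨hx', hy', hxy', hxz', hyz', he'⟩ := ht'
  simp only at *
  subst hz h
  have h1 : x = x' := enumu_third (m := y) (n := z) hy hxz hxz' he he'
  rw [h1]

theorem adj {b : Bool} {c d d' : List Bool} (h1 : |det (uu d) (uu d')| = 1) (h2 : zz c = zz d)
    (h3 : zz (b :: c) = zz d') : d = c ∧ d' = b :: c := by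
  have hlt : zz d < zz d' := by
    rw [← h2, ← h3]
    exact zz_lt_cons b c
  have hne : ss d ≠ ss d' := by
    intro hs
    have e1 := ss_eq d
    have e2 := ss_eq d'
    rw [← hs] at e2
    have e3 : det (uu d) (uu d') = (ss d : ℤ) * ((uu d).1 - (uu d').1) := by
      unfold det
      have e4 : (uu d).2 = ss d - (uu d).1 := by linarith
      have e5 : (uu d').2 = ss d - (uu d').1 := by linarith
      rw [e4, e5]
      ring
    have h4 : ((ss d : ℤ)) ∣ 1 := by
      rw [← h1, e3, abs_mul]
      exact (dvd_abs _ _).2 (dvd_refl _) |>.mul_right _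
    have h5 := Int.le_of_dvd one_pos h4
    have h6 := ss_ge d
    omega
  have hgt : ss d < ss d' := by
    by_contra hcon
    have hcon' : ss d' < ss d := by omega
    have h5 := near_uu (p := d) (v := uu d') (by linarith [(uu_pos d').1])
      (by linarith [(uu_pos d').2]) (by rw [ss_eq]; exact_mod_cast hcon')
      (by rw [det_swap, abs_neg]; exact h1)
    have hg := good_tn d
    rcases h5 with h5 | h5
    · have h6 := zz_entry1 h5
      have h7 : (tn d).1 < zz d := hg.2.2.2.1
      omega
    · have h6 := zz_entry2 h5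
      have h7 : (tn d).2.1 < zz d := hg.2.2.2.2.1
      omega
  have h5 := near_uu (p := d') (v := uu d) (by linarith [(uu_pos d).1])
    (by linarith [(uu_pos d).2]) (by rw [ss_eq]; exact_mod_cast hgt) h1
  have hgt := good_tn (b :: c)
  have hgt' := good_tn d'
  rcases h5 with h5 | h5
  · have h6 := zz_entry1 h5
    cases b with
    | true =>
      exfalso
      refine tn_ne_sw (true :: c) d' (enumu_same2 hgt (good_sw hgt') h3 ?_)
      show zz c = (tn d').1
      rw [h2, h6]
    | false =>
      have h7 : tn (false :: c) = tn d' := by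
        refine enumu_same1 hgt hgt' h3 ?_
        show zz c = (tn d').1
        rw [h2, h6]
      have h8 : d' = false :: c := (tn_inj h7).symm
      refine ⟨?_, h8⟩
      rw [h8] at h5
      exact uu_inj h5
  · have h6 := zz_entry2 h5
    cases b with
    | true =>
      have h7 : tn (true :: c) = tn d' := by
        refine enumu_same2 hgt hgt' h3 ?_
        show zz c = (tn d').2.1
        rw [h2, h6]
      have h8 : d' = true :: c := (tn_inj h7).symm
      refine ⟨?_, h8⟩
      rw [h8] at h5
      exact uu_inj h5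
    | false =>
      exfalso
      refine tn_ne_sw (false :: c) d' (enumu_same1 hgt (good_sw hgt') h3 ?_)
      show zz c = (tn d').2.1
      rw [h2, h6]

end Pool.Agent.Lib.MP_94ab62_ntU
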