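import Pool.Agent.Lib.MP_94ab62_ntU.JDefs

/-!
# J CORE

* `core`: `divergence'` for `(c, P, P')` gives `σ1` and for `(d, Q, Q')` gives `σ2`; subtract `a1`, `a2`:
  `|I (LL P v - LL P' v) - (LL Q (M v) - LL Q' (M v))| ≤ 2 σ nm v`.  So the left side of `core` is at most
  `I * 16/R^39 ee c nm v + 16/R^39 ee d nm (M v) + 2 σ nm v ≤ (16/R^38 ee c + 32/R^36 ee d + 2 ee c / R^60) nm v`
  (`b1`, `I ≤ R`, `hσ`), at most `33/R^36 (ee c + ee d) nm v`.
* `J1`: write `u = uu c`, `u' = uu d`, `S = ee c + ee d`.  Suppose `det (M u) u' ≠ 0`.  `core` with `v = u` (`det u u = 0`):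
  `ee d ≤ ee d |det (M u) u'| ≤ 33/R^36 S R`.  `core` with `v = M' u'`: `M (M' u') = (I I') • u'` so the second term vanishes:
  `I ee c |det (M' u') u| ≤ 33/R^36 S * 2 R^4` (`b2`, `I' ≤ R`).  `det (M' u') u ≠ 0`: otherwise `M' u' = k • u` (`solve_uu`),
  `(I I') • u' = k • M u`, so `0 = det ((I I') • u') u' = k det (M u) u'`, `k = 0`, `(I I') • u' = 0`, contradiction with `uu_pos`.
  So `ee c ≤ 66/R^32 S`, and `S ≤ 99/R^32 S`, contradiction.
  Hence `det (M u) u' = 0`, `M u = k • u'` (`solve_uu`).  `a1` with `v = u`: `|I LL P u - k LL Q u'| ≤ σ nm u`, `LL P u ≥ 7/10 nm u`,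
  `σ ≤ ee c ≤ 1/20`, so `k LL Q u' > 0`, `LL Q u' > 0`, `k > 0`.
* `J2`: with `M u = τ • u'`.  `dM M * dM M' = (I I')²` (`det_ap` twice for `v = (1,0)`, `w = (0,1)` and `c1` or `c2`), so
  `dM M ≠ 0` and `|dM M| ≤ (I I')²`.  Let `δ = det (M (g1 c)) u'`: `τ δ = det (M (g1 c)) (M u) = dM M * det (g1 c) (uu c) = dM M`.
  `ρ = |δ|`.  `core` with `v = g1 c`: `|I σ1 ee c - σ2 ee d δ| ≤ 33/R^36 S m1 c ≤ 33/R^35 S`, so `|I ee c - ρ ee d| ≤ 33/R^35 S`.
  Lengths: `|I ll c - I LL P u| ≤ 3 I ww c ss c` (`ll_app'`), `|I LL P u - τ LL Q u'| ≤ σ ss c` (`a1`), `|τ LL Q u' - τ ll d| ≤ 3 τ ww d ss d`.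
-/

set_option autoImplicit false

namespace Pool.Agent.Lib.MP_94ab62_ntU

open Pool.Agent.Lib.MP_94ab62_nt

private theorem jcore_R {R : ℕ} (hR : 100 ≤ R) : (100 : ℝ) ≤ (R : ℝ) := by exact_mod_cast hR

theorem core {R I I' : ℕ} {M M' : Mt} {c d P P' Q Q' : List Bool} {b b' : Bool} {σ : ℝ}
    (hC : Cfg R I I' M M') (hD : Dv R I M c d P P' Q Q' b b' σ) :
    ∃ σ1 σ2 : ℝ, |σ1| = 1 ∧ |σ2| = 1 ∧ ∀ v : ℤ × ℤ,
      |I * (σ1 * (ee c * (det v (uu c) : ℝ))) - σ2 * (ee d * (det (ap M v) (uu d) : ℝ))| ≤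
        33 / (R : ℝ) ^ 36 * (ee c + ee d) * nm v := by
  have hR1 : 1 ≤ R := le_trans (by norm_num) hC.hR
  have hr := jcore_R hC.hR
  obtain ⟨σ1, hσ1, H1⟩ := divergence' hR1 hD.gc hD.sc hD.h1 hD.h2
  obtain ⟨σ2, hσ2, H2⟩ := divergence' hR1 hD.gd hD.sd hD.h3 hD.h4
  refine ⟨σ1, σ2, hσ1, hσ2, ?_⟩
  intro v
  have e1 := H1 v
  have e2 := H2 (ap M v)
  have e3 := hD.a1 v
  have e4 := hD.a2 v
  have hn := nm_nonneg v
  have hec := ee_pos c
  have hed := ee_pos d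
  have hIR : (I : ℝ) ≤ (R : ℝ) := by exact_mod_cast hC.hIR
  have hI0 : (0 : ℝ) ≤ (I : ℝ) := Nat.cast_nonneg I
  have hr0 : (0 : ℝ) < (R : ℝ) := by linarith
  -- bound for the first error
  have f1 : (I : ℝ) * (16 / (R : ℝ) ^ 39 * ee c * nm v) ≤ 16 / (R : ℝ) ^ 38 * ee c * nm v := by
    have k1 : (I : ℝ) * (16 / (R : ℝ) ^ 39) ≤ 16 / (R : ℝ) ^ 38 := by
      have k2 : 16 / (R : ℝ) ^ 38 = (R : ℝ) * (16 / (R : ℝ) ^ 39) := by
        field_simp
      rw [k2]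
      exact mul_le_mul_of_nonneg_right hIR (by positivity)
    calc (I : ℝ) * (16 / (R : ℝ) ^ 39 * ee c * nm v)
        = ((I : ℝ) * (16 / (R : ℝ) ^ 39)) * (ee c * nm v) := by ring
      _ ≤ 16 / (R : ℝ) ^ 38 * (ee c * nm v) :=
          mul_le_mul_of_nonneg_right k1 (mul_nonneg hec.le hn)
      _ = 16 / (R : ℝ) ^ 38 * ee c * nm v := by ring
  have f2 : 16 / (R : ℝ) ^ 39 * ee d * nm (ap M v) ≤ 32 / (R : ℝ) ^ 36 * ee d * nm v := by
    have k1 := hC.b1 v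
    have k2 : 2 * (I : ℝ) * (R : ℝ) ^ 2 * nm v ≤ 2 * (R : ℝ) * (R : ℝ) ^ 2 * nm v := by
      apply mul_le_mul_of_nonneg_right _ hn
      apply mul_le_mul_of_nonneg_right _ (by positivity)
      linarith
    have k3 : nm (ap M v) ≤ 2 * (R : ℝ) * (R : ℝ) ^ 2 * nm v := k1.trans k2
    have k4 : 16 / (R : ℝ) ^ 39 * ee d * nm (ap M v) ≤
        16 / (R : ℝ) ^ 39 * ee d * (2 * (R : ℝ) * (R : ℝ) ^ 2 * nm v) :=
      mul_le_mul_of_nonneg_left k3 (by positivity)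
    have k5 : 16 / (R : ℝ) ^ 39 * ee d * (2 * (R : ℝ) * (R : ℝ) ^ 2 * nm v) =
        32 / (R : ℝ) ^ 36 * ee d * nm v := by
      field_simp
      ring
    rw [k5] at k4
    exact k4
  have f3 : 2 * (σ * nm v) ≤ 2 / (R : ℝ) ^ 60 * ee c * nm v := by
    have k1 : σ ≤ ee c / (R : ℝ) ^ 60 := by
      rw [le_div_iff₀ (by positivity)]
      exact hD.hσ
    have k2 := mul_le_mul_of_nonneg_right k1 hn
    have k3 : 2 / (R : ℝ) ^ 60 * ee c * nm v = 2 * (ee c / (R : ℝ) ^ 60 * nm v) := by ring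
    rw [k3]
    linarith
  -- the identity
  have hI1 : |(I : ℝ) * (LL P v - LL P' v - σ1 * (ee c * (det v (uu c) : ℝ)))| ≤
      (I : ℝ) * (16 / (R : ℝ) ^ 39 * ee c * nm v) := by
    rw [abs_mul, abs_of_nonneg hI0]
    exact mul_le_mul_of_nonneg_left e1 hI0
  have t1 := (abs_le.1 hI1)
  have t2 := (abs_le.1 e2)
  have t3 := (abs_le.1 e3)
  have t4 := (abs_le.1 e4)
  have g1' : 16 / (R : ℝ) ^ 38 + 2 / (R : ℝ) ^ 60 ≤ 33 / (R : ℝ) ^ 36 := by
    have k1 : 16 / (R : ℝ) ^ 38 ≤ 16 / (R : ℝ) ^ 36 := by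
      apply div_le_div_of_nonneg_left (by norm_num) (by positivity)
      exact pow_le_pow_right₀ (by linarith) (by norm_num)
    have k2 : 2 / (R : ℝ) ^ 60 ≤ 2 / (R : ℝ) ^ 36 := by
      apply div_le_div_of_nonneg_left (by norm_num) (by positivity)
      exact pow_le_pow_right₀ (by linarith) (by norm_num)
    have k3 : 33 / (R : ℝ) ^ 36 = 16 / (R : ℝ) ^ 36 + 2 / (R : ℝ) ^ 36 + 15 / (R : ℝ) ^ 36 := by
      ring
    have k4 : 0 ≤ 15 / (R : ℝ) ^ 36 := by positivity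
    linarith
  have g2' : 32 / (R : ℝ) ^ 36 ≤ 33 / (R : ℝ) ^ 36 := by
    apply div_le_div_of_nonneg_right (by norm_num) (by positivity)
  have s1 : (16 / (R : ℝ) ^ 38 + 2 / (R : ℝ) ^ 60) * (ee c * nm v) ≤
      33 / (R : ℝ) ^ 36 * (ee c * nm v) :=
    mul_le_mul_of_nonneg_right g1' (mul_nonneg hec.le hn)
  have s2 : 32 / (R : ℝ) ^ 36 * (ee d * nm v) ≤ 33 / (R : ℝ) ^ 36 * (ee d * nm v) :=
    mul_le_mul_of_nonneg_right g2' (mul_nonneg hed.le hn)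
  have tot : (16 / (R : ℝ) ^ 38 * ee c * nm v) + (32 / (R : ℝ) ^ 36 * ee d * nm v) +
      (2 / (R : ℝ) ^ 60 * ee c * nm v) ≤ 33 / (R : ℝ) ^ 36 * (ee c + ee d) * nm v := by
    have k1 : (16 / (R : ℝ) ^ 38 * ee c * nm v) + (32 / (R : ℝ) ^ 36 * ee d * nm v) +
        (2 / (R : ℝ) ^ 60 * ee c * nm v) =
        (16 / (R : ℝ) ^ 38 + 2 / (R : ℝ) ^ 60) * (ee c * nm v) +
          32 / (R : ℝ) ^ 36 * (ee d * nm v) := by ring
    have k2 : 33 / (R : ℝ) ^ 36 * (ee c + ee d) * nm v =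
        33 / (R : ℝ) ^ 36 * (ee c * nm v) + 33 / (R : ℝ) ^ 36 * (ee d * nm v) := by ring
    rw [k1, k2]
    linarith
  have t1a := t1.1
  have t1b := t1.2
  rw [mul_sub, mul_sub] at t1a t1b
  rw [abs_le]
  constructor
  · linarith [t1b, t2.1, t2.2, t3.1, t3.2, t4.1, t4.2]
  · linarith [t1a, t2.1, t2.2, t3.1, t3.2, t4.1, t4.2]

private theorem jcore_one_le_abs {z : ℤ} (hz : z ≠ 0) : (1 : ℝ) ≤ |(z : ℝ)| := by
  have h : 1 ≤ |z| := Int.one_le_abs hz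
  have h2 : ((1 : ℤ) : ℝ) ≤ ((|z| : ℤ) : ℝ) := by exact_mod_cast h
  rwa [Int.cast_one, Int.cast_abs] at h2

private theorem jcore_det_zero_left (w : ℤ × ℤ) : det 0 w = 0 := by
  simp [det]

theorem J1 {R I I' : ℕ} {M M' : Mt} {c d P P' Q Q' : List Bool} {b b' : Bool} {σ : ℝ}
    (hC : Cfg R I I' M M') (hD : Dv R I M c d P P' Q Q' b b' σ) :
    ∃ τ : ℕ, 1 ≤ τ ∧ ap M (uu c) = (τ : ℤ) • uu d := by
  have hr := jcore_R hC.hR
  have hr0 : (0 : ℝ) < (R : ℝ) := by linarith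
  have hr1 : (1 : ℝ) ≤ (R : ℝ) := by linarith
  obtain ⟨σ1, σ2, hσ1, hσ2, H⟩ := core hC hD
  have hec := ee_pos c
  have hed := ee_pos d
  have hI1 : (1 : ℝ) ≤ (I : ℝ) := by exact_mod_cast hC.hI
  have hIR' : (I' : ℝ) ≤ (R : ℝ) := by exact_mod_cast hC.hIR'
  have hsc : (ss c : ℝ) ≤ (R : ℝ) := by exact_mod_cast hD.sc
  have hsd : (ss d : ℝ) ≤ (R : ℝ) := by exact_mod_cast hD.sd
  have hS : 0 < ee c + ee d := by linarith
  have hdet : det (ap M (uu c)) (uu d) = 0 := by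
    by_contra hne
    have a1 := H (uu c)
    rw [det_self] at a1
    have a2 : |(I : ℝ) * (σ1 * (ee c * ((0 : ℤ) : ℝ))) -
        σ2 * (ee d * (det (ap M (uu c)) (uu d) : ℝ))| =
        ee d * |(det (ap M (uu c)) (uu d) : ℝ)| := by
      rw [Int.cast_zero, mul_zero, mul_zero, mul_zero, zero_sub, abs_neg, abs_mul, hσ2, one_mul,
        abs_mul, abs_of_pos hed]
    rw [a2, nm_uu] at a1
    have a3 : ee d ≤ ee d * |(det (ap M (uu c)) (uu d) : ℝ)| := by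
      have := jcore_one_le_abs hne
      nlinarith
    have a4 : 33 / (R : ℝ) ^ 36 * (ee c + ee d) * (ss c : ℝ) ≤
        33 / (R : ℝ) ^ 36 * (ee c + ee d) * (R : ℝ) :=
      mul_le_mul_of_nonneg_left hsc (by positivity)
    have a5 : 33 / (R : ℝ) ^ 36 * (ee c + ee d) * (R : ℝ) = 33 / (R : ℝ) ^ 35 * (ee c + ee d) := by
      field_simp
    have a6 : ee d ≤ 33 / (R : ℝ) ^ 35 * (ee c + ee d) := by
      rw [← a5]
      exact a3.trans (a1.trans a4)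
    -- second vector
    have hne2 : det (ap M' (uu d)) (uu c) ≠ 0 := by
      intro h0
      obtain ⟨k, hk⟩ := solve_uu h0
      have b1 := hC.c1 (uu d)
      rw [hk, ap_smul] at b1
      have b2 : det (k • ap M (uu c)) (uu d) = 0 := by
        rw [b1, det_smul_left, det_self, mul_zero]
      rw [det_smul_left] at b2
      rcases mul_eq_zero.1 b2 with h | h
      · rw [h, zero_smul] at b1
        have b3 := congrArg Prod.fst b1
        simp only [Prod.fst_zero, Prod.smul_fst, smul_eq_mul] at b3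
        have b4 := (uu_pos d).1
        have b5 : (0 : ℤ) < (I : ℤ) * I' := by
          have h1 : (1 : ℤ) ≤ I := by exact_mod_cast hC.hI
          have h2 : (1 : ℤ) ≤ I' := by exact_mod_cast hC.hI'
          positivity
        have b6 : (0 : ℤ) < (I : ℤ) * I' * (uu d).1 := by positivity
        omega
      · exact hne h
    have c1 := H (ap M' (uu d))
    rw [hC.c1, det_smul_left, det_self, mul_zero] at c1
    have c2 : |(I : ℝ) * (σ1 * (ee c * (det (ap M' (uu d)) (uu c) : ℝ))) -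
        σ2 * (ee d * ((0 : ℤ) : ℝ))| =
        (I : ℝ) * (ee c * |(det (ap M' (uu d)) (uu c) : ℝ)|) := by
      rw [Int.cast_zero, mul_zero, mul_zero, sub_zero, abs_mul, abs_mul, abs_mul, hσ1, one_mul,
        abs_of_pos hec, abs_of_nonneg (by linarith : (0 : ℝ) ≤ (I : ℝ))]
    rw [c2] at c1
    have c3 : ee c ≤ (I : ℝ) * (ee c * |(det (ap M' (uu d)) (uu c) : ℝ)|) := by
      have h1 := jcore_one_le_abs hne2
      have h2 : ee c ≤ ee c * |(det (ap M' (uu d)) (uu c) : ℝ)| := by nlinarith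
      nlinarith
    have c4 : nm (ap M' (uu d)) ≤ 2 * (R : ℝ) * (R : ℝ) ^ 2 * (R : ℝ) := by
      have h1 := hC.b2 (uu d)
      rw [nm_uu] at h1
      refine h1.trans ?_
      have hI'0 : (0 : ℝ) ≤ (I' : ℝ) := Nat.cast_nonneg _
      have hss : (0 : ℝ) ≤ (ss d : ℝ) := Nat.cast_nonneg _
      apply mul_le_mul _ hsd hss (by positivity)
      apply mul_le_mul_of_nonneg_right _ (by positivity)
      linarith
    have c5 : 33 / (R : ℝ) ^ 36 * (ee c + ee d) * nm (ap M' (uu d)) ≤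
        33 / (R : ℝ) ^ 36 * (ee c + ee d) * (2 * (R : ℝ) * (R : ℝ) ^ 2 * (R : ℝ)) :=
      mul_le_mul_of_nonneg_left c4 (by positivity)
    have c6 : 33 / (R : ℝ) ^ 36 * (ee c + ee d) * (2 * (R : ℝ) * (R : ℝ) ^ 2 * (R : ℝ)) =
        66 / (R : ℝ) ^ 32 * (ee c + ee d) := by
      field_simp
      ring
    have c7 : ee c ≤ 66 / (R : ℝ) ^ 32 * (ee c + ee d) := by
      rw [← c6]
      exact c3.trans (c1.trans c5)
    have d1 : 66 / (R : ℝ) ^ 32 ≤ 66 / 100 ^ 2 := by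
      apply div_le_div_of_nonneg_left (by norm_num) (by norm_num)
      calc (100 : ℝ) ^ 2 ≤ (R : ℝ) ^ 2 := pow_le_pow_left₀ (by norm_num) hr 2
        _ ≤ (R : ℝ) ^ 32 := pow_le_pow_right₀ hr1 (by norm_num)
    have d2 : 33 / (R : ℝ) ^ 35 ≤ 33 / 100 ^ 2 := by
      apply div_le_div_of_nonneg_left (by norm_num) (by norm_num)
      calc (100 : ℝ) ^ 2 ≤ (R : ℝ) ^ 2 := pow_le_pow_left₀ (by norm_num) hr 2
        _ ≤ (R : ℝ) ^ 35 := pow_le_pow_right₀ hr1 (by norm_num)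
    have d3 := mul_le_mul_of_nonneg_right d1 hS.le
    have d4 := mul_le_mul_of_nonneg_right d2 hS.le
    norm_num at d3 d4
    linarith
  obtain ⟨k, hk⟩ := solve_uu hdet
  have e1 := hD.a1 (uu c)
  rw [hk, LL_smul, nm_uu] at e1
  have up := uu_pos c
  have uq := uu_pos d
  have e2 := LL_pos P (v := uu c) (by linarith [up.1]) (by linarith [up.2])
  have e3 := LL_pos Q (v := uu d) (by linarith [uq.1]) (by linarith [uq.2])
  rw [nm_uu] at e2 e3
  have hssc : (2 : ℝ) ≤ (ss c : ℝ) := by exact_mod_cast ss_ge c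
  have hssd : (2 : ℝ) ≤ (ss d : ℝ) := by exact_mod_cast ss_ge d
  have e4 : σ ≤ 1 / 20 := by
    have h1 := hD.hσ
    have h2 := ee_small c
    have h3 : (1 : ℝ) ≤ (R : ℝ) ^ 60 := one_le_pow₀ hr1
    have h4 := hD.hσ0
    nlinarith
  have e5 := (abs_le.1 e1).2
  have e6 : (0 : ℝ) < k * LL Q (uu d) := by
    have h1 : σ * (ss c : ℝ) ≤ 1 / 20 * (ss c : ℝ) :=
      mul_le_mul_of_nonneg_right e4 (by linarith)
    have h2 : LL P (uu c) ≤ (I : ℝ) * LL P (uu c) := by nlinarith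
    nlinarith
  have e7 : 0 < LL Q (uu d) := by linarith
  have e8 : (0 : ℝ) < (k : ℝ) := by
    by_contra hcon
    push Not at hcon
    have := mul_nonpos_of_nonpos_of_nonneg hcon e7.le
    linarith
  have e9 : 0 < k := by exact_mod_cast e8
  refine ⟨k.toNat, ?_, ?_⟩
  · omega
  · rw [hk, Int.toNat_of_nonneg e9.le]

theorem J2 {R I I' : ℕ} {M M' : Mt} {c d P P' Q Q' : List Bool} {b b' : Bool} {σ : ℝ}
    (hC : Cfg R I I' M M') (hD : Dv R I M c d P P' Q Q' b b' σ) {τ : ℕ} (hτ : 1 ≤ τ)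
    (h : ap M (uu c) = (τ : ℤ) • uu d) :
    ∃ ρ : ℕ, 1 ≤ ρ ∧ (ρ : ℤ) * τ = |dM M| ∧ ρ * τ ≤ (I * I') ^ 2 ∧
      |I * ee c - ρ * ee d| ≤ 33 / (R : ℝ) ^ 35 * (ee c + ee d) ∧
      |I * ll c - τ * ll d| ≤ 3 * I * ww c * ss c + 3 * τ * ww d * ss d + σ * ss c := by
  have hr := jcore_R hC.hR
  have hr0 : (0 : ℝ) < (R : ℝ) := by linarith
  obtain ⟨σ1, σ2, hσ1, hσ2, H⟩ := core hC hD
  have hec := ee_pos c
  have hed := ee_pos d
  have hsc : (ss c : ℝ) ≤ (R : ℝ) := by exact_mod_cast hD.sc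
  have hI0 : (0 : ℝ) ≤ (I : ℝ) := Nat.cast_nonneg I
  -- determinants
  have hdd : dM M * dM M' = ((I : ℤ) * I') ^ 2 := by
    have h1 := det_ap M (ap M' ((1 : ℤ), (0 : ℤ))) (ap M' ((0 : ℤ), (1 : ℤ)))
    rw [det_ap M', hC.c1, hC.c1] at h1
    simp only [det, Prod.smul_mk, smul_eq_mul] at h1
    linarith
  have hI1 : (1 : ℤ) ≤ (I : ℤ) := by exact_mod_cast hC.hI
  have hI1' : (1 : ℤ) ≤ (I' : ℤ) := by exact_mod_cast hC.hI'
  have hpos : (0 : ℤ) < ((I : ℤ) * I') ^ 2 := by positivity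
  have hM0 : dM M ≠ 0 := by
    intro h0
    rw [h0, zero_mul] at hdd
    omega
  have hM0' : dM M' ≠ 0 := by
    intro h0
    rw [h0, mul_zero] at hdd
    omega
  have hMle : |dM M| ≤ ((I : ℤ) * I') ^ 2 := by
    have h1 : |dM M| * |dM M'| = ((I : ℤ) * I') ^ 2 := by
      rw [← abs_mul, hdd, abs_of_pos hpos]
    have h2 : 1 ≤ |dM M'| := Int.one_le_abs hM0'
    have h3 : 0 ≤ |dM M| := abs_nonneg _
    nlinarith
  set δ : ℤ := det (ap M (g1 c)) (uu d) with hδ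
  have hdetg : det (g1 c) (uu c) = 1 := by
    unfold uu
    rw [det_add_right, det_self, det_g, zero_add]
  have hτδ : (τ : ℤ) * δ = dM M := by
    have h1 := det_ap M (g1 c) (uu c)
    rw [h, det_smul_right, hdetg, mul_one] at h1
    exact h1
  have hδ0 : δ ≠ 0 := by
    intro h0
    rw [h0, mul_zero] at hτδ
    exact hM0 hτδ.symm
  have hρτ : ((δ.natAbs : ℕ) : ℤ) * τ = |dM M| := by
    rw [← hτδ, abs_mul, Int.natCast_natAbs, Nat.abs_cast, mul_comm]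
  refine ⟨δ.natAbs, ?_, hρτ, ?_, ?_, ?_⟩
  · exact Int.natAbs_pos.2 hδ0
  · have h1 : ((δ.natAbs * τ : ℕ) : ℤ) ≤ (((I * I') ^ 2 : ℕ) : ℤ) := by
      push_cast
      have h2 : |δ| * (τ : ℤ) = |dM M| := by
        rw [← hρτ, Int.natCast_natAbs]
      rw [h2]
      exact hMle
    exact_mod_cast h1
  · have a1 := H (g1 c)
    rw [hdetg, nm_g1, ← hδ, Int.cast_one, mul_one] at a1
    have hm : (m1 c : ℝ) ≤ (R : ℝ) := by
      have h1 : m1 c ≤ ss c := by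
        unfold ss
        omega
      exact_mod_cast le_trans h1 hD.sc
    have a2 : 33 / (R : ℝ) ^ 36 * (ee c + ee d) * (m1 c : ℝ) ≤
        33 / (R : ℝ) ^ 36 * (ee c + ee d) * (R : ℝ) :=
      mul_le_mul_of_nonneg_left hm (by positivity)
    have a3 : 33 / (R : ℝ) ^ 36 * (ee c + ee d) * (R : ℝ) = 33 / (R : ℝ) ^ 35 * (ee c + ee d) := by
      field_simp
    have a4 := abs_abs_sub_abs_le_abs_sub ((I : ℝ) * (σ1 * ee c)) (σ2 * (ee d * (δ : ℝ)))
    have a5 : |(I : ℝ) * (σ1 * ee c)| = I * ee c := by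
      rw [abs_mul, abs_mul, hσ1, one_mul, abs_of_pos hec, abs_of_nonneg hI0]
    have a6 : |σ2 * (ee d * (δ : ℝ))| = (δ.natAbs : ℝ) * ee d := by
      rw [abs_mul, hσ2, one_mul, abs_mul, abs_of_pos hed, Nat.cast_natAbs, Int.cast_abs, mul_comm]
    rw [a5, a6] at a4
    rw [← a3]
    exact a4.trans (a1.trans a2)
  · have s1 : c <:+ P := (List.suffix_cons b c).trans hD.h1
    have s2 : d <:+ Q := (List.suffix_cons b' d).trans hD.h3
    have b1 := ll_app' s1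
    have b2 := ll_app' s2
    have b3 := hD.a1 (uu c)
    rw [h, LL_smul, nm_uu] at b3
    have hτ0 : (0 : ℝ) ≤ (τ : ℝ) := Nat.cast_nonneg _
    have c1 : |(I : ℝ) * (ll c - LL P (uu c))| ≤ I * (3 * ww c * ss c) := by
      rw [abs_mul, abs_of_nonneg hI0]
      exact mul_le_mul_of_nonneg_left b1 hI0
    have c2 : |(τ : ℝ) * (ll d - LL Q (uu d))| ≤ τ * (3 * ww d * ss d) := by
      rw [abs_mul, abs_of_nonneg hτ0]
      exact mul_le_mul_of_nonneg_left b2 hτ0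
    have e1 := abs_le.1 c1
    have e2 := abs_le.1 c2
    have e3 := abs_le.1 b3
    have e1a := e1.1
    have e1b := e1.2
    have e2a := e2.1
    have e2b := e2.2
    have e3a := e3.1
    have e3b := e3.2
    rw [mul_sub] at e1a e1b e2a e2b
    push_cast at e3a e3b
    rw [abs_le]
    constructor
    · linarith
    · linarith

end Pool.Agent.Lib.MP_94ab62_ntU
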