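import Pool.Agent.Lib.MP_94ab62_ntU.JDefs
import Pool.Agent.Lib.MP_94ab62_ntU.Asy

/-!
# J NUM: the matrix maps the divergence point to the divergence point

Write `ε = ee`, `ℓ = ll`, `δ = 33/R^35`, `θ = 20/R^40`; `ε c = 4 e^(-2 ℓ c) (1 ± θ)` (`ee_asym`), same for `d`.
`I, I' ≤ 4Q ≤ R`, `ρ, τ ≤ ρ τ ≤ (16 Q²)² ≤ R^4`.
* `x := e^(2 (ℓ d - ℓ c)) = (ε c / ε d) (1 ± θ)/(1 ± θ)`; from `h1`: `(I - δ) ε c ≤ (ρ + δ) ε d`, `(ρ - δ) ε d ≤ (I + δ) ε c`, so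
  `(1/4)(ρ / I) ≤ x ≤ 4 ρ / I`, hence `1/(16 Q) ≤ x ≤ 4 * 256 Q^4`, so `2 |ℓ c - ℓ d| ≤ log (1024 Q^4) ≤ Q` (`Q ≥ 20`:
  `e^Q ≥ 1024 Q^4`).
* `h2`: `ww ≤ 8 e^(-ss) ≤ 8 e^(-K3) ≤ 8 / R^100` (`ww_le`), so `|I ℓ c - τ ℓ d| ≤ 24 R² /R^100 + 24 R^5/R^100 + σ R ≤ 1/R^50`
  (`σ ≤ ε c / R^60 ≤ 1/R^60`).
* `τ = I`: else `|τ - I| ≥ 1` and `ℓ d ≤ |τ - I| ℓ d ≤ |I ℓ c - τ ℓ d| + I |ℓ c - ℓ d| ≤ 1 + 4 Q * Q / 2`, but `ℓ d ≥ 0.9 ss d ≥ 0.9 K3 ≥ 90 Q²`.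
* `ρ = I`: now `|ℓ c - ℓ d| ≤ 1/R^50`, so `x = 1 ± 3/R^50`, `ε c / ε d = 1 ± 100/R^40`, and `(ρ - δ) ≤ (I + δ) ε c/ε d` gives
  `ρ < I + 1`; `(I - δ) ε c ≤ (ρ + δ) ε d` gives `I < ρ + 1`.
* `zz c = zz d`: `ww c ss c = ε c (ss c)² ≤ 8 e^(-2 ℓ c) R²` (`ee_le_ll`), `σ ss c ≤ R * ε c / R^60 ≤ e^(-2 ℓ c)`; dividing `h2` by `I`
  (`τ = I`): `|ℓ c - ℓ d| ≤ 25 R² (e^(-2 ℓ c) + e^(-2 ℓ d))`.  `cosh (ℓ c) = 3/2 zz c` (`cosh_F`), same for `d`.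
  `|cosh a - cosh b| ≤ e^(max a b) |a - b|` and `e^(max) ≤ 2 e^(min)` (as `|ℓ c - ℓ d| ≤ 1/2`), so
  `|3/2 zz c - 3/2 zz d| ≤ 2 e^(min) * 50 R² e^(-2 min) = 100 R² e^(-min) ≤ 100 R² e^(-0.9 K3) < 3/2`, since
  `e^(0.9 K3) ≥ (e^K3)^(1/2) ≥ R^50`.  So the integers `zz c`, `zz d` are equal.
-/

set_option autoImplicit false

namespace Pool.Agent.Lib.MP_94ab62_ntU

open Pool.Agent.Lib.MP_94ab62_nt

private theorem jnum_pow {R : ℝ} (hR : 100 ≤ R) {n : ℕ} (hn : 3 ≤ n) : 10000 * R ≤ R ^ n := by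
  have h1 : R ^ 3 ≤ R ^ n := pow_le_pow_right₀ (by linarith) hn
  have h2 : 10000 * R ≤ R ^ 3 := by nlinarith [mul_nonneg (by linarith : 0 ≤ R) (by nlinarith : 0 ≤ R ^ 2 - 10000)]
  linarith

private theorem jnum_div {R C : ℝ} (hR : 100 ≤ R) (hC : 0 ≤ C) {n : ℕ} (hn : 3 ≤ n) :
    C / R ^ n ≤ C / (10000 * R) :=
  div_le_div_of_nonneg_left hC (by positivity) (jnum_pow hR hn)

private theorem jnum_exp {Q : ℝ} (hQ : 20 ≤ Q) : 1024 * Q ^ 4 ≤ Real.exp Q := by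
  have h1 : (Q / 20) ^ 4 ≤ Real.exp (Q - 20) := by
    have h2 : Q / 20 ≤ Real.exp ((Q - 20) / 4) := by
      have h3 := Real.add_one_le_exp ((Q - 20) / 4)
      linarith
    calc (Q / 20) ^ 4 ≤ (Real.exp ((Q - 20) / 4)) ^ 4 := pow_le_pow_left₀ (by positivity) h2 4
      _ = Real.exp (Q - 20) := by
        rw [← Real.exp_nat_mul]
        congr 1
        push_cast
        ring
  have h4 : (163840000 : ℝ) ≤ Real.exp 20 := by
    have h5 : (2.7 : ℝ) ≤ Real.exp 1 := by linarith [Real.exp_one_gt_d9]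
    calc (163840000 : ℝ) ≤ (2.7 : ℝ) ^ 20 := by norm_num
      _ ≤ (Real.exp 1) ^ 20 := pow_le_pow_left₀ (by norm_num) h5 20
      _ = Real.exp 20 := by
        rw [← Real.exp_nat_mul]
        congr 1
        push_cast
        ring
  calc 1024 * Q ^ 4 = 163840000 * (Q / 20) ^ 4 := by ring
    _ ≤ Real.exp 20 * Real.exp (Q - 20) := mul_le_mul h4 h1 (by positivity) (by positivity)
    _ = Real.exp Q := by
      rw [← Real.exp_add]
      congr 1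
      ring

private theorem jnum_cosh {a b D : ℝ} (ha : 0 ≤ a) (hab : a ≤ b) (hb : b ≤ a + 1 / 2)
    (hD : 0 ≤ D) (h : b - a ≤ D * (Real.exp (-(2 * a)) + Real.exp (-(2 * b)))) :
    |Real.cosh a - Real.cosh b| ≤ 2 * D * Real.exp (-a) := by
  have h1 : Real.cosh a ≤ Real.cosh b := by
    rw [Real.cosh_le_cosh, abs_of_nonneg ha, abs_of_nonneg (ha.trans hab)]
    exact hab
  rw [abs_sub_comm, abs_of_nonneg (sub_nonneg.2 h1)]
  have h2 : Real.exp (-b) ≤ Real.exp (-a) := Real.exp_le_exp.2 (by linarith)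
  have h3 : Real.exp b - Real.exp a ≤ Real.exp b * (b - a) := by
    have h4 := Real.add_one_le_exp (a - b)
    have h5 : Real.exp b * Real.exp (a - b) = Real.exp a := by
      rw [← Real.exp_add]
      congr 1
      ring
    nlinarith [Real.exp_pos b]
  have h6 : Real.exp b ≤ 2 * Real.exp a := by
    have h7 : Real.exp b ≤ Real.exp (1 / 2) * Real.exp a := by
      rw [← Real.exp_add]
      exact Real.exp_le_exp.2 (by linarith)
    have h8 : Real.exp (1 / 2) ≤ 2 := by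
      have h9 : Real.exp (1 / 2) ^ 2 ≤ 2 ^ 2 := by
        rw [← Real.exp_nat_mul]
        have h10 : ((2 : ℕ) : ℝ) * (1 / 2) = 1 := by norm_num
        rw [h10]
        linarith [Real.exp_one_lt_d9]
      exact le_of_sq_le_sq h9 (by norm_num)
    nlinarith [Real.exp_pos a]
  have h11 : Real.exp (-(2 * b)) ≤ Real.exp (-(2 * a)) := Real.exp_le_exp.2 (by linarith)
  have h12 : b - a ≤ 2 * D * Real.exp (-(2 * a)) := by nlinarith
  have h13 : Real.exp a * Real.exp (-(2 * a)) = Real.exp (-a) := by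
    rw [← Real.exp_add]
    congr 1
    ring
  rw [Real.cosh_eq, Real.cosh_eq]
  calc (Real.exp b + Real.exp (-b)) / 2 - (Real.exp a + Real.exp (-a)) / 2
      ≤ (Real.exp b * (b - a)) / 2 := by linarith
    _ ≤ (2 * Real.exp a * (b - a)) / 2 := by
      apply div_le_div_of_nonneg_right _ (by norm_num)
      exact mul_le_mul_of_nonneg_right h6 (by linarith)
    _ = Real.exp a * (b - a) := by ring
    _ ≤ Real.exp a * (2 * D * Real.exp (-(2 * a))) :=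
      mul_le_mul_of_nonneg_left h12 (Real.exp_pos a).le
    _ = 2 * D * Real.exp (-a) := by
      rw [← h13]
      ring

private theorem jnum_half {ea eb a b I ρ δ θ : ℝ} (ha : |ea * Real.exp (2 * a) / 4 - 1| ≤ θ)
    (hb : |eb * Real.exp (2 * b) / 4 - 1| ≤ θ) (hI : 0 ≤ I - δ) (hρ : 0 ≤ ρ + δ)
    (h : (I - δ) * ea ≤ (ρ + δ) * eb) :
    (I - δ) * (1 - θ) ≤ (ρ + δ) * (1 + θ) * Real.exp (2 * (a - b)) := by
  rw [abs_le] at ha hb
  have h1 : eb * Real.exp (2 * a) / 4 = eb * Real.exp (2 * b) / 4 * Real.exp (2 * (a - b)) := by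
    have h2 : Real.exp (2 * a) = Real.exp (2 * b) * Real.exp (2 * (a - b)) := by
      rw [← Real.exp_add]
      congr 1
      ring
    rw [h2]
    ring
  calc (I - δ) * (1 - θ) ≤ (I - δ) * (ea * Real.exp (2 * a) / 4) :=
        mul_le_mul_of_nonneg_left (by linarith) hI
    _ = (I - δ) * ea * (Real.exp (2 * a) / 4) := by ring
    _ ≤ (ρ + δ) * eb * (Real.exp (2 * a) / 4) := mul_le_mul_of_nonneg_right h (by positivity)
    _ = (ρ + δ) * (eb * Real.exp (2 * a) / 4) := by ring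
    _ = (ρ + δ) * (eb * Real.exp (2 * b) / 4) * Real.exp (2 * (a - b)) := by
        rw [h1]
        ring
    _ ≤ (ρ + δ) * (1 + θ) * Real.exp (2 * (a - b)) := by
        apply mul_le_mul_of_nonneg_right _ (Real.exp_pos _).le
        exact mul_le_mul_of_nonneg_left (by linarith) hρ

private theorem jnum_far {a b I ρ δ θ : ℝ} (hθ : θ ≤ 1 / 100)
    (hδ0 : 0 ≤ δ) (hδ : δ ≤ 1 / 100) (hI : 1 ≤ I) (hρ : 1 ≤ ρ)
    (h : (I - δ) * (1 - θ) ≤ (ρ + δ) * (1 + θ) * Real.exp (2 * (a - b))) :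
    Real.exp (2 * (b - a)) ≤ 4 * ρ := by
  have hxy : Real.exp (2 * (a - b)) * Real.exp (2 * (b - a)) = 1 := by
    rw [← Real.exp_add]
    have : 2 * (a - b) + 2 * (b - a) = 0 := by ring
    rw [this, Real.exp_zero]
  set x := Real.exp (2 * (b - a)) with hx
  set y := Real.exp (2 * (a - b)) with hy
  have hx0 : 0 < x := Real.exp_pos _
  have h1 : (I - δ) * (1 - θ) * x ≤ (ρ + δ) * (1 + θ) := by
    calc (I - δ) * (1 - θ) * x ≤ (ρ + δ) * (1 + θ) * y * x := mul_le_mul_of_nonneg_right h hx0.le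
      _ = (ρ + δ) * (1 + θ) * (y * x) := by ring
      _ = (ρ + δ) * (1 + θ) := by rw [hxy, mul_one]
  have h2 : (99 / 100 : ℝ) * (99 / 100) ≤ (I - δ) * (1 - θ) :=
    mul_le_mul (by linarith) (by linarith) (by norm_num) (by linarith)
  have h3 : (ρ + δ) * (1 + θ) ≤ (101 / 100 * ρ) * (101 / 100) := by
    have h4 : (ρ + δ) * (1 + θ) ≤ (ρ + δ) * (101 / 100) :=
      mul_le_mul_of_nonneg_left (by linarith) (by linarith)
    have h5 : (ρ + δ) * (101 / 100) ≤ (101 / 100 * ρ) * (101 / 100) :=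
      mul_le_mul_of_nonneg_right (by linarith) (by norm_num)
    linarith
  have h4 : (99 / 100 : ℝ) * (99 / 100) * x ≤ (I - δ) * (1 - θ) * x :=
    mul_le_mul_of_nonneg_right h2 hx0.le
  linarith

/-- closeness of `I` and `ρ` -/
private theorem jnum_near {R I ρ δ θ μ y : ℝ} (hθ : 0 ≤ θ) (hθμ : θ ≤ μ / 4)
    (hμ0 : 0 ≤ μ) (hμ : μ * R ≤ 1 / 100) (hR : 100 ≤ R)
    (hδ0 : 0 ≤ δ) (hδ : δ ≤ 1 / 100) (hI : 1 ≤ I) (hIR : I ≤ R ∨ ρ ≤ R) (hρ : 1 ≤ ρ)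
    (hy : y ≤ 1 + μ / 4) (hy0 : 0 ≤ y)
    (h : (I - δ) * (1 - θ) ≤ (ρ + δ) * (1 + θ) * y) : I < ρ + 1 := by
  have hμ1 : μ ≤ 1 / 100 := by nlinarith
  have h1 : (1 + θ) * y ≤ 1 + μ := by
    calc (1 + θ) * y ≤ (1 + μ / 4) * (1 + μ / 4) :=
          mul_le_mul (by linarith) hy hy0 (by linarith)
      _ ≤ 1 + μ := by nlinarith
  have h2 : (ρ + δ) * (1 + θ) * y ≤ (ρ + δ) * (1 + μ) := by
    rw [mul_assoc]
    exact mul_le_mul_of_nonneg_left h1 (by linarith)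
  have h3 : (I - δ) * (1 - μ) ≤ (I - δ) * (1 - θ) :=
    mul_le_mul_of_nonneg_left (by linarith) (by linarith)
  have h4 : (I - δ) * (1 - μ) ≤ (ρ + δ) * (1 + μ) := by linarith
  by_contra hcon
  push Not at hcon
  have h5 : I ≤ 2 * ρ + 1 := by nlinarith
  rcases hIR with hr | hr
  · nlinarith
  · nlinarith

private theorem jnum_one {R : ℝ} (hR : 100 ≤ R) {n : ℕ} (hn : 3 ≤ n) : 1 / R ^ n ≤ 1 / 1000000 := by
  refine (jnum_div hR (by norm_num) hn).trans ?_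
  apply one_div_le_one_div_of_le (by norm_num)
  linarith

private theorem jnum_RE {R : ℝ} (hR : 100 ≤ R) {n : ℕ} (hn : n ≤ 47) :
    R ^ n * (1 / R ^ 50) ≤ 1 / 1000000 := by
  have hR0 : 0 < R := by linarith
  have h : R ^ n * (1 / R ^ 50) = 1 / R ^ (50 - n) := by
    have h' : R ^ 50 = R ^ n * R ^ (50 - n) := by
      rw [← pow_add]
      congr 1
      omega
    rw [h']
    field_simp
  rw [h]
  exact jnum_one hR (by omega)

private theorem jnum_th {R : ℝ} (hR : 100 ≤ R) : 20 / R ^ 40 ≤ 1 / (100 * R) / 4 := by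
  have hR0 : 0 < R := by linarith
  refine (jnum_div hR (by norm_num) (by norm_num)).trans ?_
  rw [div_div, div_le_div_iff₀ (by positivity) (by positivity)]
  linarith

private theorem jnum_eta {R : ℝ} (hR : 100 ≤ R) : 4 * (1 / R ^ 50) ≤ 1 / (100 * R) / 4 := by
  have hR0 : 0 < R := by linarith
  have h : 4 * (1 / R ^ 50) = 4 / R ^ 50 := by ring
  rw [h]
  refine (jnum_div hR (by norm_num) (by norm_num)).trans ?_
  rw [div_div, div_le_div_iff₀ (by positivity) (by positivity)]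
  linarith

private theorem jnum_de {R : ℝ} (hR : 100 ≤ R) : 33 / R ^ 35 ≤ 1 / 100 := by
  have h : 33 / R ^ 35 = 33 * (1 / R ^ 35) := by ring
  rw [h]
  have := jnum_one hR (show 3 ≤ 35 by norm_num)
  linarith

private theorem jnum_th1 {R : ℝ} (hR : 100 ≤ R) : 20 / R ^ 40 ≤ 1 / 100 := by
  have h : 20 / R ^ 40 = 20 * (1 / R ^ 40) := by ring
  rw [h]
  have := jnum_one hR (show 3 ≤ 40 by norm_num)
  linarith

private theorem jnum_t {R E I w s : ℝ} (k : ℕ) (hk : k ≤ 40) (hE : 0 < E)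
    (hRE : R ^ (k + 1) * E ≤ 1 / 1000000) (hR : 100 ≤ R) (hI0 : 0 ≤ I) (hI : I ≤ R ^ k)
    (hw0 : 0 ≤ w) (hw : w ≤ 8 * (E * E)) (hs0 : 0 ≤ s) (hs : s ≤ R) :
    3 * I * w * s ≤ E / 10000 := by
  have hR0 : 0 < R := by linarith
  calc 3 * I * w * s ≤ 3 * R ^ k * (8 * (E * E)) * R := by gcongr
    _ = 24 * (R ^ (k + 1) * E) * E := by ring
    _ ≤ 24 * (1 / 1000000) * E := by
      apply mul_le_mul_of_nonneg_right _ hE.le
      exact mul_le_mul_of_nonneg_left hRE (by norm_num)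
    _ ≤ E / 10000 := by linarith

private theorem jnum_s {R σ s : ℝ} (hR : 100 ≤ R) (hσ0 : 0 ≤ σ) (hσ : σ * R ^ 60 ≤ 1)
    (hs0 : 0 ≤ s) (hs : s ≤ R) : σ * s ≤ 1 / R ^ 50 / 10000 := by
  have hR0 : 0 < R := by linarith
  have hσ60 : σ ≤ 1 / R ^ 50 * (1 / R ^ 10) := by
    have h : 1 / R ^ 50 * (1 / R ^ 10) = 1 / R ^ 60 := by
      rw [div_mul_div_comm, one_mul, ← pow_add]
    rw [h, le_div_iff₀ (by positivity)]
    exact hσ
  have hE : 0 < 1 / R ^ 50 := by positivity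
  calc σ * s ≤ (1 / R ^ 50 * (1 / R ^ 10)) * R := by gcongr
    _ = 1 / R ^ 50 * (1 / R ^ 9) := by field_simp
    _ ≤ 1 / R ^ 50 * (1 / 1000000) :=
      mul_le_mul_of_nonneg_left (jnum_one hR (by norm_num)) hE.le
    _ ≤ 1 / R ^ 50 / 10000 := by linarith

private theorem jnum_tau {Q I τ a b : ℝ} (hQ : 20 ≤ Q) (hI0 : 0 ≤ I) (hI : I ≤ 4 * Q)
    (hb : 90 * Q ^ 2 ≤ b) (hab : |a - b| ≤ Q / 2) (h : |I * a - τ * b| ≤ 1) : |τ - I| < 1 := by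
  have hQ2 : 400 ≤ Q ^ 2 := by nlinarith
  have hb0 : 0 < b := by linarith
  by_contra hcon
  push Not at hcon
  have h4 : |τ - I| * b ≤ |I * a - τ * b| + I * |a - b| := by
    have e1 : |τ - I| * b = |(τ - I) * b| := by
      rw [abs_mul, abs_of_pos hb0]
    have e2 : I * |a - b| = |I * (a - b)| := by
      rw [abs_mul, abs_of_nonneg hI0]
    rw [e1, e2]
    have e3 : (τ - I) * b = -(I * a - τ * b) + I * (a - b) := by ring
    rw [e3]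
    refine (abs_add_le _ _).trans ?_
    rw [abs_neg]
  have h5 : I * |a - b| ≤ 4 * Q * (Q / 2) :=
    mul_le_mul hI hab (abs_nonneg _) (by linarith)
  have h6 : b ≤ |τ - I| * b := le_mul_of_one_le_left hb0.le hcon
  have h7 : 4 * Q * (Q / 2) = 2 * Q ^ 2 := by ring
  linarith

private theorem jnum_y {μ E x : ℝ} (hE : 4 * E ≤ μ / 4) (hE1 : E ≤ 1 / 1000000) (hx : |x| ≤ E) :
    Real.exp (2 * x) ≤ 1 + μ / 4 := by
  have h3 : |2 * x| ≤ 2 * E := by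
    rw [abs_mul, abs_of_pos (by norm_num : (0 : ℝ) < 2)]
    linarith
  have h4 := Real.abs_exp_sub_one_le (x := 2 * x) (by linarith)
  have h5 := (abs_le.1 h4).2
  linarith

private theorem jnum_diff {R τ a b ea eb sa sb σ : ℝ} (hR : 100 ≤ R) (hτ : 1 ≤ τ) (hσ0 : 0 ≤ σ)
    (hsa : 0 ≤ sa) (hsaR : sa ≤ R) (hsb : 0 ≤ sb) (hsbR : sb ≤ R) (hea : 0 ≤ ea) (heb : 0 ≤ eb)
    (ha : ea ≤ 8 * Real.exp (-(2 * a))) (hb : eb ≤ 8 * Real.exp (-(2 * b)))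
    (hσ : σ * R ^ 60 ≤ ea)
    (h : |τ * a - τ * b| ≤ 3 * τ * (ea * sa) * sa + 3 * τ * (eb * sb) * sb + σ * sa) :
    |a - b| ≤ 25 * R ^ 2 * (Real.exp (-(2 * a)) + Real.exp (-(2 * b))) := by
  have hR0 : 0 < R := by linarith
  have hτ0 : 0 < τ := by linarith
  have hIab : τ * |a - b| = |τ * a - τ * b| := by
    rw [← mul_sub, abs_mul, abs_of_nonneg hτ0.le]
  have hW : ∀ e s l : ℝ, 0 ≤ s → s ≤ R → 0 ≤ e → e ≤ 8 * Real.exp (-(2 * l)) →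
      3 * (e * s) * s ≤ 24 * R ^ 2 * Real.exp (-(2 * l)) := by
    intro e s l hs hsR he hel
    calc 3 * (e * s) * s ≤ 3 * (8 * Real.exp (-(2 * l)) * R) * R := by gcongr
      _ = 24 * R ^ 2 * Real.exp (-(2 * l)) := by ring
  have h3 := hW ea sa a hsa hsaR hea ha
  have h4 := hW eb sb b hsb hsbR heb hb
  have hσc : σ * sa ≤ R ^ 2 * Real.exp (-(2 * a)) := by
    have g3 : σ * R ^ 60 ≤ 8 * Real.exp (-(2 * a)) := hσ.trans ha
    have g4 : 1 ≤ R ^ 59 := one_le_pow₀ (by linarith)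
    have g5 : σ * R ≤ σ * R ^ 60 := by
      have g6 : σ * R ^ 60 = σ * R * R ^ 59 := by ring
      rw [g6]
      exact le_mul_of_one_le_right (mul_nonneg hσ0 hR0.le) g4
    have g7 : σ * sa ≤ σ * R := mul_le_mul_of_nonneg_left hsaR hσ0
    have g8 : 8 ≤ R ^ 2 := by nlinarith
    have g9 : 8 * Real.exp (-(2 * a)) ≤ R ^ 2 * Real.exp (-(2 * a)) :=
      mul_le_mul_of_nonneg_right g8 (Real.exp_pos _).le
    linarith
  have h5 : τ * |a - b| ≤ τ * (3 * (ea * sa) * sa + 3 * (eb * sb) * sb + σ * sa) := by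
    rw [hIab]
    have h6 : σ * sa ≤ τ * (σ * sa) := le_mul_of_one_le_left (mul_nonneg hσ0 hsa) hτ
    have h7 : τ * (3 * (ea * sa) * sa + 3 * (eb * sb) * sb + σ * sa) =
        3 * τ * (ea * sa) * sa + 3 * τ * (eb * sb) * sb + τ * (σ * sa) := by ring
    rw [h7]
    linarith
  have h8 := le_of_mul_le_mul_left h5 hτ0
  have h9 : 0 ≤ R ^ 2 * Real.exp (-(2 * b)) := by positivity
  linarith

private theorem jnum_fin {R a b K E : ℝ} (hE : 0 < E) (hRE : R ^ 2 * E ≤ 1 / 1000000)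
    (hE1 : E ≤ 1 / 1000000) (hK : 0 ≤ K) (ha : 9 / 10 * K ≤ a) (hb : 9 / 10 * K ≤ b)
    (hab : |a - b| ≤ E) (hexp : Real.exp (-K) ≤ E * E)
    (h : |a - b| ≤ 25 * R ^ 2 * (Real.exp (-(2 * a)) + Real.exp (-(2 * b)))) :
    |Real.cosh a - Real.cosh b| < 3 / 2 := by
  have hhalf : |a - b| ≤ 1 / 2 := by linarith
  have hcosh : |Real.cosh a - Real.cosh b| ≤
      2 * (25 * R ^ 2) * Real.exp (-(9 / 10 * K)) := by
    have hD : 0 ≤ 2 * (25 * R ^ 2) := by positivity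
    rcases le_total a b with h' | h'
    · have h3 : |a - b| = b - a := by
        rw [abs_sub_comm, abs_of_nonneg (by linarith)]
      rw [h3] at h hhalf
      refine (jnum_cosh (by linarith) h' (by linarith) (by positivity) h).trans ?_
      apply mul_le_mul_of_nonneg_left _ hD
      exact Real.exp_le_exp.2 (by linarith)
    · have h3 : |a - b| = a - b := abs_of_nonneg (by linarith)
      rw [h3] at h hhalf
      rw [abs_sub_comm]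
      rw [add_comm] at h
      refine (jnum_cosh (by linarith) h' (by linarith) (by positivity) h).trans ?_
      apply mul_le_mul_of_nonneg_left _ hD
      exact Real.exp_le_exp.2 (by linarith)
  have hexp2 : Real.exp (-(9 / 10 * K)) ≤ E := by
    have h3 : Real.exp (-(9 / 10 * K)) ≤ Real.exp (-K / 2) :=
      Real.exp_le_exp.2 (by linarith)
    have h4 : Real.exp (-K / 2) ^ 2 ≤ E ^ 2 := by
      rw [← Real.exp_nat_mul]
      have h5 : ((2 : ℕ) : ℝ) * (-K / 2) = -K := by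
        push_cast
        ring
      rw [h5, sq E]
      exact hexp
    exact h3.trans (le_of_sq_le_sq h4 hE.le)
  calc |Real.cosh a - Real.cosh b|
      ≤ 2 * (25 * R ^ 2) * Real.exp (-(9 / 10 * K)) := hcosh
    _ ≤ 2 * (25 * R ^ 2) * E := mul_le_mul_of_nonneg_left hexp2 (by positivity)
    _ = 50 * (R ^ 2 * E) := by ring
    _ ≤ 50 * (1 / 1000000) := mul_le_mul_of_nonneg_left hRE (by norm_num)
    _ < 3 / 2 := by norm_num

/-- integers -/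
private theorem jnum_int {m n : ℕ} (h : |(m : ℝ) - n| < 1) : m = n := by
  obtain ⟨h1, h2⟩ := abs_lt.1 h
  have h3 : (m : ℝ) < n + 1 := by linarith
  have h4 : (n : ℝ) < m + 1 := by linarith
  have h5 : m < n + 1 := by exact_mod_cast h3
  have h6 : n < m + 1 := by exact_mod_cast h4
  omega

/-- the real part of the argument -/
private theorem jnum_core {R Q K I ρ τ : ℕ} {a b ea eb σ wa wb : ℝ} {sa sb : ℝ}
    (hR : (100 : ℝ) ≤ R) (hQ : (20 : ℝ) ≤ Q) (hQR : 4 * (Q : ℝ) ≤ R)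
    (hK : 100 * (Q : ℝ) ^ 2 ≤ K) (hexp : Real.exp (-(K : ℝ)) ≤ 1 / (R : ℝ) ^ 50 * (1 / (R : ℝ) ^ 50))
    (hI : (1 : ℝ) ≤ I) (hIQ : (I : ℝ) ≤ 4 * Q) (hρ : (1 : ℝ) ≤ ρ) (hτ : (1 : ℝ) ≤ τ)
    (hρ4 : (ρ : ℝ) ≤ 256 * (Q : ℝ) ^ 4) (hτR : (τ : ℝ) ≤ (R : ℝ) ^ 4)
    (hsa : 0 ≤ sa) (hsaR : sa ≤ R) (hsb : 0 ≤ sb) (hsbR : sb ≤ R)
    (hea : 0 ≤ ea) (hea1 : ea ≤ 1) (heb : 0 ≤ eb)
    (haK : 9 / 10 * (K : ℝ) ≤ a) (hbK : 9 / 10 * (K : ℝ) ≤ b)
    (hasa : |ea * Real.exp (2 * a) / 4 - 1| ≤ 20 / (R : ℝ) ^ 40)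
    (hasb : |eb * Real.exp (2 * b) / 4 - 1| ≤ 20 / (R : ℝ) ^ 40)
    (ha8 : ea ≤ 8 * Real.exp (-(2 * a))) (hb8 : eb ≤ 8 * Real.exp (-(2 * b)))
    (hwa : wa = ea * sa) (hwb : wb = eb * sb)
    (hwa8 : wa ≤ 8 * Real.exp (-(K : ℝ))) (hwb8 : wb ≤ 8 * Real.exp (-(K : ℝ)))
    (hσ0 : 0 ≤ σ) (hσ : σ * (R : ℝ) ^ 60 ≤ ea)
    (h1 : |I * ea - ρ * eb| ≤ 33 / (R : ℝ) ^ 35 * (ea + eb))
    (h2 : |I * a - τ * b| ≤ 3 * I * wa * sa + 3 * τ * wb * sb + σ * sa) :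
    τ = I ∧ ρ = I ∧ |Real.cosh a - Real.cosh b| < 3 / 2 := by
  have hR0 : (0 : ℝ) < R := lt_of_lt_of_le (by norm_num) hR
  have hIR : (I : ℝ) ≤ R := hIQ.trans hQR
  have hI0 : (0 : ℝ) ≤ I := Nat.cast_nonneg _
  have hτ0 : (0 : ℝ) ≤ τ := Nat.cast_nonneg _
  have hK0 : (0 : ℝ) ≤ K := Nat.cast_nonneg _
  have hδ0 : 0 ≤ 33 / (R : ℝ) ^ 35 := by positivity
  have hθ0 : 0 ≤ 20 / (R : ℝ) ^ 40 := by positivity
  have hμ0 : 0 ≤ 1 / (100 * (R : ℝ)) := by positivity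
  have hμR : 1 / (100 * (R : ℝ)) * R ≤ 1 / 100 := le_of_eq (by field_simp)
  have hE0 : 0 < 1 / (R : ℝ) ^ 50 := by positivity
  have hE1 : 1 / (R : ℝ) ^ 50 ≤ 1 / 1000000 := jnum_one hR (by norm_num)
  have hδ1 := jnum_de hR
  have hθ1 := jnum_th1 hR
  have hθμ := jnum_th hR
  have hEμ := jnum_eta hR
  have hE2 := jnum_RE hR (show 2 ≤ 47 by norm_num)
  have hE5 := jnum_RE hR (show 5 ≤ 47 by norm_num)
  have hT3 := jnum_s hR hσ0 (hσ.trans hea1) hsa hsaR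
  generalize 33 / (R : ℝ) ^ 35 = δ at *
  generalize 20 / (R : ℝ) ^ 40 = θ at *
  generalize 1 / (100 * (R : ℝ)) = μ at *
  generalize 1 / (R : ℝ) ^ 50 = E at *
  obtain ⟨h1a, h1b⟩ := abs_le.1 h1
  have hIδ : 0 ≤ (I : ℝ) - δ := by
    clear * - hI hδ1
    linarith
  have hρδ : 0 ≤ (ρ : ℝ) - δ := by
    clear * - hρ hδ1
    linarith
  have A1 : ((I : ℝ) - δ) * (1 - θ) ≤ (ρ + δ) * (1 + θ) * Real.exp (2 * (a - b)) := by
    refine jnum_half hasa hasb hIδ ?_ ?_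
    · clear * - hρ hδ0
      linarith
    · clear * - h1b
      linarith
  have A2 : ((ρ : ℝ) - δ) * (1 - θ) ≤ (I + δ) * (1 + θ) * Real.exp (2 * (b - a)) := by
    refine jnum_half hasb hasa hρδ ?_ ?_
    · clear * - hI hδ0
      linarith
    · clear * - h1a
      linarith
  have hexpQ := jnum_exp hQ
  have B1 : 2 * (b - a) ≤ Q := by
    have h := jnum_far hθ1 hδ0 hδ1 hI hρ A1
    apply Real.exp_le_exp.1
    clear * - h hρ4 hexpQ
    linarith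
  have B2 : 2 * (a - b) ≤ Q := by
    have h := jnum_far hθ1 hδ0 hδ1 hρ hI A2
    apply Real.exp_le_exp.1
    have h3 : (1 : ℝ) ≤ (Q : ℝ) ^ 3 := one_le_pow₀ (le_trans (by norm_num) hQ)
    have h4 : (Q : ℝ) ≤ (Q : ℝ) ^ 4 := by
      calc (Q : ℝ) = Q * 1 := (mul_one _).symm
        _ ≤ Q * (Q : ℝ) ^ 3 := mul_le_mul_of_nonneg_left h3 (Nat.cast_nonneg _)
        _ = (Q : ℝ) ^ 4 := by ring
    clear * - h hIQ hexpQ h4 hQ
    linarith
  have B3 : |a - b| ≤ Q / 2 := by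
    clear * - B1 B2
    exact abs_le.2 ⟨by linarith, by linarith⟩
  have hwaE : wa ≤ 8 * (E * E) := by
    clear * - hwa8 hexp
    linarith
  have hwbE : wb ≤ 8 * (E * E) := by
    clear * - hwb8 hexp
    linarith
  have hwa0 : 0 ≤ wa := by
    rw [hwa]
    exact mul_nonneg hea hsa
  have hwb0 : 0 ≤ wb := by
    rw [hwb]
    exact mul_nonneg heb hsb
  have hT1 := jnum_t 1 (by norm_num) hE0 hE2 hR hI0 (by rw [pow_one]; exact hIR) hwa0 hwaE hsa hsaR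
  have hT2 := jnum_t 4 (by norm_num) hE0 hE5 hR hτ0 hτR hwb0 hwbE hsb hsbR
  have h2E : |(I : ℝ) * a - τ * b| ≤ E := by
    clear * - h2 hT1 hT2 hT3 hE0
    linarith
  have hτI : τ = I := by
    apply jnum_int
    refine jnum_tau hQ hI0 hIQ ?_ B3 (h2E.trans ?_)
    · clear * - hbK hK
      linarith
    · clear * - hE1
      linarith
  subst hτI
  have hab : |a - b| ≤ E := by
    have hIab : (τ : ℝ) * |a - b| = |(τ : ℝ) * a - τ * b| := by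
      rw [← mul_sub, abs_mul, abs_of_nonneg hτ0]
    have h3 : |a - b| ≤ (τ : ℝ) * |a - b| := le_mul_of_one_le_left (abs_nonneg _) hτ
    exact h3.trans (hIab ▸ h2E)
  have hba : |b - a| ≤ E := by
    rw [abs_sub_comm]
    exact hab
  have hρI : ρ = τ := by
    apply jnum_int
    have h3 := jnum_near hθ0 hθμ hμ0 hμR hR hδ0 hδ1 hI (Or.inl hIR) hρ
      (jnum_y hEμ hE1 hab) (Real.exp_pos _).le A1
    have h4 := jnum_near hθ0 hθμ hμ0 hμR hR hδ0 hδ1 hρ (Or.inr hIR) hI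
      (jnum_y hEμ hE1 hba) (Real.exp_pos _).le A2
    clear * - h3 h4
    exact abs_lt.2 ⟨by linarith, by linarith⟩
  refine ⟨rfl, hρI, ?_⟩
  subst hwa
  subst hwb
  have hdiff := jnum_diff hR hτ hσ0 hsa hsaR hsb hsbR hea heb ha8 hb8 hσ h2
  exact jnum_fin hE0 hE2 hE1 hK0 haK hbK hab hexp hdiff

theorem J3 {R Q K3 K4 K5 I I' ρ τ : ℕ} (hP : NumP R Q K3 K4 K5) {c d : List Bool} {σ : ℝ}
    (gc : Gd R c) (gd : Gd R d) (sc : ss c ≤ R) (sd : ss d ≤ R) (kc : K3 ≤ ss c) (kd : K3 ≤ ss d)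
    (hI : 1 ≤ I) (hI' : 1 ≤ I') (hIQ : I ≤ 4 * Q) (hIQ' : I' ≤ 4 * Q) (hτ : 1 ≤ τ) (hρ : 1 ≤ ρ)
    (hρτ : ρ * τ ≤ (I * I') ^ 2) (hσ0 : 0 ≤ σ) (hσ : σ * (R : ℝ) ^ 60 ≤ ee c)
    (h1 : |I * ee c - ρ * ee d| ≤ 33 / (R : ℝ) ^ 35 * (ee c + ee d))
    (h2 : |I * ll c - τ * ll d| ≤ 3 * I * ww c * ss c + 3 * τ * ww d * ss d + σ * ss c) :
    τ = I ∧ ρ = I ∧ zz c = zz d := by
  obtain ⟨hR, hQ, hQR, h3K, _, _, hexp⟩ := hP
  have hRr : (100 : ℝ) ≤ R := by exact_mod_cast hR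
  have hQRr : 4 * (Q : ℝ) ≤ R := by exact_mod_cast hQR
  have hscr : (ss c : ℝ) ≤ R := by exact_mod_cast sc
  have hsdr : (ss d : ℝ) ≤ R := by exact_mod_cast sd
  have hkcr : (K3 : ℝ) ≤ ss c := by exact_mod_cast kc
  have hkdr : (K3 : ℝ) ≤ ss d := by exact_mod_cast kd
  have hρr : (1 : ℝ) ≤ ρ := by exact_mod_cast hρ
  have hτr : (1 : ℝ) ≤ τ := by exact_mod_cast hτ
  have hprod : (ρ : ℝ) * τ ≤ 256 * (Q : ℝ) ^ 4 := by
    have h : ρ * τ ≤ (4 * Q * (4 * Q)) ^ 2 :=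
      hρτ.trans (Nat.pow_le_pow_left (Nat.mul_le_mul hIQ hIQ') 2)
    have h' : ((ρ * τ : ℕ) : ℝ) ≤ (((4 * Q * (4 * Q)) ^ 2 : ℕ) : ℝ) := by exact_mod_cast h
    push_cast at h'
    calc (ρ : ℝ) * τ ≤ (4 * (Q : ℝ) * (4 * Q)) ^ 2 := h'
      _ = 256 * (Q : ℝ) ^ 4 := by ring
  have hρ4 : (ρ : ℝ) ≤ 256 * (Q : ℝ) ^ 4 :=
    (le_mul_of_one_le_right (Nat.cast_nonneg _) hτr).trans hprod
  have hτ4 : (τ : ℝ) ≤ 256 * (Q : ℝ) ^ 4 :=
    (le_mul_of_one_le_left (Nat.cast_nonneg _) hρr).trans hprod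
  have hRQ4 : 256 * (Q : ℝ) ^ 4 ≤ (R : ℝ) ^ 4 := by
    calc 256 * (Q : ℝ) ^ 4 = (4 * Q) ^ 4 := by ring
      _ ≤ (R : ℝ) ^ 4 := pow_le_pow_left₀ (by positivity) hQRr 4
  have hexpE : Real.exp (-(K3 : ℝ)) ≤ 1 / (R : ℝ) ^ 50 * (1 / (R : ℝ) ^ 50) := by
    rw [Real.exp_neg, ← one_div, div_mul_div_comm, one_mul, ← pow_add]
    exact one_div_le_one_div_of_le (by positivity) hexp
  have hwc : ww c ≤ 8 * Real.exp (-(K3 : ℝ)) := by
    refine (ww_le c).trans (mul_le_mul_of_nonneg_left ?_ (by norm_num))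
    exact Real.exp_le_exp.2 (neg_le_neg hkcr)
  have hwd : ww d ≤ 8 * Real.exp (-(K3 : ℝ)) := by
    refine (ww_le d).trans (mul_le_mul_of_nonneg_left ?_ (by norm_num))
    exact Real.exp_le_exp.2 (neg_le_neg hkdr)
  have hac : 9 / 10 * (K3 : ℝ) ≤ ll c :=
    (mul_le_mul_of_nonneg_left hkcr (by norm_num)).trans (ll_ge c)
  have hbd : 9 / 10 * (K3 : ℝ) ≤ ll d :=
    (mul_le_mul_of_nonneg_left hkdr (by norm_num)).trans (ll_ge d)
  obtain ⟨hA, hB, hC⟩ := jnum_core (Q := Q) (K := K3) hRr (by exact_mod_cast hQ) hQRr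
    (by exact_mod_cast h3K) hexpE (by exact_mod_cast hI) (by exact_mod_cast hIQ) hρr hτr hρ4
    (hτ4.trans hRQ4) (Nat.cast_nonneg _) hscr (Nat.cast_nonneg _) hsdr (ee_pos c).le
    ((ee_small c).trans (by norm_num)) (ee_pos d).le hac hbd
    (ee_asym (le_trans (by norm_num) hR) gc) (ee_asym (le_trans (by norm_num) hR) gd)
    (ee_le_ll c) (ee_le_ll d) rfl rfl hwc hwd hσ0 hσ h1 h2
  refine ⟨hA, hB, ?_⟩
  have hzc : Real.cosh (ll c) = 3 * (zz c : ℝ) / 2 := by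
    have hg := (good_tn c).2.2.2.1
    exact cosh_F (Nat.one_le_of_lt hg)
  have hzd : Real.cosh (ll d) = 3 * (zz d : ℝ) / 2 := by
    have hg := (good_tn d).2.2.2.1
    exact cosh_F (Nat.one_le_of_lt hg)
  rw [hzc, hzd] at hC
  apply jnum_int
  obtain ⟨h3, h4⟩ := abs_lt.1 hC
  clear * - h3 h4
  exact abs_lt.2 ⟨by linarith, by linarith⟩

end Pool.Agent.Lib.MP_94ab62_ntU
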