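import Pool.Agent.Lib.MP_94ab62_ntU.JPair
import Pool.Agent.Lib.MP_94ab62_ntU.JCore
import Pool.Agent.Lib.MP_94ab62_ntU.JNum

/-!
# J BRANCH: a branching node gives a matching node

Abbreviate `S p q = S3 R K5 p3 q3 I I' M M' p q`.
* `branch`: `p, p' ∈ W3` with partners `q, q'`, `P = cut K5 p`, `Q1 = cut K5 q`, `P' = cut K5 p'`, `Q2 = cut K5 q'`; `σ = 96 I R² e^(-K5)`.
  `(true :: c) <:+ P` by `suffix_cut` (`ss (true :: c) < 2 K4 ≤ K5`), same for `P'`.  `σ R^60 ≤ ee c`: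
  `96 R^63 e^(-5 K4) ≤ e^(-3.6 K4) ≤ ee c` since `e^(1.4 K4) ≥ e^(K3) ≥ R^100`.  `cfg_of_two`.
  `Q1 ≠ Q2`: otherwise `I |LL P v - LL P' v| ≤ 2 σ nm v` for `v = g1 c`, but by `divergence` `|LL P v - LL P' v| ≥ ee c (1 - 16/R^38)`
  (`det (g1 c) (uu c) = 1`), contradiction with `σ R^60 ≤ ee c`.  `Q1, Q2 ∈ LF K5` are then incomparable and diverge at `d`
  (`diverge`), `q3 <:+ d` (`suffix_meet`, `q3 <:+ Q1` by `suffix_cut`: `ss q3 < 2 K3 ≤ K5`), so `d` is good, `K3 ≤ ss q3 ≤ ss d ≤ ss q ≤ R`.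
  `p3 <:+ c` by `suffix_meet` with `p`, `p'`, so `c` is good and `K3 ≤ ss c`.  `J1`, `J2`, `J3`.
  `|dM M| = ρ τ = I²`.
-/

set_option autoImplicit false

namespace Pool.Agent.Lib.MP_94ab62_ntU

open Pool.Agent.Lib.MP_94ab62_nt

/-- the error is small compared with the defect at `c` -/
private theorem jbranch_sigma {R Q K3 K4 K5 I : ℕ} (hP : NumP R Q K3 K4 K5) (hIR : I ≤ R)
    {c : List Bool} (hc : ss c < K4) :
    96 * I * (R : ℝ) ^ 2 * Real.exp (-(K5 : ℝ)) * (R : ℝ) ^ 60 ≤ ee c := by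
  have hR : (100 : ℝ) ≤ R := by exact_mod_cast hP.hR
  have hR1 : (1 : ℝ) ≤ R := by linarith
  have hI : (I : ℝ) ≤ R := by exact_mod_cast hIR
  have h34 : (K3 : ℝ) ≤ K4 := by exact_mod_cast hP.h34
  have h45 : 5 * (K4 : ℝ) ≤ K5 := by exact_mod_cast hP.h45
  have hK4 : (0 : ℝ) ≤ K4 := Nat.cast_nonneg _
  have hcK : (ss c : ℝ) ≤ K4 := by exact_mod_cast hc.le
  have e1 : Real.exp (-(K5 : ℝ)) ≤ Real.exp (-(5 * (K4 : ℝ))) := Real.exp_le_exp.2 (by linarith)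
  have e2 : (R : ℝ) ^ 64 ≤ (R : ℝ) ^ 100 := pow_le_pow_right₀ hR1 (by norm_num)
  have e3 : (R : ℝ) ^ 64 ≤ Real.exp (K4 : ℝ) :=
    e2.trans (hP.hexp.trans (Real.exp_le_exp.2 h34))
  have e4 : 96 * (I : ℝ) * (R : ℝ) ^ 2 * (R : ℝ) ^ 60 ≤ (R : ℝ) ^ 64 := by
    have f1 : 96 * (I : ℝ) ≤ R * R := mul_le_mul (by linarith) hI (Nat.cast_nonneg _) (by linarith)
    have f2 : (0 : ℝ) ≤ (R : ℝ) ^ 62 := by positivity
    calc 96 * (I : ℝ) * (R : ℝ) ^ 2 * (R : ℝ) ^ 60 = 96 * (I : ℝ) * (R : ℝ) ^ 62 := by ring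
      _ ≤ R * R * (R : ℝ) ^ 62 := mul_le_mul_of_nonneg_right f1 f2
      _ = (R : ℝ) ^ 64 := by ring
  have e5 : (0 : ℝ) ≤ Real.exp (-(5 * (K4 : ℝ))) := (Real.exp_pos _).le
  calc 96 * I * (R : ℝ) ^ 2 * Real.exp (-(K5 : ℝ)) * (R : ℝ) ^ 60
      = 96 * (I : ℝ) * (R : ℝ) ^ 2 * (R : ℝ) ^ 60 * Real.exp (-(K5 : ℝ)) := by ring
    _ ≤ Real.exp (K4 : ℝ) * Real.exp (-(5 * (K4 : ℝ))) :=
        mul_le_mul (e4.trans e3) e1 (Real.exp_pos _).le (Real.exp_pos _).le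
    _ = Real.exp (-(4 * (K4 : ℝ))) := by
        rw [← Real.exp_add]
        congr 1
        ring
    _ ≤ Real.exp (-(18 / 5 * (ss c : ℝ))) := Real.exp_le_exp.2 (by linarith)
    _ ≤ ee c := ee_ge c

/-- the leaves of the partners are different -/
private theorem jbranch_ne {R I : ℕ} {M : Mt} (hR : 100 ≤ R) (hI : 1 ≤ I) {c P P' Q1 Q2 : List Bool} {σ : ℝ}
    (gc : Gd R c) (sc : ss c ≤ R) (h1 : (true :: c) <:+ P) (h2 : (false :: c) <:+ P')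
    (hσ : σ * (R : ℝ) ^ 60 ≤ ee c) (hσ0 : 0 ≤ σ)
    (a1 : ∀ v, |I * LL P v - LL Q1 (ap M v)| ≤ σ * nm v)
    (a2 : ∀ v, |I * LL P' v - LL Q2 (ap M v)| ≤ σ * nm v) : Q1 ≠ Q2 := by
  intro hQ
  subst hQ
  have hR' : (100 : ℝ) ≤ R := by exact_mod_cast hR
  have hR0 : (0 : ℝ) < R := by linarith
  have hR1 : (1 : ℝ) ≤ R := by linarith
  have hI' : (1 : ℝ) ≤ I := by exact_mod_cast hI
  have he := ee_pos c
  have d1 := divergence (le_trans (by norm_num) hR) gc sc h1 h2 (g1 c)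
  have d2 : det (g1 c) (uu c) = 1 := by
    rw [show uu c = g1 c + g2 c from rfl, det_add_right, det_self, det_g, zero_add]
  have hm : nm (g1 c) ≤ R := by
    rw [nm_g1]
    have f1 : m1 c ≤ ss c := Nat.le_add_right _ _
    exact_mod_cast f1.trans sc
  have hm0 := nm_nonneg (g1 c)
  rw [d2, Int.cast_one, mul_one] at d1
  have b1 := a1 (g1 c)
  have b2 := a2 (g1 c)
  have e1 : |(I : ℝ) * (LL P (g1 c) - LL P' (g1 c))| ≤ 2 * (σ * nm (g1 c)) := by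
    rw [abs_le] at b1 b2 ⊢
    constructor
    · linarith [b1.1, b2.2]
    · linarith [b1.2, b2.1]
  rw [abs_mul, abs_of_nonneg (by linarith : (0 : ℝ) ≤ (I : ℝ))] at e1
  have e2 : |LL P (g1 c) - LL P' (g1 c)| ≤ 2 * (σ * nm (g1 c)) := by
    refine le_trans ?_ e1
    exact le_mul_of_one_le_left (abs_nonneg _) hI'
  have e3 : σ * nm (g1 c) ≤ σ * R := mul_le_mul_of_nonneg_left hm hσ0
  -- `σ R ≤ ee c / 100`
  have e4 : σ * R * 100 ≤ ee c := by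
    have f1 : (R : ℝ) * 100 ≤ (R : ℝ) ^ 60 := by
      calc (R : ℝ) * 100 ≤ R * R := mul_le_mul_of_nonneg_left hR' hR0.le
        _ = (R : ℝ) ^ 2 := by ring
        _ ≤ (R : ℝ) ^ 60 := pow_le_pow_right₀ hR1 (by norm_num)
    calc σ * R * 100 = σ * (R * 100) := by ring
      _ ≤ σ * (R : ℝ) ^ 60 := mul_le_mul_of_nonneg_left f1 hσ0
      _ ≤ ee c := hσ
  have e5 : 16 / (R : ℝ) ^ 39 * ee c * nm (g1 c) ≤ ee c / 2 := by
    have f0 : (0 : ℝ) ≤ 16 / (R : ℝ) ^ 39 * ee c := mul_nonneg (by positivity) he.le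
    have f1 : 16 / (R : ℝ) ^ 39 * R ≤ 1 / 2 := by
      rw [div_mul_eq_mul_div, div_le_iff₀ (by positivity)]
      have g1 : (R : ℝ) ^ 2 ≤ (R : ℝ) ^ 39 := pow_le_pow_right₀ hR1 (by norm_num)
      nlinarith
    calc 16 / (R : ℝ) ^ 39 * ee c * nm (g1 c) ≤ 16 / (R : ℝ) ^ 39 * ee c * R :=
          mul_le_mul_of_nonneg_left hm f0
      _ = 16 / (R : ℝ) ^ 39 * R * ee c := by ring
      _ ≤ 1 / 2 * ee c := mul_le_mul_of_nonneg_right f1 he.le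
      _ = ee c / 2 := by ring
  rw [abs_le] at e2
  have e6 := (abs_le.1 d1).1
  linarith [e2.1, e2.2]

theorem branch {R Q K3 K4 K5 I I' : ℕ} (hP : NumP R Q K3 K4 K5) {p3 q3 : List Bool} {M M' : Mt}
    (hp3 : p3 ∈ LF K3) (hq3 : q3 ∈ LF K3) (gp : Gd R p3) (gq : Gd R q3)
    (hI : 1 ≤ I) (hI' : 1 ≤ I') (hIQ : I ≤ 4 * Q) (hIQ' : I' ≤ 4 * Q) {c : List Bool} (hc : ss c < K4)
    (h1 : ∃ p, W3 R K5 p3 q3 I I' M M' p ∧ (true :: c) <:+ p)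
    (h2 : ∃ p, W3 R K5 p3 q3 I I' M M' p ∧ (false :: c) <:+ p) :
    ∃ d : List Bool, ap M (uu c) = (I : ℤ) • uu d ∧ |dM M| = (I : ℤ) ^ 2 ∧ zz c = zz d := by
  obtain ⟨p, ⟨q, hS, pa, qa, hSa, hpa, ca1, ca2⟩, hcp⟩ := h1
  obtain ⟨p', ⟨q', hS', pb, qb, hSb, hpb, cb1, cb2⟩, hcp'⟩ := h2
  have hIR : I ≤ R := hIQ.trans hP.hQR
  have hIR' : I' ≤ R := hIQ'.trans hP.hQR
  have hK3 : 3 ≤ K3 := by
    have f1 := hP.h3
    have f2 := hP.hQ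
    nlinarith
  have hK34 := hP.h34
  have hK45 := hP.h45
  have hK5 : 3 ≤ K5 := by omega
  have hC : Cfg R I I' M M' := cfg_of_two hP.hR hI hI' hIR hIR' hS hSa (Ne.symm hpa)
  have a1 := close_of_two hK5 hI' hS hSa (Ne.symm hpa) ca1 ca2
  have a2 := close_of_two hK5 hI' hS' hSb (Ne.symm hpb) cb1 cb2
  obtain ⟨⟨hpq, hzz, sp, sq⟩, p3p, q3q, -, -, kp, kq⟩ := hS
  obtain ⟨⟨hpq', hzz', sp', sq'⟩, p3p', q3q', -, -, kp', kq'⟩ := hS'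
  have hσ0 : 0 ≤ 96 * I * (R : ℝ) ^ 2 * Real.exp (-(K5 : ℝ)) := by positivity
  have hσ := jbranch_sigma hP hIR hc
  -- the node `c`
  have hcs : c <:+ p := (List.suffix_cons true c).trans hcp
  have p3c : p3 <:+ c := suffix_meet (b := true) p3p p3p' hcp hcp'
  have gc : Gd R c := Gd_suffix p3c gp
  have kc : K3 ≤ ss c := (LF_ss hp3).1.trans (ss_suffix p3c)
  have sc : ss c ≤ R := (ss_suffix hcs).trans sp
  have t1 : (true :: c) <:+ cut K5 p := by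
    refine suffix_cut hK5 hcp ?_ kp
    have f1 := ss_cons_lt_two true c
    omega
  have t2 : (false :: c) <:+ cut K5 p' := by
    refine suffix_cut hK5 hcp' ?_ kp'
    have f1 := ss_cons_lt_two false c
    omega
  have hne : cut K5 q ≠ cut K5 q' :=
    jbranch_ne hP.hR hI gc sc t1 t2 hσ hσ0 a1 a2
  -- the node `d`
  have l1 : cut K5 q ∈ LF K5 := cut_mem hK5 kq
  have l2 : cut K5 q' ∈ LF K5 := cut_mem hK5 kq'
  obtain ⟨d, b', u1, u2⟩ := diverge (fun h => hne (LF_incomp l1 l2 h))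
    (fun h => hne (LF_incomp l2 l1 h).symm)
  have hq3K : ss q3 < K5 := by
    have f1 := (LF_ss hq3).2
    omega
  have q3d : q3 <:+ d :=
    suffix_meet (suffix_cut hK5 q3q hq3K kq) (suffix_cut hK5 q3q' hq3K kq') u1 u2
  have gd : Gd R d := Gd_suffix q3d gq
  have kd : K3 ≤ ss d := (LF_ss hq3).1.trans (ss_suffix q3d)
  have hdq : d <:+ q := ((List.suffix_cons b' d).trans u1).trans (cut_suffix K5 q)
  have sd : ss d ≤ R := (ss_suffix hdq).trans sq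
  have hD : Dv R I M c d (cut K5 p) (cut K5 p') (cut K5 q) (cut K5 q') true b'
      (96 * I * (R : ℝ) ^ 2 * Real.exp (-(K5 : ℝ))) :=
    { gc := gc, gd := gd, sc := sc, sd := sd, h1 := t1, h2 := t2, h3 := u1, h4 := u2,
      hσ0 := hσ0, hσ := hσ, a1 := a1, a2 := a2 }
  obtain ⟨τ, hτ, hτd⟩ := J1 hC hD
  obtain ⟨ρ, hρ, hρ1, hρ2, hρ3, hρ4⟩ := J2 hC hD hτ hτd
  obtain ⟨j1, j2, j3⟩ := J3 hP gc gd sc sd kc kd hI hI' hIQ hIQ' hτ hρ hρ2 hσ0 hσ hρ3 hρ4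
  refine ⟨d, ?_, ?_, j3⟩
  · rw [hτd, j1]
  · rw [← hρ1, j1, j2]
    ring

end Pool.Agent.Lib.MP_94ab62_ntU
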