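import Pool.Agent.Lib.MP_94ab62_ntU.CutU

/-!
# TREE: if branching nodes never have branching children, the count is small

Write `a = m1 c`, `b = m2 c`, `N c = {p ∈ W | c <:+ p}.ncard`, `φ c = 2 √(ss c / K) R² / (a b)`; claim `N c ≤ φ c`.  Induction on
`K - ss c` (strong, downwards).
* If `K ≤ 4 ss c`: `N c * (a b) ≤ R²` by `cnt` and `2 √(ss c / K) ≥ 1`.
* If `4 ss c < K`: `c ∉ W`, so `{p ∈ W | c <:+ p} ⊆ {.. true :: c <:+ p} ∪ {.. false :: c <:+ p}`; children `d` have `ss d < 2 ss c < K`,
  grandchildren `< 4 ss c < K`.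
  - One of the two sets is empty: `N c ≤ N d ≤ φ d` for a child `d`; `φ d ≤ φ c`: for `d = true :: c`, `(m1, m2) = (a, a+b)`,
    `ss d = 2a + b`: `√(2a+b) / (a (a+b)) ≤ √(a+b) / (a b)` since `(2a+b) b² ≤ (a+b)³`; `false`: symmetric.
  - Both are nonempty: then by `hbr` for each child `d = b :: c` one of its two children carries nothing, and `d ∉ W`
    (`ss d < K`), so `N d ≤ N g ≤ φ g` for a child `g` of `d` (or `N d = 0`).  For `d = true :: c`: `g = true :: d`: `(a, 2a+b)`, `ss = 3a+b`;
    `g = false :: d`: `(2a+b, a+b)`, `ss = 3a+2b`.  In both cases `√(ss g) / (m1 g m2 g) ≤ 1 / (a √(a+b))`, because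
    `(3a+b)(a+b) ≤ (2a+b)²` and `a² (3a+2b) ≤ (2a+b)² (a+b)`.  Symmetrically for `false :: c` with `1 / (b √(a+b))`.  The sum is
    `(1/a + 1/b)/√(a+b) = √(a+b)/(a b)`.
-/

set_option autoImplicit false

namespace Pool.Agent.Lib.MP_94ab62_ntU

open Pool.Agent.Lib.MP_94ab62_nt

private theorem treeu_succ {c p : List Bool} (h : c <:+ p) (hne : p ≠ c) :
    ∃ b, (b :: c) <:+ p := by
  obtain ⟨t, rfl⟩ := h
  rcases List.eq_nil_or_concat t with rfl | ⟨t', b, rfl⟩
  · exact absurd (List.nil_append c) hne
  · exact ⟨b, t', by simp⟩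

private noncomputable def treeuN (W : Set (List Bool)) (c : List Bool) : ℝ :=
  ({p : List Bool | p ∈ W ∧ c <:+ p}.ncard : ℝ)

private theorem treeuN_nonneg (W : Set (List Bool)) (c : List Bool) : 0 ≤ treeuN W c :=
  Nat.cast_nonneg _

private theorem treeu_le {W : Set (List Bool)} (hf : W.Finite) {c d : List Bool}
    (h : ∀ p ∈ W, c <:+ p → d <:+ p) : treeuN W c ≤ treeuN W d := by
  have h1 : {p : List Bool | p ∈ W ∧ c <:+ p} ⊆ {p : List Bool | p ∈ W ∧ d <:+ p} :=
    fun p hp => ⟨hp.1, h p hp.1 hp.2⟩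
  have h2 := Set.ncard_le_ncard h1 (hf.subset fun p hp => hp.1)
  unfold treeuN
  exact_mod_cast h2

private theorem treeu_union {W : Set (List Bool)} (hf : W.Finite) {c d e : List Bool}
    (h : ∀ p ∈ W, c <:+ p → d <:+ p ∨ e <:+ p) : treeuN W c ≤ treeuN W d + treeuN W e := by
  have h1 : {p : List Bool | p ∈ W ∧ c <:+ p} ⊆
      {p : List Bool | p ∈ W ∧ d <:+ p} ∪ {p : List Bool | p ∈ W ∧ e <:+ p} := by
    intro p hp
    rcases h p hp.1 hp.2 with h2 | h2
    · exact Or.inl ⟨hp.1, h2⟩
    · exact Or.inr ⟨hp.1, h2⟩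
  have h2 := (Set.ncard_le_ncard h1 ((hf.subset fun p hp => hp.1).union
    (hf.subset fun p hp => hp.1))).trans (Set.ncard_union_le _ _)
  unfold treeuN
  exact_mod_cast h2

private theorem treeu_a {a b u s n C : ℝ} (ha : 0 < a) (hb : 0 < b) (hu : u = a + b)
    (hs : s = a + u) (hC : 0 ≤ C) (h : n * (a * u) ≤ C * √s) : n * (a * b) ≤ C * √(a + b) := by
  subst hu
  have h1 : √s * b ≤ (a + b) * √(a + b) := by
    have e1 : √s * b = √(s * b ^ 2) := by
      rw [Real.sqrt_mul' _ (sq_nonneg b), Real.sqrt_sq hb.le]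
    have e2 : (a + b) * √(a + b) = √((a + b) ^ 2 * (a + b)) := by
      rw [Real.sqrt_mul (sq_nonneg _), Real.sqrt_sq (by positivity)]
    rw [e1, e2]
    apply Real.sqrt_le_sqrt
    subst hs
    nlinarith [mul_pos ha hb, mul_pos (mul_pos ha ha) ha, mul_pos (mul_pos ha ha) hb,
      mul_pos (mul_pos ha hb) hb]
  have h2 : (n * (a * b)) * (a + b) ≤ (C * √(a + b)) * (a + b) := by
    calc (n * (a * b)) * (a + b) = (n * (a * (a + b))) * b := by ring
      _ ≤ (C * √s) * b := mul_le_mul_of_nonneg_right h hb.le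
      _ = C * (√s * b) := by ring
      _ ≤ C * ((a + b) * √(a + b)) := mul_le_mul_of_nonneg_left h1 hC
      _ = _ := by ring
  exact le_of_mul_le_mul_right h2 (by positivity)

private theorem treeu_b {a b d s n C : ℝ} (ha : 0 < a) (hb : 0 < b) (hd : d = a + (a + b))
    (hs : s = a + d) (hC : 0 ≤ C) (h : n * (a * d) ≤ C * √s) : n * (a * √(a + b)) ≤ C := by
  subst hd
  have h1 : √s * √(a + b) ≤ a + (a + b) := by
    have hs0 : 0 ≤ s := by rw [hs]; positivity
    have e2 : a + (a + b) = √((a + (a + b)) ^ 2) := (Real.sqrt_sq (by positivity)).symm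
    rw [← Real.sqrt_mul hs0, e2]
    apply Real.sqrt_le_sqrt
    subst hs
    nlinarith [mul_pos ha hb, mul_pos ha ha]
  have h2 : (n * (a * √(a + b))) * (a + (a + b)) ≤ C * (a + (a + b)) := by
    calc (n * (a * √(a + b))) * (a + (a + b)) = (n * (a * (a + (a + b)))) * √(a + b) := by ring
      _ ≤ (C * √s) * √(a + b) := mul_le_mul_of_nonneg_right h (Real.sqrt_nonneg _)
      _ = C * (√s * √(a + b)) := by ring
      _ ≤ C * (a + (a + b)) := mul_le_mul_of_nonneg_left h1 hC
  exact le_of_mul_le_mul_right h2 (by positivity)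

private theorem treeu_c {a b d s n C : ℝ} (ha : 0 < a) (hb : 0 < b) (hd : d = a + (a + b))
    (hs : s = d + (a + b)) (hC : 0 ≤ C) (h : n * (d * (a + b)) ≤ C * √s) :
    n * (a * √(a + b)) ≤ C := by
  subst hd
  have hq : 0 < √(a + b) := Real.sqrt_pos.2 (by positivity)
  have hqq : √(a + b) * √(a + b) = a + b := Real.mul_self_sqrt (by positivity)
  have h1 : √s * a ≤ (a + (a + b)) * √(a + b) := by
    have e1 : √s * a = √(s * a ^ 2) := by
      rw [Real.sqrt_mul' _ (sq_nonneg a), Real.sqrt_sq ha.le]
    have e2 : (a + (a + b)) * √(a + b) = √((a + (a + b)) ^ 2 * (a + b)) := by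
      rw [Real.sqrt_mul (sq_nonneg _), Real.sqrt_sq (by positivity)]
    rw [e1, e2]
    apply Real.sqrt_le_sqrt
    subst hs
    nlinarith [mul_pos ha hb, mul_pos (mul_pos ha ha) ha, mul_pos (mul_pos ha ha) hb,
      mul_pos (mul_pos ha hb) hb, mul_pos (mul_pos hb hb) hb]
  have h2 : (n * (a * √(a + b))) * ((a + (a + b)) * √(a + b)) ≤
      C * ((a + (a + b)) * √(a + b)) := by
    calc (n * (a * √(a + b))) * ((a + (a + b)) * √(a + b))
        = (n * ((a + (a + b)) * (√(a + b) * √(a + b)))) * a := by ring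
      _ = (n * ((a + (a + b)) * (a + b))) * a := by rw [hqq]
      _ ≤ (C * √s) * a := mul_le_mul_of_nonneg_right h ha.le
      _ = C * (√s * a) := by ring
      _ ≤ C * ((a + (a + b)) * √(a + b)) := mul_le_mul_of_nonneg_left h1 hC
  exact le_of_mul_le_mul_right h2 (by positivity)

private theorem treeu_d {a b n n1 n2 C : ℝ} (ha : 0 < a) (hb : 0 < b) (h : n ≤ n1 + n2)
    (h1 : n1 * (a * √(a + b)) ≤ C) (h2 : n2 * (b * √(a + b)) ≤ C) :
    n * (a * b) ≤ C * √(a + b) := by
  have hq : 0 < √(a + b) := Real.sqrt_pos.2 (by positivity)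
  have hqq : √(a + b) * √(a + b) = a + b := Real.mul_self_sqrt (by positivity)
  have h3 : (n * (a * b)) * √(a + b) ≤ (C * √(a + b)) * √(a + b) := by
    calc (n * (a * b)) * √(a + b) = n * (a * b * √(a + b)) := by ring
      _ ≤ (n1 + n2) * (a * b * √(a + b)) := mul_le_mul_of_nonneg_right h (by positivity)
      _ = (n1 * (a * √(a + b))) * b + (n2 * (b * √(a + b))) * a := by ring
      _ ≤ C * b + C * a := add_le_add (mul_le_mul_of_nonneg_right h1 hb.le)
        (mul_le_mul_of_nonneg_right h2 ha.le)
      _ = C * (a + b) := by ring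
      _ = (C * √(a + b)) * √(a + b) := by rw [mul_assoc, hqq]
  exact le_of_mul_le_mul_right h3 hq

theorem tree_count {R K : ℕ} (hK : 4 ≤ K) {W : Set (List Bool)} (hW : ∀ p ∈ W, K ≤ ss p ∧ ss p ≤ R)
    (hbr : ∀ (c : List Bool) (b : Bool), ss (b :: c) < K →
      (∃ p ∈ W, (true :: c) <:+ p) → (∃ p ∈ W, (false :: c) <:+ p) →
      (∃ p ∈ W, (true :: b :: c) <:+ p) → (∃ p ∈ W, (false :: b :: c) <:+ p) → False)
    (c : List Bool) :
    ({p : List Bool | p ∈ W ∧ c <:+ p}.ncard : ℝ) * ((m1 c : ℝ) * m2 c) ≤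
      2 * Real.sqrt ((ss c : ℝ) / K) * (R : ℝ) ^ 2 := by
  have hKpos : (0 : ℝ) < K := by
    have : 0 < K := by omega
    exact_mod_cast this
  have hf : W.Finite := (fin_ss R).subset fun p hp => (hW p hp).2
  obtain ⟨C, hCd⟩ : ∃ C : ℝ, C = 2 * (R : ℝ) ^ 2 / √(K : ℝ) := ⟨_, rfl⟩
  have hsK : 0 < √(K : ℝ) := Real.sqrt_pos.2 hKpos
  have hC : 0 ≤ C := by
    rw [hCd]
    positivity
  have hCeq : ∀ c : List Bool, 2 * √((ss c : ℝ) / K) * (R : ℝ) ^ 2 = C * √(ss c : ℝ) := by
    intro c
    rw [Real.sqrt_div (Nat.cast_nonneg _), hCd]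
    ring
  have hbase : ∀ c : List Bool, K ≤ 4 * ss c →
      treeuN W c * ((m1 c : ℝ) * m2 c) ≤ C * √(ss c : ℝ) := by
    intro c h4
    have h1 : {p : List Bool | p ∈ W ∧ c <:+ p}.ncard ≤
        {q : List Bool | c <:+ q ∧ ss q ≤ R}.ncard :=
      Set.ncard_le_ncard (fun p hp => ⟨hp.2, (hW p hp.1).2⟩)
        ((fin_ss R).subset fun p hp => hp.2)
    have h2 := (Nat.mul_le_mul_right (m1 c * m2 c) h1).trans (cnt R c)
    have h3 : treeuN W c * ((m1 c : ℝ) * m2 c) ≤ (R : ℝ) ^ 2 := by
      unfold treeuN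
      exact_mod_cast h2
    refine h3.trans ?_
    have h5 : √(K : ℝ) ≤ 2 * √(ss c : ℝ) := by
      have e : 2 * √(ss c : ℝ) = √(2 ^ 2 * (ss c : ℝ)) := by
        rw [Real.sqrt_mul (by norm_num), Real.sqrt_sq (by norm_num)]
      rw [e]
      apply Real.sqrt_le_sqrt
      have : (K : ℝ) ≤ 4 * ss c := by exact_mod_cast h4
      linarith
    rw [hCd, div_mul_eq_mul_div, le_div_iff₀ hsK]
    calc (R : ℝ) ^ 2 * √(K : ℝ) ≤ (R : ℝ) ^ 2 * (2 * √(ss c : ℝ)) :=
          mul_le_mul_of_nonneg_left h5 (by positivity)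
      _ = _ := by ring
  have key : ∀ (n : ℕ) (c : List Bool), K - ss c ≤ n →
      treeuN W c * ((m1 c : ℝ) * m2 c) ≤ C * √(ss c : ℝ) := by
    intro n
    induction n with
    | zero =>
      intro c hc
      exact hbase c (by omega)
    | succ n ih =>
      intro c hc
      by_cases h4 : K ≤ 4 * ss c
      · exact hbase c h4
      have hm1 := m1_pos c
      have hm2 := m2_pos c
      have ha : (0 : ℝ) < m1 c := by exact_mod_cast hm1
      have hb : (0 : ℝ) < m2 c := by exact_mod_cast hm2
      have hss : (ss c : ℝ) = m1 c + m2 c := by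
        have : ss c = m1 c + m2 c := rfl
        exact_mod_cast this
      have hd1 : ∀ b, ss c < ss (b :: c) ∧ ss (b :: c) < K := by
        intro b
        have h5 := ss_cons_lt b c
        have h6 := ss_cons_lt_two b c
        exact ⟨h5, by omega⟩
      have hg1 : ∀ b' b, ss c < ss (b' :: b :: c) := fun b' b =>
        (hd1 b).1.trans (ss_cons_lt b' (b :: c))
      have hnW : ∀ d : List Bool, ss d < K → ∀ p ∈ W, d <:+ p →
          (true :: d) <:+ p ∨ (false :: d) <:+ p := by
        intro d hd p hp hdp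
        have hne : p ≠ d := by
          rintro rfl
          have := (hW p hp).1
          omega
        obtain ⟨b, hb⟩ := treeu_succ hdp hne
        cases b
        · exact Or.inr hb
        · exact Or.inl hb
      have hssd : ∀ d : List Bool, (ss d : ℝ) = m1 d + m2 d := by
        intro d
        have : ss d = m1 d + m2 d := rfl
        exact_mod_cast this
      rw [hss]
      by_cases ht : ∃ p ∈ W, (true :: c) <:+ p
      · by_cases hfl : ∃ p ∈ W, (false :: c) <:+ p
        · -- both children carry elements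
          have hone : ∀ b, ∃ b', treeuN W (b :: c) ≤ treeuN W (b' :: b :: c) := by
            intro b
            by_cases h5 : ∃ p ∈ W, (true :: b :: c) <:+ p
            · refine ⟨true, treeu_le hf fun p hp hdp => ?_⟩
              rcases hnW _ (hd1 b).2 p hp hdp with h6 | h6
              · exact h6
              · exact absurd (hbr c b (hd1 b).2 ht hfl h5 ⟨p, hp, h6⟩) id
            · refine ⟨false, treeu_le hf fun p hp hdp => ?_⟩
              rcases hnW _ (hd1 b).2 p hp hdp with h6 | h6
              · exact absurd ⟨p, hp, h6⟩ h5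
              · exact h6
          refine treeu_d (n1 := treeuN W (true :: c)) (n2 := treeuN W (false :: c)) ha hb
            (treeu_union hf (hnW c (by omega))) ?_ ?_
          · obtain ⟨b', hb'⟩ := hone true
            have h7 := ih (b' :: true :: c) (by have := hg1 b' true; omega)
            refine (mul_le_mul_of_nonneg_right hb' (by positivity)).trans ?_
            cases b'
            · rw [m1_false, m2_false, m2_true, hssd (false :: true :: c), m1_false,
                m2_false, m2_true, hssd (true :: c), m1_true, m2_true, hss] at h7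
              exact treeu_c ha hb rfl rfl hC h7
            · rw [m1_true, m2_true, m1_true, hssd (true :: true :: c), m1_true, m1_true,
                m2_true, hssd (true :: c), m1_true, m2_true, hss] at h7
              exact treeu_b ha hb rfl rfl hC h7
          · obtain ⟨b', hb'⟩ := hone false
            have h7 := ih (b' :: false :: c) (by have := hg1 b' false; omega)
            refine (mul_le_mul_of_nonneg_right hb' (by positivity)).trans ?_
            rw [add_comm (m1 c : ℝ)]
            cases b'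
            · rw [m1_false, m2_false, m2_false, hssd (false :: false :: c), m1_false,
                m2_false, m2_false, hssd (false :: c), m1_false, m2_false, hss] at h7
              refine treeu_b (d := (m1 c : ℝ) + m2 c + m2 c) hb ha (by ring) rfl hC ?_
              rw [mul_comm (m2 c : ℝ) _, add_comm (m2 c : ℝ) _]
              exact h7
            · rw [m1_true, m2_true, m1_false, hssd (true :: false :: c), m1_true, m2_true,
                m1_false, hssd (false :: c), m1_false, m2_false, hss] at h7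
              refine treeu_c (d := (m1 c : ℝ) + m2 c + m2 c) hb ha (by ring) rfl hC ?_
              rw [mul_comm _ ((m2 c : ℝ) + m1 c), add_comm _ ((m2 c : ℝ) + m1 c),
                add_comm (m2 c : ℝ) (m1 c)]
              exact h7
        · -- only the left child
          have h7 := ih (true :: c) (by have := (hd1 true).1; omega)
          have h8 : treeuN W c ≤ treeuN W (true :: c) := by
            refine treeu_le hf fun p hp hdp => ?_
            rcases hnW c (by omega) p hp hdp with h6 | h6
            · exact h6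
            · exact absurd ⟨p, hp, h6⟩ hfl
          refine (mul_le_mul_of_nonneg_right h8 (by positivity)).trans ?_
          rw [m1_true, m2_true, hssd (true :: c), m1_true, m2_true, hss] at h7
          exact treeu_a ha hb rfl rfl hC h7
      · have h7 := ih (false :: c) (by have := (hd1 false).1; omega)
        have h8 : treeuN W c ≤ treeuN W (false :: c) := by
          refine treeu_le hf fun p hp hdp => ?_
          rcases hnW c (by omega) p hp hdp with h6 | h6
          · exact absurd ⟨p, hp, h6⟩ ht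
          · exact h6
        refine (mul_le_mul_of_nonneg_right h8 (by positivity)).trans ?_
        rw [m1_false, m2_false, hssd (false :: c), m1_false, m2_false, hss] at h7
        rw [mul_comm (m1 c : ℝ), add_comm (m1 c : ℝ)]
        refine treeu_a (u := (m1 c : ℝ) + m2 c) (s := (m1 c : ℝ) + m2 c + m2 c) hb ha
          (by ring) (by ring) hC ?_
        rw [mul_comm (m2 c : ℝ) _]
        exact h7
  have h1 := key (K - ss c) c le_rfl
  rw [hCeq]
  exact h1

end Pool.Agent.Lib.MP_94ab62_ntU
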