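import Pool.Agent.Lib.MP_94ab62_ntU.JBranch
import Pool.Agent.Lib.MP_94ab62_ntU.EnumU
import Pool.Agent.Lib.MP_94ab62_ntU.TreeU

/-!
# J COUNT: counting the coincidences under a pair of nodes of level K3

Abbreviate `S p q = S3 R K5 p3 q3 I I' M M' p q`.
* `no_adj`: `branch` for `c` and for `b :: c` gives `d`, `d'`: `I² det (uu d) (uu d') = det (M (uu c)) (M (uu (b::c))) = dM M * det ..`, so
  `|det (uu d) (uu d')| = 1` (`det_uu_cons`).  `adj`: `d = c`, `d' = b :: c`.  So `M (uu c) = I • uu c`,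
  `M (uu (b::c)) = I • uu (b::c)`, hence `M v = I • v` for all `v` (`comp_of_two` with `M' = ` identity matrix `((1,0),(0,1))`), and for a
  coincidence `S p q`: `I • uu q = I • uu p`, `q = p`, contradiction with `Pr`.
* `cnt3`: `{p | ∃ q, S p q} ⊆ A ∪ {p | W3 p}`, `A = {p | ∃ q, S p q ∧ ∀ p' q', S p' q' → cut K5 p' = cut K5 p → cut K5 q' = cut K5 q → p' = p}`;
  choose such a `q` for every `p ∈ A`; `p ↦ (cut K5 p, cut K5 q)` is injective into `LF K5 × LF K5`: at most `16 K5^4`.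
  `tree_count` with `K = K4`, `W = {p | W3 p}`, `c = p3`: `p3 <:+ p` for all `p ∈ W`, `m1 * m2 ≥ 1`, `ss p3 < 2 K3`.
-/

set_option autoImplicit false

namespace Pool.Agent.Lib.MP_94ab62_ntU

open Pool.Agent.Lib.MP_94ab62_nt

theorem no_adj {R Q K3 K4 K5 I I' : ℕ} (hP : NumP R Q K3 K4 K5) {p3 q3 : List Bool} {M M' : Mt}
    (hp3 : p3 ∈ LF K3) (hq3 : q3 ∈ LF K3) (gp : Gd R p3) (gq : Gd R q3)
    (hI : 1 ≤ I) (hI' : 1 ≤ I') (hIQ : I ≤ 4 * Q) (hIQ' : I' ≤ 4 * Q) {c : List Bool} {b : Bool}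
    (hc : ss (b :: c) < K4)
    (h1 : ∃ p, W3 R K5 p3 q3 I I' M M' p ∧ (true :: c) <:+ p)
    (h2 : ∃ p, W3 R K5 p3 q3 I I' M M' p ∧ (false :: c) <:+ p)
    (h3 : ∃ p, W3 R K5 p3 q3 I I' M M' p ∧ (true :: b :: c) <:+ p)
    (h4 : ∃ p, W3 R K5 p3 q3 I I' M M' p ∧ (false :: b :: c) <:+ p) : False := by
  obtain ⟨d, a1, a2, a3⟩ := branch hP hp3 hq3 gp gq hI hI' hIQ hIQ'
    ((ss_cons_lt b c).trans hc) h1 h2
  obtain ⟨d', b1, -, b3⟩ := branch hP hp3 hq3 gp gq hI hI' hIQ hIQ' hc h3 h4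
  have hI0 : (I : ℤ) ≠ 0 := by omega
  have hI2 : (I : ℤ) ^ 2 ≠ 0 := pow_ne_zero 2 hI0
  have hd1 : |det (uu d) (uu d')| = 1 := by
    have e := det_ap M (uu c) (uu (b :: c))
    rw [a1, b1, det_smul_left, det_smul_right] at e
    have e2 := congrArg abs e
    rw [abs_mul, abs_mul, abs_mul, a2, det_uu_cons b c, mul_one, Nat.abs_cast] at e2
    have e3 : (I : ℤ) ^ 2 * |det (uu d) (uu d')| = (I : ℤ) ^ 2 * 1 := by
      calc (I : ℤ) ^ 2 * |det (uu d) (uu d')| = (I : ℤ) * ((I : ℤ) * |det (uu d) (uu d')|) := by ring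
        _ = (I : ℤ) ^ 2 := e2
        _ = (I : ℤ) ^ 2 * 1 := (mul_one _).symm
    exact mul_left_cancel₀ hI2 e3
  obtain ⟨hd, hd'⟩ := adj hd1 a3 b3
  rw [hd] at a1
  rw [hd'] at b1
  have hid : ∀ v : ℤ × ℤ, ap ((1, 0), (0, 1)) v = v := by
    intro v
    unfold ap
    ext
    · show 1 * v.1 + 0 * v.2 = v.1
      ring
    · show 0 * v.1 + 1 * v.2 = v.2
      ring
  have hne : det (uu c) (uu (b :: c)) ≠ 0 := by
    intro h
    have h5 := det_uu_cons b c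
    rw [h, abs_zero] at h5
    exact absurd h5 zero_ne_one
  have hall : ∀ v : ℤ × ℤ, ap M v = (I : ℤ) • v := by
    intro v
    have h5 := comp_of_two (M := M) (M' := ((1, 0), (0, 1))) (k := (I : ℤ)) hne
      (by rw [hid, a1]) (by rw [hid, b1]) v
    rw [hid] at h5
    exact h5
  obtain ⟨p, ⟨q, hS, -⟩, -⟩ := h1
  obtain ⟨hPr, -, -, hS4, -⟩ := hS
  rw [hall] at hS4
  have h6 : uu q = uu p := smul_right_injective (ℤ × ℤ) hI0 hS4
  exact hPr.1 (uu_inj h6).symm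

theorem cnt3 {R Q K3 K4 K5 I I' : ℕ} (hP : NumP R Q K3 K4 K5) {p3 q3 : List Bool} {M M' : Mt}
    (hp3 : p3 ∈ LF K3) (hq3 : q3 ∈ LF K3) (gp : Gd R p3) (gq : Gd R q3)
    (hI : 1 ≤ I) (hI' : 1 ≤ I') (hIQ : I ≤ 4 * Q) (hIQ' : I' ≤ 4 * Q) :
    ({p : List Bool | ∃ q, S3 R K5 p3 q3 I I' M M' p q}.ncard : ℝ) ≤
      16 * (K5 : ℝ) ^ 4 + 2 * Real.sqrt (2 * (K3 : ℝ) / K4) * (R : ℝ) ^ 2 := by
  classical
  obtain ⟨S, hS⟩ : ∃ S : List Bool → List Bool → Prop, S = S3 R K5 p3 q3 I I' M M' := ⟨_, rfl⟩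
  obtain ⟨W, hW⟩ : ∃ W : Set (List Bool), W = {p | W3 R K5 p3 q3 I I' M M' p} := ⟨_, rfl⟩
  obtain ⟨A, hA⟩ : ∃ A : Set (List Bool), A = {p | ∃ q, S p q ∧ ∀ p' q', S p' q' →
    cut K5 p' = cut K5 p → cut K5 q' = cut K5 q → p' = p} := ⟨_, rfl⟩
  have hSR : ∀ p q, S p q → ss p ≤ R ∧ K5 ≤ ss p ∧ K5 ≤ ss q ∧ p3 <:+ p := by
    intro p q h
    rw [hS] at h
    exact ⟨h.1.2.2.1, h.2.2.2.2.2.1, h.2.2.2.2.2.2, h.2.1⟩
  have hAR : A ⊆ {q : List Bool | ss q ≤ R} := by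
    rw [hA]
    rintro p ⟨q, h, -⟩
    exact (hSR p q h).1
  have hWS : ∀ p ∈ W, ∃ q, S p q := by
    intro p hp
    rw [hW] at hp
    obtain ⟨q, h, -⟩ := hp
    rw [hS]
    exact ⟨q, h⟩
  have hWR : W ⊆ {q : List Bool | ss q ≤ R} := by
    intro p hp
    obtain ⟨q, h⟩ := hWS p hp
    exact (hSR p q h).1
  have hAfin : A.Finite := (fin_ss R).subset hAR
  have hWfin : W.Finite := (fin_ss R).subset hWR
  have hsub : {p : List Bool | ∃ q, S3 R K5 p3 q3 I I' M M' p q} ⊆ A ∪ W := by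
    rintro p ⟨q, h⟩
    by_cases hc : ∃ p' q', S3 R K5 p3 q3 I I' M M' p' q' ∧ p' ≠ p ∧
      cut K5 p' = cut K5 p ∧ cut K5 q' = cut K5 q
    · right
      rw [hW]
      exact ⟨q, h, hc⟩
    · left
      rw [hA, hS]
      refine ⟨q, h, fun p' q' h' e1 e2 => ?_⟩
      by_contra hne
      exact hc ⟨p', q', h', hne, e1, e2⟩
  have hQ := hP.hQ
  have hh3 := hP.h3
  have hK34 := hP.h34
  have hK45 := hP.h45
  have hQ2 : 400 ≤ Q ^ 2 := by
    calc 400 = 20 ^ 2 := by norm_num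
      _ ≤ Q ^ 2 := Nat.pow_le_pow_left hQ 2
  have hK5 : 3 ≤ K5 := by omega
  have hAc : A.ncard ≤ 16 * K5 ^ 4 := by
    have hex : ∀ p ∈ A, ∃ q, S p q ∧ ∀ p' q', S p' q' →
        cut K5 p' = cut K5 p → cut K5 q' = cut K5 q → p' = p := by
      intro p hp
      rw [hA] at hp
      exact hp
    choose g hg using hex
    have hfin : (LF K5 ×ˢ LF K5).Finite := (LF_finite K5).prod (LF_finite K5)
    have h1 : A.ncard ≤ (LF K5 ×ˢ LF K5).ncard := by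
      refine Set.ncard_le_ncard_of_injOn
        (fun p => if h : p ∈ A then (cut K5 p, cut K5 (g p h)) else ([], [])) ?_ ?_ hfin
      · intro p hp
        show (if h : p ∈ A then (cut K5 p, cut K5 (g p h)) else ([], [])) ∈ LF K5 ×ˢ LF K5
        rw [dif_pos hp]
        obtain ⟨a1, a2, a3, -⟩ := hSR _ _ (hg p hp).1
        exact ⟨cut_mem hK5 a2, cut_mem hK5 a3⟩
      · intro p hp p' hp' he
        have he' : (if h : p ∈ A then (cut K5 p, cut K5 (g p h)) else ([], [])) =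
          (if h : p' ∈ A then (cut K5 p', cut K5 (g p' h)) else ([], [])) := he
        rw [dif_pos hp, dif_pos hp'] at he'
        have e1 : cut K5 p = cut K5 p' := congrArg Prod.fst he'
        have e2 : cut K5 (g p hp) = cut K5 (g p' hp') := congrArg Prod.snd he'
        exact (hg p' hp').2 p (g p hp) (hg p hp).1 e1 e2
    rw [Set.ncard_prod] at h1
    have h2 := LF_card K5
    calc A.ncard ≤ (LF K5).ncard * (LF K5).ncard := h1
      _ ≤ (4 * K5 ^ 2) * (4 * K5 ^ 2) := Nat.mul_le_mul h2 h2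
      _ = 16 * K5 ^ 4 := by ring
  have hWW : ∀ p ∈ W, K4 ≤ ss p ∧ ss p ≤ R := by
    intro p hp
    obtain ⟨q, h⟩ := hWS p hp
    obtain ⟨a1, a2, -⟩ := hSR p q h
    exact ⟨by omega, a1⟩
  have ht := tree_count (R := R) (K := K4) (by omega) hWW (by
    intro c b hc h1 h2 h3 h4
    rw [hW] at h1 h2 h3 h4
    exact no_adj hP hp3 hq3 gp gq hI hI' hIQ hIQ' hc h1 h2 h3 h4) p3
  have hWe : {p : List Bool | p ∈ W ∧ p3 <:+ p} = W := by
    ext p
    constructor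
    · exact fun h => h.1
    · intro h
      obtain ⟨q, h'⟩ := hWS p h
      exact ⟨h, (hSR p q h').2.2.2⟩
  rw [hWe] at ht
  have hss := (LF_ss hp3).2
  have hm1 : (1 : ℝ) ≤ m1 p3 := by exact_mod_cast m1_pos p3
  have hm2 : (1 : ℝ) ≤ m2 p3 := by exact_mod_cast m2_pos p3
  have hm : (1 : ℝ) ≤ (m1 p3 : ℝ) * m2 p3 := by
    calc (1 : ℝ) = 1 * 1 := by ring
      _ ≤ _ := mul_le_mul hm1 hm2 zero_le_one (by linarith)
  have hW0 : (0 : ℝ) ≤ W.ncard := Nat.cast_nonneg _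
  have hK4 : (0 : ℝ) < K4 := by
    have : 0 < K4 := by omega
    exact_mod_cast this
  have hsq : Real.sqrt ((ss p3 : ℝ) / K4) ≤ Real.sqrt (2 * (K3 : ℝ) / K4) := by
    refine Real.sqrt_le_sqrt (div_le_div_of_nonneg_right ?_ hK4.le)
    have : ss p3 ≤ 2 * K3 := hss.le
    exact_mod_cast this
  have hR2 : (0 : ℝ) ≤ (R : ℝ) ^ 2 := by positivity
  have hWb : (W.ncard : ℝ) ≤ 2 * Real.sqrt (2 * (K3 : ℝ) / K4) * (R : ℝ) ^ 2 := by
    calc (W.ncard : ℝ) = W.ncard * 1 := (mul_one _).symm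
      _ ≤ W.ncard * ((m1 p3 : ℝ) * m2 p3) := mul_le_mul_of_nonneg_left hm hW0
      _ ≤ _ := ht
      _ ≤ _ := mul_le_mul_of_nonneg_right (mul_le_mul_of_nonneg_left hsq zero_le_two) hR2
  have hle : ({p : List Bool | ∃ q, S3 R K5 p3 q3 I I' M M' p q}.ncard : ℝ) ≤
      (A.ncard : ℝ) + W.ncard := by
    have h1 := (Set.ncard_le_ncard hsub (hAfin.union hWfin)).trans (Set.ncard_union_le A W)
    exact_mod_cast h1
  have hAc' : (A.ncard : ℝ) ≤ 16 * (K5 : ℝ) ^ 4 := by exact_mod_cast hAc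
  linarith

end Pool.Agent.Lib.MP_94ab62_ntU
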