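import Pool.Agent.Lib.MP_94ab62_ntU.Func
import Pool.Agent.Lib.MP_94ab62_ntU.CutU

/-!
# J: definitions for the branching argument
-/

set_option autoImplicit false

namespace Pool.Agent.Lib.MP_94ab62_ntU

open Pool.Agent.Lib.MP_94ab62_nt

/-- `M / I` and `M' / I'` are inverse matrices with bounded entries -/
structure Cfg (R I I' : ℕ) (M M' : Mt) : Prop where
  hR : 100 ≤ R
  hI : 1 ≤ I
  hI' : 1 ≤ I'
  hIR : I ≤ R
  hIR' : I' ≤ R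
  c1 : ∀ v, ap M (ap M' v) = ((I : ℤ) * I') • v
  c2 : ∀ v, ap M' (ap M v) = ((I : ℤ) * I') • v
  b1 : ∀ v, nm (ap M v) ≤ 2 * I * (R : ℝ) ^ 2 * nm v
  b2 : ∀ v, nm (ap M' v) ≤ 2 * I' * (R : ℝ) ^ 2 * nm v

/-- two pairs of cones diverging at `c` and `d`, with matching functionals -/
structure Dv (R I : ℕ) (M : Mt) (c d P P' Q Q' : List Bool) (b b' : Bool) (σ : ℝ) : Prop where
  gc : Gd R c
  gd : Gd R d
  sc : ss c ≤ R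
  sd : ss d ≤ R
  h1 : (b :: c) <:+ P
  h2 : ((!b) :: c) <:+ P'
  h3 : (b' :: d) <:+ Q
  h4 : ((!b') :: d) <:+ Q'
  hσ0 : 0 ≤ σ
  hσ : σ * (R : ℝ) ^ 60 ≤ ee c
  a1 : ∀ v, |I * LL P v - LL Q (ap M v)| ≤ σ * nm v
  a2 : ∀ v, |I * LL P' v - LL Q' (ap M v)| ≤ σ * nm v

/-- the coincidences under `(p3, q3)`, all given by the matrix `M / I` -/
def S3 (R K5 : ℕ) (p3 q3 : List Bool) (I I' : ℕ) (M M' : Mt) (p q : List Bool) : Prop :=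
  Pr R p q ∧ p3 <:+ p ∧ q3 <:+ q ∧ (I : ℤ) • uu q = ap M (uu p) ∧ (I' : ℤ) • uu p = ap M' (uu q) ∧
    K5 ≤ ss p ∧ K5 ≤ ss q

/-- `p` has a coincidence such that its pair of leaves of level `K5` contains another coincidence -/
def W3 (R K5 : ℕ) (p3 q3 : List Bool) (I I' : ℕ) (M M' : Mt) (p : List Bool) : Prop :=
  ∃ q, S3 R K5 p3 q3 I I' M M' p q ∧ ∃ p' q', S3 R K5 p3 q3 I I' M M' p' q' ∧ p' ≠ p ∧
    cut K5 p' = cut K5 p ∧ cut K5 q' = cut K5 q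

/-- parameters -/
structure NumP (R Q K3 K4 K5 : ℕ) : Prop where
  hR : 100 ≤ R
  hQ : 20 ≤ Q
  hQR : 4 * Q ≤ R
  h3 : 100 * Q ^ 2 ≤ K3
  h34 : K3 ≤ K4
  h45 : 5 * K4 ≤ K5
  hexp : (R : ℝ) ^ 100 ≤ Real.exp (K3 : ℝ)

end Pool.Agent.Lib.MP_94ab62_ntU
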