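import Pool.Agent.Lib.MP_94ab62_ntU.JDefs

/-!
# J PAIR: two coincidences give the configuration

Abbreviate `S p q = S3 R K5 p3 q3 I I' M M' p q`.
* `S3_indep`: `S p q`, `S p' q'`, `p ≠ p'` ⇒ `det (uu p) (uu p') ≠ 0` and `det (uu q) (uu q') ≠ 0`: `par_eq`; if `q = q'` then
  `I' • uu p = ap M' (uu q) = I' • uu p'`, `uu p = uu p'`, `p = p'` (`uu_inj`).
* `cfg_of_two`: `c2` by `comp_of_two` with `uu p`, `uu p'`: `ap M' (ap M (uu p)) = ap M' (I • uu q) = I • I' • uu p`; `c1` with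
  `uu q`, `uu q'`.  `b1`: with `D = det (uu p) (uu p')`, `|D| ≥ 1`: `D • v = det v (uu p') • uu p + det (uu p) v • uu p'` (`ind_decomp`), so
  `nm (M v) ≤ |D| nm (M v) ≤ nm v R (I R) + nm v R (I R) = 2 I R² nm v` (`ap_add`, `ap_smul`, `det_le`, `nm_uu`,
  `ap M (uu p) = I • uu q`, `nm (uu q) = ss q ≤ R`).  `b2` similarly.
* `close_of_two`: `f v = I * LL P v - LL Qc (ap M v)` is additive; `P = cut K5 p`, `Qc = cut K5 q`, `K5 ≤ ss P`, `K5 ≤ ss Qc`;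
  `|f (uu p)| = I |LL P (uu p) - LL Qc (uu q)| ≤ I * 48 R e^(-K5)` (`ll p = ll q` as `zz p = zz q`; `ll_app` twice, `ww_le`), same for
  `uu p'`; decompose as above: `|f v| ≤ 2 R nm v * 48 I R e^(-K5)`.
-/

set_option autoImplicit false

namespace Pool.Agent.Lib.MP_94ab62_ntU

open Pool.Agent.Lib.MP_94ab62_nt

private theorem jpair_cancel {a : ℤ} (ha : a ≠ 0) {v w : ℤ × ℤ} (h : a • v = a • w) : v = w := by
  have h1 := congrArg Prod.fst h
  have h2 := congrArg Prod.snd h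
  simp only [Prod.smul_fst, Prod.smul_snd, smul_eq_mul] at h1 h2
  exact Prod.ext (mul_left_cancel₀ ha h1) (mul_left_cancel₀ ha h2)

private theorem jpair_one_le {a : ℤ} (ha : a ≠ 0) : (1 : ℝ) ≤ |(a : ℝ)| := by
  exact_mod_cast Int.one_le_abs ha

private theorem jpair_bd {R I : ℕ} {M : Mt} {p q p' q' : List Bool}
    (hd : det (uu p) (uu p') ≠ 0) (hp : ss p ≤ R) (hq : ss q ≤ R) (hp' : ss p' ≤ R)
    (hq' : ss q' ≤ R) (e : (I : ℤ) • uu q = ap M (uu p)) (e' : (I : ℤ) • uu q' = ap M (uu p'))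
    (v : ℤ × ℤ) : nm (ap M v) ≤ 2 * I * (R : ℝ) ^ 2 * nm v := by
  have h1 : det (uu p) (uu p') • ap M v =
      (det v (uu p') * I) • uu q + (det (uu p) v * I) • uu q' := by
    rw [← ap_smul, ind_decomp (uu p) (uu p') v, ap_add, ap_smul, ap_smul, ← e, ← e', smul_smul,
      smul_smul]
  have h2 := jpair_one_le hd
  have h0 := nm_nonneg (ap M v)
  have hv := nm_nonneg v
  have h3 : nm (ap M v) ≤ nm (det (uu p) (uu p') • ap M v) := by
    rw [nm_smul]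
    calc nm (ap M v) = 1 * nm (ap M v) := (one_mul _).symm
      _ ≤ |((det (uu p) (uu p') : ℤ) : ℝ)| * nm (ap M v) := mul_le_mul_of_nonneg_right h2 h0
  have hpR : (ss p : ℝ) ≤ R := by exact_mod_cast hp
  have hqR : (ss q : ℝ) ≤ R := by exact_mod_cast hq
  have hpR' : (ss p' : ℝ) ≤ R := by exact_mod_cast hp'
  have hqR' : (ss q' : ℝ) ≤ R := by exact_mod_cast hq'
  have hI0 : (0 : ℝ) ≤ I := Nat.cast_nonneg _
  have hR0 : (0 : ℝ) ≤ R := Nat.cast_nonneg _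
  have h5 : |((det v (uu p') : ℤ) : ℝ)| ≤ nm v * R := by
    refine (det_le v (uu p')).trans ?_
    rw [nm_uu]
    exact mul_le_mul_of_nonneg_left hpR' hv
  have h6 : |((det (uu p) v : ℤ) : ℝ)| ≤ R * nm v := by
    refine (det_le (uu p) v).trans ?_
    rw [nm_uu]
    exact mul_le_mul_of_nonneg_right hpR hv
  have h7 : nm ((det v (uu p') * I) • uu q) ≤ nm v * R * I * R := by
    rw [nm_smul, nm_uu]
    push_cast
    rw [abs_mul, Nat.abs_cast]
    exact mul_le_mul (mul_le_mul_of_nonneg_right h5 hI0) hqR (Nat.cast_nonneg _) (by positivity)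
  have h8 : nm ((det (uu p) v * I) • uu q') ≤ R * nm v * I * R := by
    rw [nm_smul, nm_uu]
    push_cast
    rw [abs_mul, Nat.abs_cast]
    exact mul_le_mul (mul_le_mul_of_nonneg_right h6 hI0) hqR' (Nat.cast_nonneg _) (by positivity)
  rw [h1] at h3
  have h9 := nm_add ((det v (uu p') * I) • uu q) ((det (uu p) v * I) • uu q')
  have h10 : 2 * I * (R : ℝ) ^ 2 * nm v = nm v * R * I * R + R * nm v * I * R := by ring
  linarith

private theorem jpair_f (P Q : List Bool) (M : Mt) (I : ℕ) (v1 v2 v : ℤ × ℤ) {B r : ℝ}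
    (hd : det v1 v2 ≠ 0) (h1 : |I * LL P v1 - LL Q (ap M v1)| ≤ B)
    (h2 : |I * LL P v2 - LL Q (ap M v2)| ≤ B) (hn1 : nm v1 ≤ r) (hn2 : nm v2 ≤ r) :
    |I * LL P v - LL Q (ap M v)| ≤ 2 * r * B * nm v := by
  have hB : 0 ≤ B := (abs_nonneg _).trans h1
  have hv := nm_nonneg v
  have hr : 0 ≤ r := (nm_nonneg _).trans hn1
  have e : ((det v1 v2 : ℤ) : ℝ) * (I * LL P v - LL Q (ap M v)) =
      ((det v v2 : ℤ) : ℝ) * (I * LL P v1 - LL Q (ap M v1)) +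
        ((det v1 v : ℤ) : ℝ) * (I * LL P v2 - LL Q (ap M v2)) := by
    have e1 : ((det v1 v2 : ℤ) : ℝ) * LL P v =
        ((det v v2 : ℤ) : ℝ) * LL P v1 + ((det v1 v : ℤ) : ℝ) * LL P v2 := by
      rw [← LL_smul, ind_decomp, LL_add, LL_smul, LL_smul]
    have e2 : ((det v1 v2 : ℤ) : ℝ) * LL Q (ap M v) =
        ((det v v2 : ℤ) : ℝ) * LL Q (ap M v1) + ((det v1 v : ℤ) : ℝ) * LL Q (ap M v2) := by
      rw [← LL_smul, ← ap_smul, ind_decomp, ap_add, LL_add, ap_smul, ap_smul, LL_smul, LL_smul]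
    linear_combination (I : ℝ) * e1 - e2
  have h3 := jpair_one_le hd
  have h5 : |((det v v2 : ℤ) : ℝ)| ≤ nm v * r :=
    (det_le v v2).trans (mul_le_mul_of_nonneg_left hn2 hv)
  have h6 : |((det v1 v : ℤ) : ℝ)| ≤ r * nm v :=
    (det_le v1 v).trans (mul_le_mul_of_nonneg_right hn1 hv)
  have h7 : |I * LL P v - LL Q (ap M v)| ≤
      |((det v1 v2 : ℤ) : ℝ)| * |I * LL P v - LL Q (ap M v)| := by
    calc |I * LL P v - LL Q (ap M v)| = 1 * |I * LL P v - LL Q (ap M v)| := (one_mul _).symm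
      _ ≤ |((det v1 v2 : ℤ) : ℝ)| * |I * LL P v - LL Q (ap M v)| :=
        mul_le_mul_of_nonneg_right h3 (abs_nonneg _)
  rw [← abs_mul, e] at h7
  refine h7.trans ((abs_add_le _ _).trans ?_)
  rw [abs_mul, abs_mul]
  have h8 : |((det v v2 : ℤ) : ℝ)| * |I * LL P v1 - LL Q (ap M v1)| ≤ nm v * r * B :=
    mul_le_mul h5 h1 (abs_nonneg _) (by positivity)
  have h9 : |((det v1 v : ℤ) : ℝ)| * |I * LL P v2 - LL Q (ap M v2)| ≤ r * nm v * B :=
    mul_le_mul h6 h2 (abs_nonneg _) (by positivity)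
  have h10 : 2 * r * B * nm v = nm v * r * B + r * nm v * B := by ring
  linarith

private theorem jpair_ww {K : ℕ} (hK : 3 ≤ K) {p : List Bool} (h : K ≤ ss p) :
    ww (cut K p) ≤ 8 * Real.exp (-(K : ℝ)) := by
  refine (ww_le _).trans (mul_le_mul_of_nonneg_left ?_ (by norm_num))
  refine Real.exp_le_exp.2 (neg_le_neg ?_)
  exact_mod_cast (LF_ss (cut_mem hK h)).1

private theorem jpair_val {R K5 I : ℕ} {M : Mt} {p q : List Bool} (hK5 : 3 ≤ K5)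
    (hz : zz p = zz q) (hp : ss p ≤ R) (hq : ss q ≤ R) (kp : K5 ≤ ss p) (kq : K5 ≤ ss q)
    (e : (I : ℤ) • uu q = ap M (uu p)) :
    |I * LL (cut K5 p) (uu p) - LL (cut K5 q) (ap M (uu p))| ≤
      48 * I * R * Real.exp (-(K5 : ℝ)) := by
  have h1 : I * LL (cut K5 p) (uu p) - LL (cut K5 q) (ap M (uu p)) =
      I * (LL (cut K5 p) (uu p) - LL (cut K5 q) (uu q)) := by
    rw [← e, LL_smul]
    push_cast
    ring
  have h2 : ll p = ll q := congrArg F hz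
  have h3 := ll_app (cut_suffix K5 p)
  have h4 := ll_app (cut_suffix K5 q)
  have hpR : (ss p : ℝ) ≤ R := by exact_mod_cast hp
  have hqR : (ss q : ℝ) ≤ R := by exact_mod_cast hq
  have h5 : 3 * ww (cut K5 p) * ss p ≤ 3 * (8 * Real.exp (-(K5 : ℝ))) * R :=
    mul_le_mul (mul_le_mul_of_nonneg_left (jpair_ww hK5 kp) (by norm_num)) hpR
      (Nat.cast_nonneg _) (by positivity)
  have h6 : 3 * ww (cut K5 q) * ss q ≤ 3 * (8 * Real.exp (-(K5 : ℝ))) * R :=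
    mul_le_mul (mul_le_mul_of_nonneg_left (jpair_ww hK5 kq) (by norm_num)) hqR
      (Nat.cast_nonneg _) (by positivity)
  have h7 : |LL (cut K5 p) (uu p) - LL (cut K5 q) (uu q)| ≤ 48 * R * Real.exp (-(K5 : ℝ)) := by
    rw [abs_le] at h3 h4 ⊢
    constructor <;> linarith
  rw [h1, abs_mul, Nat.abs_cast]
  calc (I : ℝ) * |LL (cut K5 p) (uu p) - LL (cut K5 q) (uu q)| ≤
      I * (48 * R * Real.exp (-(K5 : ℝ))) := mul_le_mul_of_nonneg_left h7 (Nat.cast_nonneg _)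
    _ = 48 * I * R * Real.exp (-(K5 : ℝ)) := by ring

theorem S3_indep {R K5 I I' : ℕ} {p3 q3 : List Bool} {M M' : Mt} {p q p' q' : List Bool} (hI' : 1 ≤ I')
    (h : S3 R K5 p3 q3 I I' M M' p q) (h' : S3 R K5 p3 q3 I I' M M' p' q') (hne : p ≠ p') :
    det (uu p) (uu p') ≠ 0 ∧ det (uu q) (uu q') ≠ 0 := by
  obtain ⟨_, _, _, _, e2, _⟩ := h
  obtain ⟨_, _, _, _, e2', _⟩ := h'
  refine ⟨fun h0 => hne (par_eq h0), fun h0 => hne ?_⟩
  have h1 := par_eq h0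
  rw [← h1] at e2'
  have h2 : (I' : ℤ) • uu p = (I' : ℤ) • uu p' := e2.trans e2'.symm
  have h3 : (I' : ℤ) ≠ 0 := by omega
  exact uu_inj (jpair_cancel h3 h2)

theorem cfg_of_two {R K5 I I' : ℕ} {p3 q3 : List Bool} {M M' : Mt} {p q p' q' : List Bool} (hR : 100 ≤ R)
    (hI : 1 ≤ I) (hI' : 1 ≤ I') (hIR : I ≤ R) (hIR' : I' ≤ R)
    (h : S3 R K5 p3 q3 I I' M M' p q) (h' : S3 R K5 p3 q3 I I' M M' p' q') (hne : p ≠ p') :
    Cfg R I I' M M' := by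
  have hi := S3_indep hI' h h' hne
  obtain ⟨⟨_, _, hp, hq⟩, _, _, e1, e2, _⟩ := h
  obtain ⟨⟨_, _, hp', hq'⟩, _, _, e1', e2', _⟩ := h'
  have hA : ∀ {p q : List Bool}, (I : ℤ) • uu q = ap M (uu p) → (I' : ℤ) • uu p = ap M' (uu q) →
      ap M' (ap M (uu p)) = ((I : ℤ) * I') • uu p := by
    intro p q e1 e2
    rw [← e1, ap_smul, ← e2, smul_smul]
  have hB : ∀ {p q : List Bool}, (I : ℤ) • uu q = ap M (uu p) → (I' : ℤ) • uu p = ap M' (uu q) →
      ap M (ap M' (uu q)) = ((I : ℤ) * I') • uu q := by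
    intro p q e1 e2
    rw [← e2, ap_smul, ← e1, smul_smul, mul_comm]
  exact ⟨hR, hI, hI', hIR, hIR', comp_of_two hi.2 (hB e1 e2) (hB e1' e2'),
    comp_of_two hi.1 (hA e1 e2) (hA e1' e2'), jpair_bd hi.1 hp hq hp' hq' e1 e1',
    jpair_bd hi.2 hq hp hq' hp' e2 e2'⟩

theorem close_of_two {R K5 I I' : ℕ} {p3 q3 : List Bool} {M M' : Mt} {p q p' q' : List Bool} (hK5 : 3 ≤ K5)
    (hI' : 1 ≤ I')
    (h : S3 R K5 p3 q3 I I' M M' p q) (h' : S3 R K5 p3 q3 I I' M M' p' q') (hne : p ≠ p')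
    (e1 : cut K5 p' = cut K5 p) (e2 : cut K5 q' = cut K5 q) (v : ℤ × ℤ) :
    |I * LL (cut K5 p) v - LL (cut K5 q) (ap M v)| ≤
      96 * I * (R : ℝ) ^ 2 * Real.exp (-(K5 : ℝ)) * nm v := by
  have hi := S3_indep hI' h h' hne
  obtain ⟨⟨_, hz, hp, hq⟩, _, _, f1, _, kp, kq⟩ := h
  obtain ⟨⟨_, hz', hp', hq'⟩, _, _, f1', _, kp', kq'⟩ := h'
  have h1 := jpair_val hK5 hz hp hq kp kq f1
  have h2 := jpair_val hK5 hz' hp' hq' kp' kq' f1'
  rw [e1, e2] at h2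
  have hn1 : nm (uu p) ≤ R := by
    rw [nm_uu]
    exact_mod_cast hp
  have hn2 : nm (uu p') ≤ R := by
    rw [nm_uu]
    exact_mod_cast hp'
  refine (jpair_f _ _ M I (uu p) (uu p') v hi.1 h1 h2 hn1 hn2).trans (le_of_eq ?_)
  ring

end Pool.Agent.Lib.MP_94ab62_ntU
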