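import Pool.Agent.Lib.MP_94ab62_ntU.BasisB

/-!
# LATT: dense sets of integral points

* `lattice`: `{n : ℤ | (n, 0) ∈ Λ}` is a subgroup of `ℤ`, equal to the multiples of some `n1 ≥ 0` (`Int.subgroup_cyclic`); the projection
  `{y | ∃ x, (x, y) ∈ Λ}` is the multiples of some `n2 ≥ 0`.  Two points of `V` in the same row `y` differ by a multiple
  of `n1` in the first coordinate.  So `V` has at most (rows) × (per row) points, rows `≤ R / n2 + 1` (`1` if `n2 = 0`) and per row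
  `≤ R / n1 + 1` (`1` if `n1 = 0`).  If `n1 = 0` or `n1 > R` or `n2 = 0` or `n2 > R` then `V.ncard ≤ R + 1`, so
  `R^2 ≤ Q (R + 1)`, impossible for `4 Q ≤ R`.  Otherwise `V.ncard ≤ (2R/n1)(2R/n2)`, so `n1 n2 ≤ 4 Q`; `I = n1 n2`:
  `I • (1,0) = n2 • (n1, 0) ∈ Λ`; with `(x0, n2) ∈ Λ`: `I • (0,1) = n1 • (x0, n2) - x0 • (n1, 0) ∈ Λ`.
* `clear_den`: the set `Λ = {v | ∃ w, D • w = ap M0 v}` is a subgroup containing `V`.  `I • (1,0)`, `I • (0,1) ∈ Λ` give `w1`, `w2`; put `M`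
  with columns `w1`, `w2`: `D • ap M v = I • ap M0 v` for all `v`.  If `D • w = ap M0 v` then `D • (I • w) = D • ap M v`, cancel `D ≠ 0`.
* `dense_int`: apply `clear_den` to `V = Prod.fst '' S` and to `V = Prod.snd '' S`.  The two images have the same number of elements:
  `x.1` determines `x.2` (cancel `D` in `D • x.2 = ap M0 x.1`) and conversely, so both `Prod.fst` and `Prod.snd` are injective on
  `S` and both images have `S.ncard` elements (if `S` is infinite then the images would be infinite in a finite box).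
-/

set_option autoImplicit false

namespace Pool.Agent.Lib.MP_94ab62_ntU

open Pool.Agent.Lib.MP_94ab62_nt

private theorem latt_row {V : Set (ℤ × ℤ)} {R : ℕ} (f : ℤ × ℤ → ℤ)
    (hb : ∀ v ∈ V, 0 ≤ f v ∧ f v ≤ R) (hi : Set.InjOn f V) : V.ncard ≤ R + 1 := by
  have h1 := Set.ncard_le_ncard_of_injOn (s := V)
    (t := ((Finset.range (R + 1) : Finset ℕ) : Set ℕ)) (fun v => (f v).toNat)
    (fun v hv => ?_) (fun v hv w hw hvw => ?_) (Finset.finite_toSet _)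
  · rw [Set.ncard_coe_finset, Finset.card_range] at h1
    exact h1
  · have h2 := hb v hv
    rw [Finset.mem_coe, Finset.mem_range]
    show (f v).toNat < R + 1
    omega
  · have h2 := hb v hv
    have h3 := hb w hw
    have h4 : (f v).toNat = (f w).toNat := hvw
    exact hi hv hw (by omega)

private theorem latt_box {V : Set (ℤ × ℤ)} {R n1 n2 : ℕ} (h1 : 1 ≤ n1) (h2 : 1 ≤ n2)
    (hb : ∀ v ∈ V, 0 ≤ v.1 ∧ v.1 ≤ R ∧ 0 ≤ v.2 ∧ v.2 ≤ R)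
    (hr : ∀ v ∈ V, (n2 : ℤ) ∣ v.2)
    (hc : ∀ v ∈ V, ∀ w ∈ V, v.2 = w.2 → (n1 : ℤ) ∣ v.1 - w.1) :
    V.ncard ≤ (R / n1 + 1) * (R / n2 + 1) := by
  have h3 := Set.ncard_le_ncard_of_injOn (s := V)
    (t := ((Finset.range (R / n1 + 1) ×ˢ Finset.range (R / n2 + 1) : Finset (ℕ × ℕ)) :
      Set (ℕ × ℕ))) (fun v => (v.1.toNat / n1, v.2.toNat / n2))
    (fun v hv => ?_) (fun v hv w hw hvw => ?_) (Finset.finite_toSet _)
  · rw [Set.ncard_coe_finset, Finset.card_product, Finset.card_range, Finset.card_range] at h3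
    exact h3
  · obtain ⟨k1, k2, k3, k4⟩ := hb v hv
    rw [Finset.mem_coe, Finset.mem_product, Finset.mem_range, Finset.mem_range]
    have k5 : v.1.toNat ≤ R := by omega
    have k6 : v.2.toNat ≤ R := by omega
    exact ⟨Nat.lt_succ_of_le (Nat.div_le_div_right k5),
      Nat.lt_succ_of_le (Nat.div_le_div_right k6)⟩
  · obtain ⟨k1, k2, k3, k4⟩ := hb v hv
    obtain ⟨l1, l2, l3, l4⟩ := hb w hw
    have e1 : v.1.toNat / n1 = w.1.toNat / n1 := congrArg Prod.fst hvw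
    have e2 : v.2.toNat / n2 = w.2.toNat / n2 := congrArg Prod.snd hvw
    have e3 : v.2 = w.2 := by
      have d1 : n2 ∣ v.2.toNat := by
        have h := hr v hv
        rw [← Int.toNat_of_nonneg k3] at h
        exact Int.natCast_dvd_natCast.1 h
      have d2 : n2 ∣ w.2.toNat := by
        have h := hr w hw
        rw [← Int.toNat_of_nonneg l3] at h
        exact Int.natCast_dvd_natCast.1 h
      have d3 := Nat.div_mul_cancel d1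
      have d4 := Nat.div_mul_cancel d2
      rw [e2, d4] at d3
      omega
    have e4 : v.1 = w.1 := by
      obtain ⟨k, hk⟩ := hc v hv w hw e3
      have m1 := Nat.div_add_mod v.1.toNat n1
      have m2 := Nat.div_add_mod w.1.toNat n1
      have m3 := Nat.mod_lt v.1.toNat (show 0 < n1 by omega)
      have m4 := Nat.mod_lt w.1.toNat (show 0 < n1 by omega)
      rw [e1] at m1
      obtain ⟨q, hq⟩ : ∃ q, q = n1 * (w.1.toNat / n1) := ⟨_, rfl⟩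
      rw [← hq] at m1 m2
      have m5 : -(n1 : ℤ) < v.1 - w.1 := by omega
      have m6 : v.1 - w.1 < n1 := by omega
      rw [hk] at m5 m6
      have hn : (0 : ℤ) < n1 := by exact_mod_cast h1
      have hk1 : k < 1 := by
        by_contra hcon
        nlinarith [not_lt.1 hcon]
      have hk2 : -1 < k := by
        by_contra hcon
        nlinarith [not_lt.1 hcon]
      have hk0 : k = 0 := by omega
      rw [hk0, mul_zero] at hk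
      omega
    exact Prod.ext e4 e3

private theorem latt_gen (H : AddSubgroup ℤ) : ∃ n : ℕ, ∀ x : ℤ, x ∈ H ↔ (n : ℤ) ∣ x := by
  obtain ⟨a, ha⟩ := Int.subgroup_cyclic H
  refine ⟨a.natAbs, fun x => ?_⟩
  rw [ha, AddSubgroup.mem_closure_singleton, Int.natAbs_dvd]
  constructor
  · rintro ⟨k, rfl⟩
    exact ⟨k, by rw [smul_eq_mul, mul_comm]⟩
  · rintro ⟨k, rfl⟩
    exact ⟨k, by rw [smul_eq_mul, mul_comm]⟩

theorem lattice (Λ : AddSubgroup (ℤ × ℤ)) {R Q : ℕ} {V : Set (ℤ × ℤ)} (hQ : 1 ≤ Q) (hR : 4 * Q ≤ R)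
    (hV : ∀ v ∈ V, v ∈ Λ) (hb : ∀ v ∈ V, 0 ≤ v.1 ∧ v.1 ≤ R ∧ 0 ≤ v.2 ∧ v.2 ≤ R)
    (hc : R ^ 2 ≤ Q * V.ncard) : ∃ I : ℕ, 1 ≤ I ∧ I ≤ 4 * Q ∧ ∀ v : ℤ × ℤ, (I : ℤ) • v ∈ Λ := by
  obtain ⟨n1, hn1⟩ := latt_gen (Λ.comap (AddMonoidHom.inl ℤ ℤ))
  obtain ⟨n2, hn2⟩ := latt_gen (Λ.map (AddMonoidHom.snd ℤ ℤ))
  have g1 : ∀ x : ℤ, (x, (0 : ℤ)) ∈ Λ ↔ (n1 : ℤ) ∣ x := fun x => hn1 x
  have g2 : ∀ v ∈ Λ, (n2 : ℤ) ∣ v.2 := fun v hv => (hn2 v.2).1 ⟨v, hv, rfl⟩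
  have hrow : ∀ v ∈ V, ∀ w ∈ V, v.2 = w.2 → (n1 : ℤ) ∣ v.1 - w.1 := by
    intro v hv w hw hvw
    rw [← g1]
    have h1 := Λ.sub_mem (hV v hv) (hV w hw)
    have h2 : v - w = (v.1 - w.1, (0 : ℤ)) := Prod.ext rfl (by
      show v.2 - w.2 = 0
      omega)
    rwa [h2] at h1
  have hR0 : 1 ≤ R := by omega
  have hsmall : ¬ V.ncard ≤ R + 1 := by
    intro h
    have h1 : R ^ 2 ≤ Q * (R + 1) := hc.trans (Nat.mul_le_mul_left _ h)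
    nlinarith
  have hz : ∀ n : ℕ, (n = 0 ∨ R < n) → ∀ x : ℤ, -(R : ℤ) ≤ x → x ≤ R → (n : ℤ) ∣ x → x = 0 := by
    rintro n (rfl | hn) x hx1 hx2 hx3
    · rw [Nat.cast_zero] at hx3
      exact zero_dvd_iff.1 hx3
    · have hn' : (R : ℤ) < n := by exact_mod_cast hn
      exact Int.eq_zero_of_abs_lt_dvd hx3 (by
        rw [abs_lt]
        omega)
  by_cases c2 : n2 = 0 ∨ R < n2
  · exfalso
    apply hsmall
    refine latt_row Prod.fst (fun v hv => ⟨(hb v hv).1, (hb v hv).2.1⟩) fun v hv w hw hvw => ?_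
    obtain ⟨_, _, k3, k4⟩ := hb v hv
    obtain ⟨_, _, l3, l4⟩ := hb w hw
    have e1 := hz n2 c2 v.2 (by omega) k4 (g2 v (hV v hv))
    have e2 := hz n2 c2 w.2 (by omega) l4 (g2 w (hV w hw))
    exact Prod.ext hvw (by rw [e1, e2])
  by_cases c1 : n1 = 0 ∨ R < n1
  · exfalso
    apply hsmall
    refine latt_row Prod.snd (fun v hv => (hb v hv).2.2) fun v hv w hw hvw => ?_
    obtain ⟨k1, k2, _, _⟩ := hb v hv
    obtain ⟨l1, l2, _, _⟩ := hb w hw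
    have e1 := hz n1 c1 (v.1 - w.1) (by omega) (by omega) (hrow v hv w hw hvw)
    exact Prod.ext (by omega) hvw
  rw [not_or, not_lt] at c1 c2
  have hn1p : 1 ≤ n1 := by omega
  have hn2p : 1 ≤ n2 := by omega
  have hcard := latt_box hn1p hn2p hb (fun v hv => g2 v (hV v hv)) hrow
  have b1 : (R / n1 + 1) * n1 ≤ 2 * R := by
    have := Nat.div_mul_le_self R n1
    rw [add_mul, one_mul]
    omega
  have b2 : (R / n2 + 1) * n2 ≤ 2 * R := by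
    have := Nat.div_mul_le_self R n2
    rw [add_mul, one_mul]
    omega
  have hfin : n1 * n2 ≤ 4 * Q := by
    have h1 : R ^ 2 * (n1 * n2) ≤ R ^ 2 * (4 * Q) := by
      calc R ^ 2 * (n1 * n2) ≤ (Q * V.ncard) * (n1 * n2) := Nat.mul_le_mul_right _ hc
        _ ≤ (Q * ((R / n1 + 1) * (R / n2 + 1))) * (n1 * n2) :=
          Nat.mul_le_mul_right _ (Nat.mul_le_mul_left _ hcard)
        _ = Q * (((R / n1 + 1) * n1) * ((R / n2 + 1) * n2)) := by ring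
        _ ≤ Q * ((2 * R) * (2 * R)) := Nat.mul_le_mul_left _ (Nat.mul_le_mul b1 b2)
        _ = R ^ 2 * (4 * Q) := by ring
    exact Nat.le_of_mul_le_mul_left h1 (by positivity)
  refine ⟨n1 * n2, Nat.mul_pos hn1p hn2p, hfin, fun v => ?_⟩
  have q1 : (((n1 * n2 : ℕ) : ℤ), (0 : ℤ)) ∈ Λ := (g1 _).2 ⟨(n2 : ℤ), by push_cast; ring⟩
  have q2 : ((0 : ℤ), ((n1 * n2 : ℕ) : ℤ)) ∈ Λ := by
    obtain ⟨⟨x0, y0⟩, hx0, hy0⟩ := (hn2 (n2 : ℤ)).2 dvd_rfl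
    have hy0' : y0 = (n2 : ℤ) := hy0
    subst hy0'
    have h1 : (n1 : ℤ) • ((x0, (n2 : ℤ)) : ℤ × ℤ) - ((n1 : ℤ) * x0, (0 : ℤ)) ∈ Λ :=
      Λ.sub_mem (Λ.zsmul_mem hx0 _) ((g1 _).2 ⟨x0, rfl⟩)
    have h2 : (n1 : ℤ) • ((x0, (n2 : ℤ)) : ℤ × ℤ) - ((n1 : ℤ) * x0, (0 : ℤ)) =
        ((0 : ℤ), ((n1 * n2 : ℕ) : ℤ)) := by
      refine Prod.ext ?_ ?_
      · show (n1 : ℤ) • x0 - (n1 : ℤ) * x0 = 0
        rw [smul_eq_mul, sub_self]
      · show (n1 : ℤ) • (n2 : ℤ) - 0 = _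
        rw [smul_eq_mul, sub_zero]
        push_cast
        ring
    rwa [h2] at h1
  have h3 : ((n1 * n2 : ℕ) : ℤ) • v = v.1 • (((n1 * n2 : ℕ) : ℤ), (0 : ℤ)) +
      v.2 • ((0 : ℤ), ((n1 * n2 : ℕ) : ℤ)) := by
    refine Prod.ext ?_ ?_
    · show ((n1 * n2 : ℕ) : ℤ) * v.1 = v.1 * ((n1 * n2 : ℕ) : ℤ) + v.2 * 0
      ring
    · show ((n1 * n2 : ℕ) : ℤ) * v.2 = v.1 * 0 + v.2 * ((n1 * n2 : ℕ) : ℤ)
      ring
  rw [h3]
  exact Λ.add_mem (Λ.zsmul_mem q1 _) (Λ.zsmul_mem q2 _)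

theorem clear_den {R Q : ℕ} {V : Set (ℤ × ℤ)} (hQ : 1 ≤ Q) (hR : 4 * Q ≤ R) {D : ℤ} (hD : D ≠ 0) (M0 : Mt)
    (hV : ∀ v ∈ V, ∃ w : ℤ × ℤ, D • w = ap M0 v) (hb : ∀ v ∈ V, 0 ≤ v.1 ∧ v.1 ≤ R ∧ 0 ≤ v.2 ∧ v.2 ≤ R)
    (hc : R ^ 2 ≤ Q * V.ncard) :
    ∃ I : ℕ, 1 ≤ I ∧ I ≤ 4 * Q ∧ ∃ M : Mt, ∀ v w : ℤ × ℤ, D • w = ap M0 v → (I : ℤ) • w = ap M v := by
  let Λ : AddSubgroup (ℤ × ℤ) :=
    { carrier := {v | ∃ w : ℤ × ℤ, D • w = ap M0 v}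
      zero_mem' := ⟨0, by
        refine Prod.ext ?_ ?_
        · show D * 0 = M0.1.1 * 0 + M0.1.2 * 0
          ring
        · show D * 0 = M0.2.1 * 0 + M0.2.2 * 0
          ring⟩
      add_mem' := by
        rintro v v' ⟨w, hw⟩ ⟨w', hw'⟩
        exact ⟨w + w', by rw [smul_add, hw, hw', ap_add]⟩
      neg_mem' := by
        rintro v ⟨w, hw⟩
        refine ⟨-w, ?_⟩
        have h1 : -v = (-1 : ℤ) • v := by rw [neg_one_smul]
        rw [h1, ap_smul, smul_neg, hw, neg_one_smul] }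
  obtain ⟨I, hI1, hI2, hI⟩ := lattice Λ hQ hR (fun v hv => hV v hv) hb hc
  obtain ⟨w1, hw1⟩ : ∃ w : ℤ × ℤ, D • w = ap M0 ((I : ℤ) • ((1 : ℤ), (0 : ℤ))) := hI _
  obtain ⟨w2, hw2⟩ : ∃ w : ℤ × ℤ, D • w = ap M0 ((I : ℤ) • ((0 : ℤ), (1 : ℤ))) := hI _
  have a1 : D * w1.1 = M0.1.1 * ((I : ℤ) * 1) + M0.1.2 * ((I : ℤ) * 0) := congrArg Prod.fst hw1
  have a2 : D * w1.2 = M0.2.1 * ((I : ℤ) * 1) + M0.2.2 * ((I : ℤ) * 0) := congrArg Prod.snd hw1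
  have b1 : D * w2.1 = M0.1.1 * ((I : ℤ) * 0) + M0.1.2 * ((I : ℤ) * 1) := congrArg Prod.fst hw2
  have b2 : D * w2.2 = M0.2.1 * ((I : ℤ) * 0) + M0.2.2 * ((I : ℤ) * 1) := congrArg Prod.snd hw2
  refine ⟨I, hI1, hI2, ((w1.1, w2.1), (w1.2, w2.2)), fun v w hw => ?_⟩
  have c1 : D * w.1 = M0.1.1 * v.1 + M0.1.2 * v.2 := congrArg Prod.fst hw
  have c2 : D * w.2 = M0.2.1 * v.1 + M0.2.2 * v.2 := congrArg Prod.snd hw
  refine Prod.ext ?_ ?_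
  · show (I : ℤ) * w.1 = w1.1 * v.1 + w2.1 * v.2
    apply mul_left_cancel₀ hD
    linear_combination (I : ℤ) * c1 - v.1 * a1 - v.2 * b1
  · show (I : ℤ) * w.2 = w1.2 * v.1 + w2.2 * v.2
    apply mul_left_cancel₀ hD
    linear_combination (I : ℤ) * c2 - v.1 * a2 - v.2 * b2

theorem dense_int {R Q : ℕ} (hQ : 1 ≤ Q) (hR : 4 * Q ≤ R) {S : Set ((ℤ × ℤ) × (ℤ × ℤ))} {D D' : ℤ}
    (hD : D ≠ 0) (hD' : D' ≠ 0) {M0 M0' : Mt} (h1 : ∀ x ∈ S, D • x.2 = ap M0 x.1)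
    (h2 : ∀ x ∈ S, D' • x.1 = ap M0' x.2)
    (hb1 : ∀ x ∈ S, 0 ≤ x.1.1 ∧ x.1.1 ≤ R ∧ 0 ≤ x.1.2 ∧ x.1.2 ≤ R)
    (hb2 : ∀ x ∈ S, 0 ≤ x.2.1 ∧ x.2.1 ≤ R ∧ 0 ≤ x.2.2 ∧ x.2.2 ≤ R)
    (hc : R ^ 2 ≤ Q * (Prod.fst '' S).ncard) :
    ∃ I I' : ℕ, 1 ≤ I ∧ I ≤ 4 * Q ∧ 1 ≤ I' ∧ I' ≤ 4 * Q ∧ ∃ M M' : Mt,
      ∀ x ∈ S, (I : ℤ) • x.2 = ap M x.1 ∧ (I' : ℤ) • x.1 = ap M' x.2 := by
  have hcancel : ∀ {D : ℤ}, D ≠ 0 → ∀ {a b : ℤ × ℤ}, D • a = D • b → a = b := by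
    intro D hD a b hab
    have h1 : D * a.1 = D * b.1 := congrArg Prod.fst hab
    have h2 : D * a.2 = D * b.2 := congrArg Prod.snd hab
    exact Prod.ext (mul_left_cancel₀ hD h1) (mul_left_cancel₀ hD h2)
  have i1 : Set.InjOn Prod.fst S := by
    intro x hx y hy hxy
    refine Prod.ext hxy (hcancel hD ?_)
    rw [h1 x hx, h1 y hy, hxy]
  have i2 : Set.InjOn Prod.snd S := by
    intro x hx y hy hxy
    refine Prod.ext (hcancel hD' ?_) hxy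
    rw [h2 x hx, h2 y hy, hxy]
  have e1 : (Prod.fst '' S).ncard = (Prod.snd '' S).ncard := by
    rw [i1.ncard_image, i2.ncard_image]
  obtain ⟨I, hI1, hI2, M, hM⟩ := clear_den (V := Prod.fst '' S) hQ hR hD M0
    (by
      rintro _ ⟨x, hx, rfl⟩
      exact ⟨x.2, h1 x hx⟩)
    (by
      rintro _ ⟨x, hx, rfl⟩
      exact hb1 x hx) hc
  obtain ⟨I', hI1', hI2', M', hM'⟩ := clear_den (V := Prod.snd '' S) hQ hR hD' M0'
    (by
      rintro _ ⟨x, hx, rfl⟩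
      exact ⟨x.1, h2 x hx⟩)
    (by
      rintro _ ⟨x, hx, rfl⟩
      exact hb2 x hx) (by rw [← e1]; exact hc)
  exact ⟨I, I', hI1, hI2, hI1', hI2', M, M', fun x hx =>
    ⟨hM _ _ (h1 x hx), hM' _ _ (h2 x hx)⟩⟩

end Pool.Agent.Lib.MP_94ab62_ntU
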