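import Pool.Agent.Lib.MP_94ab62_ntU.Conv
import Pool.Agent.Lib.MP_94ab62_ntU.CutU
import Pool.Agent.Lib.MP_94ab62_ntU.Fail

/-!
# MULT: multiplicities of Markoff numbers

* `mult_cone`: suppose `P <:+ p1, p2, p3` are different with `zz = m`, so `ll` equal (`ll p = F (zz p)` by definition).
  `|LL P (uu p1 - uu p2)| ≤ |ll p1 - LL P (uu p1)| + |ll p2 - LL P (uu p2)| ≤ 6 ww P R ≤ 48 R e^(-K)` (`ll_app`, `ww_le`,
  `K ≤ ss P`), same for `p1, p3`; `nm (uu p1 - uu p2) ≤ 2 R` (`nm_sub`, `nm_uu`); `LL_det` with `A = 2R`, `τ = 48 R e^(-K)`: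
  `2 A τ = 192 R² e^(-K) < 7/10`.  So `det = 0`: `conv_line`.
* `mult_level`: the nodes with `ss p < K` (`ss_lt_card`) and those below the leaves: `cut K p ∈ LF K` (`cut_mem`), `fibre_le`,
  `LF_card`: `K² + 4 K² * 2`.
* `mult_node`: `zz p = m`: `9/10 ss p ≤ ll p = F m ≤ log (3 m)` (`ll_ge`, `F_log`), so `ss p ≤ R := ⌊(10/9) log (3m)⌋₊ ≤ 4 log m`; take
  `K = ⌈log (300 * (R+1)^2)⌉₊ + 3 ≤ C' log log m` for `m ≥ 5` (`log log 5 > 0.47`).
* `mult_pairs`: pairs `(x, y)`, `0 < x ≤ y ≤ m`, `x² + y² + m² = 3xym`, `m ≥ 5`: then `x < y < m` (see `enum_eq` in `Enum.lean`; in `Fail.lean`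
  there may be a usable version), so `(x, y, m)` is `Good` and `tn_exists` gives a node `p` with `zz p = m` and `tn p = (x,y,m)` or
  `tn p = (y,x,m)`; this is an injection of the pairs into `{p | zz p = m}`.
-/

set_option autoImplicit false

namespace Pool.Agent.Lib.MP_94ab62_ntU

open Pool.Agent.Lib.MP_94ab62_nt

private theorem mult_ll (p : List Bool) : ll p = F (zz p) := rfl

private theorem mult_small {R K : ℕ} {P p q : List Bool} (hP : K ≤ ss P) (h1 : P <:+ p) (h2 : P <:+ q)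
    (he : zz p = zz q) (hp : ss p ≤ R) (hq : ss q ≤ R) :
    |LL P (uu p - uu q)| ≤ 48 * (R : ℝ) * Real.exp (-(K : ℝ)) := by
  have e1 := abs_le.1 (ll_app h1)
  have e2 := abs_le.1 (ll_app h2)
  have e3 : ll p = ll q := by rw [mult_ll, mult_ll, he]
  have hw := ww_pos P
  have hw1 := ww_le P
  have hp' : (ss p : ℝ) ≤ R := by exact_mod_cast hp
  have hq' : (ss q : ℝ) ≤ R := by exact_mod_cast hq
  have hP' : (K : ℝ) ≤ ss P := by exact_mod_cast hP
  have e4 : Real.exp (-(ss P : ℝ)) ≤ Real.exp (-(K : ℝ)) := Real.exp_le_exp.2 (by linarith)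
  have e5 : ww P * (ss p : ℝ) ≤ ww P * R := mul_le_mul_of_nonneg_left hp' hw.le
  have e6 : ww P * (ss q : ℝ) ≤ ww P * R := mul_le_mul_of_nonneg_left hq' hw.le
  have e7 : ww P * (R : ℝ) ≤ 8 * Real.exp (-(K : ℝ)) * R :=
    mul_le_mul_of_nonneg_right (by linarith) (Nat.cast_nonneg R)
  rw [LL_sub, abs_le]
  constructor <;> nlinarith [e1.1, e1.2, e2.1, e2.2]

theorem mult_cone {R K m : ℕ} (hK : 192 * (R : ℝ) ^ 2 * Real.exp (-(K : ℝ)) < 7 / 10) {P : List Bool}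
    (hP : K ≤ ss P) : {p : List Bool | (P <:+ p) ∧ zz p = m ∧ ss p ≤ R}.ncard ≤ 2 := by
  have hfin : {p : List Bool | (P <:+ p) ∧ zz p = m ∧ ss p ≤ R}.Finite :=
    (fin_ss R).subset fun p hp => hp.2.2
  by_contra hcon
  rw [not_le, Set.two_lt_ncard_iff hfin] at hcon
  obtain ⟨a, b, c, ⟨ha1, ha2, ha3⟩, ⟨hb1, hb2, hb3⟩, ⟨hc1, hc2, hc3⟩, hab, hac, hbc⟩ := hcon
  have h1 := mult_small hP ha1 hb1 (ha2.trans hb2.symm) ha3 hb3
  have h2 := mult_small hP ha1 hc1 (ha2.trans hc2.symm) ha3 hc3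
  have ha' : (ss a : ℝ) ≤ R := by exact_mod_cast ha3
  have hb' : (ss b : ℝ) ≤ R := by exact_mod_cast hb3
  have hc' : (ss c : ℝ) ≤ R := by exact_mod_cast hc3
  have h3 : nm (uu a - uu b) ≤ 2 * (R : ℝ) := by
    have := nm_sub (uu a) (uu b)
    rw [nm_uu, nm_uu] at this
    linarith
  have h4 : nm (uu a - uu c) ≤ 2 * (R : ℝ) := by
    have := nm_sub (uu a) (uu c)
    rw [nm_uu, nm_uu] at this
    linarith
  have h5 := LL_det h3 h4 h1 h2 (by nlinarith)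
  exact conv_line hab hac hbc h5 (by rw [mult_ll, mult_ll, ha2, hb2]) (by rw [mult_ll, mult_ll, ha2, hc2])

theorem mult_level {R K m : ℕ} (hK3 : 3 ≤ K) (hK : 192 * (R : ℝ) ^ 2 * Real.exp (-(K : ℝ)) < 7 / 10) :
    {p : List Bool | zz p = m ∧ ss p ≤ R}.ncard ≤ 9 * K ^ 2 := by
  have hfin : {p : List Bool | zz p = m ∧ ss p ≤ R ∧ K ≤ ss p}.Finite :=
    (fin_ss R).subset fun p hp => hp.2.1
  have hfin1 : {q : List Bool | ss q < K}.Finite := 
    (fin_ss K).subset fun p hp => le_of_lt (show ss p < K from hp)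
  have h1 : {p : List Bool | zz p = m ∧ ss p ≤ R} ⊆
      {q : List Bool | ss q < K} ∪ {p : List Bool | zz p = m ∧ ss p ≤ R ∧ K ≤ ss p} := by
    rintro p ⟨h2, h3⟩
    rcases Nat.lt_or_ge (ss p) K with h4 | h4
    · exact Or.inl h4
    · exact Or.inr ⟨h2, h3, h4⟩
  have h2 : {p : List Bool | zz p = m ∧ ss p ≤ R ∧ K ≤ ss p}.ncard ≤ (LF K).ncard * 2 := by
    refine fibre_le (cut K) hfin (LF_finite K) (fun x hx => cut_mem hK3 hx.2.2) fun t ht => ?_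
    refine le_trans (Set.ncard_le_ncard (t := {p : List Bool | (t <:+ p) ∧ zz p = m ∧ ss p ≤ R}) ?_
      ((fin_ss R).subset fun p hp => hp.2.2)) (mult_cone hK (LF_ss ht).1)
    rintro x ⟨⟨h3, h4, h5⟩, h6⟩
    exact ⟨h6 ▸ cut_suffix K x, h3, h4⟩
  have h3 := LF_card K
  have h4 := ss_lt_card K
  have h5 := Set.ncard_le_ncard h1 (hfin1.union hfin)
  have h6 := Set.ncard_union_le {q : List Bool | ss q < K} {p : List Bool | zz p = m ∧ ss p ≤ R ∧ K ≤ ss p}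
  omega

private theorem mult_log5 : (3 / 2 : ℝ) ≤ Real.log 5 := by
  rw [Real.le_log_iff_exp_le (by norm_num)]
  have h1 := Real.exp_one_lt_d9
  have h2 : Real.exp (3 / 2) ^ 2 = Real.exp 1 ^ 3 := by
    rw [← Real.exp_nat_mul, ← Real.exp_nat_mul]
    norm_num
  have h3 : Real.exp 1 ^ 3 ≤ 25 := by
    have h4 : Real.exp 1 ^ 3 ≤ (2.72 : ℝ) ^ 3 := pow_le_pow_left₀ (Real.exp_pos 1).le (by linarith) 3
    norm_num at h4 ⊢
    linarith
  have h5 := Real.exp_pos (3 / 2)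
  nlinarith

private theorem mult_loglog {m : ℕ} (hm : 5 ≤ m) : (3 / 2 : ℝ) ≤ Real.log m ∧ (2 / 5 : ℝ) ≤ Real.log (Real.log m) := by
  have h1 : (5 : ℝ) ≤ m := by exact_mod_cast hm
  have h2 : (3 / 2 : ℝ) ≤ Real.log m := mult_log5.trans (Real.log_le_log (by norm_num) h1)
  refine ⟨h2, ?_⟩
  rw [Real.le_log_iff_exp_le (by linarith)]
  refine le_trans ?_ h2
  have h3 := Real.exp_one_lt_d9
  have h4 : Real.exp (2 / 5) ^ 5 = Real.exp 1 ^ 2 := by
    rw [← Real.exp_nat_mul, ← Real.exp_nat_mul]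
    norm_num
  have h5 : Real.exp 1 ^ 2 ≤ (3 / 2 : ℝ) ^ 5 := by
    have h4 : Real.exp 1 ^ 2 ≤ (2.72 : ℝ) ^ 2 := pow_le_pow_left₀ (Real.exp_pos 1).le (by linarith) 2
    norm_num at h4 ⊢
    linarith
  rw [← h4] at h5
  exact le_of_pow_le_pow_left₀ (by norm_num) (by norm_num) h5

private theorem mult_exp9 : Real.log 4800 ≤ 9 := by
  rw [Real.log_le_iff_le_exp (by norm_num)]
  have h1 := Real.exp_one_gt_d9
  have h2 : Real.exp 9 = Real.exp 1 ^ 9 := by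
    rw [← Real.exp_nat_mul]
    norm_num
  have h3 : (2.7 : ℝ) ^ 9 ≤ Real.exp 1 ^ 9 := pow_le_pow_left₀ (by norm_num) (by linarith) 9
  rw [h2]
  norm_num at h3 ⊢
  linarith

theorem mult_node : ∃ C : ℝ, 0 < C ∧ ∀ m : ℕ, 5 ≤ m →
    ({p : List Bool | zz p = m}.ncard : ℝ) ≤ C * (Real.log (Real.log m)) ^ 2 := by
  refine ⟨11025, by norm_num, fun m hm => ?_⟩
  obtain ⟨h1, h2⟩ := mult_loglog hm
  have hmR : (5 : ℝ) ≤ m := by exact_mod_cast hm
  have h3 : Real.log (3 * m) ≤ 2 * Real.log m := by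
    have h4 : Real.log (3 * m) ≤ Real.log ((m : ℝ) ^ 2) :=
      Real.log_le_log (by positivity) (by nlinarith)
    rw [Real.log_pow] at h4
    exact_mod_cast h4
  obtain ⟨R, hR⟩ : ∃ R : ℕ, R = ⌊10 / 9 * Real.log (3 * m)⌋₊ := ⟨_, rfl⟩
  obtain ⟨K, hK⟩ : ∃ K : ℕ, K = ⌈Real.log (300 * ((R : ℝ) + 1) ^ 2)⌉₊ + 3 := ⟨_, rfl⟩
  have hl3 : 0 ≤ Real.log (3 * m) := Real.log_nonneg (by linarith)
  have hR1 : (R : ℝ) ≤ 10 / 9 * Real.log (3 * m) := by
    rw [hR]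
    exact Nat.floor_le (by linarith)
  have hR2 : (R : ℝ) + 1 ≤ 4 * Real.log m := by linarith
  have hR0 : (0 : ℝ) ≤ R := Nat.cast_nonneg R
  have hset : {p : List Bool | zz p = m} = {p : List Bool | zz p = m ∧ ss p ≤ R} := by
    ext p
    refine ⟨fun hp => ⟨hp, ?_⟩, fun hp => hp.1⟩
    have hp' : zz p = m := hp
    rw [hR]
    refine Nat.le_floor ?_
    have h4 := ll_ge p
    have h5 := (F_log (z := m) (by omega)).1
    rw [mult_ll, hp'] at h4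
    linarith
  have hpos : (0 : ℝ) < 300 * ((R : ℝ) + 1) ^ 2 := by positivity
  have hKc : Real.log (300 * ((R : ℝ) + 1) ^ 2) ≤ K := by
    have := Nat.le_ceil (Real.log (300 * ((R : ℝ) + 1) ^ 2))
    rw [hK]
    push_cast
    linarith
  have hKu : (K : ℝ) ≤ Real.log (300 * ((R : ℝ) + 1) ^ 2) + 4 := by
    have h4 : 0 ≤ Real.log (300 * ((R : ℝ) + 1) ^ 2) := Real.log_nonneg (by nlinarith)
    have h5 := (Nat.ceil_lt_add_one h4).le
    rw [hK]
    push_cast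
    linarith
  have hexp : Real.exp (-(K : ℝ)) * (300 * ((R : ℝ) + 1) ^ 2) ≤ 1 := by
    have h4 : 300 * ((R : ℝ) + 1) ^ 2 ≤ Real.exp (K : ℝ) := (Real.log_le_iff_le_exp hpos).1 hKc
    calc Real.exp (-(K : ℝ)) * (300 * ((R : ℝ) + 1) ^ 2) ≤ Real.exp (-(K : ℝ)) * Real.exp (K : ℝ) :=
          mul_le_mul_of_nonneg_left h4 (Real.exp_pos _).le
      _ = 1 := by rw [← Real.exp_add, neg_add_cancel, Real.exp_zero]
  have hKK : 192 * (R : ℝ) ^ 2 * Real.exp (-(K : ℝ)) < 7 / 10 := by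
    have h4 : (R : ℝ) ^ 2 ≤ ((R : ℝ) + 1) ^ 2 := by nlinarith
    have h5 := mul_le_mul_of_nonneg_left h4 (Real.exp_pos (-(K : ℝ))).le
    nlinarith
  have h6 := mult_level (m := m) (by omega : 3 ≤ K) hKK
  rw [hset]
  have h7 : Real.log (300 * ((R : ℝ) + 1) ^ 2) ≤ 9 + 2 * Real.log (Real.log m) := by
    have hlm : 0 < Real.log m := by linarith
    have h8 : 300 * ((R : ℝ) + 1) ^ 2 ≤ 4800 * (Real.log m) ^ 2 := by
      have h9 : ((R : ℝ) + 1) ^ 2 ≤ (4 * Real.log m) ^ 2 := pow_le_pow_left₀ (by linarith) hR2 2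
      nlinarith
    have h9 := Real.log_le_log hpos h8
    have h10 := mult_exp9
    have h11 : Real.log (4800 * (Real.log m) ^ 2) = Real.log 4800 + 2 * Real.log (Real.log m) := by
      rw [Real.log_mul (by norm_num) (by positivity), Real.log_pow]
      norm_num
    linarith
  have h8 : (K : ℝ) ≤ 35 * Real.log (Real.log m) := by linarith
  have h9 : ({p : List Bool | zz p = m ∧ ss p ≤ R}.ncard : ℝ) ≤ 9 * (K : ℝ) ^ 2 := by exact_mod_cast h6
  have h10 : (K : ℝ) ^ 2 ≤ (35 * Real.log (Real.log m)) ^ 2 := pow_le_pow_left₀ (Nat.cast_nonneg K) h8 2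
  calc ({p : List Bool | zz p = m ∧ ss p ≤ R}.ncard : ℝ) ≤ 9 * (K : ℝ) ^ 2 := h9
    _ ≤ 9 * (35 * Real.log (Real.log m)) ^ 2 := by linarith
    _ = 11025 * (Real.log (Real.log m)) ^ 2 := by ring

/-- solutions with two equal entries -/
private theorem mult_eq {x z : ℕ} (hx : 0 < x) (hz : 0 < z) (he : x ^ 2 + x ^ 2 + z ^ 2 = 3 * x * x * z) :
    x = 1 ∧ (z = 1 ∨ z = 2) := by
  have h1 : x ^ 2 ∣ z ^ 2 := by
    have h2 : x ^ 2 ∣ x ^ 2 + x ^ 2 + z ^ 2 := by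
      rw [he]
      exact ⟨3 * z, by ring⟩
    have h3 : x ^ 2 ∣ x ^ 2 + x ^ 2 := ⟨2, by ring⟩
    exact (Nat.dvd_add_right h3).1 h2
  rw [Nat.pow_dvd_pow_iff (by norm_num)] at h1
  obtain ⟨k, rfl⟩ := h1
  have h4 : 2 + k ^ 2 = 3 * x * k := by
    have h5 : x ^ 2 * (2 + k ^ 2) = x ^ 2 * (3 * x * k) := by
      calc x ^ 2 * (2 + k ^ 2) = x ^ 2 + x ^ 2 + (x * k) ^ 2 := by ring
        _ = 3 * x * x * (x * k) := he
        _ = x ^ 2 * (3 * x * k) := by ring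
    exact Nat.eq_of_mul_eq_mul_left (by positivity) h5
  have hk : 0 < k := by
    rcases Nat.eq_zero_or_pos k with h0 | h0
    · subst h0; simp at hz
    · exact h0
  have h6 : k ∣ 2 := by
    have h7 : k ∣ 2 + k ^ 2 := by
      rw [h4]
      exact ⟨3 * x, by ring⟩
    have h8 : k ∣ k ^ 2 := ⟨k, by ring⟩
    exact (Nat.dvd_add_left h8).1 h7
  have h9 : k ≤ 2 := Nat.le_of_dvd (by norm_num) h6
  interval_cases k
  · have : x = 1 := by omega
    subst this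
    simp
  · have : x = 1 := by omega
    subst this
    simp

private def mult_O (t : Nd) : ℕ × ℕ := if t.1 < t.2.1 then (t.1, t.2.1) else (t.2.1, t.1)

private theorem mult_sub {m : ℕ} (hm : 5 ≤ m) :
    {q : ℕ × ℕ | 0 < q.1 ∧ q.1 ≤ q.2 ∧ q.2 ≤ m ∧ q.1 ^ 2 + q.2 ^ 2 + m ^ 2 = 3 * q.1 * q.2 * m} ⊆
      (fun p => mult_O (tn p)) '' {p : List Bool | zz p = m} := by
  rintro ⟨x, y⟩ ⟨h1, h2, h3, h4⟩
  simp only at h1 h2 h3 h4
  have hxy : x < y := by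
    rcases Nat.lt_or_ge x y with h | h
    · exact h
    · exfalso
      have h5 : x = y := le_antisymm h2 h
      subst h5
      have := mult_eq (x := x) (z := m) h1 (by omega) h4
      omega
  have hym : y < m := by
    rcases Nat.lt_or_ge y m with h | h
    · exact h
    · exfalso
      have h5 : y = m := le_antisymm h3 h
      subst h5
      have := mult_eq (x := y) (z := x) (by omega) h1 (by
        have e1 : x ^ 2 + y ^ 2 + y ^ 2 = y ^ 2 + y ^ 2 + x ^ 2 := by ring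
        have e2 : 3 * x * y * y = 3 * y * y * x := by ring
        rw [← e1, h4, e2])
      omega
  obtain ⟨p, hp⟩ := tn_exists (s := (x, y, m)) ⟨h1, h1.trans hxy, hxy.ne, hxy.trans hym, hym, h4⟩
  refine ⟨p, ?_, ?_⟩
  · show (tn p).2.2 = m
    rcases hp with hp | hp <;> rw [hp]
    rfl
  · show mult_O (tn p) = (x, y)
    rcases hp with hp | hp
    · rw [hp, mult_O, if_pos hxy]
    · rw [hp, mult_O, if_neg]
      · rfl
      · simp only [sw]
        omega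

theorem mult_pairs : ∃ C : ℝ, 0 < C ∧ ∀ m : ℕ, 5 ≤ m →
    (({q : ℕ × ℕ | 0 < q.1 ∧ q.1 ≤ q.2 ∧ q.2 ≤ m ∧ q.1 ^ 2 + q.2 ^ 2 + m ^ 2 = 3 * q.1 * q.2 * m}.ncard : ℕ) : ℝ) ≤
      C * (Real.log (Real.log m)) ^ 2 := by
  obtain ⟨C, hC, h⟩ := mult_node
  refine ⟨C, hC, fun m hm => le_trans ?_ (h m hm)⟩
  have hfin : {p : List Bool | zz p = m}.Finite := (fin_zz m).subset fun p hp => le_of_eq hp
  exact_mod_cast (Set.ncard_le_ncard (mult_sub hm) (hfin.image _)).trans (Set.ncard_image_le hfin)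

end Pool.Agent.Lib.MP_94ab62_ntU
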