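import Pool.Agent.Lib.MP_94ab62_ntU.Total

/-!
# PAR U: choice of the parameters

`K1 = X`, `K2 = X^4`, `K = 5 X^4`, `K0 = X^11`, `Q = X^32`, `K3 = X^66`, `K4 = X^600`, `K5 = 5 X^600`.
* `par_bound`: hypotheses of `total`: `60 log R ≤ X` from `R^100 ≤ e^X` (take logs: `100 log R ≤ X`), `e^(X^k) ≥ e^X`.  `X ≥ 100`:
  `5 X^4 ≤ X^11`, `100 X^64 ≤ X^66` (`100 ≤ X^2`), `4 X^32 ≤ R`, ...
  The terms, with `L = log R ≥ 1`, `X^1400 ≤ R`: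
  `(10 X^600)² = 100 X^1200 ≤ R²/X`; `3200 L²R²/X`; `8 X² R²/X^4 = 8 R²/X²`; `4 * 25 X^8 * 3200 L²R²/X^11 = 320000 L²R²/X³ ≤ 32 L² R²/X`;
  `16 * 25 X^8 X^22 (1 + R²/X^32) = 400 X^30 + 400 R²/X²`; `16 X^264 (16 * 625 X^2400 + 2 √(2 X^66/X^600) R²)`, `√(2 X^66/X^600) ≤ 2 / X^267`,
  so it is at most `160000 X^2664 + 64 R²/X³`; `160000 X^2664 ≤ R²/X` since `R² ≥ X^2800`.
  Total `≤ 4000 L² R²/X`.
* `par_exists`: `X = ⌊R^(1/1400)⌋₊`: `X^1400 ≤ R < (X+1)^1400`; `R^100 < (X+1)^140000 ≤ e^X` for `X` large (`Real.isLittleO_pow_exp_atTop` or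
  `Real.add_pow_le_pow_mul_pow_of_add_eq_one`..., any argument), and `X ≥ R^(1/1400) / 2`.
* `coinc_bound`: `≤ 4000 L² R² / X ≤ 8000 L² R^(2 - 1/1400) ≤ R^(2 - 1/1500)` for `R` large (`isLittleO_log_rpow_atTop`).
-/

set_option autoImplicit false

namespace Pool.Agent.Lib.MP_94ab62_ntU

open Pool.Agent.Lib.MP_94ab62_nt Filter

private theorem paru_gen {x r c : ℝ} {n : ℕ} (hx : 100 ≤ x) (hr : x ^ 2800 ≤ r ^ 2)
    (hc : c ≤ x ^ 3) (hn : n + 4 ≤ 2800) : c * x ^ n ≤ r ^ 2 / x := by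
  have hx0 : 0 < x := by linarith
  rw [le_div_iff₀ hx0]
  have h1 : c * x ^ n * x ≤ x ^ 3 * x ^ n * x :=
    mul_le_mul_of_nonneg_right (mul_le_mul_of_nonneg_right hc (pow_nonneg hx0.le _)) hx0.le
  have h2 : x ^ 3 * x ^ n * x = x ^ (n + 4) := by ring
  have h3 : x ^ (n + 4) ≤ x ^ 2800 := pow_le_pow_right₀ (by linarith) hn
  rw [h2] at h1
  exact h1.trans (h3.trans hr)

private theorem paru_t1 {x r : ℝ} (hx : 100 ≤ x) (hr : x ^ 2800 ≤ r ^ 2) :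
    (2 * (5 * x ^ 600)) ^ 2 ≤ r ^ 2 / x := by
  have h1 : (2 * (5 * x ^ 600)) ^ 2 = 100 * x ^ 1200 := by ring
  rw [h1]
  refine paru_gen hx hr ?_ (by omega)
  nlinarith [mul_nonneg (sub_nonneg.mpr hx) (sub_nonneg.mpr hx), sq_nonneg x]

private theorem paru_t3 {x r : ℝ} (hx : 100 ≤ x) : 8 * x ^ 2 * r ^ 2 / x ^ 4 ≤ r ^ 2 / x := by
  have hx0 : 0 < x := by linarith
  rw [div_le_div_iff₀ (pow_pos hx0 _) hx0]
  have h1 : 8 * x ^ 3 ≤ x ^ 4 := by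
    have h2 : x ^ 4 = x * x ^ 3 := by ring
    rw [h2]
    exact mul_le_mul_of_nonneg_right (by linarith) (pow_nonneg hx0.le _)
  have h3 := mul_le_mul_of_nonneg_right h1 (sq_nonneg r)
  have h4 : 8 * x ^ 2 * r ^ 2 * x = 8 * x ^ 3 * r ^ 2 := by ring
  rw [h4, mul_comm (r ^ 2) (x ^ 4)]
  exact h3

private theorem paru_t4 {x r L : ℝ} (hx : 100 ≤ x) :
    4 * (5 * x ^ 4) ^ 2 * (3200 * L ^ 2 * r ^ 2) / x ^ 11 ≤ 32 * (L ^ 2 * r ^ 2 / x) := by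
  have hx0 : 0 < x := by linarith
  have h0 : 32 * (L ^ 2 * r ^ 2 / x) = 32 * (L ^ 2 * r ^ 2) / x := by ring
  rw [h0, div_le_div_iff₀ (pow_pos hx0 _) hx0]
  have h1 : 320000 * x ^ 9 ≤ 32 * x ^ 11 := by
    have h2 : 32 * x ^ 11 = 32 * x ^ 2 * x ^ 9 := by ring
    rw [h2]
    exact mul_le_mul_of_nonneg_right (by nlinarith) (pow_nonneg hx0.le _)
  have h3 := mul_le_mul_of_nonneg_right h1 (mul_nonneg (sq_nonneg L) (sq_nonneg r))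
  have h4 : 4 * (5 * x ^ 4) ^ 2 * (3200 * L ^ 2 * r ^ 2) * x = 320000 * x ^ 9 * (L ^ 2 * r ^ 2) := by
    ring
  have h5 : 32 * (L ^ 2 * r ^ 2) * x ^ 11 = 32 * x ^ 11 * (L ^ 2 * r ^ 2) := by ring
  rw [h4, h5]
  exact h3

private theorem paru_t5 {x r : ℝ} (hx : 100 ≤ x) (hr : x ^ 2800 ≤ r ^ 2) :
    16 * (5 * x ^ 4) ^ 2 * (x ^ 11) ^ 2 * (1 + r ^ 2 / x ^ 32) ≤ 5 * (r ^ 2 / x) := by
  have hx0 : 0 < x := by linarith
  have h1 : 16 * (5 * x ^ 4) ^ 2 * (x ^ 11) ^ 2 * (1 + r ^ 2 / x ^ 32) =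
      400 * x ^ 30 + 400 * (x ^ 30 * (r ^ 2 / x ^ 32)) := by ring
  have h2 : x ^ 30 * (r ^ 2 / x ^ 32) = r ^ 2 / x ^ 2 := by
    have h3 : x ^ 32 = x ^ 30 * x ^ 2 := by ring
    rw [h3, ← mul_div_assoc, mul_div_mul_left _ _ (pow_pos hx0 30).ne']
  have h4 : 400 * x ^ 30 ≤ r ^ 2 / x := by
    refine paru_gen hx hr ?_ (by omega)
    nlinarith [mul_nonneg (sub_nonneg.mpr hx) (sub_nonneg.mpr hx), sq_nonneg x]
  have h5 : 400 * (r ^ 2 / x ^ 2) ≤ 4 * (r ^ 2 / x) := by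
    have h6 : 400 * (r ^ 2 / x ^ 2) = 400 * r ^ 2 / x ^ 2 := by ring
    have h7 : 4 * (r ^ 2 / x) = 4 * r ^ 2 / x := by ring
    rw [h6, h7, div_le_div_iff₀ (pow_pos hx0 _) hx0]
    have h8 : 400 * x ≤ 4 * x ^ 2 := by nlinarith
    have h9 := mul_le_mul_of_nonneg_right h8 (sq_nonneg r)
    linarith
  rw [h1, h2]
  linarith

private theorem paru_t6 {x r : ℝ} (hx : 100 ≤ x) (hr : x ^ 2800 ≤ r ^ 2) :
    16 * (x ^ 66) ^ 4 * (16 * (5 * x ^ 600) ^ 4 + 2 * Real.sqrt (2 * x ^ 66 / x ^ 600) * r ^ 2) ≤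
      2 * (r ^ 2 / x) := by
  have hx0 : 0 < x := by linarith
  have h1 : Real.sqrt (2 * x ^ 66 / x ^ 600) ≤ 2 / x ^ 267 := by
    rw [Real.sqrt_le_iff]
    refine ⟨by positivity, ?_⟩
    have h2 : (2 / x ^ 267) ^ 2 = 4 / x ^ 534 := by
      rw [div_pow, ← pow_mul]
      norm_num
    rw [h2, div_le_div_iff₀ (pow_pos hx0 _) (pow_pos hx0 _)]
    have h3 : 2 * x ^ 66 * x ^ 534 = 2 * x ^ 600 := by ring
    rw [h3]
    have h4 := pow_pos hx0 600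
    linarith
  have h5 : 16 * (x ^ 66) ^ 4 * (16 * (5 * x ^ 600) ^ 4 +
      2 * Real.sqrt (2 * x ^ 66 / x ^ 600) * r ^ 2) =
      160000 * x ^ 2664 + 32 * (x ^ 264 * Real.sqrt (2 * x ^ 66 / x ^ 600)) * r ^ 2 := by
    generalize Real.sqrt (2 * x ^ 66 / x ^ 600) = w
    ring
  have h6 : x ^ 264 * Real.sqrt (2 * x ^ 66 / x ^ 600) ≤ 2 / x ^ 3 := by
    have h7 := mul_le_mul_of_nonneg_left h1 (pow_nonneg hx0.le 264)
    have h8 : x ^ 264 * (2 / x ^ 267) = 2 / x ^ 3 := by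
      have h9 : x ^ 267 = x ^ 264 * x ^ 3 := by ring
      rw [h9, ← mul_div_assoc, mul_div_mul_left _ _ (pow_pos hx0 264).ne']
    rw [h8] at h7
    exact h7
  have h10 : 160000 * x ^ 2664 ≤ r ^ 2 / x := by
    refine paru_gen hx hr ?_ (by omega)
    have h11 : (100 : ℝ) ^ 3 ≤ x ^ 3 := pow_le_pow_left₀ (by norm_num) hx 3
    linarith
  have h12 : 32 * (x ^ 264 * Real.sqrt (2 * x ^ 66 / x ^ 600)) * r ^ 2 ≤
      32 * (2 / x ^ 3) * r ^ 2 :=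
    mul_le_mul_of_nonneg_right (by linarith) (sq_nonneg r)
  have h13 : 32 * (2 / x ^ 3) * r ^ 2 ≤ r ^ 2 / x := by
    have h14 : 32 * (2 / x ^ 3) * r ^ 2 = 64 * r ^ 2 / x ^ 3 := by ring
    rw [h14, div_le_div_iff₀ (pow_pos hx0 _) hx0]
    have h15 : 64 * x ≤ x ^ 3 := by
      have h16 : x ^ 3 = x ^ 2 * x := by ring
      rw [h16]
      exact mul_le_mul_of_nonneg_right (by nlinarith) hx0.le
    have h17 := mul_le_mul_of_nonneg_right h15 (sq_nonneg r)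
    linarith
  rw [h5]
  linarith

private theorem paru_sum {x r L : ℝ} (hx : 100 ≤ x) (hr : x ^ 2800 ≤ r ^ 2) (hL : 1 ≤ L) :
    (2 * (5 * x ^ 600)) ^ 2 + 3200 * L ^ 2 * r ^ 2 / x + 8 * x ^ 2 * r ^ 2 / x ^ 4 +
      4 * (5 * x ^ 4) ^ 2 * (3200 * L ^ 2 * r ^ 2) / x ^ 11 +
      (16 * (5 * x ^ 4) ^ 2 * (x ^ 11) ^ 2 * (1 + r ^ 2 / x ^ 32) +
      16 * (x ^ 66) ^ 4 * (16 * (5 * x ^ 600) ^ 4 +
        2 * Real.sqrt (2 * x ^ 66 / x ^ 600) * r ^ 2)) ≤ 4000 * L ^ 2 * r ^ 2 / x := by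
  have hx0 : 0 < x := by linarith
  have h1 := paru_t1 hx hr
  have h3 := paru_t3 (r := r) hx
  have h4 := paru_t4 (r := r) (L := L) hx
  have h5 := paru_t5 hx hr
  have h6 := paru_t6 hx hr
  have h7 : r ^ 2 / x ≤ L ^ 2 * r ^ 2 / x := by
    refine div_le_div_of_nonneg_right ?_ hx0.le
    have h8 : 1 ≤ L ^ 2 := by nlinarith
    have h9 := mul_le_mul_of_nonneg_right h8 (sq_nonneg r)
    linarith
  have h10 : 3200 * L ^ 2 * r ^ 2 / x = 3200 * (L ^ 2 * r ^ 2 / x) := by ring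
  have h11 : 4000 * L ^ 2 * r ^ 2 / x = 4000 * (L ^ 2 * r ^ 2 / x) := by ring
  rw [h10, h11]
  have h12 : 0 ≤ L ^ 2 * r ^ 2 / x := by positivity
  linarith

theorem par_bound {R X : ℕ} (hX : 100 ≤ X) (hXR : X ^ 1400 ≤ R) (h100 : (R : ℝ) ^ 100 ≤ Real.exp (X : ℝ)) :
    ({p : List Bool | ss p ≤ R ∧ ∃ q, Pr R p q}.ncard : ℝ) ≤ 4000 * (Real.log R) ^ 2 * (R : ℝ) ^ 2 / X := by
  have hX1 : 1 ≤ X := by omega
  have hxr : (100 : ℝ) ≤ (X : ℝ) := by exact_mod_cast hX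
  have hR : 100 ≤ R := by
    have h1 : X ^ 1 ≤ X ^ 1400 := Nat.pow_le_pow_right hX1 (by omega)
    rw [pow_one] at h1
    exact hX.trans (h1.trans hXR)
  have hRr : (100 : ℝ) ≤ (R : ℝ) := by exact_mod_cast hR
  have hR0 : (0 : ℝ) < (R : ℝ) := by linarith
  have hexp : ∀ n : ℕ, 1 ≤ n → (R : ℝ) ^ 100 ≤ Real.exp ((X ^ n : ℕ) : ℝ) := by
    intro n hn
    refine h100.trans (Real.exp_le_exp.mpr ?_)
    have h1 : X ^ 1 ≤ X ^ n := Nat.pow_le_pow_right hX1 hn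
    rw [pow_one] at h1
    exact_mod_cast h1
  have hlog0 : 1 ≤ Real.log R := by
    rw [Real.le_log_iff_exp_le hR0]
    have h1 := Real.exp_one_lt_d9
    linarith
  have hlog : 100 * Real.log R ≤ (X : ℝ) := by
    have h1 := Real.log_le_log (pow_pos hR0 100) h100
    rw [Real.log_exp, Real.log_pow] at h1
    exact_mod_cast h1
  have hmul : ∀ a b m n : ℕ, a ≤ X ^ b → b + m ≤ n → a * X ^ m ≤ X ^ n := by
    intro a b m n ha hb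
    have h1 : a * X ^ m ≤ X ^ b * X ^ m := Nat.mul_le_mul_right _ ha
    rw [← pow_add] at h1
    exact h1.trans (Nat.pow_le_pow_right hX1 hb)
  have h100a : 5 ≤ X ^ 1 := by rw [pow_one]; omega
  have h100b : 100 ≤ X ^ 2 := by nlinarith
  have hP : NumP R (X ^ 32) (X ^ 66) (X ^ 600) (5 * X ^ 600) := by
    refine ⟨hR, ?_, ?_, ?_, Nat.pow_le_pow_right hX1 (by omega), le_refl _, hexp 66 (by omega)⟩
    · have h1 := hmul 20 1 0 32 (by rw [pow_one]; omega) (by omega)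
      rw [pow_zero, mul_one] at h1
      exact h1
    · have h1 := hmul 4 1 32 1400 (by rw [pow_one]; omega) (by omega)
      exact h1.trans hXR
    · rw [← pow_mul]
      exact hmul 100 2 64 66 h100b (by omega)
  have h1 : X ≤ X ^ 4 := by
    have h2 := Nat.pow_le_pow_right hX1 (show 1 ≤ 4 by omega)
    rw [pow_one] at h2
    exact h2
  have h3 : X ^ 4 ≤ R := (Nat.pow_le_pow_right hX1 (by omega)).trans hXR
  have h4 : 5 * X ^ 4 ≤ X ^ 11 := hmul 5 1 4 11 h100a (by omega)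
  have h5 : X ^ 11 ≤ X ^ 66 := Nat.pow_le_pow_right hX1 (by omega)
  have key := total hP (show 3 ≤ X by omega) h1 h3 (le_refl (5 * X ^ 4)) h4 h5
    (by linarith) (hexp 4 (by omega))
  have hr : (X : ℝ) ^ 2800 ≤ (R : ℝ) ^ 2 := by
    have h6 : (X : ℝ) ^ 1400 ≤ (R : ℝ) := by exact_mod_cast hXR
    have h7 := pow_le_pow_left₀ (pow_nonneg (by linarith) 1400) h6 2
    rw [← pow_mul] at h7
    exact h7
  have h8 := paru_sum hxr hr hlog0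
  refine key.trans (le_trans (le_of_eq ?_) h8)
  simp only [Nat.cast_mul, Nat.cast_pow, Nat.cast_ofNat]

theorem par_exists : ∀ᶠ R : ℕ in atTop, ∃ X : ℕ, 100 ≤ X ∧ X ^ 1400 ≤ R ∧ (R : ℝ) ^ 100 ≤ Real.exp (X : ℝ) ∧
    (R : ℝ) ^ ((1 : ℝ) / 1400) / 2 ≤ X := by
  have ht : Tendsto (fun R : ℕ => (R : ℝ) ^ ((1 : ℝ) / 1400)) atTop atTop :=
    (tendsto_rpow_atTop (by norm_num)).comp tendsto_natCast_atTop_atTop
  have he : ∀ᶠ y : ℝ in atTop, y ^ 140000 ≤ Real.exp (y - 1) := by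
    have h1 := (Real.isLittleO_pow_exp_atTop (n := 140000)).def (Real.exp_pos (-1))
    filter_upwards [h1, eventually_ge_atTop 0] with y hy hy0
    rw [Real.norm_of_nonneg (pow_nonneg hy0 _), Real.norm_of_nonneg (Real.exp_pos _).le,
      ← Real.exp_add] at hy
    have h2 : y - 1 = -1 + y := by ring
    rw [h2]
    exact hy
  filter_upwards [ht.eventually he, ht.eventually (eventually_ge_atTop 101)] with R h1 h2
  obtain ⟨y, hy⟩ : ∃ y : ℝ, y = (R : ℝ) ^ ((1 : ℝ) / 1400) := ⟨_, rfl⟩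
  rw [← hy] at h1 h2 ⊢
  have hy0 : 0 ≤ y := by linarith
  have hpow : ∀ n : ℕ, y ^ (1400 * n) = (R : ℝ) ^ n := by
    intro n
    rw [pow_mul]
    congr 1
    rw [hy, ← Real.rpow_natCast, ← Real.rpow_mul (Nat.cast_nonneg R)]
    norm_num
  have hfl : (⌊y⌋₊ : ℝ) ≤ y := Nat.floor_le hy0
  have hfu : y < (⌊y⌋₊ : ℝ) + 1 := Nat.lt_floor_add_one y
  refine ⟨⌊y⌋₊, ?_, ?_, ?_, ?_⟩
  · exact Nat.le_floor (by push_cast; linarith)
  · have h3 : (⌊y⌋₊ : ℝ) ^ 1400 ≤ y ^ 1400 := pow_le_pow_left₀ (Nat.cast_nonneg _) hfl _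
    have h4 := hpow 1
    rw [mul_one, pow_one] at h4
    rw [h4] at h3
    exact_mod_cast h3
  · have h5 := hpow 100
    rw [← h5]
    refine h1.trans (Real.exp_le_exp.mpr ?_)
    linarith
  · linarith

theorem coinc_bound : ∀ᶠ R : ℕ in atTop,
    ({p : List Bool | ss p ≤ R ∧ ∃ q, Pr R p q}.ncard : ℝ) ≤ (R : ℝ) ^ ((2 : ℝ) - 1 / 1500) := by
  have h0 : ∀ᶠ y : ℝ in atTop, ‖Real.log y‖ ≤ 1 / 100 * ‖y ^ ((1 : ℝ) / 42000)‖ :=
    (isLittleO_log_rpow_atTop (by norm_num : (0 : ℝ) < 1 / 42000)).def (by norm_num)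
  filter_upwards [par_exists, tendsto_natCast_atTop_atTop.eventually h0,
    eventually_ge_atTop 1] with R h1 h2 h3
  obtain ⟨X, hX, hXR, hexp, hXy⟩ := h1
  have key := par_bound hX hXR hexp
  have hR0 : (0 : ℝ) < (R : ℝ) := by exact_mod_cast (by omega : 0 < R)
  have hR1 : (1 : ℝ) ≤ (R : ℝ) := by exact_mod_cast h3
  have hl0 : 0 ≤ Real.log R := Real.log_nonneg hR1
  rw [Real.norm_of_nonneg hl0, Real.norm_of_nonneg (Real.rpow_nonneg hR0.le _)] at h2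
  obtain ⟨u, hu⟩ : ∃ u : ℝ, u = (R : ℝ) ^ ((1 : ℝ) / 42000) := ⟨_, rfl⟩
  obtain ⟨y, hy⟩ : ∃ y : ℝ, y = (R : ℝ) ^ ((1 : ℝ) / 1400) := ⟨_, rfl⟩
  obtain ⟨z, hz⟩ : ∃ z : ℝ, z = (R : ℝ) ^ ((2 : ℝ) - 1 / 1500) := ⟨_, rfl⟩
  rw [← hu] at h2
  rw [← hy] at hXy
  rw [← hz]
  have hu0 : 0 < u := by rw [hu]; exact Real.rpow_pos_of_pos hR0 _
  have hy0 : 0 < y := by rw [hy]; exact Real.rpow_pos_of_pos hR0 _
  have hz0 : 0 < z := by rw [hz]; exact Real.rpow_pos_of_pos hR0 _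
  have hX0 : (0 : ℝ) < (X : ℝ) := by linarith
  have huz : u ^ 2 * (R : ℝ) ^ 2 = z * y := by
    rw [hu, hy, hz, ← Real.rpow_natCast, ← Real.rpow_natCast, ← Real.rpow_mul hR0.le,
      ← Real.rpow_add hR0, ← Real.rpow_add hR0]
    congr 1
    norm_num
  refine key.trans ?_
  rw [div_le_iff₀ hX0]
  have h4 : Real.log R ^ 2 ≤ (1 / 100 * u) ^ 2 := pow_le_pow_left₀ hl0 h2 2
  have h5 : 4000 * Real.log R ^ 2 * (R : ℝ) ^ 2 ≤ 4000 * (1 / 100 * u) ^ 2 * (R : ℝ) ^ 2 :=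
    mul_le_mul_of_nonneg_right (by linarith) (sq_nonneg _)
  have h6 : 4000 * (1 / 100 * u) ^ 2 * (R : ℝ) ^ 2 = 2 / 5 * (z * y) := by
    rw [← huz]
    ring
  have h7 : z * (y / 2) ≤ z * X := mul_le_mul_of_nonneg_left hXy hz0.le
  have h8 : 0 < z * y := mul_pos hz0 hy0
  rw [h6] at h5
  linarith

end Pool.Agent.Lib.MP_94ab62_ntU
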