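import Pool.Agent.Lib.MP_94ab62_ntU.Func
import Pool.Agent.Lib.MP_94ab62_ntU.Latt

/-!
# RANK: coincidences between two cones are governed by one linear map

* `rank_alg`: if not all `x.1` are equal take `x, y ∈ S` with `x.1 ≠ y.1`; then `x.2 ≠ y.2` (`hwv`), so `Dw = det x.2 y.2 ≠ 0`,
  `Dv = det x.1 y.1 ≠ 0` (`hv`, `hw`).  For `z ∈ S`, `h3 x y z`: `Dw • z.1 = det z.2 y.2 • x.1 + det x.2 z.2 • y.1`, linear in
  `z.2`: this is `D' = Dw`, `M'`.  Taking `det · y.1` and `det x.1 ·` of it: `Dw * det z.1 y.1 = det z.2 y.2 * Dv`,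
  `Dw * det x.1 z.1 = det x.2 z.2 * Dv`.  `ind_decomp`: `Dw • z.2 = det z.2 y.2 • x.2 + det x.2 z.2 • y.2`; multiply by `Dv`, cancel
  `Dw`: `Dv • z.2 = det z.1 y.1 • x.2 + det x.1 z.1 • y.2`, linear in `z.1`: `D = Dv`, `M`.
* `nd_inj`: `ll p = ll p'` (`ll p = F (zz p)` by definition), `|ll p - LL P (uu p)| ≤ 3 ww P ss p ≤ 24 R e^(-K)` (`ll_app`, `ww_le`), same for
  `p'`, so `|LL P (uu p - uu p')| ≤ 48 R e^(-K) ≤ 144 R³ e^(-K)`, and `nm (uu p - uu p') ≤ 2R ≤ 3R³`: `ND` gives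
  `uu p = uu p'`, `uu_inj`.
* `rank_main`: apply `rank_alg` to `S = {(uu p, uu q)}`.  `hv`, `hw`: `par_eq`.  `hwv`: `uu q = uu q'` gives `q = q'`, so
  `zz p = zz q = zz q' = zz p'`, `nd_inj`.  `h3`: for three pairs `(v_i, w_i)`, let `D1 = det w2 w3`, `D2 = det w3 w1`, `D3 = det w1 w2`,
  `|D_i| ≤ R²`, and `∑ D_i • w_i = 0` (`three_rel`).  `|LL P v_i - LL H w_i| ≤ |ll p_i - LL P v_i| + |ll q_i - LL H w_i| ≤ 48 R e^(-K)`.
  So `k = ∑ D_i • v_i` has `|LL P k| = |∑ D_i (LL P v_i - LL H w_i)| ≤ 144 R³ e^(-K)` and `nm k ≤ 3 R³`: `k = 0` by `ND`.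
* `hi_main`: `rank_main`, `dense_int`.
-/

set_option autoImplicit false

namespace Pool.Agent.Lib.MP_94ab62_ntU

open Pool.Agent.Lib.MP_94ab62_nt

theorem rank_alg {S : Set ((ℤ × ℤ) × (ℤ × ℤ))}
    (h3 : ∀ x ∈ S, ∀ y ∈ S, ∀ z ∈ S,
      det y.2 z.2 • x.1 + det z.2 x.2 • y.1 + det x.2 y.2 • z.1 = 0)
    (hv : ∀ x ∈ S, ∀ y ∈ S, det x.1 y.1 = 0 → x.1 = y.1)
    (hw : ∀ x ∈ S, ∀ y ∈ S, det x.2 y.2 = 0 → x.2 = y.2)
    (hwv : ∀ x ∈ S, ∀ y ∈ S, x.2 = y.2 → x.1 = y.1) :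
    (∀ x ∈ S, ∀ y ∈ S, x.1 = y.1) ∨
    ∃ D D' : ℤ, D ≠ 0 ∧ D' ≠ 0 ∧ ∃ M M' : Mt, ∀ x ∈ S, D • x.2 = ap M x.1 ∧ D' • x.1 = ap M' x.2 := by
  by_cases hall : ∀ x ∈ S, ∀ y ∈ S, x.1 = y.1
  · exact Or.inl hall
  right
  push Not at hall
  obtain ⟨x, hx, y, hy, hxy⟩ := hall
  have hxy2 : x.2 ≠ y.2 := fun h => hxy (hwv x hx y hy h)
  have hDv : det x.1 y.1 ≠ 0 := fun h => hxy (hv x hx y hy h)
  have hDw : det x.2 y.2 ≠ 0 := fun h => hxy2 (hw x hx y hy h)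
  have hz3 : ∀ z ∈ S, det y.2 z.2 • x.1 + det z.2 x.2 • y.1 + det x.2 y.2 • z.1 = 0 :=
    fun z hz => h3 x hx y hy z hz
  clear hxy hxy2 hx hy h3 hv hw hwv
  obtain ⟨⟨a1, a2⟩, ⟨b1, b2⟩⟩ := x
  obtain ⟨⟨c1, c2⟩, ⟨d1, d2⟩⟩ := y
  simp only [det] at hDv hDw hz3
  refine ⟨a1 * c2 - a2 * c1, b1 * d2 - b2 * d1, hDv, hDw,
    ((c2 * b1 - a2 * d1, a1 * d1 - c1 * b1), (c2 * b2 - a2 * d2, a1 * d2 - c1 * b2)),
    ((d2 * a1 - b2 * c1, b1 * c1 - d1 * a1), (d2 * a2 - b2 * c2, b1 * c2 - d1 * a2)), ?_⟩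
  intro z hz
  have h := hz3 z hz
  obtain ⟨⟨e1, e2⟩, ⟨f1, f2⟩⟩ := z
  have h1 := congrArg Prod.fst h
  have h2 := congrArg Prod.snd h
  simp only [Prod.fst_add, Prod.snd_add, Prod.smul_fst, Prod.smul_snd, smul_eq_mul, Prod.fst_zero,
    Prod.snd_zero] at h1 h2
  constructor
  · refine Prod.ext ?_ ?_
    · simp only [ap, Prod.smul_fst, smul_eq_mul]
      refine mul_left_cancel₀ hDw ?_
      linear_combination (-(c2 * b1 - a2 * d1)) * h1 + (-(a1 * d1 - c1 * b1)) * h2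
    · simp only [ap, Prod.smul_snd, smul_eq_mul]
      refine mul_left_cancel₀ hDw ?_
      linear_combination (-(c2 * b2 - a2 * d2)) * h1 + (-(a1 * d2 - c1 * b2)) * h2
  · refine Prod.ext ?_ ?_
    · simp only [ap, Prod.smul_fst, smul_eq_mul]
      linear_combination h1
    · simp only [ap, Prod.smul_snd, smul_eq_mul]
      linear_combination h2

theorem rank_app {R K : ℕ} {P p : List Bool} (hK : K ≤ ss P) (h1 : P <:+ p) (hs1 : ss p ≤ R) :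
    |ll p - LL P (uu p)| ≤ 24 * (R * Real.exp (-(K : ℝ))) := by
  have h2 := ll_app h1
  have h3 := ww_le P
  have h4 : Real.exp (-(ss P : ℝ)) ≤ Real.exp (-(K : ℝ)) := by
    apply Real.exp_le_exp.2
    have : (K : ℝ) ≤ ss P := by exact_mod_cast hK
    linarith
  have h5 : (ss p : ℝ) ≤ R := by exact_mod_cast hs1
  have h6 : ww P ≤ 8 * Real.exp (-(K : ℝ)) := h3.trans (by linarith)
  have h7 : ww P * ss p ≤ (8 * Real.exp (-(K : ℝ))) * R :=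
    mul_le_mul h6 h5 (Nat.cast_nonneg _) (by positivity)
  calc |ll p - LL P (uu p)| ≤ 3 * ww P * ss p := h2
    _ = 3 * (ww P * ss p) := by ring
    _ ≤ 3 * ((8 * Real.exp (-(K : ℝ))) * R) := by linarith
    _ = 24 * (R * Real.exp (-(K : ℝ))) := by ring

theorem nd_inj {R K : ℕ} (hR : 1 ≤ R) {P p p' : List Bool}
    (hN : ND (3 * (R : ℝ) ^ 3) (144 * (R : ℝ) ^ 3 * Real.exp (-(K : ℝ))) P) (hK : K ≤ ss P)
    (h1 : P <:+ p) (h2 : P <:+ p') (hz : zz p = zz p') (hs1 : ss p ≤ R) (hs2 : ss p' ≤ R) : p = p' := by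
  by_contra hne
  have hk : uu p - uu p' ≠ 0 := fun h => hne (uu_inj (sub_eq_zero.1 h))
  have hR' : (1 : ℝ) ≤ R := by exact_mod_cast hR
  have hR3 : (R : ℝ) ≤ (R : ℝ) ^ 3 := by
    have := pow_le_pow_right₀ hR' (show 1 ≤ 3 by norm_num)
    rwa [pow_one] at this
  have hn : nm (uu p - uu p') ≤ 3 * (R : ℝ) ^ 3 := by
    have h1' : (ss p : ℝ) ≤ R := by exact_mod_cast hs1
    have h2' : (ss p' : ℝ) ≤ R := by exact_mod_cast hs2
    have h3 := nm_sub (uu p) (uu p')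
    rw [nm_uu, nm_uu] at h3
    linarith
  have hlt := hN _ hk hn
  have a1 := rank_app hK h1 hs1
  have a2 := rank_app hK h2 hs2
  have hll : ll p = ll p' := by
    show F (zz p) = F (zz p')
    rw [hz]
  rw [LL_sub] at hlt
  have h4 : |LL P (uu p) - LL P (uu p')| ≤ 24 * (R * Real.exp (-(K : ℝ))) +
      24 * (R * Real.exp (-(K : ℝ))) := by
    have e : LL P (uu p) - LL P (uu p') = (ll p' - LL P (uu p')) - (ll p - LL P (uu p)) := by
      rw [hll]; ring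
    rw [e]
    refine (abs_sub _ _).trans ?_
    linarith
  have h5 : (R : ℝ) * Real.exp (-(K : ℝ)) ≤ (R : ℝ) ^ 3 * Real.exp (-(K : ℝ)) :=
    mul_le_mul_of_nonneg_right hR3 (Real.exp_pos _).le
  have h6 : 0 ≤ (R : ℝ) * Real.exp (-(K : ℝ)) := by positivity
  have h7 : 144 * (R : ℝ) ^ 3 * Real.exp (-(K : ℝ)) = 144 * ((R : ℝ) ^ 3 * Real.exp (-(K : ℝ))) := by
    ring
  rw [h7] at hlt
  linarith

theorem rank_two {R K : ℕ} {P H p q : List Bool} (hK : K ≤ ss P) (hK' : K ≤ ss H) (h : Pr R p q)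
    (h1 : P <:+ p) (h2 : H <:+ q) :
    |LL P (uu p) - LL H (uu q)| ≤ 48 * (R * Real.exp (-(K : ℝ))) := by
  have a1 := rank_app hK h1 h.2.2.1
  have a2 := rank_app hK' h2 h.2.2.2
  have hll : ll p = ll q := by
    show F (zz p) = F (zz q)
    rw [h.2.1]
  have e : LL P (uu p) - LL H (uu q) = (ll q - LL H (uu q)) - (ll p - LL P (uu p)) := by
    rw [hll]; ring
  rw [e]
  refine (abs_sub _ _).trans ?_
  linarith

theorem rank_det {R : ℕ} {q q' : List Bool} (h : ss q ≤ R) (h' : ss q' ≤ R) :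
    |(det (uu q) (uu q') : ℝ)| ≤ (R : ℝ) ^ 2 := by
  refine (det_le _ _).trans ?_
  rw [nm_uu, nm_uu, sq]
  have h1 : (ss q : ℝ) ≤ R := by exact_mod_cast h
  have h2 : (ss q' : ℝ) ≤ R := by exact_mod_cast h'
  exact mul_le_mul h1 h2 (Nat.cast_nonneg _) (Nat.cast_nonneg _)

theorem rank_box {R : ℕ} {p : List Bool} (h : ss p ≤ R) :
    0 ≤ (uu p).1 ∧ (uu p).1 ≤ R ∧ 0 ≤ (uu p).2 ∧ (uu p).2 ≤ R := by
  have h1 := uu_pos p
  have h2 := ss_eq p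
  have h3 : (ss p : ℤ) ≤ R := by exact_mod_cast h
  refine ⟨?_, ?_, ?_, ?_⟩ <;> linarith [h1.1, h1.2]

theorem rank_main {R K : ℕ} (hR : 1 ≤ R) {P H : List Bool}
    (hN : ND (3 * (R : ℝ) ^ 3) (144 * (R : ℝ) ^ 3 * Real.exp (-(K : ℝ))) P) (hK : K ≤ ss P)
    (hK' : K ≤ ss H) :
    (∀ p q p' q', Pr R p q → P <:+ p → H <:+ q → Pr R p' q' → P <:+ p' → H <:+ q' → p = p') ∨
    ∃ D D' : ℤ, D ≠ 0 ∧ D' ≠ 0 ∧ ∃ M M' : Mt, ∀ p q, Pr R p q → P <:+ p → H <:+ q →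
      D • uu q = ap M (uu p) ∧ D' • uu p = ap M' (uu q) := by
  obtain ⟨S, hS⟩ : ∃ S : Set ((ℤ × ℤ) × (ℤ × ℤ)), S =
    {x | ∃ p q, Pr R p q ∧ P <:+ p ∧ H <:+ q ∧ x = (uu p, uu q)} := ⟨_, rfl⟩
  have hR' : (1 : ℝ) ≤ R := by exact_mod_cast hR
  have hR0 : (0 : ℝ) ≤ R := by linarith
  have hE : 0 < Real.exp (-(K : ℝ)) := Real.exp_pos _
  have key := rank_alg (S := S) ?_ ?_ ?_ ?_
  · rcases key with key | ⟨D, D', hD, hD', M, M', h⟩
    · left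
      intro p q p' q' h1 h2 h3 h4 h5 h6
      have := key (uu p, uu q) (by rw [hS]; exact ⟨p, q, h1, h2, h3, rfl⟩) (uu p', uu q')
        (by rw [hS]; exact ⟨p', q', h4, h5, h6, rfl⟩)
      exact uu_inj this
    · right
      refine ⟨D, D', hD, hD', M, M', ?_⟩
      intro p q h1 h2 h3
      exact h (uu p, uu q) (by rw [hS]; exact ⟨p, q, h1, h2, h3, rfl⟩)
  · rintro x hx y hy z hz
    rw [hS] at hx hy hz
    obtain ⟨p1, q1, hp1, s1, r1, rfl⟩ := hx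
    obtain ⟨p2, q2, hp2, s2, r2, rfl⟩ := hy
    obtain ⟨p3, q3, hp3, s3, r3, rfl⟩ := hz
    by_contra hne
    simp only at hne
    have b1 := rank_two hK hK' hp1 s1 r1
    have b2 := rank_two hK hK' hp2 s2 r2
    have b3 := rank_two hK hK' hp3 s3 r3
    have d1 := rank_det hp2.2.2.2 hp3.2.2.2
    have d2 := rank_det hp3.2.2.2 hp1.2.2.2
    have d3 := rank_det hp1.2.2.2 hp2.2.2.2
    have n1 : nm (uu p1) ≤ R := by rw [nm_uu]; exact_mod_cast hp1.2.2.1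
    have n2 : nm (uu p2) ≤ R := by rw [nm_uu]; exact_mod_cast hp2.2.2.1
    have n3 : nm (uu p3) ≤ R := by rw [nm_uu]; exact_mod_cast hp3.2.2.1
    have hz := three_rel (uu q1) (uu q2) (uu q3)
    have hH : LL H (det (uu q2) (uu q3) • uu q1 + det (uu q3) (uu q1) • uu q2 +
        det (uu q1) (uu q2) • uu q3) = 0 := by
      rw [hz]
      have := LL_smul H 0 (0 : ℤ × ℤ)
      rw [zero_smul] at this
      rw [this]
      simp
    rw [LL_add, LL_add, LL_smul, LL_smul, LL_smul] at hH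
    generalize det (uu q2) (uu q3) = D1 at *
    generalize det (uu q3) (uu q1) = D2 at *
    generalize det (uu q1) (uu q2) = D3 at *
    have hn : nm (D1 • uu p1 + D2 • uu p2 + D3 • uu p3) ≤ 3 * (R : ℝ) ^ 3 := by
      have t1 := nm_add (D1 • uu p1 + D2 • uu p2) (D3 • uu p3)
      have t2 := nm_add (D1 • uu p1) (D2 • uu p2)
      rw [nm_smul] at t1 t2
      rw [nm_smul] at t2
      have u1 : |(D1 : ℝ)| * nm (uu p1) ≤ (R : ℝ) ^ 2 * R := mul_le_mul d1 n1 (nm_nonneg _) (by positivity)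
      have u2 : |(D2 : ℝ)| * nm (uu p2) ≤ (R : ℝ) ^ 2 * R := mul_le_mul d2 n2 (nm_nonneg _) (by positivity)
      have u3 : |(D3 : ℝ)| * nm (uu p3) ≤ (R : ℝ) ^ 2 * R := mul_le_mul d3 n3 (nm_nonneg _) (by positivity)
      have e : 3 * (R : ℝ) ^ 3 = (R : ℝ) ^ 2 * R + (R : ℝ) ^ 2 * R + (R : ℝ) ^ 2 * R := by ring
      rw [e]
      linarith
    have hlt := hN _ hne hn
    rw [LL_add, LL_add, LL_smul, LL_smul, LL_smul] at hlt
    have e : (D1 : ℝ) * LL P (uu p1) + D2 * LL P (uu p2) + D3 * LL P (uu p3) =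
        D1 * (LL P (uu p1) - LL H (uu q1)) + D2 * (LL P (uu p2) - LL H (uu q2)) +
        D3 * (LL P (uu p3) - LL H (uu q3)) := by
      linear_combination hH
    rw [e] at hlt
    have w1 : |(D1 : ℝ) * (LL P (uu p1) - LL H (uu q1))| ≤
        (R : ℝ) ^ 2 * (48 * (R * Real.exp (-(K : ℝ)))) := by
      rw [abs_mul]
      exact mul_le_mul d1 b1 (abs_nonneg _) (by positivity)
    have w2 : |(D2 : ℝ) * (LL P (uu p2) - LL H (uu q2))| ≤
        (R : ℝ) ^ 2 * (48 * (R * Real.exp (-(K : ℝ)))) := by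
      rw [abs_mul]
      exact mul_le_mul d2 b2 (abs_nonneg _) (by positivity)
    have w3 : |(D3 : ℝ) * (LL P (uu p3) - LL H (uu q3))| ≤
        (R : ℝ) ^ 2 * (48 * (R * Real.exp (-(K : ℝ)))) := by
      rw [abs_mul]
      exact mul_le_mul d3 b3 (abs_nonneg _) (by positivity)
    have v1 := abs_add_le ((D1 : ℝ) * (LL P (uu p1) - LL H (uu q1)) +
      D2 * (LL P (uu p2) - LL H (uu q2))) (D3 * (LL P (uu p3) - LL H (uu q3)))
    have v2 := abs_add_le ((D1 : ℝ) * (LL P (uu p1) - LL H (uu q1)))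
      (D2 * (LL P (uu p2) - LL H (uu q2)))
    have v3 : 144 * (R : ℝ) ^ 3 * Real.exp (-(K : ℝ)) =
      (R : ℝ) ^ 2 * (48 * (R * Real.exp (-(K : ℝ)))) + (R : ℝ) ^ 2 * (48 * (R * Real.exp (-(K : ℝ)))) +
      (R : ℝ) ^ 2 * (48 * (R * Real.exp (-(K : ℝ)))) := by ring
    rw [v3] at hlt
    linarith
  · rintro x hx y hy h
    rw [hS] at hx hy
    obtain ⟨p1, q1, hp1, s1, r1, rfl⟩ := hx
    obtain ⟨p2, q2, hp2, s2, r2, rfl⟩ := hy
    simp only at h ⊢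
    rw [par_eq h]
  · rintro x hx y hy h
    rw [hS] at hx hy
    obtain ⟨p1, q1, hp1, s1, r1, rfl⟩ := hx
    obtain ⟨p2, q2, hp2, s2, r2, rfl⟩ := hy
    simp only at h ⊢
    rw [par_eq h]
  · rintro x hx y hy h
    rw [hS] at hx hy
    obtain ⟨p1, q1, hp1, s1, r1, rfl⟩ := hx
    obtain ⟨p2, q2, hp2, s2, r2, rfl⟩ := hy
    simp only at h ⊢
    have hq := uu_inj h
    have hzz : zz p1 = zz p2 := by rw [hp1.2.1, hp2.2.1, hq]
    rw [nd_inj hR hN hK s1 s2 hzz hp1.2.2.1 hp2.2.2.1]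

theorem hi_main {R K Q : ℕ} (hQ : 1 ≤ Q) (hR : 4 * Q ≤ R) {P H : List Bool}
    (hN : ND (3 * (R : ℝ) ^ 3) (144 * (R : ℝ) ^ 3 * Real.exp (-(K : ℝ))) P) (hK : K ≤ ss P)
    (hK' : K ≤ ss H) :
    {p | ∃ q, Pr R p q ∧ P <:+ p ∧ H <:+ q}.ncard ≤ 1 ∨
    Q * {p | ∃ q, Pr R p q ∧ P <:+ p ∧ H <:+ q}.ncard < R ^ 2 ∨
    ∃ I I' : ℕ, 1 ≤ I ∧ I ≤ 4 * Q ∧ 1 ≤ I' ∧ I' ≤ 4 * Q ∧ ∃ M M' : Mt,
      ∀ p q, Pr R p q → P <:+ p → H <:+ q →
        (I : ℤ) • uu q = ap M (uu p) ∧ (I' : ℤ) • uu p = ap M' (uu q) := by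
  have hR1 : 1 ≤ R := by omega
  rcases rank_main hR1 hN hK hK' with h | ⟨D, D', hD, hD', M0, M0', h⟩
  · left
    have hsub : ({p | ∃ q, Pr R p q ∧ P <:+ p ∧ H <:+ q} : Set (List Bool)).Subsingleton := by
      rintro p ⟨q, h1, h2, h3⟩ p' ⟨q', h4, h5, h6⟩
      exact h p q p' q' h1 h2 h3 h4 h5 h6
    exact (Set.ncard_le_one hsub.finite).2 fun a ha b hb => hsub ha hb
  · by_cases hlt : Q * {p | ∃ q, Pr R p q ∧ P <:+ p ∧ H <:+ q}.ncard < R ^ 2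
    · exact Or.inr (Or.inl hlt)
    · right; right
      have hle := not_lt.1 hlt
      obtain ⟨S, hS⟩ : ∃ S : Set ((ℤ × ℤ) × (ℤ × ℤ)), S =
        {x | ∃ p q, Pr R p q ∧ P <:+ p ∧ H <:+ q ∧ x = (uu p, uu q)} := ⟨_, rfl⟩
      have himg : Prod.fst '' S = uu '' {p | ∃ q, Pr R p q ∧ P <:+ p ∧ H <:+ q} := by
        ext v
        constructor
        · rintro ⟨x, hx, rfl⟩
          rw [hS] at hx
          obtain ⟨p, q, h1, h2, h3, rfl⟩ := hx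
          exact ⟨p, ⟨q, h1, h2, h3⟩, rfl⟩
        · rintro ⟨p, ⟨q, h1, h2, h3⟩, rfl⟩
          exact ⟨(uu p, uu q), by rw [hS]; exact ⟨p, q, h1, h2, h3, rfl⟩, rfl⟩
      have hc : R ^ 2 ≤ Q * (Prod.fst '' S).ncard := by
        rw [himg, Set.ncard_image_of_injective _ (fun p q hpq => uu_inj hpq)]
        exact hle
      obtain ⟨I, I', i1, i2, i3, i4, M, M', hM⟩ := dense_int hQ hR (S := S) hD hD' (M0 := M0)
        (M0' := M0')
        (by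
          intro x hx
          rw [hS] at hx
          obtain ⟨p, q, h1, h2, h3, rfl⟩ := hx
          exact (h p q h1 h2 h3).1)
        (by
          intro x hx
          rw [hS] at hx
          obtain ⟨p, q, h1, h2, h3, rfl⟩ := hx
          exact (h p q h1 h2 h3).2)
        (by
          intro x hx
          rw [hS] at hx
          obtain ⟨p, q, h1, h2, h3, rfl⟩ := hx
          exact rank_box h1.2.2.1)
        (by
          intro x hx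
          rw [hS] at hx
          obtain ⟨p, q, h1, h2, h3, rfl⟩ := hx
          exact rank_box h1.2.2.2) hc
      refine ⟨I, I', i1, i2, i3, i4, M, M', ?_⟩
      intro p q h1 h2 h3
      exact hM (uu p, uu q) (by rw [hS]; exact ⟨p, q, h1, h2, h3, rfl⟩)

end Pool.Agent.Lib.MP_94ab62_ntU
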