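import Pool.Agent.Lib.MP_94ab62_ntU.Mult
import Pool.Agent.Lib.MP_94ab62_nt.Fin

/-!
# SHORT: Markoff numbers in short intervals

* `short_diff`: `count_asymp`: `M(N) = C log²(3N) + o(log N)`; for `N' = ⌊t N⌋₊`, `t > 1`:
  `log²(3N') - log²(3N) = (log N' - log N)(log (3N') + log (3N)) ≥ (log t - o(1)) * 2 log N`, so
  `M(N') - M(N) ≥ C log t log N` for `N` large.
* `short_mult`: `M(N') - M(N) ≤ (numberCount N' - numberCount N) * max mult`: every triple counted in `M(N')` and not in `M(N)` has its largest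
  entry `m ∈ (N, N']` (a Markoff number), and there are at most `B` triples for each `m` if `B` bounds the number of pairs.
* `short_main`: `B = C' (log log N')² ≤ 4 C' (log log N)²` for `N` large (`mult_pairs`; `m ≤ N'`, `log log` monotone).
-/

set_option autoImplicit false

namespace Pool.Agent.Lib.MP_94ab62_ntU

open Pool.Agent.Lib.MP_94ab62_nt Filter Topology

private theorem short_floor {t : ℝ} (ht : 1 < t) : Tendsto (fun N : ℕ => ⌊t * (N : ℝ)⌋₊) atTop atTop :=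
  tendsto_nat_floor_atTop.comp (tendsto_natCast_atTop_atTop.const_mul_atTop (by linarith))

theorem short_diff {t : ℝ} (ht : 1 < t) : ∃ c : ℝ, 0 < c ∧ ∀ᶠ N : ℕ in atTop,
    c * Real.log N ≤ (tripleCount ⌊t * N⌋₊ : ℝ) - tripleCount N := by
  obtain ⟨C, hC, hlim⟩ := count_asymp
  have hδ : 0 < Real.log ((1 + t) / 2) := Real.log_pos (by linarith)
  obtain ⟨δ, hδe⟩ : ∃ δ : ℝ, δ = Real.log ((1 + t) / 2) := ⟨_, rfl⟩
  rw [← hδe] at hδ
  have hε : 0 < C * δ / 3 := by positivity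
  have hE : ∀ᶠ N : ℕ in atTop, |(tripleCount N : ℝ) - C * (Real.log (3 * N)) ^ 2| ≤
      C * δ / 3 * Real.log N := by
    have h1 := (Metric.tendsto_nhds.1 hlim) _ hε
    filter_upwards [h1, eventually_ge_atTop 2] with N hN h2
    have hlog : 0 < Real.log N := Real.log_pos (by exact_mod_cast h2)
    rw [Real.dist_eq, sub_zero, abs_div, abs_of_pos hlog, div_lt_iff₀ hlog] at hN
    exact hN.le
  have hE' := (short_floor ht).eventually hE
  refine ⟨C * δ, by positivity, ?_⟩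
  obtain ⟨M, hM⟩ := exists_nat_ge (2 / (t - 1))
  obtain ⟨M', hM'⟩ := exists_nat_ge t
  filter_upwards [hE, hE', eventually_ge_atTop M, eventually_ge_atTop M', eventually_ge_atTop 2]
    with N h1 h2 h3 h4 h5
  obtain ⟨N', hN'⟩ : ∃ N' : ℕ, N' = ⌊t * (N : ℝ)⌋₊ := ⟨_, rfl⟩
  rw [← hN'] at h2 ⊢
  have hN2 : (2 : ℝ) ≤ N := by exact_mod_cast h5
  have hN0 : (0 : ℝ) < N := by linarith
  have hNt : t ≤ N := hM'.trans (by exact_mod_cast h4)
  have hNM : 2 / (t - 1) ≤ N := hM.trans (by exact_mod_cast h3)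
  rw [div_le_iff₀ (by linarith)] at hNM
  have hle : (N' : ℝ) ≤ t * N := by
    rw [hN']
    exact Nat.floor_le (by positivity)
  have hge : t * N < N' + 1 := by
    rw [hN']
    exact Nat.lt_floor_add_one _
  have hge2 : (1 + t) / 2 * N ≤ N' := by nlinarith
  have hN'0 : (0 : ℝ) < N' := lt_of_lt_of_le (by positivity) hge2
  have hNN' : (N : ℝ) ≤ N' := by nlinarith
  have hl1 : δ + Real.log N ≤ Real.log N' := by
    rw [hδe, ← Real.log_mul (by positivity) hN0.ne']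
    exact Real.log_le_log (by positivity) hge2
  have hl2 : Real.log N' ≤ 2 * Real.log N := by
    have e1 : (N' : ℝ) ≤ N ^ 2 := by nlinarith
    have e2 := Real.log_le_log hN'0 e1
    rw [Real.log_pow] at e2
    exact_mod_cast e2
  have hl3 : 0 < Real.log N := Real.log_pos (by linarith)
  have hl4 : 0 < Real.log 3 := Real.log_pos (by norm_num)
  have e3 : Real.log (3 * N) = Real.log 3 + Real.log N := Real.log_mul (by norm_num) hN0.ne'
  have e4 : Real.log (3 * N') = Real.log 3 + Real.log N' := Real.log_mul (by norm_num) hN'0.ne'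
  rw [e3, abs_le] at h1
  rw [e4, abs_le] at h2
  have h6 : C * δ / 3 * Real.log N' ≤ C * δ / 3 * (2 * Real.log N) :=
    mul_le_mul_of_nonneg_left hl2 hε.le
  have h7 : δ * (2 * Real.log N) ≤ (Real.log 3 + Real.log N') ^ 2 - (Real.log 3 + Real.log N) ^ 2 := by
    have e5 : (Real.log 3 + Real.log N') ^ 2 - (Real.log 3 + Real.log N) ^ 2 =
        (Real.log N' - Real.log N) * (2 * Real.log 3 + Real.log N' + Real.log N) := by ring
    rw [e5]
    exact mul_le_mul (by linarith) (by linarith) (by positivity) (by linarith)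
  have h8 := mul_le_mul_of_nonneg_left h7 hC.le
  nlinarith

private theorem short_fin (m : ℕ) : {q : ℕ × ℕ | 0 < q.1 ∧ q.1 ≤ q.2 ∧ q.2 ≤ m ∧
    q.1 ^ 2 + q.2 ^ 2 + m ^ 2 = 3 * q.1 * q.2 * m}.Finite := by
  refine (((Finset.Icc 0 m) ×ˢ (Finset.Icc 0 m)).finite_toSet).subset ?_
  rintro ⟨x, y⟩ ⟨h1, h2, h3, h4⟩
  simp only [Finset.coe_product, Finset.coe_Icc, Set.mem_prod, Set.mem_Icc] at *
  omega

theorem short_mult {N N' : ℕ} (h : N ≤ N') {B : ℝ} (hB0 : 0 ≤ B)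
    (hB : ∀ m : ℕ, N < m → m ≤ N' →
      (({q : ℕ × ℕ | 0 < q.1 ∧ q.1 ≤ q.2 ∧ q.2 ≤ m ∧ q.1 ^ 2 + q.2 ^ 2 + m ^ 2 = 3 * q.1 * q.2 * m}.ncard : ℕ) : ℝ) ≤ B) :
    (tripleCount N' : ℝ) - tripleCount N ≤ ((numberCount N' : ℝ) - numberCount N) * B := by
  classical
  obtain ⟨T, hT⟩ : ∃ T : ℕ → Finset (ℕ × ℕ × ℕ), ∀ k, T k =
      (Finset.Icc 1 k ×ˢ Finset.Icc 1 k ×ˢ Finset.Icc 1 k).filter
        (fun p : ℕ × ℕ × ℕ => p.1 ≤ p.2.1 ∧ p.2.1 ≤ p.2.2 ∧
          p.1 ^ 2 + p.2.1 ^ 2 + p.2.2 ^ 2 = 3 * p.1 * p.2.1 * p.2.2) := ⟨_, fun _ => rfl⟩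
  obtain ⟨S, hS⟩ : ∃ S : ℕ → Finset ℕ, ∀ k, S k = (Finset.Icc 1 k).filter IsMarkoff := ⟨_, fun _ => rfl⟩
  have hTm : ∀ k p, p ∈ T k ↔ (0 < p.1 ∧ p.1 ≤ p.2.1 ∧ p.2.1 ≤ p.2.2 ∧ p.2.2 ≤ k ∧
      p.1 ^ 2 + p.2.1 ^ 2 + p.2.2 ^ 2 = 3 * p.1 * p.2.1 * p.2.2) := by
    intro k p
    rw [hT]
    simp only [Finset.mem_filter, Finset.mem_product, Finset.mem_Icc]
    constructor
    · rintro ⟨⟨⟨h1, h2⟩, ⟨h3, h4⟩, h5, h6⟩, h7, h8, h9⟩
      exact ⟨by omega, h7, h8, h6, h9⟩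
    · rintro ⟨h1, h2, h3, h4, h5⟩
      exact ⟨⟨⟨by omega, by omega⟩, ⟨by omega, by omega⟩, by omega, by omega⟩, h2, h3, h5⟩
  have hSm : ∀ k m, m ∈ S k ↔ (1 ≤ m ∧ m ≤ k ∧ IsMarkoff m) := by
    intro k m
    rw [hS, Finset.mem_filter, Finset.mem_Icc, and_assoc]
  have hTc : ∀ k, (tripleCount k : ℝ) = ((T k).card : ℝ) := by
    intro k
    rw [hT]
    rfl
  have hSc : ∀ k, (numberCount k : ℝ) = ((S k).card : ℝ) := by
    intro k
    rw [hS]
    unfold numberCount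
    congr 2
  have hTs : T N ⊆ T N' := by
    intro p hp
    rw [hTm] at hp ⊢
    exact ⟨hp.1, hp.2.1, hp.2.2.1, hp.2.2.2.1.trans h, hp.2.2.2.2⟩
  have hSs : S N ⊆ S N' := by
    intro p hp
    rw [hSm] at hp ⊢
    exact ⟨hp.1, hp.2.1.trans h, hp.2.2⟩
  have h1 : (tripleCount N' : ℝ) - tripleCount N = ((T N' \ T N).card : ℝ) := by
    rw [hTc, hTc, Finset.cast_card_sdiff hTs]
  have h2 : (numberCount N' : ℝ) - numberCount N = ((S N' \ S N).card : ℝ) := by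
    rw [hSc, hSc, Finset.cast_card_sdiff hSs]
  rw [h1, h2]
  have hmaps : ∀ p ∈ T N' \ T N, p.2.2 ∈ S N' \ S N := by
    intro p hp
    rw [Finset.mem_sdiff, hTm, hTm] at hp
    obtain ⟨⟨h3, h4, h5, h6, h7⟩, h8⟩ := hp
    rw [Finset.mem_sdiff, hSm, hSm]
    have h9 : ¬ p.2.2 ≤ N := fun h10 => h8 ⟨h3, h4, h5, h10, h7⟩
    exact ⟨⟨by omega, h6, ⟨p.1, p.2.1, h3, by omega, by omega, h7⟩⟩, fun h10 => h9 h10.2.1⟩
  rw [Finset.card_eq_sum_card_fiberwise hmaps]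
  push_cast
  have hfib : ∀ m ∈ S N' \ S N, ((((T N' \ T N).filter (fun p => p.2.2 = m)).card : ℕ) : ℝ) ≤ B := by
    intro m hm
    rw [Finset.mem_sdiff, hSm, hSm] at hm
    obtain ⟨⟨h3, h4, h5⟩, h6⟩ := hm
    have h7 : N < m := by
      by_contra h8
      exact h6 ⟨h3, not_lt.1 h8, h5⟩
    refine le_trans ?_ (hB m h7 h4)
    have h8 : ((T N' \ T N).filter (fun p => p.2.2 = m)).card =
        (((T N' \ T N).filter (fun p => p.2.2 = m)).image (fun p => (p.1, p.2.1))).card := by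
      symm
      apply Finset.card_image_of_injOn
      rintro ⟨a, b, c⟩ hp ⟨a', b', c'⟩ hq he
      rw [Finset.mem_coe, Finset.mem_filter] at hp hq
      have e1 := hp.2
      have e2 := hq.2
      simp only [Prod.mk.injEq] at e1 e2 he ⊢
      exact ⟨he.1, he.2, by rw [e1, e2]⟩
    rw [h8, ← Set.ncard_coe_finset]
    refine Nat.cast_le.2 (Set.ncard_le_ncard ?_ (short_fin m))
    intro q hq
    rw [Finset.mem_coe, Finset.mem_image] at hq
    obtain ⟨p, hp, rfl⟩ := hq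
    rw [Finset.mem_filter, Finset.mem_sdiff, hTm] at hp
    obtain ⟨⟨⟨e1, e2, e3, e4, e5⟩, -⟩, e6⟩ := hp
    rw [e6] at e3 e5
    exact ⟨e1, e2, e3, e5⟩
  refine (Finset.sum_le_sum hfib).trans (le_of_eq ?_)
  rw [Finset.sum_const, nsmul_eq_mul]

theorem short_main {t : ℝ} (ht : 1 < t) : ∃ c : ℝ, 0 < c ∧ ∀ᶠ N : ℕ in atTop,
    c * Real.log N / (Real.log (Real.log N)) ^ 2 ≤ (numberCount ⌊t * N⌋₊ : ℝ) - numberCount N := by
  obtain ⟨c, hc, hdiff⟩ := short_diff ht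
  obtain ⟨C, hC, hpairs⟩ := mult_pairs
  refine ⟨c / (4 * C), by positivity, ?_⟩
  obtain ⟨M', hM'⟩ := exists_nat_ge t
  have hll : Tendsto (fun N : ℕ => Real.log (Real.log N)) atTop atTop :=
    Real.tendsto_log_atTop.comp log_tendsto_nat
  filter_upwards [hdiff, hll.eventually_ge_atTop (Real.log 2), eventually_ge_atTop M',
    eventually_ge_atTop 5] with N h1 h2 h4 h5
  have hN5 : (5 : ℝ) ≤ N := by exact_mod_cast h5
  have hN0 : (0 : ℝ) < N := by linarith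
  have hNt : t ≤ N := hM'.trans (by exact_mod_cast h4)
  obtain ⟨N', hN'⟩ : ∃ N' : ℕ, N' = ⌊t * (N : ℝ)⌋₊ := ⟨_, rfl⟩
  rw [← hN'] at h1 ⊢
  have hle : (N' : ℝ) ≤ t * N := by
    rw [hN']
    exact Nat.floor_le (by positivity)
  have hNN' : N ≤ N' := by
    rw [hN']
    exact Nat.le_floor (by nlinarith)
  have hl3 : 0 < Real.log N := Real.log_pos (by linarith)
  have hlog2 : 0 < Real.log 2 := Real.log_pos (by norm_num)
  have hLL : 0 < Real.log (Real.log N) := lt_of_lt_of_le hlog2 h2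
  have hB : ∀ m : ℕ, N < m → m ≤ N' →
      (({q : ℕ × ℕ | 0 < q.1 ∧ q.1 ≤ q.2 ∧ q.2 ≤ m ∧ q.1 ^ 2 + q.2 ^ 2 + m ^ 2 = 3 * q.1 * q.2 * m}.ncard : ℕ) : ℝ) ≤
        4 * C * (Real.log (Real.log N)) ^ 2 := by
    intro m hm1 hm2
    refine (hpairs m (by omega)).trans ?_
    have e1 : (N : ℝ) < m := by exact_mod_cast hm1
    have e2 : (m : ℝ) ≤ N ^ 2 := by
      have e3 : (m : ℝ) ≤ N' := by exact_mod_cast hm2
      nlinarith
    have e3 : Real.log m ≤ 2 * Real.log N := by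
      have e4 := Real.log_le_log (by linarith) e2
      rw [Real.log_pow] at e4
      exact_mod_cast e4
    have e4 : Real.log N < Real.log m := Real.log_lt_log hN0 e1
    have e5 : Real.log (Real.log m) ≤ 2 * Real.log (Real.log N) := by
      have e6 := Real.log_le_log (hl3.trans e4) e3
      rw [Real.log_mul (by norm_num) hl3.ne'] at e6
      linarith
    have e6 : 0 ≤ Real.log (Real.log m) := hLL.le.trans (Real.log_le_log hl3 e4.le)
    have e7 : (Real.log (Real.log m)) ^ 2 ≤ (2 * Real.log (Real.log N)) ^ 2 :=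
      pow_le_pow_left₀ e6 e5 2
    have e8 := mul_le_mul_of_nonneg_left e7 hC.le
    linarith
  have h6 := short_mult hNN' (by positivity) hB
  have h7 : c * Real.log N ≤ ((numberCount N' : ℝ) - numberCount N) *
      (4 * C * (Real.log (Real.log N)) ^ 2) := h1.trans h6
  rw [div_le_iff₀ (by positivity), div_mul_eq_mul_div, div_le_iff₀ (by positivity)]
  linarith

end Pool.Agent.Lib.MP_94ab62_ntU
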