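import Pool.Agent.Lib.MP_94ab62_ntU.JCount
import Pool.Agent.Lib.MP_94ab62_ntU.Rank
import Pool.Agent.Lib.MP_94ab62_ntU.Bad
import Pool.Agent.Lib.MP_94ab62_ntU.Deg

/-!
# TOTAL: counting all coincidences

`A = 3 R³`, `τ = 144 R³ e^(-K)`, `E = {p | ss p ≤ R ∧ ∃ q, Pr R p q}`.  Every `p ∈ E` is in one of the following sets.
* `E0 = {p | ss p < 2 * K5}`: at most `(2 K5)²` (`ss_lt_card`).
* `E1 = {p | ss p ≤ R ∧ K1 ≤ ss p ∧ ¬ Gd R (cut K1 p)}`: `bad_count`.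
* `E2 = {p | ss p ≤ R ∧ K ≤ ss p ∧ Gd R (cut K1 p) ∧ ¬ ND A τ (cut K p)}`: `deg_count`.
* `E3 = {p | ss p ≤ R ∧ K ≤ ss p ∧ ND A τ (cut K p) ∧ ∃ q, Pr R p q ∧ K0 ≤ ss q ∧ ¬ Gd R (cut K0 q)}` (`total_E3`): choose such a `q` for every
  `p`; the map `p ↦ (cut K p, q)` is injective (`nd_inj`: same leaf `P` and `zz p = zz q = zz q' = zz p'`) with values in
  `LF K × {q | ss q ≤ R ∧ K0 ≤ ss q ∧ ¬ Gd R (cut K0 q)}`; `LF_card`, `bad_count`.
* `E4 = {p | ss p ≤ R ∧ 2 K5 ≤ ss p ∧ ND A τ (cut K p) ∧ Gd R (cut K1 p) ∧ ∃ q, Pr R p q ∧ Gd R (cut K0 q)}` (`total_E4`).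
  Note that `Pr R p q` implies `ss p ≤ 2 * ss q` (`0.9 ss p ≤ ll p = ll q ≤ 1.8 ss q`, `ll_ge`, `ll_le`), so `K5 ≤ ss q` if `2 K5 ≤ ss p`.
  For `p ∈ E4` with partner `q` put `P = cut K p ∈ LF K`, `H = cut K0 q ∈ LF K0`, `p3 = cut K3 p`, `q3 = cut K3 q ∈ LF K3` and
  `S(P,H) = {p | ∃ q, Pr R p q ∧ P <:+ p ∧ H <:+ q}`.  `hi_main` for `(P, H)` (`K ≤ ss P`, `K ≤ K0 ≤ ss H`): either
  `S(P,H).ncard ≤ 1`, or `Q * S(P,H).ncard < R²`: in both cases `S(P,H).ncard ≤ 1 + R²/Q` (real), and all such `p` together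
  are at most `(LF K).ncard * (LF K0).ncard * (1 + R²/Q) ≤ 16 K² K0² (1 + R²/Q)`; or there are `I, I', M, M'`, and then `p` is in
  `{p | ∃ q, S3 R K5 p3 q3 I I' M M' p q}`; here `P = cut K p3`, `H = cut K0 q3` (`cut_le`) are determined by `(p3, q3)`, so
  choosing `I, I', M, M'` for `(P, H)` once and for all, `p` is in one of `(LF K3).ncard² ≤ 16 K3^4` sets, each with at most
  `16 K5^4 + 2 √(2 K3/K4) R²` elements by `cnt3` (`p3` is good: `cut K1 p <:+ p3` by `cut_le`, `Gd_suffix`; `q3` is good: `cut K0 q <:+ q3`).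
* `E ⊆ E0 ∪ E1 ∪ E2 ∪ E3 ∪ E4`: if `2 K5 ≤ ss p` then all levels are `≤ ss p` and `≤ ss q`.
-/

set_option autoImplicit false

namespace Pool.Agent.Lib.MP_94ab62_ntU

open Pool.Agent.Lib.MP_94ab62_nt

theorem ss_partner {R : ℕ} {p q : List Bool} (h : Pr R p q) : ss p ≤ 2 * ss q := by
  have h1 : ll p = ll q := by
    show F (zz p) = F (zz q)
    rw [h.2.1]
  have h2 := ll_ge p
  have h3 := ll_le q
  have h4 : (ss p : ℝ) ≤ 2 * (ss q : ℝ) := by linarith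
  exact_mod_cast h4

private theorem total_fibre {α β : Type*} {S : Set α} {T : Set β} (f : α → β) (hS : S.Finite)
    (hT : T.Finite) (h : ∀ x ∈ S, f x ∈ T) {B : ℝ} (hB0 : 0 ≤ B)
    (hB : ∀ t ∈ T, ({x | x ∈ S ∧ f x = t}.ncard : ℝ) ≤ B) : (S.ncard : ℝ) ≤ T.ncard * B := by
  have h1 : S.ncard ≤ T.ncard * ⌊B⌋₊ :=
    fibre_le f hS hT h (fun t ht => Nat.le_floor (hB t ht))
  have h2 : (S.ncard : ℝ) ≤ (T.ncard : ℝ) * (⌊B⌋₊ : ℝ) := by exact_mod_cast h1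
  exact h2.trans (mul_le_mul_of_nonneg_left (Nat.floor_le hB0) (Nat.cast_nonneg _))

private theorem total_card (K K0 : ℕ) : ((LF K ×ˢ LF K0).ncard : ℝ) ≤ 16 * (K : ℝ) ^ 2 * (K0 : ℝ) ^ 2 := by
  rw [Set.ncard_prod]
  have h1 : ((LF K).ncard : ℝ) ≤ 4 * (K : ℝ) ^ 2 := by exact_mod_cast LF_card K
  have h2 : ((LF K0).ncard : ℝ) ≤ 4 * (K0 : ℝ) ^ 2 := by exact_mod_cast LF_card K0
  push_cast
  calc ((LF K).ncard : ℝ) * ((LF K0).ncard : ℝ) ≤ (4 * (K : ℝ) ^ 2) * (4 * (K0 : ℝ) ^ 2) :=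
        mul_le_mul h1 h2 (Nat.cast_nonneg _) (by positivity)
    _ = 16 * (K : ℝ) ^ 2 * (K0 : ℝ) ^ 2 := by ring

theorem total_E3 {R K K0 : ℕ} (hR : 2 ≤ R) (hK : 3 ≤ K) (hK0 : 3 ≤ K0) (hL : 60 * Real.log R ≤ K0) :
    ({p : List Bool | ss p ≤ R ∧ K ≤ ss p ∧
      ND (3 * (R : ℝ) ^ 3) (144 * (R : ℝ) ^ 3 * Real.exp (-(K : ℝ))) (cut K p) ∧
      ∃ q, Pr R p q ∧ K0 ≤ ss q ∧ ¬ Gd R (cut K0 q)}.ncard : ℝ) * K0 ≤
      4 * (K : ℝ) ^ 2 * (3200 * (Real.log R) ^ 2 * (R : ℝ) ^ 2) := by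
  classical
  obtain ⟨S, hSdef⟩ : ∃ S : Set (List Bool), S = {p : List Bool | ss p ≤ R ∧ K ≤ ss p ∧
      ND (3 * (R : ℝ) ^ 3) (144 * (R : ℝ) ^ 3 * Real.exp (-(K : ℝ))) (cut K p) ∧
      ∃ q, Pr R p q ∧ K0 ≤ ss q ∧ ¬ Gd R (cut K0 q)} := ⟨_, rfl⟩
  obtain ⟨B, hBdef⟩ : ∃ B : Set (List Bool), B = {q : List Bool | ss q ≤ R ∧ K0 ≤ ss q ∧
      ¬ Gd R (cut K0 q)} := ⟨_, rfl⟩
  rw [← hSdef]
  have hbad := bad_count hR hK0 hL
  rw [← hBdef] at hbad
  have hex : ∀ p ∈ S, ∃ q, Pr R p q ∧ K0 ≤ ss q ∧ ¬ Gd R (cut K0 q) := by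
    intro p hp
    rw [hSdef] at hp
    exact hp.2.2.2
  choose! qf hqf using hex
  have hBfin : B.Finite := by
    refine (fin_ss R).subset fun q hq => ?_
    rw [hBdef] at hq
    exact hq.1
  have hinj : Set.InjOn (fun p => (cut K p, qf p)) S := by
    intro p hp p' hp' he
    have he1 : cut K p = cut K p' := congrArg Prod.fst he
    have he2 : qf p = qf p' := congrArg Prod.snd he
    have hp1 := hp
    have hp1' := hp'
    rw [hSdef] at hp1 hp1'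
    refine nd_inj (by omega) hp1.2.2.1 (LF_ss (cut_mem hK hp1.2.1)).1 (cut_suffix K p) ?_ ?_ hp1.1 hp1'.1
    · rw [he1]
      exact cut_suffix K p'
    · rw [(hqf p hp).1.2.1, he2, ← (hqf p' hp').1.2.1]
  have hmaps : ∀ p ∈ S, (fun p => (cut K p, qf p)) p ∈ LF K ×ˢ B := by
    intro p hp
    have h1 := hqf p hp
    rw [hSdef] at hp
    refine ⟨cut_mem hK hp.2.1, ?_⟩
    rw [hBdef]
    exact ⟨h1.1.2.2.2, h1.2⟩
  have hcard : S.ncard ≤ (LF K ×ˢ B).ncard :=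
    Set.ncard_le_ncard_of_injOn _ hmaps hinj ((LF_finite K).prod hBfin)
  rw [Set.ncard_prod] at hcard
  have h1 : (S.ncard : ℝ) ≤ 4 * (K : ℝ) ^ 2 * (B.ncard : ℝ) := by
    have h2 : S.ncard ≤ 4 * K ^ 2 * B.ncard := hcard.trans (Nat.mul_le_mul_right _ (LF_card K))
    exact_mod_cast h2
  calc (S.ncard : ℝ) * K0 ≤ 4 * (K : ℝ) ^ 2 * (B.ncard : ℝ) * K0 :=
        mul_le_mul_of_nonneg_right h1 (Nat.cast_nonneg _)
    _ = 4 * (K : ℝ) ^ 2 * ((B.ncard : ℝ) * K0) := by ring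
    _ ≤ 4 * (K : ℝ) ^ 2 * (3200 * (Real.log R) ^ 2 * (R : ℝ) ^ 2) :=
        mul_le_mul_of_nonneg_left hbad (by positivity)

theorem total_E4 {R Q K1 K K0 K3 K4 K5 : ℕ} (hP : NumP R Q K3 K4 K5) (h1 : 3 ≤ K1) (h2 : K1 ≤ K)
    (h3 : K ≤ K0) (h4 : K0 ≤ K3) :
    ({p : List Bool | ss p ≤ R ∧ 2 * K5 ≤ ss p ∧
      ND (3 * (R : ℝ) ^ 3) (144 * (R : ℝ) ^ 3 * Real.exp (-(K : ℝ))) (cut K p) ∧ Gd R (cut K1 p) ∧
      ∃ q, Pr R p q ∧ Gd R (cut K0 q)}.ncard : ℝ) ≤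
      16 * (K : ℝ) ^ 2 * (K0 : ℝ) ^ 2 * (1 + (R : ℝ) ^ 2 / Q) +
      16 * (K3 : ℝ) ^ 4 * (16 * (K5 : ℝ) ^ 4 + 2 * Real.sqrt (2 * (K3 : ℝ) / K4) * (R : ℝ) ^ 2) := by
  classical
  obtain ⟨A, hA⟩ : ∃ A : ℝ, A = 3 * (R : ℝ) ^ 3 := ⟨_, rfl⟩
  obtain ⟨τ, hτ⟩ : ∃ τ : ℝ, τ = 144 * (R : ℝ) ^ 3 * Real.exp (-(K : ℝ)) := ⟨_, rfl⟩
  have hR1 := hP.hR
  have hQ1 := hP.hQ
  have hQR := hP.hQR
  have h34 := hP.h34
  have h45 := hP.h45
  have hK3 : 3 ≤ K := by omega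
  have hK03 : 3 ≤ K0 := by omega
  have hK33 : 3 ≤ K3 := by omega
  obtain ⟨S, hSdef⟩ : ∃ S : Set (List Bool), S = {p : List Bool | ss p ≤ R ∧ 2 * K5 ≤ ss p ∧
      ND (3 * (R : ℝ) ^ 3) (144 * (R : ℝ) ^ 3 * Real.exp (-(K : ℝ))) (cut K p) ∧ Gd R (cut K1 p) ∧
      ∃ q, Pr R p q ∧ Gd R (cut K0 q)} := ⟨_, rfl⟩
  rw [← hSdef]
  have hS : ∀ p ∈ S, ss p ≤ R ∧ 2 * K5 ≤ ss p ∧
      ND (3 * (R : ℝ) ^ 3) (144 * (R : ℝ) ^ 3 * Real.exp (-(K : ℝ))) (cut K p) ∧ Gd R (cut K1 p) ∧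
      ∃ q, Pr R p q ∧ Gd R (cut K0 q) := by
    intro p hp
    rw [hSdef] at hp
    exact hp
  have hex : ∀ p ∈ S, ∃ q, Pr R p q ∧ Gd R (cut K0 q) := fun p hp => (hS p hp).2.2.2.2
  choose! qf hqf using hex
  have hSfin : S.Finite := (fin_ss R).subset fun p hp => (hS p hp).1
  -- the levels
  have hlev : ∀ p ∈ S, K5 ≤ ss p ∧ K5 ≤ ss (qf p) := by
    intro p hp
    have h5 := ss_partner (hqf p hp).1
    have h6 := (hS p hp).2.1
    omega
  -- the fibre of coincidences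
  obtain ⟨SS, hSS⟩ : ∃ SS : List Bool → List Bool → Set (List Bool), ∀ P H, SS P H =
      {p | ∃ q, Pr R p q ∧ P <:+ p ∧ H <:+ q} := ⟨_, fun _ _ => rfl⟩
  have hSSfin : ∀ P H, (SS P H).Finite := by
    intro P H
    refine (fin_ss R).subset fun p hp => ?_
    rw [hSS] at hp
    obtain ⟨q, hq, _⟩ := hp
    exact hq.2.2.1
  have hmem : ∀ p ∈ S, p ∈ SS (cut K p) (cut K0 (qf p)) := by
    intro p hp
    rw [hSS]
    exact ⟨qf p, (hqf p hp).1, cut_suffix K p, cut_suffix K0 (qf p)⟩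
  obtain ⟨S1, hS1⟩ : ∃ S1 : Set (List Bool), S1 = {p | p ∈ S ∧
      ((SS (cut K p) (cut K0 (qf p))).ncard : ℝ) ≤ 1 + (R : ℝ) ^ 2 / Q} := ⟨_, rfl⟩
  obtain ⟨S2, hS2⟩ : ∃ S2 : Set (List Bool), S2 = {p | p ∈ S ∧
      ¬ ((SS (cut K p) (cut K0 (qf p))).ncard : ℝ) ≤ 1 + (R : ℝ) ^ 2 / Q} := ⟨_, rfl⟩
  have hS1fin : S1.Finite := hSfin.subset fun p hp => by
    rw [hS1] at hp
    exact hp.1
  have hS2fin : S2.Finite := hSfin.subset fun p hp => by
    rw [hS2] at hp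
    exact hp.1
  have hun : S ⊆ S1 ∪ S2 := by
    intro p hp
    by_cases h : ((SS (cut K p) (cut K0 (qf p))).ncard : ℝ) ≤ 1 + (R : ℝ) ^ 2 / Q
    · left
      rw [hS1]
      exact ⟨hp, h⟩
    · right
      rw [hS2]
      exact ⟨hp, h⟩
  have hB1 : (0 : ℝ) ≤ 1 + (R : ℝ) ^ 2 / Q := by positivity
  -- first part
  have hc1 : (S1.ncard : ℝ) ≤ 16 * (K : ℝ) ^ 2 * (K0 : ℝ) ^ 2 * (1 + (R : ℝ) ^ 2 / Q) := by
    have h5 : (S1.ncard : ℝ) ≤ ((LF K ×ˢ LF K0).ncard : ℝ) * (1 + (R : ℝ) ^ 2 / Q) := by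
      refine total_fibre (fun p => (cut K p, cut K0 (qf p))) hS1fin
        ((LF_finite K).prod (LF_finite K0)) ?_ hB1 ?_
      · intro p hp
        rw [hS1] at hp
        obtain ⟨h6, h7⟩ := hlev p hp.1
        exact ⟨cut_mem hK3 (by omega), cut_mem hK03 (by omega)⟩
      · rintro ⟨P, H⟩ -
        rcases Set.eq_empty_or_nonempty {x | x ∈ S1 ∧ (cut K x, cut K0 (qf x)) = (P, H)} with h6 | h6
        · rw [h6, Set.ncard_empty, Nat.cast_zero]
          exact hB1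
        · obtain ⟨p0, hp0, hp0'⟩ := h6
          have e1 : cut K p0 = P := congrArg Prod.fst hp0'
          have e2 : cut K0 (qf p0) = H := congrArg Prod.snd hp0'
          rw [hS1] at hp0
          have h7 := hp0.2
          rw [e1, e2] at h7
          refine le_trans ?_ h7
          have h8 : {x | x ∈ S1 ∧ (cut K x, cut K0 (qf x)) = (P, H)} ⊆ SS P H := by
            rintro x ⟨hx, hx'⟩
            rw [hS1] at hx
            have e3 : cut K x = P := congrArg Prod.fst hx'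
            have e4 : cut K0 (qf x) = H := congrArg Prod.snd hx'
            have h9 := hmem x hx.1
            rw [e3, e4] at h9
            exact h9
          exact_mod_cast Set.ncard_le_ncard h8 (hSSfin P H)
    exact h5.trans (mul_le_mul_of_nonneg_right (total_card K K0) hB1)
  -- second part
  have hB2 : (0 : ℝ) ≤ 16 * (K5 : ℝ) ^ 4 + 2 * Real.sqrt (2 * (K3 : ℝ) / K4) * (R : ℝ) ^ 2 := by
    positivity
  have hc2 : (S2.ncard : ℝ) ≤ 16 * (K3 : ℝ) ^ 4 *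
      (16 * (K5 : ℝ) ^ 4 + 2 * Real.sqrt (2 * (K3 : ℝ) / K4) * (R : ℝ) ^ 2) := by
    have h5 : (S2.ncard : ℝ) ≤ ((LF K3 ×ˢ LF K3).ncard : ℝ) *
        (16 * (K5 : ℝ) ^ 4 + 2 * Real.sqrt (2 * (K3 : ℝ) / K4) * (R : ℝ) ^ 2) := by
      refine total_fibre (fun p => (cut K3 p, cut K3 (qf p))) hS2fin
        ((LF_finite K3).prod (LF_finite K3)) ?_ hB2 ?_
      · intro p hp
        rw [hS2] at hp
        obtain ⟨h6, h7⟩ := hlev p hp.1
        exact ⟨cut_mem hK33 (by omega), cut_mem hK33 (by omega)⟩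
      · rintro ⟨p3, q3⟩ -
        rcases Set.eq_empty_or_nonempty {x | x ∈ S2 ∧ (cut K3 x, cut K3 (qf x)) = (p3, q3)} with
          h6 | h6
        · rw [h6, Set.ncard_empty, Nat.cast_zero]
          exact hB2
        · obtain ⟨p0, hp0, hp0'⟩ := h6
          have e1 : cut K3 p0 = p3 := congrArg Prod.fst hp0'
          have e2 : cut K3 (qf p0) = q3 := congrArg Prod.snd hp0'
          rw [hS2] at hp0
          obtain ⟨hp0S, hp0n⟩ := hp0
          obtain ⟨h7, h8⟩ := hlev p0 hp0S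
          -- the ancestors are determined by `p3`, `q3`
          have hPp : ∀ x ∈ S2, (cut K3 x, cut K3 (qf x)) = (p3, q3) →
              cut K x = cut K p3 ∧ cut K0 (qf x) = cut K0 q3 := by
            intro x hx hx'
            rw [hS2] at hx
            obtain ⟨h9, h10⟩ := hlev x hx.1
            have e3 : cut K3 x = p3 := congrArg Prod.fst hx'
            have e4 : cut K3 (qf x) = q3 := congrArg Prod.snd hx'
            constructor
            · rw [← e3]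
              exact ((cut_le hK3 (by omega) (by omega : K3 ≤ ss x)).2).symm
            · rw [← e4]
              exact ((cut_le hK03 h4 (by omega : K3 ≤ ss (qf x))).2).symm
          obtain ⟨e5, e6⟩ := hPp p0 (by rw [hS2]; exact ⟨hp0S, hp0n⟩) hp0'
          have hND := (hS p0 hp0S).2.2.1
          have hKP : K ≤ ss (cut K p0) := (LF_ss (cut_mem hK3 (by omega))).1
          have hKH : K0 ≤ ss (cut K0 (qf p0)) := (LF_ss (cut_mem hK03 (by omega))).1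
          rcases hi_main (R := R) (K := K) (Q := Q) (by omega) hQR hND hKP
            (by omega : K ≤ ss (cut K0 (qf p0))) with h9 | h9 | h9
          · exfalso
            apply hp0n
            rw [hSS]
            have h10 : ({p | ∃ q, Pr R p q ∧ cut K p0 <:+ p ∧ cut K0 (qf p0) <:+ q}.ncard : ℝ) ≤ 1 := by
              exact_mod_cast h9
            have h11 : (0 : ℝ) ≤ (R : ℝ) ^ 2 / Q := by positivity
            linarith
          · exfalso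
            apply hp0n
            rw [hSS]
            have hQ0 : (0 : ℝ) < Q := by
              have : 0 < Q := by omega
              exact_mod_cast this
            have h10 : (Q : ℝ) * ({p | ∃ q, Pr R p q ∧ cut K p0 <:+ p ∧
                cut K0 (qf p0) <:+ q}.ncard : ℝ) < (R : ℝ) ^ 2 := by
              exact_mod_cast h9
            have h11 : ({p | ∃ q, Pr R p q ∧ cut K p0 <:+ p ∧
                cut K0 (qf p0) <:+ q}.ncard : ℝ) ≤ (R : ℝ) ^ 2 / Q := by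
              rw [le_div_iff₀ hQ0]
              linarith
            linarith
          · obtain ⟨I, I', hI, hIQ, hI', hIQ', M, M', hM⟩ := h9
            have gp : Gd R p3 := by
              refine Gd_suffix ?_ (hS p0 hp0S).2.2.2.1
              rw [← e1]
              exact (cut_le h1 (by omega) (by omega : K3 ≤ ss p0)).1
            have gq : Gd R q3 := by
              refine Gd_suffix ?_ (hqf p0 hp0S).2
              rw [← e2]
              exact (cut_le hK03 h4 (by omega : K3 ≤ ss (qf p0))).1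
            have hp3 : p3 ∈ LF K3 := by
              rw [← e1]
              exact cut_mem hK33 (by omega)
            have hq3 : q3 ∈ LF K3 := by
              rw [← e2]
              exact cut_mem hK33 (by omega)
            have h10 := cnt3 (M := M) (M' := M') hP hp3 hq3 gp gq hI hI' hIQ hIQ'
            refine le_trans ?_ h10
            have h11 : {x | x ∈ S2 ∧ (cut K3 x, cut K3 (qf x)) = (p3, q3)} ⊆
                {p : List Bool | ∃ q, S3 R K5 p3 q3 I I' M M' p q} := by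
              rintro x ⟨hx, hx'⟩
              obtain ⟨e7, e8⟩ := hPp x hx hx'
              have e3 : cut K3 x = p3 := congrArg Prod.fst hx'
              have e4 : cut K3 (qf x) = q3 := congrArg Prod.snd hx'
              rw [hS2] at hx
              obtain ⟨h12, h13⟩ := hlev x hx.1
              have h14 := hM x (qf x) (hqf x hx.1).1 (by rw [e5, ← e7]; exact cut_suffix K x)
                (by rw [e6, ← e8]; exact cut_suffix K0 (qf x))
              exact ⟨qf x, (hqf x hx.1).1, by rw [← e3]; exact cut_suffix K3 x,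
                by rw [← e4]; exact cut_suffix K3 (qf x), h14.1, h14.2, h12, h13⟩
            have h15 : {p : List Bool | ∃ q, S3 R K5 p3 q3 I I' M M' p q}.Finite := by
              refine (fin_ss R).subset fun p hp => ?_
              obtain ⟨q, hq⟩ := hp
              exact hq.1.2.2.1
            exact_mod_cast Set.ncard_le_ncard h11 h15
    refine h5.trans (mul_le_mul_of_nonneg_right ?_ hB2)
    have h6 := total_card K3 K3
    have h7 : 16 * (K3 : ℝ) ^ 2 * (K3 : ℝ) ^ 2 = 16 * (K3 : ℝ) ^ 4 := by ring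
    rw [← h7]
    exact h6
  have h5 : (S.ncard : ℝ) ≤ (S1.ncard : ℝ) + (S2.ncard : ℝ) := by
    have h6 : S.ncard ≤ S1.ncard + S2.ncard :=
      (Set.ncard_le_ncard hun (hS1fin.union hS2fin)).trans (Set.ncard_union_le S1 S2)
    exact_mod_cast h6
  linarith

theorem total {R Q K1 K2 K K0 K3 K4 K5 : ℕ} (hP : NumP R Q K3 K4 K5) (h1 : 3 ≤ K1) (h2 : K1 ≤ K2)
    (h2R : K2 ≤ R) (h5 : 5 * K2 ≤ K) (h3 : K ≤ K0) (h4 : K0 ≤ K3) (hL : 60 * Real.log R ≤ K1)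
    (h100 : (R : ℝ) ^ 100 ≤ Real.exp (K2 : ℝ)) :
    ({p : List Bool | ss p ≤ R ∧ ∃ q, Pr R p q}.ncard : ℝ) ≤
      (2 * (K5 : ℝ)) ^ 2 + 3200 * (Real.log R) ^ 2 * (R : ℝ) ^ 2 / K1 + 8 * (K1 : ℝ) ^ 2 * (R : ℝ) ^ 2 / K2 +
      4 * (K : ℝ) ^ 2 * (3200 * (Real.log R) ^ 2 * (R : ℝ) ^ 2) / K0 +
      (16 * (K : ℝ) ^ 2 * (K0 : ℝ) ^ 2 * (1 + (R : ℝ) ^ 2 / Q) +
      16 * (K3 : ℝ) ^ 4 * (16 * (K5 : ℝ) ^ 4 + 2 * Real.sqrt (2 * (K3 : ℝ) / K4) * (R : ℝ) ^ 2)) := by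
  classical
  have hR1 := hP.hR
  have h34 := hP.h34
  have h45 := hP.h45
  have hK1pos : (0 : ℝ) < K1 := by
    have : 0 < K1 := by omega
    exact_mod_cast this
  have hK2pos : (0 : ℝ) < K2 := by
    have : 0 < K2 := by omega
    exact_mod_cast this
  have hK0pos : (0 : ℝ) < K0 := by
    have : 0 < K0 := by omega
    exact_mod_cast this
  have hLK0 : 60 * Real.log R ≤ K0 := by
    have : (K1 : ℝ) ≤ K0 := by
      have : K1 ≤ K0 := by omega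
      exact_mod_cast this
    linarith
  obtain ⟨E0, hE0⟩ : ∃ E0 : Set (List Bool), E0 = {p | ss p < 2 * K5} := ⟨_, rfl⟩
  obtain ⟨E1, hE1⟩ : ∃ E1 : Set (List Bool), E1 = {p | ss p ≤ R ∧ K1 ≤ ss p ∧ ¬ Gd R (cut K1 p)} :=
    ⟨_, rfl⟩
  obtain ⟨E2, hE2⟩ : ∃ E2 : Set (List Bool), E2 = {q | ss q ≤ R ∧ K ≤ ss q ∧ Gd R (cut K1 q) ∧
      ¬ ND (3 * (R : ℝ) ^ 3) (144 * (R : ℝ) ^ 3 * Real.exp (-(K : ℝ))) (cut K q)} := ⟨_, rfl⟩
  obtain ⟨E3, hE3⟩ : ∃ E3 : Set (List Bool), E3 = {p | ss p ≤ R ∧ K ≤ ss p ∧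
      ND (3 * (R : ℝ) ^ 3) (144 * (R : ℝ) ^ 3 * Real.exp (-(K : ℝ))) (cut K p) ∧
      ∃ q, Pr R p q ∧ K0 ≤ ss q ∧ ¬ Gd R (cut K0 q)} := ⟨_, rfl⟩
  obtain ⟨E4, hE4⟩ : ∃ E4 : Set (List Bool), E4 = {p | ss p ≤ R ∧ 2 * K5 ≤ ss p ∧
      ND (3 * (R : ℝ) ^ 3) (144 * (R : ℝ) ^ 3 * Real.exp (-(K : ℝ))) (cut K p) ∧ Gd R (cut K1 p) ∧
      ∃ q, Pr R p q ∧ Gd R (cut K0 q)} := ⟨_, rfl⟩
  have c0 : (E0.ncard : ℝ) ≤ (2 * (K5 : ℝ)) ^ 2 := by
    rw [hE0]
    exact_mod_cast ss_lt_card (2 * K5)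
  have c1 : (E1.ncard : ℝ) ≤ 3200 * (Real.log R) ^ 2 * (R : ℝ) ^ 2 / K1 := by
    rw [le_div_iff₀ hK1pos, hE1]
    exact bad_count (by omega) h1 hL
  have c2 : (E2.ncard : ℝ) ≤ 8 * (K1 : ℝ) ^ 2 * (R : ℝ) ^ 2 / K2 := by
    rw [le_div_iff₀ hK2pos, hE2]
    exact_mod_cast deg_count (K1 := K1) (by omega) h1 h2 h2R h5 h100
  have c3 : (E3.ncard : ℝ) ≤ 4 * (K : ℝ) ^ 2 * (3200 * (Real.log R) ^ 2 * (R : ℝ) ^ 2) / K0 := by
    rw [le_div_iff₀ hK0pos, hE3]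
    exact total_E3 (by omega) (by omega) (by omega) hLK0
  have c4 : (E4.ncard : ℝ) ≤ 16 * (K : ℝ) ^ 2 * (K0 : ℝ) ^ 2 * (1 + (R : ℝ) ^ 2 / Q) +
      16 * (K3 : ℝ) ^ 4 * (16 * (K5 : ℝ) ^ 4 + 2 * Real.sqrt (2 * (K3 : ℝ) / K4) * (R : ℝ) ^ 2) := by
    rw [hE4]
    exact total_E4 hP h1 (by omega) h3 h4
  have f0 : E0.Finite := (fin_ss (2 * K5)).subset fun p hp => by
    rw [hE0] at hp
    exact le_of_lt (show ss p < 2 * K5 from hp)
  have f1 : E1.Finite := (fin_ss R).subset fun p hp => by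
    rw [hE1] at hp
    exact hp.1
  have f2 : E2.Finite := (fin_ss R).subset fun p hp => by
    rw [hE2] at hp
    exact hp.1
  have f3 : E3.Finite := (fin_ss R).subset fun p hp => by
    rw [hE3] at hp
    exact hp.1
  have f4 : E4.Finite := (fin_ss R).subset fun p hp => by
    rw [hE4] at hp
    exact hp.1
  have hsub : {p : List Bool | ss p ≤ R ∧ ∃ q, Pr R p q} ⊆ E0 ∪ (E1 ∪ (E2 ∪ (E3 ∪ E4))) := by
    rintro p ⟨hpR, q, hq⟩
    by_cases t0 : ss p < 2 * K5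
    · left
      rw [hE0]
      exact t0
    right
    have t1 := ss_partner hq
    by_cases t2 : Gd R (cut K1 p)
    · right
      by_cases t3 : ND (3 * (R : ℝ) ^ 3) (144 * (R : ℝ) ^ 3 * Real.exp (-(K : ℝ))) (cut K p)
      · right
        by_cases t4 : Gd R (cut K0 q)
        · right
          rw [hE4]
          exact ⟨hpR, by omega, t3, t2, q, hq, t4⟩
        · left
          rw [hE3]
          exact ⟨hpR, by omega, t3, q, hq, by omega, t4⟩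
      · left
        rw [hE2]
        exact ⟨hpR, by omega, t2, t3⟩
    · left
      rw [hE1]
      exact ⟨hpR, by omega, t2⟩
  have hc : {p : List Bool | ss p ≤ R ∧ ∃ q, Pr R p q}.ncard ≤
      E0.ncard + (E1.ncard + (E2.ncard + (E3.ncard + E4.ncard))) := by
    refine (Set.ncard_le_ncard hsub (f0.union (f1.union (f2.union (f3.union f4))))).trans ?_
    refine (Set.ncard_union_le _ _).trans (Nat.add_le_add_left ?_ _)
    refine (Set.ncard_union_le _ _).trans (Nat.add_le_add_left ?_ _)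
    refine (Set.ncard_union_le _ _).trans (Nat.add_le_add_left ?_ _)
    exact Set.ncard_union_le _ _
  have hc' : ({p : List Bool | ss p ≤ R ∧ ∃ q, Pr R p q}.ncard : ℝ) ≤
      E0.ncard + (E1.ncard + (E2.ncard + (E3.ncard + E4.ncard))) := by
    exact_mod_cast hc
  linarith

end Pool.Agent.Lib.MP_94ab62_ntU
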